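import Pool.Agent.T2h98.NB.Stm

/-! No ballistic motion: the velocity, covariant operators. -/

set_option autoImplicit false

open scoped BigOperators Topology ENNReal InnerProductSpace
open MeasureTheory ProbabilityTheory Filter
open Pool.Agent.TH980.IM.PR (PP sh)

namespace Pool.Agent.T2h98.NB

variable {d : ℕ}

theorem cv_adj (z : Sd d) (f g : L2 d) :
    inner ℂ (Sf z f) g = (inner ℂ f (Sf (-z) g) : ℂ) := by
  conv_lhs => rw [← Sf_zero g, ← add_neg_cancel z, ← Sf_Sf]
  exact (Sf z).inner_map_map f _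

theorem cv_star (z : Sd d) (f : L2 d) : star (Sf z f) = Sf z (star f) := by
  ext x
  rw [lp.star_apply, Sf_apply, Sf_apply, lp.star_apply]

theorem vel_eq (i : Fin d) (f : L2 d) :
    vel i f = Complex.I • (Sf (-Pi.single i 1) f - Sf (Pi.single i 1) f) := rfl

theorem vel_norm (i : Fin d) (f : L2 d) : ‖vel i f‖ ≤ 2 * ‖f‖ := by
  rw [vel_eq, norm_smul, Complex.norm_I, one_mul]
  refine (norm_sub_le _ _).trans (le_of_eq ?_)
  rw [LinearIsometry.norm_map, LinearIsometry.norm_map]
  ring

theorem vel_symm (i : Fin d) (f g : L2 d) :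
    inner ℂ (vel i f) g = (inner ℂ f (vel i g) : ℂ) := by
  rw [vel_eq, vel_eq, inner_smul_left, inner_smul_right, inner_sub_left, inner_sub_right,
    cv_adj, cv_adj, neg_neg, Complex.conj_I]
  ring

theorem vel_star (i : Fin d) (f : L2 d) : vel i (star f) = -star (vel i f) := by
  rw [vel_eq, vel_eq, star_smul, star_sub, cv_star, cv_star]
  show _ = -((starRingEnd ℂ) Complex.I • _)
  rw [Complex.conj_I, neg_smul, neg_neg]

theorem vel_Sf (i : Fin d) (z : Sd d) (f : L2 d) : vel i (Sf z f) = Sf z (vel i f) := by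
  rw [vel_eq, vel_eq, map_smul, map_sub, Sf_Sf, Sf_Sf, Sf_Sf, Sf_Sf, add_comm z, add_comm z]

theorem vel_cov (i : Fin d) : Cov fun _ : Om d => vel i := by
  refine ⟨fun f => stronglyMeasurable_const, ⟨‖vel i‖, fun _ => le_rfl⟩, fun z V f => ?_⟩
  rw [vel_Sf, Sf_Sf, neg_add_cancel, Sf_zero]

theorem vel_facts : T_VEL := fun _ i =>
  ⟨vel_norm i, vel_symm i, vel_star i, vel_Sf i, vel_cov i⟩

theorem cov_meas {B : Om d → L2 d →L[ℂ] L2 d} (hB : Cov B) (α : Type) [MeasurableSpace α]
    (g : α → Om d) (f : α → L2 d) (hg : Measurable g) (hf : StronglyMeasurable f) :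
    StronglyMeasurable fun a => B (g a) (f a) := by
  have h1 : ∀ s : SimpleFunc α (L2 d), StronglyMeasurable fun a => B (g a) (s a) := by
    intro s
    have h2 : (fun a => B (g a) (s a)) = fun a => ∑ y ∈ s.range,
        (s ⁻¹' {y}).indicator (fun a => B (g a) y) a := by
      funext a
      rw [Finset.sum_eq_single (s a)]
      · rw [Set.indicator_of_mem]
        exact rfl
      · intro y _ hy
        rw [Set.indicator_of_notMem]
        intro h
        exact hy (by simpa using h.symm)
      · intro h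
        exact absurd (SimpleFunc.mem_range_self s a) h
    rw [h2]
    refine Finset.stronglyMeasurable_fun_sum _ fun y _ => ?_
    exact ((hB.meas y).comp_measurable hg).indicator (s.measurableSet_fiber y)
  refine stronglyMeasurable_of_tendsto atTop (fun n => h1 (hf.approx n)) ?_
  rw [tendsto_pi_nhds]
  intro a
  exact ((B (g a)).continuous.tendsto _).comp (hf.tendsto_approx a)

theorem cov_comp {B C : Om d → L2 d →L[ℂ] L2 d} (hB : Cov B) (hC : Cov C) :
    Cov fun V => (B V).comp (C V) := by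
  obtain ⟨b, hb⟩ := hB.bdd
  obtain ⟨c, hc⟩ := hC.bdd
  refine ⟨fun f => cov_meas hB _ id _ measurable_id (hC.meas f), ⟨b * c, fun V => ?_⟩,
    fun z V f => ?_⟩
  · refine (ContinuousLinearMap.opNorm_comp_le _ _).trans ?_
    exact mul_le_mul (hb V) (hc V) (norm_nonneg _) ((norm_nonneg _).trans (hb V))
  · rw [ContinuousLinearMap.comp_apply, ContinuousLinearMap.comp_apply, hB.cov, hC.cov, Sf_Sf,
      add_neg_cancel, Sf_zero]

theorem cov_sub {B C : Om d → L2 d →L[ℂ] L2 d} (hB : Cov B) (hC : Cov C) :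
    Cov fun V => B V - C V := by
  obtain ⟨b, hb⟩ := hB.bdd
  obtain ⟨c, hc⟩ := hC.bdd
  refine ⟨fun f => (hB.meas f).sub (hC.meas f), ⟨b + c, fun V => ?_⟩, fun z V f => ?_⟩
  · exact (norm_sub_le _ _).trans (add_le_add (hb V) (hc V))
  · rw [sub_apply, sub_apply, hB.cov, hC.cov, map_sub]

theorem cov_smul (c : ℂ) {B : Om d → L2 d →L[ℂ] L2 d} (hB : Cov B) :
    Cov fun V => c • B V := by
  obtain ⟨b, hb⟩ := hB.bdd
  refine ⟨fun f => (hB.meas f).const_smul c, ⟨‖c‖ * b, fun V => ?_⟩, fun z V f => ?_⟩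
  · rw [norm_smul]
    exact mul_le_mul_of_nonneg_left (hb V) (norm_nonneg _)
  · rw [smul_apply, smul_apply, hB.cov, map_smul]

theorem cov_adjoint {B : Om d → L2 d →L[ℂ] L2 d} (hB : Cov B) :
    Cov fun V => ContinuousLinearMap.adjoint (B V) := by
  obtain ⟨b, hb⟩ := hB.bdd
  refine ⟨fun f => ?_, ⟨b, fun V => ?_⟩, fun z V f => ?_⟩
  · refine stronglyMeasurable_of_tendsto (atTop : Filter (Finset (Sd d)))
      (f := fun s V => ∑ x ∈ s, (lp.single 2 x (inner ℂ (B V (ee x)) f : ℂ) : L2 d)) ?_ ?_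
    · intro s
      refine Finset.stronglyMeasurable_fun_sum _ fun x _ => ?_
      have h1 : (fun V => (lp.single 2 x (inner ℂ (B V (ee x)) f : ℂ) : L2 d)) =
          fun V => (inner ℂ (B V (ee x)) f : ℂ) • (ee x : L2 d) := by
        funext V
        unfold ee
        rw [← lp.single_smul, smul_eq_mul, mul_one]
      rw [h1]
      exact ((hB.meas (ee x)).inner stronglyMeasurable_const).smul_const _
    · rw [tendsto_pi_nhds]
      intro V
      have h2 := lp.hasSum_single (E := fun _ : Sd d => ℂ) (p := 2) (by norm_num)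
        (ContinuousLinearMap.adjoint (B V) f)
      refine h2.congr fun s => ?_
      refine Finset.sum_congr rfl fun x _ => ?_
      have h3 : (ContinuousLinearMap.adjoint (B V) f : L2 d) x = (inner ℂ (B V (ee x)) f : ℂ) := by
        rw [← inner_ee x (ContinuousLinearMap.adjoint (B V) f),
          ContinuousLinearMap.adjoint_inner_right]
      exact congrArg (fun c => (lp.single 2 x c : L2 d)) h3
  · rw [LinearIsometryEquiv.norm_map]
    exact hb V
  · refine ext_inner_left ℂ fun g => ?_
    rw [ContinuousLinearMap.adjoint_inner_right, hB.cov, cv_adj, neg_neg,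
      ← ContinuousLinearMap.adjoint_inner_right, cv_adj]

theorem cov_facts : T_COV := fun _ =>
  ⟨fun _ _ hB hC => cov_comp hB hC, fun _ _ hB hC => cov_sub hB hC, fun c _ hB => cov_smul c hB,
    fun _ hB => cov_adjoint hB, fun _ hB α _ g f hg hf => cov_meas hB α g f hg hf⟩

end Pool.Agent.T2h98.NB
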