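import Pool.Agent.T2h98.NB.GPO

/-! No ballistic motion: simple facts on the group and the displacement. -/

set_option autoImplicit false
set_option linter.unusedVariables false

open scoped BigOperators Topology ENNReal InnerProductSpace
open MeasureTheory ProbabilityTheory Filter
open Pool.Agent.TH980.IM.PR (PP sh)

namespace Pool.Agent.T2h98.NB.XTx

open Pool.Agent.T2h98.NB
open Pool.Agent.T2h98.NB.GPO

variable {d : ℕ} {U : Om d → ℝ → L2 d →L[ℂ] L2 d}

theorem U_cont' (hU : Gr0 U) {X : Type} [TopologicalSpace X] {φ : X → Om d} {k : X → ℝ}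
    (hφ : Continuous φ) (hk : Continuous k) {h : X → L2 d}
    (hh : Continuous h) : Continuous fun s => U (φ s) (k s) (h s) := by
  rw [continuous_iff_continuousAt]
  intro s₀
  have h1 : Tendsto (fun s => ‖h s - h s₀‖ + ‖U (φ s) (k s) (h s₀) - U (φ s₀) (k s₀) (h s₀)‖) (𝓝 s₀)
      (𝓝 (0 + 0)) := by
    apply Tendsto.add
    · exact tendsto_iff_norm_sub_tendsto_zero.1 hh.continuousAt
    · have h2 : Continuous fun s => U (φ s) (k s) (h s₀) :=
        (hU.cont (h s₀)).comp (hφ.prodMk hk)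
      exact tendsto_iff_norm_sub_tendsto_zero.1 h2.continuousAt
  rw [add_zero] at h1
  apply tendsto_iff_norm_sub_tendsto_zero.2
  refine squeeze_zero (fun s => norm_nonneg _) (fun s => ?_) h1
  have h3 : U (φ s) (k s) (h s) - U (φ s₀) (k s₀) (h s₀)
      = U (φ s) (k s) (h s - h s₀) + (U (φ s) (k s) (h s₀) - U (φ s₀) (k s₀) (h s₀)) := by
    rw [map_sub]; abel
  rw [h3]
  refine le_trans (norm_add_le _ _) ?_
  rw [hU.norm]

/-- the integrand -/
noncomputable def ig (U : Om d → ℝ → L2 d →L[ℂ] L2 d) (i : Fin d) (V : Om d) (f : L2 d) (s : ℝ) :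
    L2 d := U V (-s) (vel i (U V s f))

theorem ig_cont' (hU : Gr0 U) (i : Fin d) (f : L2 d) :
    Continuous fun p : Om d × ℝ => ig U i p.1 f p.2 :=
  U_cont' hU continuous_fst continuous_snd.neg ((vel i).continuous.comp (hU.cont f))

theorem ig_cont (hU : Gr0 U) (i : Fin d) (V : Om d) (f : L2 d) :
    Continuous fun s : ℝ => ig U i V f s :=
  (ig_cont' hU i f).comp (continuous_const.prodMk continuous_id)

theorem ig_int (hU : Gr0 U) (i : Fin d) (V : Om d) (f : L2 d) (a b : ℝ) :
    IntervalIntegrable (ig U i V f) volume a b := (ig_cont hU i V f).intervalIntegrable _ _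

theorem ig_norm (hV : T_VEL) (hU : Gr0 U) (i : Fin d) (V : Om d) (f : L2 d) (s : ℝ) :
    ‖ig U i V f s‖ ≤ 2 * ‖f‖ := by
  unfold ig
  rw [hU.norm]
  refine le_trans ((hV d i).1 _) ?_
  rw [hU.norm]

theorem Xt_eq (i : Fin d) (V : Om d) (t : ℝ) (f : L2 d) :
    Xt U i V t f = ∫ s in (0 : ℝ)..t, ig U i V f s := rfl

theorem Xt_norm (hV : T_VEL) (hU : Gr0 U) (i : Fin d) (V : Om d) (t : ℝ) (f : L2 d) :
    ‖Xt U i V t f‖ ≤ 2 * |t| * ‖f‖ := by
  rw [Xt_eq]
  refine le_trans (intervalIntegral.norm_integral_le_of_norm_le_const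
    (C := 2 * ‖f‖) fun s _ => ig_norm hV hU i V f s) ?_
  rw [sub_zero]
  linarith

/-- the displacement as a linear map -/
noncomputable def Xl (hU : Gr0 U) (i : Fin d) (V : Om d) (t : ℝ) : L2 d →ₗ[ℂ] L2 d where
  toFun f := Xt U i V t f
  map_add' f g := by
    rw [Xt_eq, Xt_eq, Xt_eq, ← intervalIntegral.integral_add (ig_int hU i V f _ _)
      (ig_int hU i V g _ _)]
    congr 1
    funext s
    simp only [ig, map_add]
  map_smul' c f := by
    rw [RingHom.id_apply, Xt_eq, Xt_eq, ← intervalIntegral.integral_smul]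
    congr 1
    funext s
    simp only [ig, map_smul]

theorem XT_eq (hV : T_VEL) (hU : Gr0 U) (i : Fin d) (V : Om d) (t : ℝ) (f : L2 d) :
    XT U i V t f = Xt U i V t f := by
  have h : ∃ B : L2 d →L[ℂ] L2 d, ∀ f, B f = Xt U i V t f :=
    ⟨LinearMap.mkContinuous (Xl hU i V t) (2 * |t|) (Xt_norm hV hU i V t), fun f => rfl⟩
  unfold XT
  rw [dif_pos h]
  exact h.choose_spec f

theorem Xt_cont (hV : T_VEL) (hU : Gr0 U) (i : Fin d) (f : L2 d) :
    Continuous fun p : Om d × ℝ => Xt U i p.1 p.2 f := by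
  rw [continuous_iff_continuousAt]
  intro p₀
  have hc : Continuous fun V : Om d => Xt U i V p₀.2 f := by
    refine intervalIntegral.continuous_of_dominated_interval (bound := fun _ => 2 * ‖f‖) ?_ ?_ ?_ ?_
    · intro V
      exact (ig_cont hU i V f).aestronglyMeasurable
    · intro V
      exact Eventually.of_forall fun s _ => ig_norm hV hU i V f s
    · exact intervalIntegrable_const
    · refine Eventually.of_forall fun s _ => ?_
      exact (ig_cont' hU i f).comp (continuous_id.prodMk continuous_const)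
  have h1 : Tendsto (fun p : Om d × ℝ => 2 * ‖f‖ * |p.2 - p₀.2| +
      ‖Xt U i p.1 p₀.2 f - Xt U i p₀.1 p₀.2 f‖) (𝓝 p₀) (𝓝 (0 + 0)) := by
    apply Tendsto.add
    · have h2 : Continuous fun p : Om d × ℝ => 2 * ‖f‖ * |p.2 - p₀.2| := by fun_prop
      have h3 := h2.tendsto p₀
      simpa using h3
    · have h4 : Continuous fun p : Om d × ℝ => Xt U i p.1 p₀.2 f := hc.comp continuous_fst
      exact tendsto_iff_norm_sub_tendsto_zero.1 h4.continuousAt
  rw [add_zero] at h1
  apply tendsto_iff_norm_sub_tendsto_zero.2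
  refine squeeze_zero (fun s => norm_nonneg _) (fun p => ?_) h1
  have h5 : Xt U i p.1 p.2 f - Xt U i p₀.1 p₀.2 f = (Xt U i p.1 p.2 f - Xt U i p.1 p₀.2 f) +
      (Xt U i p.1 p₀.2 f - Xt U i p₀.1 p₀.2 f) := by abel
  rw [h5]
  refine le_trans (norm_add_le _ _) (add_le_add ?_ le_rfl)
  rw [Xt_eq, Xt_eq, intervalIntegral.integral_interval_sub_left (ig_int hU i _ f _ _)
    (ig_int hU i _ f _ _)]
  exact intervalIntegral.norm_integral_le_of_norm_le_const fun s _ => ig_norm hV hU i _ f s

theorem Xt_inner (hU : Gr0 U) (i : Fin d) (V : Om d) (t : ℝ) (f g : L2 d) :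
    (inner ℂ g (Xt U i V t f) : ℂ) = ∫ s in (0 : ℝ)..t, (inner ℂ g (ig U i V f s) : ℂ) :=
  ((innerSL ℂ g).intervalIntegral_comp_comm (ig_int hU i V f _ _)).symm

theorem Xt_inner' (hU : Gr0 U) (i : Fin d) (V : Om d) (t : ℝ) (f g : L2 d) :
    (inner ℂ (Xt U i V t f) g : ℂ) = ∫ s in (0 : ℝ)..t, (inner ℂ (ig U i V f s) g : ℂ) := by
  rw [← inner_conj_symm, Xt_inner hU]
  have h1 := (Complex.conjCLE.toContinuousLinearMap).intervalIntegral_comp_comm
    (((innerSL ℂ g).continuous.comp (ig_cont hU i V f)).intervalIntegrable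
      (μ := volume) 0 t)
  have h2 : ∀ s, Complex.conjCLE.toContinuousLinearMap ((⇑(innerSL ℂ g) ∘ fun s => ig U i V f s) s)
      = (inner ℂ (ig U i V f s) g : ℂ) := by
    intro s
    show (starRingEnd ℂ) (inner ℂ g (ig U i V f s)) = _
    exact inner_conj_symm _ _
  simp only [h2] at h1
  rw [h1]
  rfl

theorem t_XT (hV : T_VEL) : T_XT := by
  intro d U hG
  have hU : Gr0 U := hG.g0
  have hsh : ∀ (i : Fin d) (z : Sd d) (V : Om d) (t : ℝ) (f : L2 d),
      Xt U i (sh z V) t f = Sf (-z) (Xt U i V t (Sf z f)) := by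
    intro i z V t f
    have h1 := (Sf (-z)).toContinuousLinearMap.intervalIntegral_comp_comm
      (ig_int hU i V (Sf z f) 0 t)
    rw [Xt_eq, Xt_eq]
    refine Eq.trans ?_ h1
    congr 1
    funext s
    show ig U i (sh z V) f s = Sf (-z) (ig U i V (Sf z f) s)
    unfold ig
    rw [hG.shift, hG.shift, ← (hV d i).2.2.2.1, Sf_Sf, add_neg_cancel, Sf_zero]
  refine ⟨U_adj hU, U_neg hU, ?_, XT_eq hV hU, ?_, ?_, ?_, ?_, ?_⟩
  · intro t
    refine ⟨?_, ⟨1, ?_⟩, ?_⟩
    · intro f
      exact ((hU.cont f).comp (continuous_id.prodMk continuous_const)).stronglyMeasurable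
    · intro V
      refine ContinuousLinearMap.opNorm_le_bound _ zero_le_one fun f => ?_
      rw [hU.norm, one_mul]
    · intro z V f
      exact hG.shift z V t f
  · intro i V t
    refine ContinuousLinearMap.opNorm_le_bound _ (by positivity) fun f => ?_
    rw [XT_eq hV hU]
    exact Xt_norm hV hU i V t f
  · intro i V s t f
    rw [XT_eq hV hU, XT_eq hV hU, XT_eq hV hU, Xt_eq, Xt_eq, Xt_eq,
      ← intervalIntegral.integral_add_adjacent_intervals (ig_int hU i V f 0 s)
        (ig_int hU i V f s (s + t))]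
    congr 1
    have h1 := (U V (-s)).intervalIntegral_comp_comm (ig_int hU i V (U V s f) 0 t)
    refine Eq.trans ?_ h1
    have h2 := intervalIntegral.integral_comp_add_left (a := 0) (b := t) (fun r => ig U i V f r) s
    rw [add_zero] at h2
    rw [← h2]
    congr 1
    funext r
    unfold ig
    rw [neg_add, hU.add, add_comm s r, hU.add]
  · intro i V t f g
    rw [XT_eq hV hU, XT_eq hV hU, Xt_inner hU, Xt_inner' hU]
    congr 1
    funext s
    unfold ig
    rw [U_adj hU, neg_neg, (hV d i).2.1, U_adj hU]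
  · intro i t
    refine ⟨?_, ⟨2 * |t|, ?_⟩, ?_⟩
    · intro f
      have h1 := ((Xt_cont hV hU i f).comp
        ((continuous_id (X := Om d)).prodMk (continuous_const (y := t)))).stronglyMeasurable
      have e : (fun V => XT U i V t f) = fun V => Xt U i V t f :=
        funext fun V => XT_eq hV hU i V t f
      rw [e]
      exact h1
    · intro V
      refine ContinuousLinearMap.opNorm_le_bound _ (by positivity) fun f => ?_
      rw [XT_eq hV hU]
      exact Xt_norm hV hU i V t f
    · intro z V f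
      rw [XT_eq hV hU, XT_eq hV hU]
      exact hsh i z V t f
  · intro i f
    refine (Xt_cont hV hU i f).congr ?_
    intro p
    exact (XT_eq hV hU i p.1 p.2 f).symm

end Pool.Agent.T2h98.NB.XTx
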