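import Pool.Agent.T2h98.NB.StmO
import Pool.Agent.T2h98.NB.LIM

/-! Local observables: the limit of the averages. -/

set_option autoImplicit false

open scoped BigOperators Topology ENNReal InnerProductSpace
open MeasureTheory ProbabilityTheory Filter
open Pool.Agent.TH980.IM.PR (PP sh mp_sh)

namespace Pool.Agent.T2h98.NB

variable {d : ℕ}

theorem limo_series {c : ℝ} (ν : Measure ℝ) [IsProbabilityMeasure ν]
    (M : ℕ → Om d → L2 d →L[ℂ] L2 d) (hc : ∀ k, Cov (M k)) (hb : ∀ k V, ‖M k V‖ ≤ c)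
    (hD : ∀ k, ∫ V, ‖M (k + 1) V (ee 0) - M k V (ee 0)‖ ^ 2 ∂(PP (Sd d) ν) ≤ (1 / 8) ^ k) :
    ∀ᵐ V ∂(PP (Sd d) ν), ∑' k, ‖M (k + 1) V (ee 0) - M k V (ee 0)‖ₑ ≠ ⊤ := by
  have hm : ∀ k, StronglyMeasurable fun V => M (k + 1) V (ee 0) - M k V (ee 0) := fun k =>
    ((hc (k + 1)).meas _).sub ((hc k).meas _)
  have hn4 : ∀ k V, ‖M (k + 1) V (ee 0) - M k V (ee 0)‖ ≤ c + c := by
    intro k V
    have h1 : ∀ j, ‖M j V (ee 0)‖ ≤ c := by
      intro j
      refine ((M j V).le_opNorm _).trans ?_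
      rw [norm_ee, mul_one]
      exact hb j V
    calc ‖M (k + 1) V (ee 0) - M k V (ee 0)‖ ≤ ‖M (k + 1) V (ee 0)‖ + ‖M k V (ee 0)‖ :=
          norm_sub_le _ _
      _ ≤ c + c := add_le_add (h1 _) (h1 _)
  have hint : ∀ k, Integrable (fun V => ‖M (k + 1) V (ee 0) - M k V (ee 0)‖ ^ 2)
      (PP (Sd d) ν) := by
    intro k
    refine Integrable.of_bound (C := (c + c) ^ 2) ?_ (ae_of_all _ fun V => ?_)
    · exact ((hm k).norm.pow 2).aestronglyMeasurable
    · rw [Real.norm_of_nonneg (by positivity)]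
      exact pow_le_pow_left₀ (norm_nonneg _) (hn4 k V) 2
  have hsum : ∑' k, ∫⁻ V, ENNReal.ofReal (2 ^ k * ‖M (k + 1) V (ee 0) - M k V (ee 0)‖ ^ 2)
      ∂(PP (Sd d) ν) ≠ ⊤ := by
    have h1 : ∀ k, ∫⁻ V, ENNReal.ofReal (2 ^ k * ‖M (k + 1) V (ee 0) - M k V (ee 0)‖ ^ 2)
        ∂(PP (Sd d) ν) ≤ ENNReal.ofReal ((1 / 4) ^ k) := by
      intro k
      rw [← ofReal_integral_eq_lintegral_ofReal ((hint k).const_mul _)
        (ae_of_all _ fun V => by positivity)]
      apply ENNReal.ofReal_le_ofReal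
      rw [integral_const_mul]
      calc (2 : ℝ) ^ k * ∫ V, ‖M (k + 1) V (ee 0) - M k V (ee 0)‖ ^ 2 ∂(PP (Sd d) ν)
          ≤ 2 ^ k * (1 / 8) ^ k := mul_le_mul_of_nonneg_left (hD k) (by positivity)
        _ = (1 / 4) ^ k := by
            rw [← mul_pow]
            norm_num
    refine ne_top_of_le_ne_top ?_ (ENNReal.tsum_le_tsum h1)
    rw [← ENNReal.ofReal_tsum_of_nonneg (fun k => by positivity)
      (summable_geometric_of_lt_one (by norm_num) (by norm_num))]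
    exact ENNReal.ofReal_ne_top
  have hme : ∀ k, Measurable fun V => ENNReal.ofReal (2 ^ k *
      ‖M (k + 1) V (ee 0) - M k V (ee 0)‖ ^ 2) := fun k =>
    (((hm k).norm.measurable.pow_const 2).const_mul _).ennreal_ofReal
  rw [← lintegral_tsum (fun k => (hme k).aemeasurable)] at hsum
  have hae := ae_lt_top (Measurable.tsum hme) hsum
  filter_upwards [hae] with V hV
  have h1 := ENNReal.summable_toReal hV.ne
  have h2 : Summable fun k : ℕ => 2 ^ k * ‖M (k + 1) V (ee 0) - M k V (ee 0)‖ ^ 2 := by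
    refine h1.congr fun k => ?_
    exact ENNReal.toReal_ofReal (by positivity)
  have h3 : Summable fun k : ℕ => ‖M (k + 1) V (ee 0) - M k V (ee 0)‖ := by
    refine Summable.of_nonneg_of_le (fun k => norm_nonneg _) (fun k => ?_)
      ((summable_geometric_of_lt_one (r := (1 / 2 : ℝ)) (by norm_num) (by norm_num)).add h2)
    set x := ‖M (k + 1) V (ee 0) - M k V (ee 0)‖
    have hp : (0 : ℝ) < 2 ^ k := by positivity
    have h4 : (1 / 2 : ℝ) ^ k = 1 / 2 ^ k := by rw [div_pow, one_pow]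
    rw [h4]
    have h5 : x * 2 ^ k ≤ 1 + (2 ^ k * x) ^ 2 := by nlinarith [sq_nonneg (2 ^ k * x - 1)]
    rw [← sub_nonneg]
    have h6 : 1 / 2 ^ k + 2 ^ k * x ^ 2 - x = (1 + (2 ^ k * x) ^ 2 - x * 2 ^ k) / 2 ^ k := by
      field_simp
    rw [h6]
    exact div_nonneg (sub_nonneg.2 h5) hp.le
  have h7 := h3.tsum_ofReal_ne_top
  convert h7 using 3 with k
  rw [ofReal_norm]

/-- limits of covariant operators -/
theorem limo_exists {c : ℝ} (hc0 : 0 ≤ c) (ν : Measure ℝ) [IsProbabilityMeasure ν]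
    (M : ℕ → Om d → L2 d →L[ℂ] L2 d) (hc : ∀ k, Cov (M k)) (hb : ∀ k V, ‖M k V‖ ≤ c)
    (hD : ∀ k, ∫ V, ‖M (k + 1) V (ee 0) - M k V (ee 0)‖ ^ 2 ∂(PP (Sd d) ν) ≤ (1 / 8) ^ k) :
    ∃ A : Om d → L2 d →L[ℂ] L2 d, Cov A ∧ (∀ V, ‖A V‖ ≤ c) ∧
      (∀ V, (∀ f, Tendsto (fun k => M k V f) atTop (𝓝 (A V f))) ∨ A V = 0) ∧
      ∀ᵐ V ∂(PP (Sd d) ν), ∀ f, Tendsto (fun k => M k V f) atTop (𝓝 (A V f)) := by
  classical
  set G : Set (Om d) := {V | ∀ y : Sd d, ∑' k, ‖M (k + 1) V (ee y) - M k V (ee y)‖ₑ ≠ ⊤} with hG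
  have hGm : MeasurableSet G := by
    have : G = ⋂ y : Sd d, {V | ∑' k, ‖M (k + 1) V (ee y) - M k V (ee y)‖ₑ ≠ ⊤} := by
      ext V
      simp [hG]
    rw [this]
    refine MeasurableSet.iInter fun y => ?_
    have h1 : Measurable fun V => ∑' k, ‖M (k + 1) V (ee y) - M k V (ee y)‖ₑ :=
      Measurable.tsum fun k => (((hc (k + 1)).meas _).sub ((hc k).meas _)).enorm
    exact (h1 (measurableSet_singleton _)).compl
  have hsh : ∀ (k : ℕ) (z : Sd d) (V : Om d) (y : Sd d),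
      ‖M (k + 1) (sh z V) (ee y) - M k (sh z V) (ee y)‖ₑ =
      ‖M (k + 1) V (ee (y + z)) - M k V (ee (y + z))‖ₑ := by
    intro k z V y
    rw [(hc (k + 1)).cov, (hc k).cov, Sf_ee, ← map_sub]
    rw [← ofReal_norm, ← ofReal_norm, LinearIsometry.norm_map]
  have hGinv : ∀ (z : Sd d) (V : Om d), sh z V ∈ G ↔ V ∈ G := by
    intro z V
    constructor
    · intro h y
      have h1 := h (y - z)
      simp only [hsh, sub_add_cancel] at h1
      exact h1
    · intro h y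
      simp only [hsh]
      exact h (y + z)
  have hlimG : ∀ V ∈ G, ∃ B : L2 d →L[ℂ] L2 d, ∀ f, Tendsto (fun k => M k V f) atTop (𝓝 (B f)) := by
    intro V hV
    have hca : ∀ f, CauchySeq fun k => M k V f := by
      apply lim_cauchy (fun k => M k V) c (fun k => hb k V)
      intro y
      apply cauchySeq_of_summable_dist
      have h1 := ENNReal.summable_toReal (hV y)
      refine h1.congr fun k => ?_
      rw [toReal_enorm, dist_comm, dist_eq_norm]
    have hl : ∀ f, ∃ l, Tendsto (fun k => M k V f) atTop (𝓝 l) := fun f =>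
      cauchySeq_tendsto_of_complete (hca f)
    choose l hl using hl
    exact ⟨continuousLinearMapOfTendsto (fun k => M k V) (f := l) (tendsto_pi_nhds.2 hl), hl⟩
  set A : Om d → L2 d →L[ℂ] L2 d := fun V => if h : V ∈ G then (hlimG V h).choose else 0 with hA
  have hA1 : ∀ V ∈ G, ∀ f, Tendsto (fun k => M k V f) atTop (𝓝 (A V f)) := by
    intro V hV f
    have h1 := (hlimG V hV).choose_spec f
    simp only [hA, dif_pos hV]
    exact h1
  have hA0 : ∀ V ∉ G, A V = 0 := by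
    intro V hV
    simp only [hA, dif_neg hV]
  have hAb : ∀ V, ‖A V‖ ≤ c := by
    intro V
    by_cases hV : V ∈ G
    · refine ContinuousLinearMap.opNorm_le_bound _ hc0 fun f => ?_
      refine le_of_tendsto (hA1 V hV f).norm (Eventually.of_forall fun k => ?_)
      exact ((M k V).le_opNorm f).trans (mul_le_mul_of_nonneg_right (hb k V) (norm_nonneg _))
    · rw [hA0 V hV, norm_zero]
      exact hc0
  refine ⟨A, ⟨?_, ⟨c, hAb⟩, ?_⟩, hAb, ?_, ?_⟩
  · intro f
    have h1 : ∀ k, StronglyMeasurable (G.indicator fun V => M k V f) := fun k =>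
      ((hc k).meas f).indicator hGm
    refine stronglyMeasurable_of_tendsto atTop h1 ?_
    rw [tendsto_pi_nhds]
    intro V
    by_cases hV : V ∈ G
    · simp only [Set.indicator_of_mem hV]
      exact hA1 V hV f
    · simp only [Set.indicator_of_notMem hV, hA0 V hV]
      exact tendsto_const_nhds
  · intro z V f
    by_cases hV : V ∈ G
    · have h1 := hA1 (sh z V) ((hGinv z V).2 hV) f
      have h2 : Tendsto (fun k => Sf (-z) (M k V (Sf z f))) atTop
          (𝓝 (Sf (-z) (A V (Sf z f)))) :=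
        ((Sf (-z)).continuous.tendsto _).comp (hA1 V hV (Sf z f))
      refine tendsto_nhds_unique h1 (h2.congr fun k => ?_)
      exact ((hc k).cov z V f).symm
    · rw [hA0 V hV, hA0 (sh z V) (fun h => hV ((hGinv z V).1 h))]
      simp
  · intro V
    by_cases hV : V ∈ G
    · exact Or.inl (hA1 V hV)
    · exact Or.inr (hA0 V hV)
  · have h0 := limo_series ν M hc hb hD
    have hy : ∀ y : Sd d, ∀ᵐ V ∂(PP (Sd d) ν),
        ∑' k, ‖M (k + 1) V (ee y) - M k V (ee y)‖ₑ ≠ ⊤ := by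
      intro y
      have h1 := (mp_sh (ι := Sd d) ν y).quasiMeasurePreserving.ae h0
      filter_upwards [h1] with V hV
      simp only [hsh, zero_add] at hV
      exact hV
    have h2 := ae_all_iff.2 hy
    filter_upwards [h2] with V hV
    exact hA1 V hV

/-- LIMO. -/
theorem limo (hX : T_XT) (hO : T_XO) (hC : T_COV) (hA : T_CAUO) : T_LIMO := by
  intro d U hU O c hOb ν _
  obtain ⟨hadj, hinv, hUc, _⟩ := hX d U hU
  obtain ⟨hOc, hXt, hXb, hcoc, hXs, hXc, hXcont⟩ := hO d U hU O c hOb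
  have hc0 : 0 ≤ c := (norm_nonneg _).trans (hOb.bdd 0)
  have hCs := (hC d).2.2.1
  -- the times
  have hT0 : ∀ k : ℕ, ∃ T₀ : ℝ, 0 < T₀ ∧ ∀ S T : ℝ, T₀ ≤ S → T₀ ≤ T →
      ∫ V, ‖S⁻¹ • XOT U O V S (ee 0) - T⁻¹ • XOT U O V T (ee 0)‖ ^ 2 ∂(PP (Sd d) ν) ≤
        (1 / 8) ^ k := fun k => hA d U hU O c hOb ν _ (by positivity)
  choose T₀ hT0p hT0 using hT0
  set τ : ℕ → ℝ := fun k => (∑ j ∈ Finset.range (k + 1), T₀ j) + k + 1 with hτ
  have hτge : ∀ k j, j ≤ k → T₀ j ≤ τ k := by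
    intro k j hjk
    have h1 : T₀ j ≤ ∑ j ∈ Finset.range (k + 1), T₀ j :=
      Finset.single_le_sum (f := T₀) (fun j _ => (hT0p j).le)
        (Finset.mem_range.2 (Nat.lt_succ_of_le hjk))
    have h2 : (0 : ℝ) ≤ k := Nat.cast_nonneg k
    simp only [hτ]
    linarith
  have hτk : ∀ k : ℕ, (k : ℝ) ≤ τ k := by
    intro k
    have h1 : 0 ≤ ∑ j ∈ Finset.range (k + 1), T₀ j := Finset.sum_nonneg fun j _ => (hT0p j).le
    simp only [hτ]
    linarith
  have hτp : ∀ k, 0 < τ k := fun k => (hT0p 0).trans_le (hτge k 0 (Nat.zero_le _))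
  have hτtop : Tendsto τ atTop atTop := tendsto_atTop_mono hτk tendsto_natCast_atTop_atTop
  set M : ℝ → Om d → L2 d →L[ℂ] L2 d := fun T V => ((T⁻¹ : ℝ) : ℂ) • XOT U O V T with hM
  have hMa : ∀ T V f, M T V f = T⁻¹ • XOT U O V T f := by
    intro T V f
    simp only [hM, smul_apply]
    exact Complex.coe_smul _ _
  have hMc : ∀ T, Cov (M T) := fun T => hCs _ _ (hXc T)
  have hMb : ∀ T, 0 < T → ∀ V, ‖M T V‖ ≤ c := by
    intro T hT V
    simp only [hM]
    rw [norm_smul, Complex.norm_real, norm_inv, Real.norm_of_nonneg hT.le]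
    have h1 := hXb V T
    rw [abs_of_pos hT] at h1
    calc T⁻¹ * ‖XOT U O V T‖ ≤ T⁻¹ * (c * T) :=
          mul_le_mul_of_nonneg_left h1 (inv_nonneg.2 hT.le)
      _ = c := by field_simp
  obtain ⟨A, hAc, hAb, hA1, hA2⟩ := limo_exists hc0 ν (fun k => M (τ k)) (fun k => hMc _)
    (fun k V => hMb _ (hτp k) V) (fun k => by
      simp only [hMa]
      exact hT0 k _ _ (hτge (k + 1) k (Nat.le_succ k)) (hτge k k le_rfl))
  refine ⟨A, hAc, hAb, ?_, ?_, ?_⟩
  · -- self-adjoint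
    intro V f g
    rcases hA1 V with h | h
    · have h1 : Tendsto (fun k => (inner ℂ (M (τ k) V f) g : ℂ)) atTop
          (𝓝 (inner ℂ (A V f) g)) := (h f).inner tendsto_const_nhds
      have h2 : Tendsto (fun k => (inner ℂ f (M (τ k) V g) : ℂ)) atTop
          (𝓝 (inner ℂ f (A V g))) := tendsto_const_nhds.inner (h g)
      refine tendsto_nhds_unique h1 (h2.congr fun k => ?_)
      simp only [hM, smul_apply]
      rw [inner_smul_left, inner_smul_right, Complex.conj_ofReal, hXs]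
    · rw [h]
      simp
  · -- commutes
    intro V s f
    rcases hA1 V with h | h
    · have h1 : Tendsto (fun k => U V (-s) (M (τ k) V (U V s f)) - M (τ k) V f) atTop
          (𝓝 (U V (-s) (A V (U V s f)) - A V f)) :=
        (((U V (-s)).continuous.tendsto _).comp (h (U V s f))).sub (h f)
      have h2 : Tendsto (fun k => U V (-s) (M (τ k) V (U V s f)) - M (τ k) V f) atTop (𝓝 0) := by
        have hbd : ∀ k, ‖U V (-s) (M (τ k) V (U V s f)) - M (τ k) V f‖ ≤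
            (τ k)⁻¹ * (2 * c * |s| * ‖f‖) := by
          intro k
          have h3 : U V (-s) (M (τ k) V (U V s f)) - M (τ k) V f =
              ((((τ k)⁻¹ : ℝ) : ℂ)) • (U V (-(τ k)) (XOT U O V s (U V (τ k) f)) - XOT U O V s f) := by
            have h4 := hcoc V s (τ k) f
            have h5 := hcoc V (τ k) s f
            rw [add_comm (τ k) s, h4] at h5
            have h6 : U V (-s) (XOT U O V (τ k) (U V s f)) - XOT U O V (τ k) f =
                U V (-(τ k)) (XOT U O V s (U V (τ k) f)) - XOT U O V s f := by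
              rw [sub_eq_sub_iff_add_eq_add, add_comm, h5, add_comm]
            simp only [hM, smul_apply]
            rw [map_smul, ← smul_sub, h6]
          rw [h3, norm_smul, Complex.norm_real, norm_inv, Real.norm_of_nonneg (hτp k).le]
          refine mul_le_mul_of_nonneg_left ?_ (inv_nonneg.2 (hτp k).le)
          have h7 : ∀ g : L2 d, ‖XOT U O V s g‖ ≤ c * |s| * ‖g‖ := fun g =>
            ((XOT U O V s).le_opNorm g).trans
              (mul_le_mul_of_nonneg_right (hXb V s) (norm_nonneg _))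
          calc ‖U V (-(τ k)) (XOT U O V s (U V (τ k) f)) - XOT U O V s f‖
              ≤ ‖U V (-(τ k)) (XOT U O V s (U V (τ k) f))‖ + ‖XOT U O V s f‖ := norm_sub_le _ _
            _ ≤ c * |s| * ‖f‖ + c * |s| * ‖f‖ := by
                refine add_le_add ?_ (h7 f)
                rw [hU.g0.norm]
                refine (h7 _).trans ?_
                rw [hU.g0.norm]
            _ = 2 * c * |s| * ‖f‖ := by ring
        refine squeeze_zero_norm hbd ?_
        have h8 : Tendsto (fun k => (τ k)⁻¹ * (2 * c * |s| * ‖f‖)) atTop (𝓝 (0 * (2 * c * |s| * ‖f‖))) :=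
          (tendsto_inv_atTop_zero.comp hτtop).mul tendsto_const_nhds
        rwa [zero_mul] at h8
      have h9 := tendsto_nhds_unique h1 h2
      rw [sub_eq_zero] at h9
      rw [← h9]
      have h10 := hinv V (-s) (A V (U V s f))
      rw [neg_neg] at h10
      exact h10.symm
    · rw [h]
      simp
  · -- the limit
    have hle2 : ∀ (T : ℝ), 0 < T → ∀ V, ‖M T V (ee 0)‖ ≤ c := by
      intro T hT V
      refine ((M T V).le_opNorm _).trans ?_
      rw [norm_ee, mul_one]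
      exact hMb T hT V
    rw [Metric.tendsto_nhds]
    intro ε hε
    obtain ⟨T₁, hT₁, hT₁'⟩ := hA d U hU O c hOb ν (ε / 2) (by positivity)
    filter_upwards [eventually_ge_atTop T₁] with T hT
    have hTp : 0 < T := hT₁.trans_le hT
    have h1 : Tendsto (fun k => ∫ V, ‖M T V (ee 0) - M (τ k) V (ee 0)‖ ^ 2 ∂(PP (Sd d) ν)) atTop
        (𝓝 (∫ V, ‖M T V (ee 0) - A V (ee 0)‖ ^ 2 ∂(PP (Sd d) ν))) := by
      apply tendsto_integral_of_dominated_convergence (fun _ => (c + c) ^ 2)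
      · intro k
        exact ((((hMc T).meas _).sub ((hMc (τ k)).meas _)).norm.pow 2).aestronglyMeasurable
      · exact integrable_const _
      · intro k
        refine ae_of_all _ fun V => ?_
        rw [Real.norm_of_nonneg (by positivity)]
        have h2 : ‖M T V (ee 0) - M (τ k) V (ee 0)‖ ≤ c + c :=
          (norm_sub_le _ _).trans (add_le_add (hle2 _ hTp V) (hle2 _ (hτp k) V))
        exact pow_le_pow_left₀ (norm_nonneg _) h2 2
      · filter_upwards [hA2] with V hV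
        exact ((tendsto_const_nhds.sub (hV (ee 0))).norm).pow 2
    have h2 : ∫ V, ‖M T V (ee 0) - A V (ee 0)‖ ^ 2 ∂(PP (Sd d) ν) ≤ ε / 2 := by
      refine le_of_tendsto h1 ?_
      filter_upwards [hτtop.eventually_ge_atTop T₁] with k hk
      have h3 := hT₁' T (τ k) hT hk
      simp only [hMa]
      exact h3
    simp only [hMa] at h2
    rw [Real.dist_eq, sub_zero, abs_of_nonneg (integral_nonneg fun V => by positivity)]
    exact h2.trans_lt (by linarith)

/-- approximation by finite combinations of the unit vectors -/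
theorem fato_pt {b : ℝ} (B W : L2 d →L[ℂ] L2 d) (hB : ‖B‖ ≤ b) (hW : ∀ h, ‖W h‖ = ‖h‖) (f : L2 d)
    (s : Finset (Sd d)) :
    ‖B (W f)‖ ^ 2 ≤ ∑ x ∈ s, (2 * s.card * ‖f x‖ ^ 2) * ‖B (W (ee x))‖ ^ 2 +
      2 * b ^ 2 * ‖f - ∑ x ∈ s, f x • ee x‖ ^ 2 := by
  set g : L2 d := ∑ x ∈ s, f x • ee x with hg
  have h1 : ‖B (W (f - g))‖ ≤ b * ‖f - g‖ := by
    refine (B.le_opNorm _).trans ?_
    rw [hW]
    exact mul_le_mul_of_nonneg_right hB (norm_nonneg _)
  have h2 : ‖B (W g)‖ ≤ ∑ x ∈ s, ‖f x‖ * ‖B (W (ee x))‖ := by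
    rw [hg, map_sum, map_sum]
    refine (norm_sum_le _ _).trans (Finset.sum_le_sum fun x _ => ?_)
    rw [map_smul, map_smul, norm_smul]
  have h3 : ‖B (W g)‖ ^ 2 ≤ s.card * ∑ x ∈ s, (‖f x‖ * ‖B (W (ee x))‖) ^ 2 :=
    (pow_le_pow_left₀ (norm_nonneg _) h2 2).trans sq_sum_le_card_mul_sum_sq
  have h4 : ‖B (W f)‖ ≤ ‖B (W g)‖ + ‖B (W (f - g))‖ := by
    have h5 : B (W f) = B (W g) + B (W (f - g)) := by
      rw [← map_add, ← map_add]
      congr 2
      abel
    rw [h5]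
    exact norm_add_le _ _
  have h6 : ∑ x ∈ s, (2 * (s.card : ℝ) * ‖f x‖ ^ 2) * ‖B (W (ee x))‖ ^ 2 =
      2 * (s.card * ∑ x ∈ s, (‖f x‖ * ‖B (W (ee x))‖) ^ 2) := by
    rw [Finset.mul_sum, Finset.mul_sum]
    exact Finset.sum_congr rfl fun x _ => by ring
  rw [h6]
  have h7 := norm_nonneg (B (W f))
  have h8 := norm_nonneg (B (W g))
  have h9 := norm_nonneg (B (W (f - g)))
  have h10 := norm_nonneg (f - g)
  have h11 : ‖B (W f)‖ ^ 2 ≤ (‖B (W g)‖ + ‖B (W (f - g))‖) ^ 2 := pow_le_pow_left₀ h7 h4 2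
  have h12 : ‖B (W (f - g))‖ ^ 2 ≤ (b * ‖f - g‖) ^ 2 := pow_le_pow_left₀ h9 h1 2
  have h13 : (b * ‖f - g‖) ^ 2 = b ^ 2 * ‖f - g‖ ^ 2 := by ring
  rw [h13] at h12
  nlinarith [sq_nonneg (‖B (W g)‖ - ‖B (W (f - g))‖)]


/-- ALLO. -/
theorem allo (hO : T_XO) (hC : T_COV) : T_ALLO := by
  intro d U hU O c hOb ν _ A hL f
  obtain ⟨hOc, hXt, hXb, hcoc, hXs, hXc, hXcont⟩ := hO d U hU O c hOb
  obtain ⟨_, hCsub, hCs, _, hCm⟩ := hC d
  have hc0 : 0 ≤ c := (norm_nonneg _).trans (hOb.bdd 0)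
  set B : ℝ → Om d → L2 d →L[ℂ] L2 d := fun τ V => A V - ((τ⁻¹ : ℝ) : ℂ) • XOT U O V τ with hB
  have hBf : ∀ τ V g, ‖τ⁻¹ • XOT U O V τ g - A V g‖ = ‖B τ V g‖ := by
    intro τ V g
    simp only [hB, sub_apply, smul_apply]
    rw [norm_sub_rev]
    rfl
  have hBc : ∀ τ, Cov (B τ) := fun τ => hCsub _ _ hL.cov (hCs _ _ (hXc τ))
  have hBb : ∀ τ, 0 < τ → ∀ V, ‖B τ V‖ ≤ 2 * c := by
    intro τ hτ V
    have h1 : ‖((τ⁻¹ : ℝ) : ℂ) • XOT U O V τ‖ ≤ c := by
      rw [norm_smul, Complex.norm_real, norm_inv, Real.norm_of_nonneg hτ.le]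
      have h1 := hXb V τ
      rw [abs_of_pos hτ] at h1
      calc τ⁻¹ * ‖XOT U O V τ‖ ≤ τ⁻¹ * (c * τ) :=
            mul_le_mul_of_nonneg_left h1 (inv_nonneg.2 hτ.le)
        _ = c := by field_simp
    calc ‖B τ V‖ ≤ ‖A V‖ + ‖((τ⁻¹ : ℝ) : ℂ) • XOT U O V τ‖ := norm_sub_le _ _
      _ ≤ c + c := add_le_add (hL.bdd V) h1
      _ = 2 * c := by ring
  have hint : ∀ τ, 0 < τ → ∀ g, Integrable (fun V => ‖B τ V g‖ ^ 2) (PP (Sd d) ν) := by
    intro τ hτ g
    refine Integrable.of_bound (C := (2 * c * ‖g‖) ^ 2) (((hBc τ).meas g).norm.pow 2).aestronglyMeasurable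
      (ae_of_all _ fun V => ?_)
    rw [Real.norm_of_nonneg (by positivity)]
    exact pow_le_pow_left₀ (norm_nonneg _) (((B τ V).le_opNorm g).trans
      (mul_le_mul_of_nonneg_right (hBb τ hτ V) (norm_nonneg _))) 2
  have hx : ∀ τ x, ∫ V, ‖B τ V (ee x)‖ ^ 2 ∂(PP (Sd d) ν) =
      ∫ V, ‖B τ V (ee 0)‖ ^ 2 ∂(PP (Sd d) ν) := by
    intro τ x
    have h1 : ∀ V, ‖B τ V (ee x)‖ = ‖B τ (sh x V) (ee 0)‖ := by
      intro V
      rw [(hBc τ).cov, LinearIsometry.norm_map, Sf_ee, zero_add]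
    simp only [h1]
    have h3 : ∫ V, ‖B τ (sh x V) (ee 0)‖ ^ 2 ∂(PP (Sd d) ν) =
        ∫ W, ‖B τ W (ee 0)‖ ^ 2 ∂((PP (Sd d) ν).map (sh x)) := by
      rw [integral_map (mp_sh ν x).measurable.aemeasurable]
      exact (((hBc τ).meas _).norm.pow 2).aestronglyMeasurable
    rw [h3, (mp_sh ν x).map_eq]
  have hlim0 : Tendsto (fun T : ℝ => ∫ V, ‖B T V (ee 0)‖ ^ 2 ∂(PP (Sd d) ν)) atTop (𝓝 0) := by
    have h1 := hL.lim
    simp only [hBf] at h1
    exact h1
  simp only [hBf]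
  rw [Metric.tendsto_nhds]
  intro ε hε
  have hs := lp.hasSum_single (E := fun _ : Sd d => ℂ) (p := 2) (by norm_num) f
  have hε' : 0 < Real.sqrt (ε / (16 * (c + 1) ^ 2)) := Real.sqrt_pos.2 (by positivity)
  obtain ⟨s, hs1⟩ := (Metric.tendsto_nhds.1 hs _ hε').exists
  have hg2 : (∑ x ∈ s, lp.single 2 x (f x) : L2 d) = ∑ x ∈ s, (f x) • ee x := by
    refine Finset.sum_congr rfl fun x _ => ?_
    unfold ee
    rw [← lp.single_smul, smul_eq_mul, mul_one]
  rw [hg2, dist_comm, dist_eq_norm] at hs1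
  have hs2 : 2 * (2 * c) ^ 2 * ‖f - ∑ x ∈ s, f x • ee x‖ ^ 2 ≤ ε / 2 := by
    have h1 := pow_le_pow_left₀ (norm_nonneg _) hs1.le 2
    rw [Real.sq_sqrt (by positivity)] at h1
    calc 2 * (2 * c) ^ 2 * ‖f - ∑ x ∈ s, f x • ee x‖ ^ 2
        ≤ 8 * (c + 1) ^ 2 * (ε / (16 * (c + 1) ^ 2)) := by
          refine mul_le_mul ?_ h1 (by positivity) (by positivity)
          nlinarith
      _ = ε / 2 := by
          field_simp
          norm_num
  have h5 : Tendsto (fun T : ℝ => ∑ x ∈ s, (2 * (s.card : ℝ) * ‖f x‖ ^ 2) *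
      ∫ V, ‖B T V (ee 0)‖ ^ 2 ∂(PP (Sd d) ν)) atTop (𝓝 (∑ x ∈ s, (2 * (s.card : ℝ) * ‖f x‖ ^ 2) * 0)) :=
    tendsto_finsetSum _ fun x _ => hlim0.const_mul _
  simp only [mul_zero, Finset.sum_const_zero] at h5
  filter_upwards [Metric.tendsto_nhds.1 h5 (ε / 2) (by positivity), eventually_gt_atTop 0]
    with T hT hT0
  rw [Real.dist_eq, sub_zero] at hT
  rw [Real.dist_eq, sub_zero, abs_of_nonneg (integral_nonneg fun V => by positivity)]
  have h6 : ∫ V, ‖B T V f‖ ^ 2 ∂(PP (Sd d) ν) ≤ ∫ V, (∑ x ∈ s, (2 * (s.card : ℝ) * ‖f x‖ ^ 2) *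
      ‖B T V (ee x)‖ ^ 2 + 2 * (2 * c) ^ 2 * ‖f - ∑ x ∈ s, f x • ee x‖ ^ 2) ∂(PP (Sd d) ν) := by
    refine integral_mono (hint T hT0 f) ?_ fun V => ?_
    · exact (integrable_finsetSum _ fun x _ => (hint T hT0 (ee x)).const_mul _).add
        (integrable_const _)
    · exact fato_pt (B T V) (ContinuousLinearMap.id ℂ _) (hBb T hT0 V) (fun _ => rfl) f s
  rw [integral_add (integrable_finsetSum _ fun x _ => (hint T hT0 (ee x)).const_mul _)
    (integrable_const _), integral_finsetSum _ fun x _ => (hint T hT0 (ee x)).const_mul _,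
    integral_const] at h6
  simp only [integral_const_mul, hx, probReal_univ, smul_eq_mul, one_mul] at h6
  have h7 := le_abs_self (∑ x ∈ s, (2 * (s.card : ℝ) * ‖f x‖ ^ 2) *
    ∫ V, ‖B T V (ee 0)‖ ^ 2 ∂(PP (Sd d) ν))
  linarith

end Pool.Agent.T2h98.NB
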