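import Pool.Agent.T2h98.NB.Stm

/-! NB-ORT (helper31): orthogonal vectors, reality, almost everywhere statements -/

set_option autoImplicit false
set_option linter.unusedVariables false

open scoped BigOperators Topology ENNReal InnerProductSpace
open MeasureTheory ProbabilityTheory Filter
open Pool.Agent.TH980.IM.PR (PP sh up mp_up)

namespace Pool.Agent.T2h98.NB

theorem ort : T_ORT := by
  intro d U hU V φ hφ v t
  have h1 : ∀ t : ℝ, U (ud V v) t φ = U V t φ := by
    intro t
    have h2 : U (ud V v) (-t) (U V t φ) = φ := by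
      rw [hU.duh V v t φ]
      have h3 : (fun u : ℝ => (inner ℂ (ee 0) (U V u φ) : ℂ) • U (ud V v) (-u) (ee 0)) =
          fun _ => (0 : L2 d) := by
        funext u
        rw [hφ u, zero_smul]
      rw [h3, intervalIntegral.integral_zero, smul_zero, add_zero]
    have h4 : U (ud V v) t (U (ud V v) (-t) (U V t φ)) = U V t φ := by
      rw [← hU.g0.add, add_neg_cancel, hU.g0.zero]
      rfl
    rw [h2] at h4
    exact h4
  refine ⟨h1 t, ?_, ?_⟩
  · intro s
    rw [h1 s]
    exact hφ s
  · intro s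
    rw [← hU.g0.add]
    exact hφ (s + t)

theorem inner_ee_star {d : ℕ} (g : L2 d) :
    (inner ℂ (ee 0) (star g) : ℂ) = (starRingEnd ℂ) (inner ℂ (ee 0) g) := by
  rw [inner_ee, inner_ee]
  rfl

theorem inner_star_left {d : ℕ} (f g : L2 d) :
    (inner ℂ (star f) g : ℂ) = (starRingEnd ℂ) (inner ℂ f (star g)) := by
  rw [lp.inner_eq_tsum, lp.inner_eq_tsum, Complex.conj_tsum]
  refine tsum_congr fun x => ?_
  have h1 : (star f : L2 d) x = star (f x) := rfl
  have h2 : (star g : L2 d) x = star (g x) := rfl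
  rw [h1, h2]
  simp [mul_comm]

theorem rea (hX : T_XT) : T_REA := by
  intro d U hU ν _ i A hA V h
  set a := A V (ee 0) with ha
  have hadj := (hX d U hU).1
  -- the coefficient of the origin
  have h1 : ∀ t : ℝ, (inner ℂ (ee 0) (U V t a) : ℂ) = inner ℂ a (U V t (ee 0)) := by
    intro t
    rw [ha, ← hA.com, ← hA.sa]
  have h2 : ∀ t : ℝ, (inner ℂ (ee 0) (U V t (star a)) : ℂ) = inner ℂ (ee 0) (U V t a) := by
    intro t
    rw [hU.conj, inner_ee_star, h1 (-t), inner_conj_symm, hadj, neg_neg]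
  have hort : Ort U V (a - star a) := by
    intro t
    rw [map_sub, inner_sub_right, h2, sub_self]
  have hst : ∀ φ : L2 d, Ort U V φ → Ort U V (star φ) := by
    intro φ hφ t
    rw [hU.conj, inner_ee_star, hφ (-t), map_zero]
  have h3 : (inner ℂ (a - star a) (a - star a) : ℂ) = 0 := by
    have e1 : (inner ℂ a (a - star a) : ℂ) = 0 := h _ hort
    have e2 : (inner ℂ (star a) (a - star a) : ℂ) = 0 := by
      rw [inner_star_left, h _ (hst _ hort), map_zero]
    have e3 : (inner ℂ (a - star a) (a - star a) : ℂ) =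
        inner ℂ a (a - star a) - inner ℂ (star a) (a - star a) := inner_sub_left _ _ _
    rw [e3, e1, e2, sub_zero]
  exact (sub_eq_zero.1 (inner_self_eq_zero.1 h3)).symm

theorem upd : T_UPD := by
  intro d ν _
  have hup : ∀ q : Om d × ℝ, up (0 : Sd d) q = ud q.1 q.2 := fun q => rfl
  have hmp := mp_up (ι := Sd d) ν 0
  constructor
  · intro p hp
    have h1 : ∀ᵐ q ∂((PP (Sd d) ν).prod ν), p (up 0 q) :=
      hmp.quasiMeasurePreserving.ae hp
    exact Measure.ae_ae_of_ae_prod h1
  · intro p hm hp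
    have h1 : MeasurableSet {q : Om d × ℝ | p (ud q.1 q.2)} := hmp.measurable hm
    have h2 : ∀ᵐ q ∂((PP (Sd d) ν).prod ν), q ∈ {q : Om d × ℝ | p (ud q.1 q.2)} :=
      (Measure.ae_prod_mem_iff_ae_ae_mem h1).2 hp
    have h3 : ∀ᵐ V ∂((PP (Sd d) ν).prod ν).map (up 0), p V :=
      (ae_map_iff hmp.measurable.aemeasurable hm).2 h2
    rwa [hmp.map_eq] at h3

end Pool.Agent.T2h98.NB
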