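import Pool.Agent.T2h98.NB.StmO
import Pool.Agent.T2h98.NB.XT

/-! No ballistic motion: simple facts on the time integral of an observable. -/

set_option autoImplicit false
set_option linter.unusedVariables false

open scoped BigOperators Topology ENNReal InnerProductSpace
open MeasureTheory ProbabilityTheory Filter
open Pool.Agent.TH980.IM.PR (PP sh)

namespace Pool.Agent.T2h98.NB.XOx

open Pool.Agent.T2h98.NB
open Pool.Agent.T2h98.NB.GPO
open Pool.Agent.T2h98.NB.XTx (U_cont')

variable {d : ℕ} {U : Om d → ℝ → L2 d →L[ℂ] L2 d} {O : Om d → L2 d →L[ℂ] L2 d} {c : ℝ}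

theorem c_nonneg (hO : Obs O c) : 0 ≤ c := le_trans (norm_nonneg _) (hO.bdd 0)

theorem O_norm (hO : Obs O c) (V : Om d) (f : L2 d) : ‖O V f‖ ≤ c * ‖f‖ :=
  ContinuousLinearMap.le_of_opNorm_le _ (hO.bdd V) f

theorem O_cont (hO : Obs O c) {X : Type} [TopologicalSpace X] {φ : X → Om d}
    (hφ : Continuous φ) {h : X → L2 d} (hh : Continuous h) :
    Continuous fun s => O (φ s) (h s) := by
  rw [continuous_iff_continuousAt]
  intro s₀
  have h1 : Tendsto (fun s => c * ‖h s - h s₀‖ + ‖O (φ s) (h s₀) - O (φ s₀) (h s₀)‖) (𝓝 s₀)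
      (𝓝 (c * 0 + 0)) := by
    apply Tendsto.add
    · exact (tendsto_iff_norm_sub_tendsto_zero.1 hh.continuousAt).const_mul c
    · have h2 : Continuous fun s => O (φ s) (h s₀) := (hO.cont (h s₀)).comp hφ
      exact tendsto_iff_norm_sub_tendsto_zero.1 h2.continuousAt
  rw [mul_zero, add_zero] at h1
  apply tendsto_iff_norm_sub_tendsto_zero.2
  refine squeeze_zero (fun s => norm_nonneg _) (fun s => ?_) h1
  have h3 : O (φ s) (h s) - O (φ s₀) (h s₀)
      = O (φ s) (h s - h s₀) + (O (φ s) (h s₀) - O (φ s₀) (h s₀)) := by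
    rw [map_sub]; abel
  rw [h3]
  exact le_trans (norm_add_le _ _) (add_le_add (O_norm hO _ _) le_rfl)

/-- the integrand -/
noncomputable def ig (U : Om d → ℝ → L2 d →L[ℂ] L2 d) (O : Om d → L2 d →L[ℂ] L2 d) (V : Om d)
    (f : L2 d) (s : ℝ) : L2 d := U V (-s) (O V (U V s f))

theorem ig_cont' (hU : Gr0 U) (hO : Obs O c) (f : L2 d) :
    Continuous fun p : Om d × ℝ => ig U O p.1 f p.2 :=
  U_cont' hU continuous_fst continuous_snd.neg (O_cont hO continuous_fst (hU.cont f))

theorem ig_cont (hU : Gr0 U) (hO : Obs O c) (V : Om d) (f : L2 d) :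
    Continuous fun s : ℝ => ig U O V f s :=
  (ig_cont' hU hO f).comp (continuous_const.prodMk continuous_id)

theorem ig_int (hU : Gr0 U) (hO : Obs O c) (V : Om d) (f : L2 d) (a b : ℝ) :
    IntervalIntegrable (ig U O V f) volume a b := (ig_cont hU hO V f).intervalIntegrable _ _

theorem ig_norm (hU : Gr0 U) (hO : Obs O c) (V : Om d) (f : L2 d) (s : ℝ) :
    ‖ig U O V f s‖ ≤ c * ‖f‖ := by
  unfold ig
  rw [hU.norm]
  refine le_trans (O_norm hO _ _) ?_
  rw [hU.norm]

theorem XO_eq (V : Om d) (t : ℝ) (f : L2 d) :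
    XO U O V t f = ∫ s in (0 : ℝ)..t, ig U O V f s := rfl

theorem XO_norm (hU : Gr0 U) (hO : Obs O c) (V : Om d) (t : ℝ) (f : L2 d) :
    ‖XO U O V t f‖ ≤ c * |t| * ‖f‖ := by
  rw [XO_eq]
  refine le_trans (intervalIntegral.norm_integral_le_of_norm_le_const
    (C := c * ‖f‖) fun s _ => ig_norm hU hO V f s) ?_
  rw [sub_zero]
  linarith

/-- the time integral as a linear map -/
noncomputable def Xl (hU : Gr0 U) (hO : Obs O c) (V : Om d) (t : ℝ) : L2 d →ₗ[ℂ] L2 d where
  toFun f := XO U O V t f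
  map_add' f g := by
    rw [XO_eq, XO_eq, XO_eq, ← intervalIntegral.integral_add (ig_int hU hO V f _ _)
      (ig_int hU hO V g _ _)]
    congr 1
    funext s
    simp only [ig, map_add]
  map_smul' k f := by
    rw [RingHom.id_apply, XO_eq, XO_eq, ← intervalIntegral.integral_smul]
    congr 1
    funext s
    simp only [ig, map_smul]

theorem XOT_eq (hU : Gr0 U) (hO : Obs O c) (V : Om d) (t : ℝ) (f : L2 d) :
    XOT U O V t f = XO U O V t f := by
  have h : ∃ B : L2 d →L[ℂ] L2 d, ∀ f, B f = XO U O V t f :=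
    ⟨LinearMap.mkContinuous (Xl hU hO V t) (c * |t|) (XO_norm hU hO V t), fun f => rfl⟩
  unfold XOT
  rw [dif_pos h]
  exact h.choose_spec f

theorem XO_cont (hU : Gr0 U) (hO : Obs O c) (f : L2 d) :
    Continuous fun p : Om d × ℝ => XO U O p.1 p.2 f := by
  rw [continuous_iff_continuousAt]
  intro p₀
  have hc : Continuous fun V : Om d => XO U O V p₀.2 f := by
    refine intervalIntegral.continuous_of_dominated_interval (bound := fun _ => c * ‖f‖) ?_ ?_ ?_ ?_
    · intro V
      exact (ig_cont hU hO V f).aestronglyMeasurable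
    · intro V
      exact Eventually.of_forall fun s _ => ig_norm hU hO V f s
    · exact intervalIntegrable_const
    · refine Eventually.of_forall fun s _ => ?_
      exact (ig_cont' hU hO f).comp (continuous_id.prodMk continuous_const)
  have h1 : Tendsto (fun p : Om d × ℝ => c * ‖f‖ * |p.2 - p₀.2| +
      ‖XO U O p.1 p₀.2 f - XO U O p₀.1 p₀.2 f‖) (𝓝 p₀) (𝓝 (0 + 0)) := by
    apply Tendsto.add
    · have h2 : Continuous fun p : Om d × ℝ => c * ‖f‖ * |p.2 - p₀.2| := by fun_prop
      have h3 := h2.tendsto p₀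
      simpa using h3
    · have h4 : Continuous fun p : Om d × ℝ => XO U O p.1 p₀.2 f := hc.comp continuous_fst
      exact tendsto_iff_norm_sub_tendsto_zero.1 h4.continuousAt
  rw [add_zero] at h1
  apply tendsto_iff_norm_sub_tendsto_zero.2
  refine squeeze_zero (fun s => norm_nonneg _) (fun p => ?_) h1
  have h5 : XO U O p.1 p.2 f - XO U O p₀.1 p₀.2 f = (XO U O p.1 p.2 f - XO U O p.1 p₀.2 f) +
      (XO U O p.1 p₀.2 f - XO U O p₀.1 p₀.2 f) := by abel
  rw [h5]
  refine le_trans (norm_add_le _ _) (add_le_add ?_ le_rfl)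
  rw [XO_eq, XO_eq, intervalIntegral.integral_interval_sub_left (ig_int hU hO _ f _ _)
    (ig_int hU hO _ f _ _)]
  exact intervalIntegral.norm_integral_le_of_norm_le_const fun s _ => ig_norm hU hO _ f s

theorem XO_inner (hU : Gr0 U) (hO : Obs O c) (V : Om d) (t : ℝ) (f g : L2 d) :
    (inner ℂ g (XO U O V t f) : ℂ) = ∫ s in (0 : ℝ)..t, (inner ℂ g (ig U O V f s) : ℂ) :=
  ((innerSL ℂ g).intervalIntegral_comp_comm (ig_int hU hO V f _ _)).symm

theorem XO_inner' (hU : Gr0 U) (hO : Obs O c) (V : Om d) (t : ℝ) (f g : L2 d) :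
    (inner ℂ (XO U O V t f) g : ℂ) = ∫ s in (0 : ℝ)..t, (inner ℂ (ig U O V f s) g : ℂ) := by
  rw [← inner_conj_symm, XO_inner hU hO]
  have h1 := (Complex.conjCLE.toContinuousLinearMap).intervalIntegral_comp_comm
    (((innerSL ℂ g).continuous.comp (ig_cont hU hO V f)).intervalIntegrable
      (μ := volume) 0 t)
  have h2 : ∀ s, Complex.conjCLE.toContinuousLinearMap ((⇑(innerSL ℂ g) ∘ fun s => ig U O V f s) s)
      = (inner ℂ (ig U O V f s) g : ℂ) := by
    intro s
    show (starRingEnd ℂ) (inner ℂ g (ig U O V f s)) = _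
    exact inner_conj_symm _ _
  simp only [h2] at h1
  rw [h1]
  rfl

theorem t_XO : T_XO := by
  intro d U hG O c hO
  have hU : Gr0 U := hG.g0
  have hsh : ∀ (z : Sd d) (V : Om d) (t : ℝ) (f : L2 d),
      XO U O (sh z V) t f = Sf (-z) (XO U O V t (Sf z f)) := by
    intro z V t f
    have h1 := (Sf (-z)).toContinuousLinearMap.intervalIntegral_comp_comm
      (ig_int hU hO V (Sf z f) 0 t)
    rw [XO_eq, XO_eq]
    refine Eq.trans ?_ h1
    congr 1
    funext s
    show ig U O (sh z V) f s = Sf (-z) (ig U O V (Sf z f) s)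
    unfold ig
    rw [hG.shift, hG.shift, hO.cov, Sf_Sf, Sf_Sf, add_neg_cancel, Sf_zero, Sf_zero]
  have hcovO : Cov O := by
    refine ⟨?_, ⟨c, hO.bdd⟩, hO.cov⟩
    intro f
    exact (hO.cont f).stronglyMeasurable
  refine ⟨hcovO, XOT_eq hU hO, ?_, ?_, ?_, ?_, ?_⟩
  · intro V t
    refine ContinuousLinearMap.opNorm_le_bound _ (mul_nonneg (c_nonneg hO) (abs_nonneg _))
      fun f => ?_
    rw [XOT_eq hU hO]
    exact XO_norm hU hO V t f
  · intro V s t f
    rw [XOT_eq hU hO, XOT_eq hU hO, XOT_eq hU hO, XO_eq, XO_eq, XO_eq,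
      ← intervalIntegral.integral_add_adjacent_intervals (ig_int hU hO V f 0 s)
        (ig_int hU hO V f s (s + t))]
    congr 1
    have h1 := (U V (-s)).intervalIntegral_comp_comm (ig_int hU hO V (U V s f) 0 t)
    refine Eq.trans ?_ h1
    have h2 := intervalIntegral.integral_comp_add_left (a := 0) (b := t) (fun r => ig U O V f r) s
    rw [add_zero] at h2
    rw [← h2]
    congr 1
    funext r
    unfold ig
    rw [neg_add, hU.add, add_comm s r, hU.add]
  · intro V t f g
    rw [XOT_eq hU hO, XOT_eq hU hO, XO_inner hU hO, XO_inner' hU hO]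
    congr 1
    funext s
    unfold ig
    rw [U_adj hU, neg_neg, hO.sa, U_adj hU]
  · intro t
    refine ⟨?_, ⟨c * |t|, ?_⟩, ?_⟩
    · intro f
      have h1 := ((XO_cont hU hO f).comp
        ((continuous_id (X := Om d)).prodMk (continuous_const (y := t)))).stronglyMeasurable
      have e : (fun V => XOT U O V t f) = fun V => XO U O V t f :=
        funext fun V => XOT_eq hU hO V t f
      rw [e]
      exact h1
    · intro V
      refine ContinuousLinearMap.opNorm_le_bound _ (mul_nonneg (c_nonneg hO) (abs_nonneg _))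
        fun f => ?_
      rw [XOT_eq hU hO]
      exact XO_norm hU hO V t f
    · intro z V f
      rw [XOT_eq hU hO, XOT_eq hU hO]
      exact hsh z V t f
  · intro f
    refine (XO_cont hU hO f).congr ?_
    intro p
    exact (XOT_eq hU hO p.1 p.2 f).symm

end Pool.Agent.T2h98.NB.XOx
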