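import Pool.Agent.T2h98.NB.StmO
import Pool.Agent.T2h98.NB.XO
import Pool.Agent.T2h98.NB.ORT

/-! No ballistic motion: observables which are odd under time reversal average to zero. -/

set_option autoImplicit false
set_option linter.unusedVariables false

open scoped BigOperators Topology ENNReal InnerProductSpace
open MeasureTheory ProbabilityTheory Filter
open Pool.Agent.TH980.IM.PR (PP sh mp_sh)

namespace Pool.Agent.T2h98.NB.ODDx

open Pool.Agent.T2h98.NB
open Pool.Agent.T2h98.NB.GPO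
open Pool.Agent.T2h98.NB.XOx (O_norm c_nonneg ig ig_cont ig_cont' ig_int ig_norm XO_eq XOT_eq
  XO_inner')

variable {d : ℕ} {U : Om d → ℝ → L2 d →L[ℂ] L2 d}

theorem star_ee (x : Sd d) : star (ee x : L2 d) = ee x := by
  ext y
  show star ((ee x : L2 d) y) = _
  rw [ee_apply]
  split_ifs <;> simp

/-- reality of the image of the origin -/
theorem reaO (hX : T_XT) (hU : Grp U) (V : Om d) (B : L2 d →L[ℂ] L2 d)
    (hsa : ∀ f g : L2 d, inner ℂ (B f) g = (inner ℂ f (B g) : ℂ))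
    (hcom : ∀ (t : ℝ) (f : L2 d), B (U V t f) = U V t (B f))
    (h : ∀ φ : L2 d, Ort U V φ → (inner ℂ (B (ee 0)) φ : ℂ) = 0) :
    star (B (ee 0)) = B (ee 0) := by
  set a := B (ee 0) with ha
  have hadj := (hX d U hU).1
  have h1 : ∀ t : ℝ, (inner ℂ (ee 0) (U V t a) : ℂ) = inner ℂ a (U V t (ee 0)) := by
    intro t
    rw [ha, ← hcom, ← hsa]
  have h2 : ∀ t : ℝ, (inner ℂ (ee 0) (U V t (star a)) : ℂ) = inner ℂ (ee 0) (U V t a) := by
    intro t
    rw [hU.conj, inner_ee_star, h1 (-t), inner_conj_symm, hadj, neg_neg]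
  have hort : Ort U V (a - star a) := by
    intro t
    rw [map_sub, inner_sub_right, h2, sub_self]
  have hst : ∀ φ : L2 d, Ort U V φ → Ort U V (star φ) := by
    intro φ hφ t
    rw [hU.conj, inner_ee_star, hφ (-t), map_zero]
  have h3 : (inner ℂ (a - star a) (a - star a) : ℂ) = 0 := by
    have e1 : (inner ℂ a (a - star a) : ℂ) = 0 := h _ hort
    have e2 : (inner ℂ (star a) (a - star a) : ℂ) = 0 := by
      rw [inner_star_left, h _ (hst _ hort), map_zero]
    have e3 : (inner ℂ (a - star a) (a - star a) : ℂ) =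
        inner ℂ a (a - star a) - inner ℂ (star a) (a - star a) := inner_sub_left _ _ _
    rw [e3, e1, e2, sub_zero]
  exact (sub_eq_zero.1 (inner_self_eq_zero.1 h3)).symm

section main

variable {O A : Om d → L2 d →L[ℂ] L2 d} {c : ℝ} {ν : Measure ℝ} [IsProbabilityMeasure ν]

theorem A_norm (hA : LimO U ν O c A) (V : Om d) (f : L2 d) : ‖A V f‖ ≤ c * ‖f‖ :=
  ContinuousLinearMap.le_of_opNorm_le _ (hA.bdd V) f

/-- correlations with the limit do not depend on the time -/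
theorem corr (hC : T_COV) (hT : T_TP) (hG : Grp U) (hX : T_XT) (hXO : T_XO) (hO : Obs O c)
    (hA : LimO U ν O c A) (s : ℝ) :
    ∫ V, (inner ℂ (ig U O V (ee 0) s) (A V (ee 0)) : ℂ) ∂(PP (Sd d) ν) =
      ∫ V, (inner ℂ (ee 0) (O V (A V (ee 0))) : ℂ) ∂(PP (Sd d) ν) := by
  have hU := hG.g0
  have hCU : ∀ t : ℝ, Cov fun V => U V t := (hX d U hG).2.2.1
  have hCO : Cov O := (hXO d U hG O c hO).1
  have hB : Cov fun V => (U V (-s)).comp ((O V).comp (A V)) :=
    (hC d).1 _ _ (hCU (-s)) ((hC d).1 _ _ hCO hA.cov)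
  have h1 := hT d ν (fun V => (U V (-s)).comp ((O V).comp (A V))) (fun V => U V s) hB (hCU s)
  have e1 : (fun V => (inner ℂ (ig U O V (ee 0) s) (A V (ee 0)) : ℂ)) = fun V =>
      (inner ℂ (ee 0) (((U V (-s)).comp ((O V).comp (A V))) (U V s (ee 0))) : ℂ) := by
    funext V
    show (inner ℂ (U V (-s) (O V (U V s (ee 0)))) (A V (ee 0)) : ℂ) =
      inner ℂ (ee 0) (U V (-s) (O V (A V (U V s (ee 0)))))
    rw [U_adj hU, neg_neg, ← hA.com, hO.sa, U_adj hU]
  have e2 : (fun V => (inner ℂ (ee 0) (O V (A V (ee 0))) : ℂ)) = fun V =>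
      (inner ℂ (ee 0) (U V s (((U V (-s)).comp ((O V).comp (A V))) (ee 0))) : ℂ) := by
    funext V
    show _ = (inner ℂ (ee 0) (U V s (U V (-s) (O V (A V (ee 0))))) : ℂ)
    rw [U_neg' hU]
  rw [e1, e2]
  exact h1

theorem ig_corr_bound (hG : Grp U) (hO : Obs O c) (hA : LimO U ν O c A) (V : Om d) (s : ℝ) :
    ‖(inner ℂ (ig U O V (ee 0) s) (A V (ee 0)) : ℂ)‖ ≤ c * c := by
  refine le_trans (norm_inner_le_norm _ _) ?_
  have h1 := ig_norm hG.g0 hO V (ee 0) s
  have h2 := A_norm hA V (ee 0)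
  rw [norm_ee, mul_one] at h1 h2
  exact mul_le_mul h1 h2 (norm_nonneg _) (c_nonneg hO)

/-- correlation of the time integral with the limit -/
theorem corrT (hC : T_COV) (hT : T_TP) (hG : Grp U) (hX : T_XT) (hXO : T_XO) (hO : Obs O c)
    (hA : LimO U ν O c A) {T : ℝ} (hT0 : 0 ≤ T) :
    ∫ V, (inner ℂ (XOT U O V T (ee 0)) (A V (ee 0)) : ℂ) ∂(PP (Sd d) ν) =
      T * ∫ V, (inner ℂ (ee 0) (O V (A V (ee 0))) : ℂ) ∂(PP (Sd d) ν) := by
  have hU := hG.g0
  have e1 : ∀ V, (inner ℂ (XOT U O V T (ee 0)) (A V (ee 0)) : ℂ) =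
      ∫ s in Set.Ioc 0 T, (inner ℂ (ig U O V (ee 0) s) (A V (ee 0)) : ℂ) := by
    intro V
    rw [XOT_eq hU hO, XO_inner' hU hO, intervalIntegral.integral_of_le hT0]
  simp_rw [e1]
  have hm : StronglyMeasurable (Function.uncurry fun (V : Om d) (s : ℝ) =>
      (inner ℂ (ig U O V (ee 0) s) (A V (ee 0)) : ℂ)) := by
    have h1 : StronglyMeasurable fun p : Om d × ℝ => ig U O p.1 (ee 0) p.2 :=
      (ig_cont' hU hO (ee 0)).stronglyMeasurable
    have h2 : StronglyMeasurable fun p : Om d × ℝ => A p.1 (ee 0) :=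
      (hA.cov.meas (ee 0)).comp_measurable measurable_fst
    exact h1.inner h2
  have hi : Integrable (Function.uncurry fun (V : Om d) (s : ℝ) =>
      (inner ℂ (ig U O V (ee 0) s) (A V (ee 0)) : ℂ))
      ((PP (Sd d) ν).prod (volume.restrict (Set.Ioc 0 T))) := by
    refine Integrable.of_bound hm.aestronglyMeasurable (c * c) (Eventually.of_forall fun p => ?_)
    exact ig_corr_bound hG hO hA p.1 p.2
  rw [integral_integral_swap hi]
  simp_rw [corr hC hT hG hX hXO hO hA]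
  rw [setIntegral_const]
  simp [hT0]

theorem int_of_bdd {F : Om d → ℂ} (hF : StronglyMeasurable F) {C : ℝ} (hC : ∀ V, ‖F V‖ ≤ C) :
    Integrable F (PP (Sd d) ν) :=
  Integrable.of_bound hF.aestronglyMeasurable C (Eventually.of_forall hC)

theorem int_of_bddR {F : Om d → ℝ} (hF : StronglyMeasurable F) {C : ℝ} (hC : ∀ V, ‖F V‖ ≤ C) :
    Integrable F (PP (Sd d) ν) :=
  Integrable.of_bound hF.aestronglyMeasurable C (Eventually.of_forall hC)

/-- the correlation is the mean square of the limit -/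
theorem corrL (hC : T_COV) (hT : T_TP) (hG : Grp U) (hX : T_XT) (hXO : T_XO) (hO : Obs O c)
    (hA : LimO U ν O c A) :
    ∫ V, (inner ℂ (ee 0) (O V (A V (ee 0))) : ℂ) ∂(PP (Sd d) ν) =
      ∫ V, (inner ℂ (A V (ee 0)) (A V (ee 0)) : ℂ) ∂(PP (Sd d) ν) := by
  have hU := hG.g0
  have hc := c_nonneg hO
  set J := ∫ V, (inner ℂ (ee 0) (O V (A V (ee 0))) : ℂ) ∂(PP (Sd d) ν) with hJ
  set L := ∫ V, (inner ℂ (A V (ee 0)) (A V (ee 0)) : ℂ) ∂(PP (Sd d) ν) with hL
  have hmA : StronglyMeasurable fun V => A V (ee 0) := hA.cov.meas (ee 0)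
  have hmX : ∀ T : ℝ, StronglyMeasurable fun V => XOT U O V T (ee 0) :=
    fun T => ((hXO d U hG O c hO).2.2.2.2.2.1 T).meas (ee 0)
  have hXb : ∀ (T : ℝ), 0 < T → ∀ V, ‖T⁻¹ • XOT U O V T (ee 0)‖ ≤ c := by
    intro T hT0 V
    have h1 := ContinuousLinearMap.le_of_opNorm_le _ ((hXO d U hG O c hO).2.2.1 V T) (ee 0)
    rw [norm_ee, mul_one, abs_of_pos hT0] at h1
    rw [norm_smul, norm_inv, Real.norm_eq_abs, abs_of_pos hT0]
    rw [inv_mul_le_iff₀ hT0]
    linarith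
  have hAb : ∀ V, ‖A V (ee 0)‖ ≤ c := by
    intro V
    have := A_norm hA V (ee 0)
    rwa [norm_ee, mul_one] at this
  -- the error
  have herr : ∀ T : ℝ, 0 < T → ∀ ε : ℝ, 0 < ε → ‖J - L‖ ≤
      c * (ε + (∫ V, ‖T⁻¹ • XOT U O V T (ee 0) - A V (ee 0)‖ ^ 2 ∂(PP (Sd d) ν)) / ε) := by
    intro T hT0 ε hε
    have hmT : StronglyMeasurable fun V => (T⁻¹ • XOT U O V T (ee 0) : L2 d) :=
      (hmX T).const_smul T⁻¹
    have hmD : StronglyMeasurable fun V => (T⁻¹ • XOT U O V T (ee 0) - A V (ee 0) : L2 d) :=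
      hmT.sub hmA
    have hmN : StronglyMeasurable fun V => ‖(T⁻¹ • XOT U O V T (ee 0) - A V (ee 0) : L2 d)‖ ^ 2 :=
      hmD.norm.pow 2
    have h1 : J = ∫ V, (inner ℂ (T⁻¹ • XOT U O V T (ee 0)) (A V (ee 0)) : ℂ) ∂(PP (Sd d) ν) := by
      have h2 : ∀ V, (inner ℂ (T⁻¹ • XOT U O V T (ee 0)) (A V (ee 0)) : ℂ) =
          (T⁻¹ : ℂ) * inner ℂ (XOT U O V T (ee 0)) (A V (ee 0)) := by
        intro V
        have h3 : (T⁻¹ • XOT U O V T (ee 0) : L2 d) = ((T⁻¹ : ℝ) : ℂ) • XOT U O V T (ee 0) :=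
          (RCLike.real_smul_eq_coe_smul (K := ℂ) _ _)
        rw [h3, inner_smul_left, Complex.conj_ofReal]
        push_cast
        rfl
      simp_rw [h2]
      rw [integral_const_mul, corrT hC hT hG hX hXO hO hA hT0.le, ← hJ, ← mul_assoc]
      have h4 : ((T : ℂ))⁻¹ * (T : ℂ) = 1 := by
        apply inv_mul_cancel₀
        exact_mod_cast hT0.ne'
      rw [h4, one_mul]
    have hi1 : Integrable (fun V => (inner ℂ (T⁻¹ • XOT U O V T (ee 0)) (A V (ee 0)) : ℂ))
        (PP (Sd d) ν) := by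
      refine int_of_bdd (hmT.inner hmA) (C := c * c) fun V => ?_
      exact le_trans (norm_inner_le_norm _ _)
        (mul_le_mul (hXb T hT0 V) (hAb V) (norm_nonneg _) hc)
    have hi2 : Integrable (fun V => (inner ℂ (A V (ee 0)) (A V (ee 0)) : ℂ)) (PP (Sd d) ν) := by
      refine int_of_bdd (hmA.inner hmA) (C := c * c) fun V => ?_
      exact le_trans (norm_inner_le_norm _ _)
        (mul_le_mul (hAb V) (hAb V) (norm_nonneg _) hc)
    have hi3 : Integrable (fun V => ‖T⁻¹ • XOT U O V T (ee 0) - A V (ee 0)‖ ^ 2)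
        (PP (Sd d) ν) := by
      refine int_of_bddR hmN (C := (c + c) ^ 2) fun V => ?_
      rw [Real.norm_eq_abs, abs_of_nonneg (by positivity)]
      exact pow_le_pow_left₀ (norm_nonneg _)
        (le_trans (norm_sub_le _ _) (add_le_add (hXb T hT0 V) (hAb V))) 2
    rw [h1, hL, ← integral_sub hi1 hi2]
    refine le_trans (norm_integral_le_integral_norm _) ?_
    have h5 : ∫ V, (c * (ε + ‖T⁻¹ • XOT U O V T (ee 0) - A V (ee 0)‖ ^ 2 / ε)) ∂(PP (Sd d) ν) =
        c * (ε + (∫ V, ‖T⁻¹ • XOT U O V T (ee 0) - A V (ee 0)‖ ^ 2 ∂(PP (Sd d) ν)) / ε) := by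
      rw [integral_const_mul, integral_add (integrable_const _) (hi3.div_const _),
        integral_div]
      simp
    rw [← h5]
    refine integral_mono (hi1.sub hi2).norm
      (((integrable_const _).add (hi3.div_const _)).const_mul _) fun V => ?_
    show ‖(inner ℂ (T⁻¹ • XOT U O V T (ee 0)) (A V (ee 0)) : ℂ) -
      inner ℂ (A V (ee 0)) (A V (ee 0))‖ ≤ _
    rw [← inner_sub_left]
    refine le_trans (norm_inner_le_norm _ _) ?_
    set y := ‖T⁻¹ • XOT U O V T (ee 0) - A V (ee 0)‖ with hy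
    have hy0 : 0 ≤ y := norm_nonneg _
    have h6 : y ≤ ε + y ^ 2 / ε := by
      rw [← sub_nonneg]
      have h7 : ε + y ^ 2 / ε - y = ((ε - y) ^ 2 + ε * y) / ε := by
        field_simp
        ring
      rw [h7]
      positivity
    calc y * ‖A V (ee 0)‖ ≤ y * c := mul_le_mul_of_nonneg_left (hAb V) hy0
      _ = c * y := mul_comm _ _
      _ ≤ c * (ε + y ^ 2 / ε) := mul_le_mul_of_nonneg_left h6 hc
  have h8 : ∀ ε : ℝ, 0 < ε → ‖J - L‖ ≤ c * ε := by
    intro ε hε
    have h9 : Tendsto (fun T : ℝ => c * (ε +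
        (∫ V, ‖T⁻¹ • XOT U O V T (ee 0) - A V (ee 0)‖ ^ 2 ∂(PP (Sd d) ν)) / ε)) atTop
        (𝓝 (c * (ε + 0 / ε))) := ((hA.lim.div_const ε).const_add ε).const_mul c
    rw [zero_div, add_zero] at h9
    refine ge_of_tendsto h9 ?_
    filter_upwards [eventually_gt_atTop 0] with T hT0
    exact herr T hT0 ε hε
  have h10 : ‖J - L‖ ≤ 0 := by
    apply le_of_forall_pos_le_add
    intro δ hδ
    have h11 := h8 (δ / (c + 1)) (by positivity)
    have h12 : c * (δ / (c + 1)) ≤ δ := by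
      rw [← mul_div_assoc, div_le_iff₀ (by linarith)]
      nlinarith
    linarith
  exact sub_eq_zero.1 (norm_eq_zero.1 (le_antisymm h10 (norm_nonneg _)))

end main

theorem t_ODD (hX : T_XT) (hXO : T_XO) (hC : T_COV) (hT : T_TP) (hL : T_LIMO) (hA : T_ALLO)
    (hCy : T_CYO) : T_ODD := by
  intro d U hG ν _ K hK O c hO hodd f
  obtain ⟨A, hLA⟩ := hL d U hG O c hO ν
  have hc := c_nonneg hO
  have hmA : StronglyMeasurable fun V => A V (ee 0) := hLA.cov.meas (ee 0)
  have hAb : ∀ V, ‖A V (ee 0)‖ ≤ c := by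
    intro V
    have := A_norm hLA V (ee 0)
    rwa [norm_ee, mul_one] at this
  -- reality
  have h1 : ∀ᵐ V ∂(PP (Sd d) ν), (starRingEnd ℂ) (inner ℂ (ee 0) (O V (A V (ee 0)))) =
      -(inner ℂ (ee 0) (O V (A V (ee 0))) : ℂ) := by
    filter_upwards [hCy d U hG ν K hK O c hO A hLA] with V hV
    have ha : star (A V (ee 0)) = A V (ee 0) :=
      reaO hX hG V (A V) (hLA.sa V) (hLA.com V) hV
    have ho : star (O V (ee 0)) = -(O V (ee 0)) := by
      have := hodd V (ee 0)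
      rw [star_ee] at this
      have h' := congrArg Neg.neg this
      rw [neg_neg] at h'
      exact h'.symm
    rw [← hO.sa]
    have h2 : (inner ℂ (star (O V (ee 0))) (A V (ee 0)) : ℂ) =
        (starRingEnd ℂ) (inner ℂ (O V (ee 0)) (star (A V (ee 0)))) := inner_star_left _ _
    rw [ha, ho, inner_neg_left] at h2
    exact h2.symm
  have h2 := corrL hC hT hG hX hXO hO hLA
  have h3 : ∫ V, (inner ℂ (A V (ee 0)) (A V (ee 0)) : ℂ) ∂(PP (Sd d) ν) =
      ((∫ V, ‖A V (ee 0)‖ ^ 2 ∂(PP (Sd d) ν) : ℝ) : ℂ) := by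
    rw [← integral_complex_ofReal]
    congr 1
    funext V
    rw [inner_self_eq_norm_sq_to_K]
    push_cast
    rfl
  have h4 : (starRingEnd ℂ) (∫ V, (inner ℂ (ee 0) (O V (A V (ee 0))) : ℂ) ∂(PP (Sd d) ν)) =
      -∫ V, (inner ℂ (ee 0) (O V (A V (ee 0))) : ℂ) ∂(PP (Sd d) ν) := by
    rw [← integral_conj, ← integral_neg]
    exact integral_congr_ae h1
  have h5 : ∫ V, ‖A V (ee 0)‖ ^ 2 ∂(PP (Sd d) ν) = 0 := by
    rw [h2, h3, Complex.conj_ofReal] at h4
    have h6 : (((∫ V, ‖A V (ee 0)‖ ^ 2 ∂(PP (Sd d) ν) : ℝ)) : ℂ) = 0 := by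
      have h7 := self_eq_neg.1 h4
      exact h7
    exact_mod_cast h6
  have hi : Integrable (fun V => ‖A V (ee 0)‖ ^ 2) (PP (Sd d) ν) := by
    refine int_of_bddR ((hmA.norm).pow 2) (C := c ^ 2) fun V => ?_
    rw [Real.norm_eq_abs, abs_of_nonneg (by positivity)]
    exact pow_le_pow_left₀ (norm_nonneg _) (hAb V) 2
  have h6 : ∀ᵐ V ∂(PP (Sd d) ν), A V (ee 0) = 0 := by
    have h7 := (integral_eq_zero_iff_of_nonneg (fun V => by positivity) hi).1 h5
    filter_upwards [h7] with V hV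
    have : ‖A V (ee 0)‖ ^ 2 = 0 := hV
    exact norm_eq_zero.1 (pow_eq_zero_iff (two_ne_zero)|>.1 this)
  have h7 : ∀ᵐ V ∂(PP (Sd d) ν), ∀ z : Sd d, A V (ee z) = 0 := by
    rw [ae_all_iff]
    intro z
    have h8 := (mp_sh ν z).quasiMeasurePreserving.ae h6
    filter_upwards [h8] with V hV
    rw [hLA.cov.cov, Sf_ee, zero_add] at hV
    have h9 := (Sf (-z)).norm_map (A V (ee z))
    rw [hV, norm_zero] at h9
    exact norm_eq_zero.1 h9.symm
  have h8 : ∀ᵐ V ∂(PP (Sd d) ν), A V f = 0 := by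
    filter_upwards [h7] with V hV
    have h9 : HasSum (fun x : Sd d => (lp.single 2 x (f x) : L2 d)) f :=
      lp.hasSum_single (by norm_num) f
    have h10 := (A V).hasSum h9
    have h11 : (fun x : Sd d => A V (lp.single 2 x (f x) : L2 d)) = fun _ => (0 : L2 d) := by
      funext x
      have h12 : (lp.single 2 x (f x) : L2 d) = f x • ee x := by
        ext y
        rw [lp.single_apply]
        show _ = f x * (ee x : L2 d) y
        rw [ee_apply]
        by_cases h : y = x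
        · subst h; simp
        · rw [Pi.single_eq_of_ne h, if_neg h, mul_zero]
      rw [h12, map_smul, hV x, smul_zero]
    have h13 : HasSum (fun _ : Sd d => (0 : L2 d)) (A V f) := by
      rw [← h11]
      exact h10
    exact h13.unique hasSum_zero
  refine (hA d U hG O c hO ν A hLA f).congr fun T => ?_
  apply integral_congr_ae
  filter_upwards [h8] with V hV
  rw [hV, sub_zero]

end Pool.Agent.T2h98.NB.ODDx
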