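import Pool.Agent.T2h98.NB.Stm

/-! No ballistic motion: the displacement and the second moment. -/

set_option autoImplicit false
set_option linter.unusedVariables false

open scoped BigOperators Topology ENNReal InnerProductSpace
open MeasureTheory ProbabilityTheory Filter
open Pool.Agent.TH980.IM.PR (PP sh)

namespace Pool.Agent.T2h98.NB.GPO

open Pool.Agent.T2h98.NB

variable {d : ℕ}

theorem mop_aux (θ : Sd d → ℝ) (C : ℝ) (h : ∀ x, |θ x| ≤ C) (f : L2 d) :
    Summable fun x => ‖(θ x : ℂ) * f x‖ ^ 2 := by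
  refine Summable.of_nonneg_of_le (fun x => by positivity) (fun x => ?_)
    ((sq_summable f).mul_left (C ^ 2))
  rw [norm_mul, mul_pow, Complex.norm_real]
  have h1 : ‖θ x‖ ^ 2 ≤ C ^ 2 := by
    rw [Real.norm_eq_abs]
    exact pow_le_pow_left₀ (abs_nonneg _) (h x) 2
  exact mul_le_mul_of_nonneg_right h1 (by positivity)

/-- multiplication by a bounded real function -/
noncomputable def mopl (θ : Sd d → ℝ) (C : ℝ) (h : ∀ x, |θ x| ≤ C) : L2 d →ₗ[ℂ] L2 d where
  toFun f := ⟨fun x => (θ x : ℂ) * f x, mem_of_summable (mop_aux θ C h f)⟩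
  map_add' f g := by ext x; exact mul_add _ _ _
  map_smul' c f := by
    ext x
    show (θ x : ℂ) * (c * f x) = c * ((θ x : ℂ) * f x)
    ring

theorem mopl_norm_sq (θ : Sd d → ℝ) (C : ℝ) (h : ∀ x, |θ x| ≤ C) (f : L2 d) :
    ‖mopl θ C h f‖ ^ 2 = ∑' x, (θ x) ^ 2 * ‖f x‖ ^ 2 := by
  rw [norm_sq]
  refine tsum_congr fun x => ?_
  show ‖(θ x : ℂ) * f x‖ ^ 2 = _
  rw [norm_mul, mul_pow, Complex.norm_real, Real.norm_eq_abs, sq_abs]

theorem mopl_norm_le (θ : Sd d → ℝ) (C : ℝ) (h : ∀ x, |θ x| ≤ C) (f : L2 d) :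
    ‖mopl θ C h f‖ ≤ C * ‖f‖ := by
  have hC : 0 ≤ C := le_trans (abs_nonneg _) (h 0)
  have h1 : ‖mopl θ C h f‖ ^ 2 ≤ (C * ‖f‖) ^ 2 := by
    rw [mopl_norm_sq, mul_pow, norm_sq, ← tsum_mul_left]
    have hb : ∀ x, (θ x) ^ 2 * ‖f x‖ ^ 2 ≤ C ^ 2 * ‖f x‖ ^ 2 := by
      intro x
      apply mul_le_mul_of_nonneg_right _ (by positivity)
      rw [← sq_abs (θ x)]
      exact pow_le_pow_left₀ (abs_nonneg _) (h x) 2
    have hs2 : Summable fun x => C ^ 2 * ‖f x‖ ^ 2 := (sq_summable f).mul_left (C ^ 2)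
    have hs1 : Summable fun x => (θ x) ^ 2 * ‖f x‖ ^ 2 :=
      Summable.of_nonneg_of_le (fun x => by positivity) hb hs2
    exact hs1.tsum_le_tsum hb hs2
  exact le_of_sq_le_sq h1 (by positivity)

/-- multiplication by a bounded real function -/
noncomputable def mop (θ : Sd d → ℝ) (C : ℝ) (h : ∀ x, |θ x| ≤ C) : L2 d →L[ℂ] L2 d :=
  LinearMap.mkContinuous (mopl θ C h) C (mopl_norm_le θ C h)

theorem mop_apply (θ : Sd d → ℝ) (C : ℝ) (h : ∀ x, |θ x| ≤ C) (f : L2 d) (x : Sd d) :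
    (mop θ C h f) x = (θ x : ℂ) * f x := rfl

theorem mop_norm_sq (θ : Sd d → ℝ) (C : ℝ) (h : ∀ x, |θ x| ≤ C) (f : L2 d) :
    ‖mop θ C h f‖ ^ 2 = ∑' x, (θ x) ^ 2 * ‖f x‖ ^ 2 := mopl_norm_sq θ C h f

theorem mop_norm_le (θ : Sd d → ℝ) (C : ℝ) (h : ∀ x, |θ x| ≤ C) (f : L2 d) :
    ‖mop θ C h f‖ ≤ C * ‖f‖ := mopl_norm_le θ C h f

theorem mop_summable (θ : Sd d → ℝ) (C : ℝ) (h : ∀ x, |θ x| ≤ C) (f : L2 d) :
    Summable fun x => (θ x) ^ 2 * ‖f x‖ ^ 2 := by
  refine (mop_aux θ C h f).congr fun x => ?_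
  rw [norm_mul, mul_pow, Complex.norm_real, Real.norm_eq_abs, sq_abs]

theorem mop_Mu (θ : Sd d → ℝ) (C : ℝ) (h : ∀ x, |θ x| ≤ C) (κ : Sd d → ℝ) (f : L2 d) :
    mop θ C h (Mu κ f) = Mu κ (mop θ C h f) := by
  ext x
  rw [mop_apply, Mu_apply, Mu_apply, mop_apply]
  ring

theorem mop_sa (θ : Sd d → ℝ) (C : ℝ) (h : ∀ x, |θ x| ≤ C) (f g : L2 d) :
    (inner ℂ (mop θ C h f) g : ℂ) = inner ℂ f (mop θ C h g) := by
  rw [lp.inner_eq_tsum, lp.inner_eq_tsum]
  refine tsum_congr fun x => ?_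
  rw [mop_apply, mop_apply]
  simp only [RCLike.inner_apply, map_mul, Complex.conj_ofReal]
  ring

section group

variable {U : Om d → ℝ → L2 d →L[ℂ] L2 d}

theorem U_neg (hU : Gr0 U) (V : Om d) (s : ℝ) (f : L2 d) : U V (-s) (U V s f) = f := by
  rw [← hU.add, neg_add_cancel, hU.zero]
  rfl

theorem U_neg' (hU : Gr0 U) (V : Om d) (s : ℝ) (f : L2 d) : U V s (U V (-s) f) = f := by
  rw [← hU.add, add_neg_cancel, hU.zero]
  rfl

theorem U_inner (hU : Gr0 U) (V : Om d) (s : ℝ) (f g : L2 d) :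
    (inner ℂ (U V s f) (U V s g) : ℂ) = inner ℂ f g :=
  (⟨(U V s).toLinearMap, hU.norm V s⟩ : L2 d →ₗᵢ[ℂ] L2 d).inner_map_map f g

theorem U_adj (hU : Gr0 U) (V : Om d) (s : ℝ) (f g : L2 d) :
    (inner ℂ (U V s f) g : ℂ) = inner ℂ f (U V (-s) g) := by
  rw [← U_inner hU V s f (U V (-s) g), U_neg' hU]

theorem U_cont (hU : Gr0 U) (V : Om d) {k : ℝ → ℝ} (hk : Continuous k) {h : ℝ → L2 d}
    (hh : Continuous h) : Continuous fun s => U V (k s) (h s) := by
  rw [continuous_iff_continuousAt]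
  intro s₀
  have h1 : Tendsto (fun s => ‖h s - h s₀‖ + ‖U V (k s) (h s₀) - U V (k s₀) (h s₀)‖) (𝓝 s₀)
      (𝓝 (0 + 0)) := by
    apply Tendsto.add
    · exact tendsto_iff_norm_sub_tendsto_zero.1 hh.continuousAt
    · have h2 : Continuous fun s => U V (k s) (h s₀) :=
        (hU.cont (h s₀)).comp (continuous_const.prodMk hk)
      exact tendsto_iff_norm_sub_tendsto_zero.1 h2.continuousAt
  rw [add_zero] at h1
  apply tendsto_iff_norm_sub_tendsto_zero.2
  refine squeeze_zero (fun s => norm_nonneg _) (fun s => ?_) h1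
  have h3 : U V (k s) (h s) - U V (k s₀) (h s₀)
      = U V (k s) (h s - h s₀) + (U V (k s) (h s₀) - U V (k s₀) (h s₀)) := by
    rw [map_sub]; abel
  rw [h3]
  refine le_trans (norm_add_le _ _) ?_
  rw [hU.norm]

/-- the Heisenberg equation for a multiplication operator -/
theorem heis (hM : T_MUC) (hU : Gr0 U) (V : Om d) (θ : Sd d → ℝ) (C : ℝ) (h : ∀ x, |θ x| ≤ C)
    (f : L2 d) (t : ℝ) : U V (-t) (mop θ C h (U V t f)) = mop θ C h f +
      ∫ s in (0 : ℝ)..t, U V (-s) (Complex.I • (Ad d (mop θ C h (U V s f)) -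
        mop θ C h (Ad d (U V s f)))) := by
  have hcf : Continuous fun s => U V s f := U_cont hU V continuous_id continuous_const
  have hcK : Continuous fun s => Complex.I • (Ad d (mop θ C h (U V s f)) -
        mop θ C h (Ad d (U V s f))) := by
    have e1 : Continuous fun s => Ad d (mop θ C h (U V s f)) :=
      (Ad d).continuous.comp ((mop θ C h).continuous.comp hcf)
    have e2 : Continuous fun s => mop θ C h (Ad d (U V s f)) :=
      (mop θ C h).continuous.comp ((Ad d).continuous.comp hcf)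
    have e3 : Continuous fun s => (Ad d (mop θ C h (U V s f)) - mop θ C h (Ad d (U V s f))) :=
      e1.sub e2
    exact (continuous_const (y := Complex.I)).smul e3
  have hcI : Continuous fun s => U V (-s) (Complex.I • (Ad d (mop θ C h (U V s f)) -
        mop θ C h (Ad d (U V s f)))) := U_cont hU V continuous_neg hcK
  apply ext_inner_left ℂ
  intro g
  have hd : ∀ s : ℝ, HasDerivAt (fun s : ℝ => (inner ℂ (U V s g) (mop θ C h (U V s f)) : ℂ))
      (inner ℂ g (U V (-s) (Complex.I • (Ad d (mop θ C h (U V s f)) -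
        mop θ C h (Ad d (U V s f)))))) s := by
    intro s
    have e1 : (fun s : ℝ => (inner ℂ (U V s g) (mop θ C h (U V s f)) : ℂ)) =
        fun s : ℝ => (inner ℂ (Mu (s • V) (U V s g)) (mop θ C h (Mu (s • V) (U V s f))) : ℂ) := by
      funext s
      rw [mop_Mu, (Mu (s • V)).inner_map_map]
    rw [e1]
    have h1 := hU.der V g s
    have h2 := ((mop θ C h).restrictScalars ℝ).hasFDerivAt.comp_hasDerivAt s (hU.der V f s)
    have h3 := HasDerivAt.inner ℂ h1 h2
    refine h3.congr_deriv ?_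
    show (inner ℂ (Mu (s • V) (U V s g)) (mop θ C h (-(Complex.I • Mu (s • V) (Ad d (U V s f))))) : ℂ)
      + inner ℂ (-(Complex.I • Mu (s • V) (Ad d (U V s g)))) (mop θ C h (Mu (s • V) (U V s f))) = _
    rw [← U_adj hU, map_neg, map_smul, mop_Mu, mop_Mu, inner_neg_right, inner_neg_left,
      inner_smul_right, inner_smul_left, (Mu (s • V)).inner_map_map, (Mu (s • V)).inner_map_map,
      inner_smul_right, inner_sub_right, Complex.conj_I]
    have h4 : (inner ℂ (Ad d (U V s g)) (mop θ C h (U V s f)) : ℂ)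
        = inner ℂ (U V s g) (Ad d (mop θ C h (U V s f))) := (hM d).2.2.2.2.1 _ _
    rw [h4]
    ring
  have h5 := intervalIntegral.integral_eq_sub_of_hasDerivAt (a := 0) (b := t)
    (fun s _ => hd s) ((continuous_const.inner hcI).intervalIntegrable _ _)
  have h6 : (∫ s in (0 : ℝ)..t, (inner ℂ g (U V (-s) (Complex.I • (Ad d (mop θ C h (U V s f)) -
        mop θ C h (Ad d (U V s f))))) : ℂ)) = inner ℂ g (∫ s in (0 : ℝ)..t, U V (-s)
        (Complex.I • (Ad d (mop θ C h (U V s f)) - mop θ C h (Ad d (U V s f))))) :=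
    (innerSL ℂ g).intervalIntegral_comp_comm (hcI.intervalIntegrable _ _)
  rw [inner_add_right, ← h6, h5, ← U_adj hU, hU.zero]
  show _ = (inner ℂ g (mop θ C h f) : ℂ) + (_ - inner ℂ g (mop θ C h f))
  ring

end group

/-! ### the truncated position -/

/-- truncation at `R` -/
noncomputable def cu (R : ℕ) (n : ℤ) : ℝ := max (-(R : ℝ)) (min (R : ℝ) (n : ℝ))

theorem cu_abs (R : ℕ) (n : ℤ) : |cu R n| ≤ R := by
  unfold cu
  rw [abs_le]
  have : (0 : ℝ) ≤ R := Nat.cast_nonneg R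
  refine ⟨le_max_left _ _, max_le (by linarith) (min_le_left _ _)⟩

theorem cu_eq {R : ℕ} {n : ℤ} (h : |(n : ℝ)| ≤ R) : cu R n = n := by
  unfold cu
  rw [abs_le] at h
  rw [min_eq_right h.2, max_eq_right h.1]

theorem cu_sq_le (R : ℕ) (n : ℤ) : (cu R n) ^ 2 ≤ (n : ℝ) ^ 2 := by
  rw [← sq_abs, ← sq_abs (n : ℝ)]
  apply pow_le_pow_left₀ (abs_nonneg _)
  have hR : (0 : ℝ) ≤ R := Nat.cast_nonneg R
  unfold cu
  rcases le_total (n : ℝ) 0 with hn | hn
  · rw [min_eq_right (by linarith), abs_of_nonpos hn, abs_of_nonpos (max_le (by linarith) hn)]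
    rcases le_total (-(R : ℝ)) n with h | h
    · rw [max_eq_right h]
    · rw [max_eq_left h]; linarith
  · rw [max_eq_right (by
      apply le_min <;> linarith), abs_of_nonneg hn, abs_of_nonneg (le_min hR hn)]
    exact min_le_right _ _

theorem cu_lip (R : ℕ) (m n : ℤ) : |cu R m - cu R n| ≤ |(m : ℝ) - n| := by
  unfold cu
  calc |max (-(R : ℝ)) (min (R : ℝ) (m : ℝ)) - max (-(R : ℝ)) (min (R : ℝ) (n : ℝ))|
      ≤ |min (R : ℝ) (m : ℝ) - min (R : ℝ) (n : ℝ)| := by
        have := abs_max_sub_max_le_max (-(R : ℝ)) (min (R : ℝ) (m : ℝ)) (-(R : ℝ))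
          (min (R : ℝ) (n : ℝ))
        simpa using this
    _ ≤ |(m : ℝ) - n| := by
        have := abs_min_sub_min_le_max (R : ℝ) (m : ℝ) (R : ℝ) (n : ℝ)
        simpa using this

/-- the truncated coordinate -/
noncomputable def ch (R : ℕ) (i : Fin d) (x : Sd d) : ℝ := cu R (x i)

theorem ch_abs (R : ℕ) (i : Fin d) (x : Sd d) : |ch R i x| ≤ R := cu_abs R (x i)

/-- forward increments -/
noncomputable def fa (R : ℕ) (i : Fin d) (x : Sd d) : ℝ := ch R i (x + Pi.single i 1) - ch R i x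

/-- backward increments -/
noncomputable def ba (R : ℕ) (i : Fin d) (x : Sd d) : ℝ := ch R i (x - Pi.single i 1) - ch R i x

theorem fa_abs (R : ℕ) (i : Fin d) (x : Sd d) : |fa R i x| ≤ 1 := by
  refine le_trans (cu_lip R _ _) ?_
  simp

theorem ba_abs (R : ℕ) (i : Fin d) (x : Sd d) : |ba R i x| ≤ 1 := by
  refine le_trans (cu_lip R _ _) ?_
  simp

theorem fa_lim (i : Fin d) (x : Sd d) : ∀ᶠ R : ℕ in atTop, fa R i x = 1 := by
  obtain ⟨N, hN⟩ := exists_nat_ge (|((x i : ℤ) : ℝ)| + 1)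
  filter_upwards [eventually_ge_atTop N] with R hR
  have hR' : (N : ℝ) ≤ R := by exact_mod_cast hR
  unfold fa ch
  have h1 : (x + Pi.single i 1 : Sd d) i = x i + 1 := by simp
  rw [h1, cu_eq (R := R) (n := x i) (by linarith), cu_eq (R := R) (n := x i + 1)]
  · push_cast; ring
  · push_cast
    have := abs_add_le ((x i : ℤ) : ℝ) 1
    rw [abs_one] at this
    linarith

theorem ba_lim (i : Fin d) (x : Sd d) : ∀ᶠ R : ℕ in atTop, ba R i x = -1 := by
  obtain ⟨N, hN⟩ := exists_nat_ge (|((x i : ℤ) : ℝ)| + 1)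
  filter_upwards [eventually_ge_atTop N] with R hR
  have hR' : (N : ℝ) ≤ R := by exact_mod_cast hR
  unfold ba ch
  have h1 : (x - Pi.single i 1 : Sd d) i = x i - 1 := by simp
  rw [h1, cu_eq (R := R) (n := x i) (by linarith), cu_eq (R := R) (n := x i - 1)]
  · push_cast; ring
  · push_cast
    have := abs_sub ((x i : ℤ) : ℝ) 1
    rw [abs_one] at this
    linarith

/-- the commutator -/
theorem comm_eq (R : ℕ) (i : Fin d) (g : L2 d) :
    Complex.I • (Ad d (mop (ch R i) R (ch_abs R i) g) - mop (ch R i) R (ch_abs R i) (Ad d g)) =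
    Complex.I • (mop (fa R i) 1 (fa_abs R i) (Sf (-Pi.single i 1) g) +
      mop (ba R i) 1 (ba_abs R i) (Sf (Pi.single i 1) g)) := by
  congr 1
  ext x
  show (Ad d (mop (ch R i) R (ch_abs R i) g)) x - (mop (ch R i) R (ch_abs R i) (Ad d g)) x =
    (mop (fa R i) 1 (fa_abs R i) (Sf (-Pi.single i 1) g)) x +
      (mop (ba R i) 1 (ba_abs R i) (Sf (Pi.single i 1) g)) x
  rw [mop_apply, mop_apply, mop_apply, Ad_apply, Ad_apply, Sf_apply, Sf_apply, Finset.mul_sum,
    ← Finset.sum_sub_distrib]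
  rw [Finset.sum_eq_single i]
  · rw [mop_apply, mop_apply, sub_neg_eq_add]
    unfold fa ba
    push_cast
    ring
  · intro j _ hj
    rw [mop_apply, mop_apply]
    have h1 : ch R i (x + Pi.single j 1) = ch R i x := by
      unfold ch
      congr 1
      simp [Ne.symm hj]
    have h2 : ch R i (x - Pi.single j 1) = ch R i x := by
      unfold ch
      congr 1
      simp [Ne.symm hj]
    rw [h1, h2]
    ring
  · intro hi
    exact absurd (Finset.mem_univ i) hi

theorem mop_lim (h : L2 d) (θ : ℕ → Sd d → ℝ) (C : ℝ) (hC : ∀ n x, |θ n x| ≤ C) (c : ℝ)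
    (hl : ∀ x, ∀ᶠ n : ℕ in atTop, θ n x = c) :
    Tendsto (fun n => mop (θ n) C (hC n) h) atTop (𝓝 ((c : ℂ) • h)) := by
  have hC0 : 0 ≤ C := le_trans (abs_nonneg _) (hC 0 0)
  have hc : |c| ≤ C := by
    obtain ⟨n, hn⟩ := (hl 0).exists
    rw [← hn]
    exact hC n 0
  have e1 : ∀ n, ‖mop (θ n) C (hC n) h - (c : ℂ) • h‖ ^ 2 = ∑' x, (θ n x - c) ^ 2 * ‖h x‖ ^ 2 := by
    intro n
    rw [norm_sq]
    refine tsum_congr fun x => ?_
    show ‖(θ n x : ℂ) * h x - (c : ℂ) * h x‖ ^ 2 = _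
    rw [← sub_mul, norm_mul, mul_pow]
    congr 1
    rw [← Complex.ofReal_sub, Complex.norm_real, Real.norm_eq_abs, sq_abs]
  have h1 : Tendsto (fun n => ∑' x, (θ n x - c) ^ 2 * ‖h x‖ ^ 2) atTop
      (𝓝 (∑' x : Sd d, (0 : ℝ))) := by
    refine tendsto_tsum_of_dominated_convergence (bound := fun x => (2 * C) ^ 2 * ‖h x‖ ^ 2)
      ((sq_summable h).mul_left _) ?_ ?_
    · intro x
      have : (fun n => (θ n x - c) ^ 2 * ‖h x‖ ^ 2) =ᶠ[atTop] fun _ => 0 := by
        filter_upwards [hl x] with n hn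
        rw [hn, sub_self]; ring
      exact (tendsto_congr' this).2 tendsto_const_nhds
    · refine Eventually.of_forall fun n x => ?_
      rw [Real.norm_eq_abs, abs_of_nonneg (by positivity)]
      apply mul_le_mul_of_nonneg_right _ (by positivity)
      rw [← sq_abs]
      apply pow_le_pow_left₀ (abs_nonneg _)
      have := abs_sub (θ n x) c
      have := hC n x
      linarith
  rw [tsum_zero] at h1
  apply tendsto_iff_norm_sub_tendsto_zero.2
  have h2 := (Real.continuous_sqrt.tendsto 0).comp h1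
  rw [Real.sqrt_zero] at h2
  refine h2.congr fun n => ?_
  show √(∑' x, (θ n x - c) ^ 2 * ‖h x‖ ^ 2) = _
  rw [← e1, Real.sqrt_sq (norm_nonneg _)]

theorem t_GPO (hM : T_MUC) : T_GPO := by
  intro d U hU i V t
  -- the truncated equation
  have key : ∀ R : ℕ, U V (-t) (mop (ch R i) R (ch_abs R i) (U V t (ee 0))) =
      ∫ s in (0 : ℝ)..t, U V (-s) (Complex.I • (mop (fa R i) 1 (fa_abs R i)
        (Sf (-Pi.single i 1) (U V s (ee 0))) +
        mop (ba R i) 1 (ba_abs R i) (Sf (Pi.single i 1) (U V s (ee 0))))) := by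
    intro R
    rw [heis hM hU]
    have h0 : mop (ch R i) R (ch_abs R i) (ee 0 : L2 d) = 0 := by
      ext x
      rw [mop_apply, ee_apply]
      by_cases hx : x = 0
      · subst hx
        have : ch R i (0 : Sd d) = 0 := by
          unfold ch
          rw [Pi.zero_apply, cu_eq (by simp)]
          simp
        rw [this]; simp
      · simp [hx]
    rw [h0, zero_add]
    congr 1
    funext s
    rw [comm_eq]
  have hcU : Continuous fun s => U V s (ee 0 : L2 d) := U_cont hU V continuous_id continuous_const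
  -- limit
  have hlim : Tendsto (fun R : ℕ => ∫ s in (0 : ℝ)..t, U V (-s) (Complex.I •
      (mop (fa R i) 1 (fa_abs R i) (Sf (-Pi.single i 1) (U V s (ee 0))) +
        mop (ba R i) 1 (ba_abs R i) (Sf (Pi.single i 1) (U V s (ee 0)))))) atTop
      (𝓝 (∫ s in (0 : ℝ)..t, U V (-s) (vel i (U V s (ee 0))))) := by
    refine intervalIntegral.tendsto_integral_filter_of_dominated_convergence (fun _ => (2 : ℝ))
      ?_ ?_ ?_ ?_
    · refine Eventually.of_forall fun R => ?_
      have e1 : Continuous fun s => mop (fa R i) 1 (fa_abs R i)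
          (Sf (-Pi.single i 1) (U V s (ee 0))) :=
        (mop (fa R i) 1 (fa_abs R i)).continuous.comp ((Sf (-Pi.single i 1)).continuous.comp hcU)
      have e2 : Continuous fun s => mop (ba R i) 1 (ba_abs R i)
          (Sf (Pi.single i 1) (U V s (ee 0))) :=
        (mop (ba R i) 1 (ba_abs R i)).continuous.comp ((Sf (Pi.single i 1)).continuous.comp hcU)
      have e3 : Continuous fun s => (Complex.I •
          (mop (fa R i) 1 (fa_abs R i) (Sf (-Pi.single i 1) (U V s (ee 0))) +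
          mop (ba R i) 1 (ba_abs R i) (Sf (Pi.single i 1) (U V s (ee 0)))) : L2 d) := by
        have e4 : Continuous fun s =>
            (mop (fa R i) 1 (fa_abs R i) (Sf (-Pi.single i 1) (U V s (ee 0))) +
            mop (ba R i) 1 (ba_abs R i) (Sf (Pi.single i 1) (U V s (ee 0))) : L2 d) := e1.add e2
        exact (continuous_const (y := Complex.I)).smul e4
      exact (U_cont hU V continuous_neg e3).aestronglyMeasurable
    · refine Eventually.of_forall fun R => Eventually.of_forall fun s _ => ?_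
      rw [hU.norm, norm_smul, Complex.norm_I, one_mul]
      refine le_trans (norm_add_le _ _) ?_
      have e1 := mop_norm_le (fa R i) 1 (fa_abs R i) (Sf (-Pi.single i 1) (U V s (ee 0)))
      have e2 := mop_norm_le (ba R i) 1 (ba_abs R i) (Sf (Pi.single i 1) (U V s (ee 0)))
      rw [LinearIsometry.norm_map, hU.norm, norm_ee] at e1 e2
      linarith
    · exact intervalIntegrable_const
    · refine Eventually.of_forall fun s _ => ?_
      have e1 := mop_lim (Sf (-Pi.single i 1) (U V s (ee 0))) (fun R => fa R i) 1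
        (fun R => fa_abs R i) 1 (fa_lim i)
      have e2 := mop_lim (Sf (Pi.single i 1) (U V s (ee 0))) (fun R => ba R i) 1
        (fun R => ba_abs R i) (-1) (ba_lim i)
      have e3 := ((U V (-s)).continuous.tendsto _).comp ((e1.add e2).const_smul Complex.I)
      refine (e3.congr fun R => rfl).trans (le_of_eq ?_)
      congr 2
      show _ = Complex.I • (Sf (-Pi.single i 1) (U V s (ee 0)) - Sf (Pi.single i 1) (U V s (ee 0)))
      congr 1
      push_cast
      rw [one_smul, neg_smul, one_smul, sub_eq_add_neg]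
  have hlim2 : Tendsto (fun R : ℕ => ∑' x : Sd d, (ch R i x) ^ 2 * ‖(U V t (ee 0)) x‖ ^ 2) atTop
      (𝓝 (‖Xt U i V t (ee 0)‖ ^ 2)) := by
    have e1 := (hlim.norm.pow 2)
    refine (e1.congr fun R => ?_)
    rw [← key R, hU.norm, mop_norm_sq]
  -- pointwise
  have hpt : ∀ x : Sd d, Tendsto (fun R : ℕ => (ch R i x) ^ 2 * ‖(U V t (ee 0)) x‖ ^ 2) atTop
      (𝓝 ((x i : ℝ) ^ 2 * ‖(U V t (ee 0)) x‖ ^ 2)) := by
    intro x
    have : (fun R : ℕ => (ch R i x) ^ 2 * ‖(U V t (ee 0)) x‖ ^ 2) =ᶠ[atTop]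
        fun _ => (x i : ℝ) ^ 2 * ‖(U V t (ee 0)) x‖ ^ 2 := by
      obtain ⟨N, hN⟩ := exists_nat_ge (|((x i : ℤ) : ℝ)|)
      filter_upwards [eventually_ge_atTop N] with R hR
      have hR' : (N : ℝ) ≤ R := by exact_mod_cast hR
      unfold ch
      rw [cu_eq (by linarith)]
    exact (tendsto_congr' this).2 tendsto_const_nhds
  have hle : ∀ S : Finset (Sd d), ∑ x ∈ S, (x i : ℝ) ^ 2 * ‖(U V t (ee 0)) x‖ ^ 2 ≤
      ‖Xt U i V t (ee 0)‖ ^ 2 := by
    intro S
    refine le_of_tendsto_of_tendsto' (tendsto_finsetSum S fun x _ => hpt x) hlim2 fun R => ?_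
    exact (mop_summable (ch R i) R (ch_abs R i) (U V t (ee 0))).sum_le_tsum S
      (fun x _ => by positivity)
  have hsum : Summable fun x : Sd d => (x i : ℝ) ^ 2 * ‖(U V t (ee 0)) x‖ ^ 2 :=
    summable_of_sum_le (fun x => by positivity) hle
  have h1 : ∑' x : Sd d, (x i : ℝ) ^ 2 * ‖(U V t (ee 0)) x‖ ^ 2 ≤ ‖Xt U i V t (ee 0)‖ ^ 2 :=
    hsum.tsum_le_of_sum_le hle
  have h2 : ‖Xt U i V t (ee 0)‖ ^ 2 ≤ ∑' x : Sd d, (x i : ℝ) ^ 2 * ‖(U V t (ee 0)) x‖ ^ 2 := by
    refine le_of_tendsto' hlim2 fun R => ?_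
    refine (mop_summable (ch R i) R (ch_abs R i) (U V t (ee 0))).tsum_le_tsum (fun x => ?_) hsum
    exact mul_le_mul_of_nonneg_right (cu_sq_le R (x i)) (by positivity)
  rw [← le_antisymm h1 h2]
  exact hsum.hasSum

end Pool.Agent.T2h98.NB.GPO
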