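import Pool.Agent.T2h98.NB.Stm

/-! No ballistic motion: the limit maps the origin to its cyclic space (task NB-CYC). -/

set_option autoImplicit false

open scoped BigOperators Topology ENNReal InnerProductSpace
open MeasureTheory ProbabilityTheory Filter

namespace Pool.Agent.T2h98.NB

namespace CYC

variable {d : ℕ}

theorem ud_ud (V : Om d) (v w : ℝ) : ud (ud V v) w = ud V w := by
  unfold ud
  exact Function.update_idem v w V

theorem ud_self (V : Om d) : ud V (V 0) = V := by
  unfold ud
  exact Function.update_eq_self 0 V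

theorem ud_cont (V : Om d) : Continuous fun v : ℝ => ud V v := by
  unfold ud
  exact continuous_const.update 0 continuous_id

/-- bounded measurable functions with vanishing integrals -/
theorem ae_zero (ν : Measure ℝ) [IsProbabilityMeasure ν] (c : ℝ → ℂ) (hc : Measurable c) (M : ℝ)
    (hM : ∀ v, ‖c v‖ ≤ M)
    (h : ∀ b : ℝ → ℝ, Measurable b → (∀ v, |b v| ≤ 1) → ∫ v, ((b v : ℝ) : ℂ) * c v ∂ν = 0) :
    ∀ᵐ v ∂ν, c v = 0 := by
  have hM0 : 0 ≤ M := (norm_nonneg _).trans (hM 0)
  have hM1 : 0 < M + 1 := by linarith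
  have hint : ∀ b : ℝ → ℝ, Measurable b → (∀ v, |b v| ≤ 1) →
      Integrable (fun v => ((b v : ℝ) : ℂ) * c v) ν := by
    intro b hb hb1
    refine Integrable.of_bound (C := M) ?_ ?_
    · exact ((Complex.measurable_ofReal.comp hb).mul hc).aestronglyMeasurable
    · refine Eventually.of_forall fun v => ?_
      rw [norm_mul, Complex.norm_real]
      calc |b v| * ‖c v‖ ≤ 1 * M := mul_le_mul (hb1 v) (hM v) (norm_nonneg _) zero_le_one
        _ = M := one_mul M
  have hre : ∀ᵐ v ∂ν, (c v).re = 0 := by
    have hb : Measurable fun v => (c v).re / (M + 1) := (Complex.measurable_re.comp hc).div_const _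
    have hb1 : ∀ v, |(c v).re / (M + 1)| ≤ 1 := by
      intro v
      rw [abs_div, abs_of_pos hM1, div_le_one hM1]
      have := Complex.abs_re_le_norm (c v)
      have := hM v
      linarith
    have h1 := h _ hb hb1
    have h2 : ∫ v, (c v).re ^ 2 / (M + 1) ∂ν = 0 := by
      have h3 := integral_re (hint _ hb hb1)
      rw [h1, map_zero] at h3
      rw [← h3]
      refine integral_congr_ae (Eventually.of_forall fun v => ?_)
      simp only [RCLike.re_eq_complex_re, Complex.re_ofReal_mul]
      ring
    have h4 : Integrable (fun v => (c v).re ^ 2 / (M + 1)) ν := by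
      refine (hint _ hb hb1).re.congr (Eventually.of_forall fun v => ?_)
      simp only [RCLike.re_eq_complex_re, Complex.re_ofReal_mul]
      ring
    have h5 := (integral_eq_zero_iff_of_nonneg (fun v => by positivity) h4).1 h2
    filter_upwards [h5] with v hv
    have hv' : (c v).re ^ 2 / (M + 1) = 0 := hv
    rcases div_eq_zero_iff.1 hv' with h6 | h6
    · exact pow_eq_zero_iff (two_ne_zero) |>.1 h6
    · linarith
  have him : ∀ᵐ v ∂ν, (c v).im = 0 := by
    have hb : Measurable fun v => (c v).im / (M + 1) := (Complex.measurable_im.comp hc).div_const _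
    have hb1 : ∀ v, |(c v).im / (M + 1)| ≤ 1 := by
      intro v
      rw [abs_div, abs_of_pos hM1, div_le_one hM1]
      have := Complex.abs_im_le_norm (c v)
      have := hM v
      linarith
    have h1 := h _ hb hb1
    have h2 : ∫ v, (c v).im ^ 2 / (M + 1) ∂ν = 0 := by
      have h3 := integral_im (hint _ hb hb1)
      rw [h1, map_zero] at h3
      rw [← h3]
      refine integral_congr_ae (Eventually.of_forall fun v => ?_)
      simp only [RCLike.im_eq_complex_im, Complex.im_ofReal_mul]
      ring
    have h4 : Integrable (fun v => (c v).im ^ 2 / (M + 1)) ν := by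
      refine (hint _ hb hb1).im.congr (Eventually.of_forall fun v => ?_)
      simp only [RCLike.im_eq_complex_im, Complex.im_ofReal_mul]
      ring
    have h5 := (integral_eq_zero_iff_of_nonneg (fun v => by positivity) h4).1 h2
    filter_upwards [h5] with v hv
    have hv' : (c v).im ^ 2 / (M + 1) = 0 := hv
    rcases div_eq_zero_iff.1 hv' with h6 | h6
    · exact pow_eq_zero_iff (two_ne_zero) |>.1 h6
    · linarith
  filter_upwards [hre, him] with v h1 h2
  exact Complex.ext h1 h2

end CYC

open CYC in
theorem t_CYC (hX : T_XT) (hC : T_COV) (hO : T_ORT) (hS : T_SA) (hE : T_ETA) (hG : T_GZ)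
    (hN : T_NN) : T_CYC := by
  intro d U hU ν _ K hK i A hA V hPty
  obtain ⟨hadj, -, -⟩ := hX d U hU
  obtain ⟨-, -, -, -, hmeas⟩ := hC d
  have hudm : Measurable fun v : ℝ => ud V v := (ud_cont V).measurable
  have hAm : ∀ η : L2 d, StronglyMeasurable fun v => A (ud V v) η := fun η =>
    hmeas A hA.cov ℝ (fun v => ud V v) (fun _ => η) hudm stronglyMeasurable_const
  have hAn : ∀ (v : ℝ) (η : L2 d), ‖A (ud V v) η‖ ≤ 2 * ‖η‖ := fun v η =>
    (A (ud V v)).le_of_opNorm_le (hA.bdd _) η
  -- smooth vectors vanish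
  have key : ∀ b : ℝ → ℝ, Measurable b → (∀ v, |b v| ≤ 1) → ∀ φ : L2 d, Ort U V φ →
      ∫ v, ((b v : ℝ) : ℂ) * (inner ℂ (A (ud V v) (ee 0)) φ : ℂ) ∂ν = 0 := by
    intro b hb hb1
    obtain ⟨η, C, hsm, hφ⟩ := hE d U hU ν K hK i A hA V b hb hb1
    suffices hη : η = 0 by
      intro φ hφo
      rw [← hφ φ hφo, hη, inner_zero_left]
    have hY : ∀ v t, (inner ℂ (U (ud V v) (-t) (ee 0)) (A (ud V v) η) : ℂ) =
        inner ℂ (A (ud V v) (ee 0)) (U (ud V v) t η) := by
      intro v t
      rw [hadj, neg_neg, ← hA.com, ← hA.sa]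
    have h1 := hN (L2 d) ν (fun v t => U (ud V v) (-t) (ee 0)) (2 * Real.pi * K)
      (max (2 * ‖η‖) (|C| * 4)) (fun v => A (ud V v) η) ?_ ?_ ?_ ?_ ?_ ?_ ?_ ?_
    · -- conclusion
      have h2 : ∀ᵐ v ∂ν, (inner ℂ (A (ud V v) (ee 0)) η : ℂ) = 0 := by
        filter_upwards [h1] with v hv
        have h3 := hv 0
        rw [hY, hU.g0.zero] at h3
        exact h3
      have h3 : Ort U V η := by
        have h4 := (hO d U hU (ud V 0) η (hsm 0).ort (V 0) 0).2.1
        rwa [ud_ud, ud_self] at h4
      have h4 := hφ η h3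
      have h5 : ∫ v, ((b v : ℝ) : ℂ) * (inner ℂ (A (ud V v) (ee 0)) η : ℂ) ∂ν = 0 := by
        have h6 : (fun v => ((b v : ℝ) : ℂ) * (inner ℂ (A (ud V v) (ee 0)) η : ℂ)) =ᵐ[ν]
            fun _ => 0 := by
          filter_upwards [h2] with v hv
          rw [hv, mul_zero]
        rw [integral_congr_ae h6, integral_zero]
      rw [h5] at h4
      exact inner_self_eq_zero.1 h4
    · exact (hU.g0.cont (ee 0)).comp (((ud_cont V).comp continuous_fst).prodMk
        continuous_snd.neg)
    · intro v t
      rw [hU.g0.norm, norm_ee]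
    · intro a ha1 ha2
      exact hS d U hU ν K hK V a ha1 ha2
    · exact hAm η
    · intro v
      exact (hAn v η).trans (le_max_left _ _)
    · intro v
      simp only [hY]
      exact (hsm v).int _
    · intro v
      simp only [hY]
      refine ((hsm v).bd _).trans (le_trans ?_ (le_max_right _ _))
      have h2 : ‖A (ud V v) (ee 0)‖ ≤ 2 := by
        have := hAn v (ee 0)
        rwa [norm_ee, mul_one] at this
      have h3 : ‖A (ud V v) (ee 0)‖ ^ 2 ≤ 4 := by
        have := norm_nonneg (A (ud V v) (ee 0))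
        nlinarith
      calc C * ‖A (ud V v) (ee 0)‖ ^ 2 ≤ |C| * ‖A (ud V v) (ee 0)‖ ^ 2 :=
            mul_le_mul_of_nonneg_right (le_abs_self C) (by positivity)
        _ ≤ |C| * 4 := mul_le_mul_of_nonneg_left h3 (abs_nonneg C)
    · filter_upwards [hPty] with v hv
      obtain ⟨S, hSv⟩ := hv
      have h2 := hG d U hU ν K hK i A hA (ud V v) S hSv η C (hsm v)
      simp only [ud_ud] at h2
      simp only [hadj, neg_neg]
      exact h2
  -- the orthogonal complement of the cyclic space
  obtain ⟨W, hW⟩ : ∃ W : Submodule ℂ (L2 d), W =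
      (Submodule.span ℂ (Set.range fun t : ℝ => U V t (ee 0)))ᗮ := ⟨_, rfl⟩
  have hWO : ∀ φ, φ ∈ W ↔ Ort U V φ := by
    intro φ
    rw [hW, Submodule.mem_orthogonal]
    constructor
    · intro h t
      have h1 := h (U V (-t) (ee 0)) (Submodule.subset_span ⟨-t, rfl⟩)
      rwa [hadj, neg_neg] at h1
    · intro h u hu
      induction hu using Submodule.span_induction with
      | mem x hx =>
        obtain ⟨t, rfl⟩ := hx
        have h1 := h (-t)
        simp only
        rw [hadj]
        exact h1
      | zero => exact inner_zero_left _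
      | add x y _ _ hx hy => rw [inner_add_left, hx, hy, add_zero]
      | smul c x _ hx => rw [inner_smul_left, hx, mul_zero]
  have hWc : IsClosed (W : Set (L2 d)) := by
    rw [hW]
    exact Submodule.isClosed_orthogonal _
  have : CompleteSpace W := hWc.completeSpace_coe
  have hx : ∀ x : Sd d, ∀ᵐ v ∂ν,
      (inner ℂ (A (ud V v) (ee 0)) (W.starProjection (ee x)) : ℂ) = 0 := by
    intro x
    have hmem : Ort U V (W.starProjection (ee x)) :=
      (hWO _).1 (Submodule.starProjection_apply_mem W _)
    refine ae_zero ν _ ?_ (2 * ‖W.starProjection (ee x)‖) ?_ ?_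
    · exact ((hAm (ee 0)).inner stronglyMeasurable_const).measurable
    · intro v
      refine (norm_inner_le_norm _ _).trans ?_
      refine mul_le_mul_of_nonneg_right ?_ (norm_nonneg _)
      have := hAn v (ee 0)
      rwa [norm_ee, mul_one] at this
    · intro b hb hb1
      exact key b hb hb1 _ hmem
  rw [← ae_all_iff] at hx
  filter_upwards [hx] with v hv φ hφ
  have hφW : W.starProjection φ = φ := (Submodule.starProjection_eq_self_iff).2 ((hWO φ).2 hφ)
  rw [← hφW, ← Submodule.inner_starProjection_left_eq_right]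
  have h0 : W.starProjection (A (ud V v) (ee 0)) = 0 := by
    ext x
    have h1 := hv x
    rw [← Submodule.inner_starProjection_left_eq_right, ← inner_conj_symm, inner_ee] at h1
    have h2 := congrArg (starRingEnd ℂ) h1
    rw [Complex.conj_conj, map_zero] at h2
    exact h2
  rw [h0, inner_zero_left]

end Pool.Agent.T2h98.NB
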