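import Pool.Agent.T2h98.NB.Stm

/-! No ballistic motion: the effect of the new value at the origin. -/

set_option autoImplicit false

open scoped BigOperators Topology ENNReal InnerProductSpace
open MeasureTheory Filter

namespace Pool.Agent.T2h98.NB

namespace DEC

theorem cs {α : Type} [MeasurableSpace α] (μ : Measure α) [IsFiniteMeasure μ] (k : α → ℝ)
    (h1 : Integrable k μ) (h2 : Integrable (fun a => k a ^ 2) μ) :
    (∫ a, k a ∂μ) ^ 2 ≤ μ.real Set.univ * ∫ a, k a ^ 2 ∂μ := by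
  set m := μ.real Set.univ with hm
  set I := ∫ a, k a ∂μ with hI
  have h : 0 ≤ ∫ a, (m * k a - I) ^ 2 ∂μ := integral_nonneg fun a => sq_nonneg _
  have e : ∫ a, (m * k a - I) ^ 2 ∂μ = m * (m * ∫ a, k a ^ 2 ∂μ - I ^ 2) := by
    have e1 : (fun a => (m * k a - I) ^ 2) =
        fun a => m ^ 2 * k a ^ 2 - 2 * m * I * k a + I ^ 2 := by ext; ring
    have i1 : Integrable (fun a => m ^ 2 * k a ^ 2) μ := h2.const_mul _
    have i2 : Integrable (fun a => 2 * m * I * k a) μ := h1.const_mul _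
    have i3 : Integrable (fun a => m ^ 2 * k a ^ 2 - 2 * m * I * k a) μ := i1.sub i2
    rw [e1, integral_add i3 (integrable_const _), integral_sub i1 i2, integral_const_mul,
      integral_const_mul, integral_const, ← hI, ← hm, smul_eq_mul]
    ring
  rw [e] at h
  have hm0 : 0 ≤ m := measureReal_nonneg
  rcases hm0.eq_or_lt with h0 | h0
  · have h3 : μ = 0 := by
      rw [← Measure.measure_univ_eq_zero]
      exact (measureReal_eq_zero_iff).1 h0.symm
    have h4 : I = 0 := by rw [hI, h3, integral_zero_measure]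
    rw [h4, ← h0]
    simp
  · have := nonneg_of_mul_nonneg_right h h0
    linarith

variable {d : ℕ}

theorem meas_ud (V : Om d) : Measurable fun v : ℝ => ud V v := by
  unfold ud
  exact measurable_update V

/-- the measure on the pairs of times -/
noncomputable def mu2 (τ : ℝ) : Measure (ℝ × ℝ) :=
  (volume.restrict (Set.Ioc 0 τ)).prod (volume.restrict (Set.Ioc (-τ) 0))

instance (τ : ℝ) : IsFiniteMeasure (mu2 τ) := by unfold mu2; infer_instance

theorem mu2_univ {τ : ℝ} (hτ : 0 ≤ τ) : (mu2 τ).real Set.univ = τ * τ := by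
  unfold mu2
  rw [← Set.univ_prod_univ, measureReal_prod_prod]
  simp [hτ]

/-- the kernel -/
noncomputable def kk (U : Om d → ℝ → L2 d →L[ℂ] L2 d) (i : Fin d) (V : Om d) (φ : L2 d) (t : ℝ)
    (p : ℝ × ℝ) : ℝ := ‖(inner ℂ (vel i (U V (-p.2) (ee 0))) (U V (p.1 + t) φ) : ℂ)‖

theorem cont1 {U : Om d → ℝ → L2 d →L[ℂ] L2 d} (hU : Gr0 U) (V : Om d) (f : L2 d) :
    Continuous fun t : ℝ => U V t f :=
  (hU.cont f).comp (Continuous.prodMk continuous_const continuous_id)

theorem cont2 {U : Om d → ℝ → L2 d →L[ℂ] L2 d} (hU : Gr0 U) (V : Om d) (s : ℝ → ℝ)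
    (hs : Continuous s) (g : ℝ → L2 d) (hg : Continuous g) :
    Continuous fun t : ℝ => U V (s t) (g t) := by
  rw [continuous_iff_continuousAt]
  intro t0
  unfold ContinuousAt
  rw [tendsto_iff_norm_sub_tendsto_zero]
  have h1 : Tendsto (fun t => ‖g t - g t0‖ + ‖U V (s t) (g t0) - U V (s t0) (g t0)‖) (𝓝 t0)
      (𝓝 (0 + 0)) := by
    refine Tendsto.add ?_ ?_
    · exact tendsto_iff_norm_sub_tendsto_zero.1 hg.continuousAt
    · exact tendsto_iff_norm_sub_tendsto_zero.1
        ((cont1 hU V (g t0)).comp hs).continuousAt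
  rw [add_zero] at h1
  refine squeeze_zero (fun _ => norm_nonneg _) (fun t => ?_) h1
  have e : U V (s t) (g t) - U V (s t0) (g t0) =
      U V (s t) (g t - g t0) + (U V (s t) (g t0) - U V (s t0) (g t0)) := by
    rw [map_sub]; abel
  rw [e]
  refine (norm_add_le _ _).trans ?_
  rw [hU.norm]

theorem kk_cont {U : Om d → ℝ → L2 d →L[ℂ] L2 d} (hU : Gr0 U) (i : Fin d) (V : Om d) (φ : L2 d) :
    Continuous fun q : ℝ × (ℝ × ℝ) => kk U i V φ q.1 q.2 := by
  unfold kk
  refine Continuous.norm (Continuous.inner ?_ ?_)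
  · exact (vel i).continuous.comp ((cont1 hU V (ee 0)).comp (by fun_prop))
  · exact (cont1 hU V φ).comp (by fun_prop)

theorem kk_c1 {U : Om d → ℝ → L2 d →L[ℂ] L2 d} (hU : Gr0 U) (i : Fin d) (V : Om d) (φ : L2 d)
    (t : ℝ) : Continuous fun p : ℝ × ℝ => kk U i V φ t p :=
  (kk_cont hU i V φ).comp (f := fun p : ℝ × ℝ => (t, p)) (by fun_prop)

theorem kk_c2 {U : Om d → ℝ → L2 d →L[ℂ] L2 d} (hU : Gr0 U) (i : Fin d) (V : Om d) (φ : L2 d)
    (p : ℝ × ℝ) : Continuous fun t : ℝ => kk U i V φ t p :=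
  (kk_cont hU i V φ).comp (f := fun t : ℝ => (t, p)) (by fun_prop)

theorem kk_le (hV : T_VEL) {U : Om d → ℝ → L2 d →L[ℂ] L2 d} (hU : Gr0 U) (i : Fin d) (V : Om d)
    (φ : L2 d) (t : ℝ) (p : ℝ × ℝ) : kk U i V φ t p ≤ 2 * ‖φ‖ := by
  unfold kk
  refine (norm_inner_le_norm _ _).trans ?_
  rw [hU.norm]
  refine mul_le_mul_of_nonneg_right ?_ (norm_nonneg _)
  have := (hV d i).1 (U V (-p.2) (ee 0))
  rwa [hU.norm, norm_ee, mul_one] at this

theorem duh1 (hX : T_XT) {U : Om d → ℝ → L2 d →L[ℂ] L2 d} (hU : Grp U) (V : Om d) (v s : ℝ)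
    (hs : 0 ≤ s) (f : L2 d) :
    ‖U (ud V v) (-s) f - U V (-s) f‖ ≤
      |v - V 0| * ∫ u in (-s)..0, ‖(inner ℂ (ee 0) (U V u f) : ℂ)‖ := by
  obtain ⟨-, x2, -⟩ := hX d U hU
  have h := hU.duh V v (-s) f
  have h2 := congrArg (fun g => U (ud V v) (-s) g) h
  rw [neg_neg, x2, map_add, map_smul] at h2
  have e : U (ud V v) (-s) f - U V (-s) f = -((Complex.I * ((v - V 0 : ℝ) : ℂ)) •
      U (ud V v) (-s) (∫ u in (0 : ℝ)..(-s), (inner ℂ (ee 0) (U V u f) : ℂ) •
        U (ud V v) (-u) (ee 0))) := by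
    rw [h2]; abel
  rw [e, norm_neg, norm_smul, hU.g0.norm, norm_mul, Complex.norm_I, one_mul, Complex.norm_real,
    Real.norm_eq_abs]
  refine mul_le_mul_of_nonneg_left ?_ (abs_nonneg _)
  rw [intervalIntegral.integral_symm, norm_neg]
  refine (intervalIntegral.norm_integral_le_integral_norm (by linarith)).trans_eq ?_
  refine intervalIntegral.integral_congr fun u _ => ?_
  show ‖_ • _‖ = _
  rw [norm_smul, hU.g0.norm, norm_ee, mul_one]

set_option maxHeartbeats 1000000 in
theorem diff_bound (hX : T_XT) (hV : T_VEL) (hO : T_ORT) {U : Om d → ℝ → L2 d →L[ℂ] L2 d}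
    (hU : Grp U) (i : Fin d) (V : Om d) (φ : L2 d) (hφ : Ort U V φ) (τ : ℝ) (hτ : 0 ≤ τ)
    (v t : ℝ) :
    ‖XT U i (ud V v) τ (U V t φ) - XT U i V τ (U V t φ)‖ ≤
      |v - V 0| * ∫ p, kk U i V φ t p ∂(mu2 τ) := by
  obtain ⟨x1, -, -, x4, -⟩ := hX d U hU
  have ort : Ort U V (U V t φ) := (hO d U hU V φ hφ 0 t).2.2
  have hs : ∀ s, U (ud V v) s (U V t φ) = U V s (U V t φ) := fun s => (hO d U hU V _ ort v s).1
  have hadd : ∀ s, U V s (U V t φ) = U V (s + t) φ := fun s => (hU.g0.add V s t φ).symm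
  rw [x4, x4]
  unfold Xt
  simp only [hs, hadd]
  have hg : Continuous fun s : ℝ => vel i (U V (s + t) φ) :=
    (vel i).continuous.comp ((cont1 hU.g0 V φ).comp (by fun_prop))
  have hc1 : Continuous fun s : ℝ => U (ud V v) (-s) (vel i (U V (s + t) φ)) :=
    cont2 hU.g0 _ _ (by fun_prop) _ hg
  have hc2 : Continuous fun s : ℝ => U V (-s) (vel i (U V (s + t) φ)) :=
    cont2 hU.g0 _ _ (by fun_prop) _ hg
  rw [← intervalIntegral.integral_sub (hc1.intervalIntegrable _ _) (hc2.intervalIntegrable _ _)]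
  refine (intervalIntegral.norm_integral_le_integral_norm hτ).trans ?_
  have hk := kk_cont hU.g0 i V φ
  have hint : Integrable (fun p => kk U i V φ t p) (mu2 τ) := by
    refine Integrable.of_bound (C := 2 * ‖φ‖) ?_ ?_
    · exact (kk_c1 hU.g0 i V φ t).aestronglyMeasurable
    · refine Eventually.of_forall fun p => ?_
      rw [Real.norm_of_nonneg (by unfold kk; exact norm_nonneg _)]
      exact kk_le hV hU.g0 i V φ t p
  have e1 : ∫ p, kk U i V φ t p ∂(mu2 τ) =
      ∫ s in (0 : ℝ)..τ, ∫ u in (-τ)..0, kk U i V φ t (s, u) := by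
    unfold mu2 at hint ⊢
    rw [integral_prod _ hint, intervalIntegral.integral_of_le hτ]
    refine integral_congr_ae (Eventually.of_forall fun s => ?_)
    show _ = ∫ u in (-τ)..0, kk U i V φ t (s, u)
    rw [intervalIntegral.integral_of_le (by linarith)]
  rw [e1, ← intervalIntegral.integral_const_mul]
  have hpc : Continuous fun s : ℝ => ∫ u in (-τ)..0, kk U i V φ t (s, u) := by
    refine intervalIntegral.continuous_parametric_intervalIntegral_of_continuous'
      (f := fun s u => kk U i V φ t (s, u)) ?_ _ _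
    exact hk.comp (f := fun q : ℝ × ℝ => (t, (q.1, q.2))) (by fun_prop)
  refine intervalIntegral.integral_mono_on hτ ((hc1.sub hc2).norm.intervalIntegrable _ _)
    ((continuous_const.mul hpc).intervalIntegrable _ _) fun s hs => ?_
  refine (duh1 hX hU V v s hs.1 _).trans ?_
  refine mul_le_mul_of_nonneg_left ?_ (abs_nonneg _)
  have e2 : ∀ u : ℝ, ‖(inner ℂ (ee 0) (U V u (vel i (U V (s + t) φ))) : ℂ)‖ =
      kk U i V φ t (s, u) := by
    intro u
    unfold kk
    have a1 := x1 V (-u) (ee 0) (vel i (U V (s + t) φ))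
    rw [neg_neg] at a1
    rw [← a1, ← (hV d i).2.1]
  simp only [e2]
  have hku : Continuous fun u : ℝ => kk U i V φ t (s, u) :=
    hk.comp (f := fun u : ℝ => (t, (s, u))) (by fun_prop)
  refine intervalIntegral.integral_mono_interval (by linarith [hs.2]) (by linarith [hs.1]) le_rfl
    (Eventually.of_forall fun u => ?_) (hku.intervalIntegrable _ _)
  show 0 ≤ kk U i V φ t (s, u)
  unfold kk
  exact norm_nonneg _

theorem ms (hV : T_VEL) {U : Om d → ℝ → L2 d →L[ℂ] L2 d} (hU : Grp U) (i : Fin d) (V : Om d)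
    (φ : L2 d) (C : ℝ) (hS : Smo U V φ C) (τ : ℝ) (hτ : 0 ≤ τ) (S : ℝ) (hS0 : 0 ≤ S) :
    ∫ t in (-S)..S, (∫ p, kk U i V φ t p ∂(mu2 τ)) ^ 2 ≤ τ * τ * (τ * τ * (4 * |C|)) := by
  have hk := kk_cont hU.g0 i V φ
  have hk0 : ∀ t p, 0 ≤ kk U i V φ t p := fun t p => by unfold kk; exact norm_nonneg _
  have hb := kk_le hV hU.g0 i V φ
  have hint : ∀ t, Integrable (fun p => kk U i V φ t p) (mu2 τ) := fun t => by
    refine Integrable.of_bound (C := 2 * ‖φ‖) ?_ (Eventually.of_forall fun p => ?_)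
    · exact (kk_c1 hU.g0 i V φ t).aestronglyMeasurable
    · rw [Real.norm_of_nonneg (hk0 _ _)]
      exact hb t p
  have hint2 : ∀ t, Integrable (fun p => kk U i V φ t p ^ 2) (mu2 τ) := fun t => by
    refine Integrable.of_bound (C := (2 * ‖φ‖) ^ 2) ?_ (Eventually.of_forall fun p => ?_)
    · exact ((kk_c1 hU.g0 i V φ t).pow 2).aestronglyMeasurable
    · rw [Real.norm_of_nonneg (sq_nonneg _)]
      exact pow_le_pow_left₀ (hk0 _ _) (hb t p) 2
  rw [intervalIntegral.integral_of_le (by linarith)]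
  have hI : Integrable (Function.uncurry fun (t : ℝ) (p : ℝ × ℝ) => kk U i V φ t p ^ 2)
      ((volume.restrict (Set.Ioc (-S) S)).prod (mu2 τ)) := by
    refine Integrable.of_bound (C := (2 * ‖φ‖) ^ 2) ?_ (Eventually.of_forall fun q => ?_)
    · exact (hk.pow 2).aestronglyMeasurable
    · show ‖kk U i V φ q.1 q.2 ^ 2‖ ≤ _
      rw [Real.norm_of_nonneg (sq_nonneg _)]
      exact pow_le_pow_left₀ (hk0 _ _) (hb q.1 q.2) 2
  calc ∫ t in Set.Ioc (-S) S, (∫ p, kk U i V φ t p ∂(mu2 τ)) ^ 2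
      ≤ ∫ t in Set.Ioc (-S) S, τ * τ * ∫ p, kk U i V φ t p ^ 2 ∂(mu2 τ) := by
        refine integral_mono_of_nonneg (Eventually.of_forall fun t => sq_nonneg _)
          (hI.integral_prod_left.const_mul _) (Eventually.of_forall fun t => ?_)
        have := cs (mu2 τ) (fun p => kk U i V φ t p) (hint t) (hint2 t)
        rwa [mu2_univ hτ] at this
    _ = τ * τ * ∫ p, (∫ t in Set.Ioc (-S) S, kk U i V φ t p ^ 2) ∂(mu2 τ) := by
        rw [integral_const_mul, integral_integral_swap hI]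
    _ ≤ τ * τ * ∫ p, 4 * |C| ∂(mu2 τ) := by
        refine mul_le_mul_of_nonneg_left ?_ (by positivity)
        refine integral_mono_of_nonneg (Eventually.of_forall fun p =>
          integral_nonneg fun t => sq_nonneg _) (integrable_const _)
          (Eventually.of_forall fun p => ?_)
        show ∫ t in Set.Ioc (-S) S, kk U i V φ t p ^ 2 ≤ 4 * |C|
        set χ : L2 d := vel i (U V (-p.2) (ee 0)) with hχ
        have hχ2 : ‖χ‖ ≤ 2 := by
          have := (hV d i).1 (U V (-p.2) (ee 0))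
          rwa [hU.g0.norm, norm_ee, mul_one] at this
        have a1 := (hS.int χ).comp_add_left p.1
        have a2 := hS.bd χ
        rw [← integral_add_left_eq_self _ p.1] at a2
        refine (setIntegral_le_integral a1 (Eventually.of_forall fun t => sq_nonneg _)).trans ?_
        refine a2.trans ?_
        calc C * ‖χ‖ ^ 2 ≤ |C| * ‖χ‖ ^ 2 :=
              mul_le_mul_of_nonneg_right (le_abs_self C) (sq_nonneg _)
          _ ≤ |C| * 4 := by
              refine mul_le_mul_of_nonneg_left ?_ (abs_nonneg _)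
              nlinarith [norm_nonneg χ]
          _ = 4 * |C| := mul_comm _ _
    _ = _ := by rw [integral_const, smul_eq_mul, mu2_univ hτ]

theorem h_cont (hV : T_VEL) {U : Om d → ℝ → L2 d →L[ℂ] L2 d} (hU : Grp U) (i : Fin d) (V : Om d)
    (φ : L2 d) (τ : ℝ) : Continuous fun t : ℝ => ∫ p, kk U i V φ t p ∂(mu2 τ) := by
  refine continuous_of_dominated (bound := fun _ => 2 * ‖φ‖)
    (fun t => (kk_c1 hU.g0 i V φ t).aestronglyMeasurable)
    (fun t => Eventually.of_forall fun p => ?_) (integrable_const _)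
    (Eventually.of_forall fun p => kk_c2 hU.g0 i V φ p)
  rw [Real.norm_of_nonneg (by unfold kk; exact norm_nonneg _)]
  exact kk_le hV hU.g0 i V φ t p

end DEC

open DEC in
set_option maxHeartbeats 1000000 in
theorem dec (hX : T_XT) (hV : T_VEL) (hO : T_ORT) : T_DEC := by
  intro d U hU ν _ i A hA V S hS φ C hφ R
  obtain ⟨-, -, -, -, x5, -, -, x8, -⟩ := id (hX d U hU)
  have hort : ∀ v t, U (ud V v) t φ = U V t φ := fun v t => (hO d U hU V φ hφ.ort v t).1
  set M : ℝ := |R| + |V 0| with hM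
  have hM0 : 0 ≤ M := by positivity
  -- norms of `Bf`
  have hBf : ∀ (τ : ℝ), 1 ≤ τ → ∀ (W : Om d) (t : ℝ), ‖Bf U i A τ W (U V t φ)‖ ≤ 4 * ‖φ‖ := by
    intro τ hτ W t
    unfold Bf
    refine (norm_sub_le _ _).trans ?_
    have h1 : ‖A W (U V t φ)‖ ≤ 2 * ‖φ‖ := by
      refine ((A W).le_opNorm _).trans ?_
      rw [hU.g0.norm]
      exact mul_le_mul_of_nonneg_right (hA.bdd W) (norm_nonneg _)
    have h2 : ‖τ⁻¹ • XT U i W τ (U V t φ)‖ ≤ 2 * ‖φ‖ := by
      rw [norm_smul, norm_inv, Real.norm_of_nonneg (by linarith), inv_mul_le_iff₀ (by linarith)]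
      refine ((XT U i W τ).le_opNorm _).trans ?_
      rw [hU.g0.norm]
      have := x5 i W τ
      rw [abs_of_nonneg (by linarith)] at this
      nlinarith [norm_nonneg φ]
    linarith
  -- measurability in `v`
  have hBm : ∀ (τ t : ℝ), StronglyMeasurable fun v : ℝ => Bf U i A τ (ud V v) (U V t φ) := by
    intro τ t
    unfold Bf
    exact ((hA.cov.meas _).comp_measurable (meas_ud V)).sub
      ((((x8 i τ).meas _).comp_measurable (meas_ud V)).const_smul τ⁻¹)
  have hBi : ∀ (τ : ℝ), 1 ≤ τ → ∀ t : ℝ,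
      Integrable (fun v : ℝ => ‖Bf U i A τ (ud V v) (U V t φ)‖ ^ 2) ν := by
    intro τ hτ t
    refine Integrable.of_bound (C := (4 * ‖φ‖) ^ 2)
      ((hBm τ t).norm.pow 2).aestronglyMeasurable (Eventually.of_forall fun v => ?_)
    rw [Real.norm_of_nonneg (sq_nonneg _)]
    exact pow_le_pow_left₀ (norm_nonneg _) (hBf τ hτ _ t) 2
  -- the main bound
  have main : ∀ (τ : ℝ), 1 ≤ τ → ∀ t : ℝ,
      ∫ v in Set.Icc (-R) R, ‖A (ud V v) (U V t φ) - A V (U V t φ)‖ ^ 2 ∂ν ≤
      3 * (‖Bf U i A τ V (U V t φ)‖ ^ 2 +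
        ∫ v, ‖Bf U i A τ (ud V v) (U (ud V v) t φ)‖ ^ 2 ∂ν) +
      3 * M ^ 2 * (∫ p, kk U i V φ t p ∂(mu2 τ)) ^ 2 := by
    intro τ hτ t
    simp only [hort]
    set h := ∫ p, kk U i V φ t p ∂(mu2 τ) with hh
    set b := ‖Bf U i A τ V (U V t φ)‖ ^ 2 with hb
    have hpt : ∀ v ∈ Set.Icc (-R) R, ‖A (ud V v) (U V t φ) - A V (U V t φ)‖ ^ 2 ≤
        3 * ‖Bf U i A τ (ud V v) (U V t φ)‖ ^ 2 + (3 * b + 3 * M ^ 2 * h ^ 2) := by
      intro v hv
      have e : A (ud V v) (U V t φ) - A V (U V t φ) =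
          Bf U i A τ (ud V v) (U V t φ) - Bf U i A τ V (U V t φ) +
          τ⁻¹ • (XT U i (ud V v) τ (U V t φ) - XT U i V τ (U V t φ)) := by
        unfold Bf
        rw [smul_sub]
        abel
      have h1 : ‖τ⁻¹ • (XT U i (ud V v) τ (U V t φ) - XT U i V τ (U V t φ))‖ ≤ M * h := by
        rw [norm_smul, norm_inv, Real.norm_of_nonneg (by linarith)]
        have h2 := diff_bound hX hV hO hU i V φ hφ.ort τ (by linarith) v t
        have h3 : |v - V 0| ≤ M := by
          refine (abs_sub _ _).trans ?_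
          have : |v| ≤ |R| := abs_le_abs hv.2 (by linarith [hv.1])
          linarith
        have h4 : 0 ≤ h := integral_nonneg fun p => by unfold kk; exact norm_nonneg _
        calc τ⁻¹ * _ ≤ 1 * (|v - V 0| * h) :=
              mul_le_mul (inv_le_one_of_one_le₀ hτ) h2 (norm_nonneg _) zero_le_one
          _ ≤ M * h := by rw [one_mul]; exact mul_le_mul_of_nonneg_right h3 h4
      have h5 : ‖A (ud V v) (U V t φ) - A V (U V t φ)‖ ≤
          ‖Bf U i A τ (ud V v) (U V t φ)‖ + ‖Bf U i A τ V (U V t φ)‖ + M * h := by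
        rw [e]
        refine (norm_add_le _ _).trans ?_
        exact add_le_add (norm_sub_le _ _) h1
      have h6 := pow_le_pow_left₀ (norm_nonneg _) h5 2
      refine h6.trans ?_
      rw [hb]
      nlinarith [sq_nonneg (‖Bf U i A τ (ud V v) (U V t φ)‖ - ‖Bf U i A τ V (U V t φ)‖),
        sq_nonneg (‖Bf U i A τ (ud V v) (U V t φ)‖ - M * h),
        sq_nonneg (‖Bf U i A τ V (U V t φ)‖ - M * h)]
    have hcn : 0 ≤ 3 * b + 3 * M ^ 2 * h ^ 2 := by positivity
    calc ∫ v in Set.Icc (-R) R, ‖A (ud V v) (U V t φ) - A V (U V t φ)‖ ^ 2 ∂ν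
        ≤ ∫ v in Set.Icc (-R) R, (3 * ‖Bf U i A τ (ud V v) (U V t φ)‖ ^ 2 +
            (3 * b + 3 * M ^ 2 * h ^ 2)) ∂ν := by
          refine integral_mono_of_nonneg (Eventually.of_forall fun v => sq_nonneg _)
            ((((hBi τ hτ t).const_mul 3).add (integrable_const _)).integrableOn) ?_
          exact (ae_restrict_mem measurableSet_Icc).mono fun v hv => hpt v hv
      _ ≤ ∫ v, (3 * ‖Bf U i A τ (ud V v) (U V t φ)‖ ^ 2 +
            (3 * b + 3 * M ^ 2 * h ^ 2)) ∂ν :=
          setIntegral_le_integral (((hBi τ hτ t).const_mul 3).add (integrable_const _))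
            (Eventually.of_forall fun v => by
              show 0 ≤ 3 * ‖Bf U i A τ (ud V v) (U V t φ)‖ ^ 2 + (3 * b + 3 * M ^ 2 * h ^ 2)
              positivity)
      _ = _ := by
          rw [integral_add ((hBi τ hτ t).const_mul 3) (integrable_const _), integral_const_mul,
            integral_const, probReal_univ, one_smul]
          ring
  -- continuity in `t`
  have hG : ∀ (τ : ℝ), 1 ≤ τ → Continuous fun t : ℝ => ‖Bf U i A τ V (U V t φ)‖ ^ 2 +
      ∫ v, ‖Bf U i A τ (ud V v) (U (ud V v) t φ)‖ ^ 2 ∂ν := by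
    intro τ hτ
    simp only [hort]
    have hBc : ∀ W : Om d, Continuous fun t : ℝ => Bf U i A τ W (U V t φ) := by
      intro W
      unfold Bf
      exact ((A W).continuous.comp (cont1 hU.g0 V φ)).sub
        (((XT U i W τ).continuous.comp (cont1 hU.g0 V φ)).const_smul τ⁻¹)
    refine ((hBc V).norm.pow 2).add ?_
    refine continuous_of_dominated (bound := fun _ => (4 * ‖φ‖) ^ 2)
      (fun t => ((hBm τ t).norm.pow 2).aestronglyMeasurable)
      (fun t => Eventually.of_forall fun v => ?_) (integrable_const _)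
      (Eventually.of_forall fun v => (hBc _).norm.pow 2)
    rw [Real.norm_of_nonneg (sq_nonneg _)]
    exact pow_le_pow_left₀ (norm_nonneg _) (hBf τ hτ _ t) 2
  rw [Metric.tendsto_atTop]
  intro ε hε
  obtain ⟨τ, hτ, hsm⟩ := hS.small φ (ε / 6) (by positivity)
  set K : ℝ := 3 * M ^ 2 * (τ * τ * (τ * τ * (4 * |C|))) with hK
  have hK0 : 0 ≤ K := by positivity
  obtain ⟨N, hN⟩ := (tendsto_atTop.1 hS.top (4 * (K + 1) / ε)).exists_forall_of_atTop
  refine ⟨N, fun n hn => ?_⟩
  have hSn := hN n hn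
  have h1 := hS.one n
  have hS0 : 0 < S n := by linarith
  rw [Real.dist_eq, sub_zero, abs_of_nonneg]
  · have hle : ∫ t in (-(S n))..(S n),
        ∫ v in Set.Icc (-R) R, ‖A (ud V v) (U V t φ) - A V (U V t φ)‖ ^ 2 ∂ν ≤
        3 * (∫ t in (-(S n))..(S n), (‖Bf U i A τ V (U V t φ)‖ ^ 2 +
          ∫ v, ‖Bf U i A τ (ud V v) (U (ud V v) t φ)‖ ^ 2 ∂ν)) + K := by
      have hi1 := (((hG τ hτ).const_mul 3)).intervalIntegrable (μ := volume) (-(S n)) (S n)
      have hi2 := (continuous_const.mul ((h_cont hV hU i V φ τ).pow 2) :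
        Continuous fun t : ℝ => 3 * M ^ 2 * (∫ p, kk U i V φ t p ∂(mu2 τ)) ^ 2).intervalIntegrable
          (μ := volume) (-(S n)) (S n)
      have hms := ms hV hU i V φ C hφ τ (by linarith) (S n) hS0.le
      calc _ ≤ ∫ t in (-(S n))..(S n), (3 * (‖Bf U i A τ V (U V t φ)‖ ^ 2 +
              ∫ v, ‖Bf U i A τ (ud V v) (U (ud V v) t φ)‖ ^ 2 ∂ν) +
            3 * M ^ 2 * (∫ p, kk U i V φ t p ∂(mu2 τ)) ^ 2) := by
            rw [intervalIntegral.integral_of_le (by linarith),
              intervalIntegral.integral_of_le (by linarith)]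
            refine integral_mono_of_nonneg (Eventually.of_forall fun t =>
              integral_nonneg fun v => sq_nonneg _) ?_ (Eventually.of_forall fun t => main τ hτ t)
            have := hi1.add hi2
            rwa [intervalIntegrable_iff_integrableOn_Ioc_of_le (by linarith)] at this
        _ = _ := intervalIntegral.integral_add hi1 hi2
        _ ≤ _ := by
            rw [intervalIntegral.integral_const_mul, intervalIntegral.integral_const_mul]
            refine add_le_add le_rfl ?_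
            rw [hK]
            exact mul_le_mul_of_nonneg_left hms (by positivity)
    have h2 := hsm n
    have h3 : (S n)⁻¹ * K < ε / 2 := by
      rw [inv_mul_lt_iff₀ hS0]
      rw [div_le_iff₀ hε] at hSn
      nlinarith
    calc _ ≤ (S n)⁻¹ * (3 * (∫ t in (-(S n))..(S n), (‖Bf U i A τ V (U V t φ)‖ ^ 2 +
          ∫ v, ‖Bf U i A τ (ud V v) (U (ud V v) t φ)‖ ^ 2 ∂ν)) + K) :=
          mul_le_mul_of_nonneg_left hle (by positivity)
      _ = 3 * ((S n)⁻¹ * ∫ t in (-(S n))..(S n), (‖Bf U i A τ V (U V t φ)‖ ^ 2 +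
          ∫ v, ‖Bf U i A τ (ud V v) (U (ud V v) t φ)‖ ^ 2 ∂ν)) + (S n)⁻¹ * K := by ring
      _ < ε := by linarith
  · refine mul_nonneg (by positivity) ?_
    exact intervalIntegral.integral_nonneg (by linarith) fun t _ =>
      integral_nonneg fun v => sq_nonneg _

end Pool.Agent.T2h98.NB
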