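import Pool.Agent.T2h98.NB.Stm

/-! Smooth vectors made by averaging over the value at the origin (task NB-ETA). -/

set_option autoImplicit false

open scoped BigOperators Topology ENNReal InnerProductSpace
open MeasureTheory ProbabilityTheory Filter
open Pool.Agent.TH980.IM.PR (PP sh)

namespace Pool.Agent.T2h98.NB

namespace ETA

theorem kbound {E : Type*} [NormedAddCommGroup E] [InnerProductSpace ℂ E] [CompleteSpace E]
    (ν : Measure ℝ) [IsProbabilityMeasure ν] (Y : ℝ → ℝ → E)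
    (hY : Continuous fun p : ℝ × ℝ => Y p.1 p.2)
    (hY1 : ∀ v t, ‖Y v t‖ ≤ 1) (K : ℝ) (hK : 0 ≤ K)
    (hS : ∀ a : ℝ → ℂ, Integrable a → MemLp a 2 →
      ∫ v, ‖∫ t, a t • Y v t‖ ^ 2 ∂ν ≤ K * ∫ t, ‖a t‖ ^ 2)
    (ψ : ℝ → E) (hψ : StronglyMeasurable ψ) (c : ℝ) (hψc : ∀ v, ‖ψ v‖ ≤ c)
    (k : ℝ → ℂ) (hk : Continuous k) (hkk : ∀ t, k t = ∫ v, (inner ℂ (Y v t) (ψ v) : ℂ) ∂ν) :
    Integrable (fun t => ‖k t‖ ^ 2) ∧ ∫ t, ‖k t‖ ^ 2 ≤ K * c ^ 2 := by
  have hc : 0 ≤ c := (norm_nonneg _).trans (hψc 0)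
  have hk2 : Continuous fun t => ‖k t‖ ^ 2 := (hk.norm).pow 2
  have hYm : StronglyMeasurable fun p : ℝ × ℝ => Y p.1 p.2 := hY.stronglyMeasurable
  have main : ∀ n : ℕ, ∫ t in (-(n : ℝ))..n, ‖k t‖ ^ 2 ≤ K * c ^ 2 := by
    intro n
    have hn : (-(n : ℝ)) ≤ n := by
      have : (0 : ℝ) ≤ n := Nat.cast_nonneg n
      linarith
    set S : Set ℝ := Set.Ioc (-(n : ℝ)) n with hSdef
    have hSm : MeasurableSet S := measurableSet_Ioc
    set a : ℝ → ℂ := S.indicator k with ha
    have hkon : IntegrableOn k S := (hk.integrableOn_Icc).mono_set Set.Ioc_subset_Icc_self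
    have hai : Integrable a := hkon.integrable_indicator hSm
    obtain ⟨B, hB⟩ := (isCompact_Icc (a := (-(n : ℝ))) (b := (n : ℝ))).exists_bound_of_continuousOn
      hk.continuousOn
    have hB0 : ∀ t ∈ S, ‖k t‖ ≤ B := fun t ht => hB t (Set.Ioc_subset_Icc_self ht)
    have ham : MemLp a 2 := by
      rw [ha, memLp_indicator_iff_restrict hSm]
      have : IsFiniteMeasure (volume.restrict S) := ⟨by
        rw [Measure.restrict_apply_univ, hSdef]; exact measure_Ioc_lt_top⟩
      exact MemLp.of_bound hk.aestronglyMeasurable B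
        ((ae_restrict_iff' hSm).2 (Eventually.of_forall hB0))
    have hnorm : ∀ t, ‖a t‖ ^ 2 = S.indicator (fun t => ‖k t‖ ^ 2) t := by
      intro t
      by_cases ht : t ∈ S
      · rw [ha, Set.indicator_of_mem ht, Set.indicator_of_mem ht]
      · rw [ha, Set.indicator_of_notMem ht, Set.indicator_of_notMem ht]; simp
    have hI : ∫ t in (-(n : ℝ))..n, ‖k t‖ ^ 2 = ∫ t, ‖a t‖ ^ 2 := by
      rw [intervalIntegral.integral_of_le hn, ← integral_indicator hSm]
      exact integral_congr_ae (Eventually.of_forall fun t => (hnorm t).symm)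
    set I : ℝ := ∫ t, ‖a t‖ ^ 2 with hIdef
    have hI0 : 0 ≤ I := integral_nonneg fun t => by positivity
    set Z : ℝ → E := fun v => ∫ t, a t • Y v t with hZ
    have ham' : StronglyMeasurable a := hk.stronglyMeasurable.indicator hSm
    have hFm : StronglyMeasurable fun p : ℝ × ℝ => a p.2 • Y p.1 p.2 :=
      (ham'.comp_measurable measurable_snd).smul hYm
    have hZm : StronglyMeasurable Z := StronglyMeasurable.integral_prod_right
      (f := fun v t => a t • Y v t) hFm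
    have hai1 : ∀ v, Integrable fun t => a t • Y v t := by
      intro v
      refine Integrable.mono hai ((hFm.comp_measurable
        (measurable_const.prodMk measurable_id (β := ℝ)) : StronglyMeasurable
          fun t => a t • Y v t).aestronglyMeasurable) (Eventually.of_forall fun t => ?_)
      rw [norm_smul]
      exact mul_le_of_le_one_right (norm_nonneg _) (hY1 v t)
    have hZb : ∀ v, ‖Z v‖ ≤ ∫ t, ‖a t‖ := by
      intro v
      refine (norm_integral_le_integral_norm _).trans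
        (integral_mono (hai1 v).norm hai.norm fun t => ?_)
      show ‖a t • Y v t‖ ≤ ‖a t‖
      rw [norm_smul]
      exact mul_le_of_le_one_right (norm_nonneg _) (hY1 v t)
    have hZi : Integrable (fun v => ‖Z v‖) ν :=
      Integrable.of_bound hZm.norm.aestronglyMeasurable (∫ t, ‖a t‖)
        (Eventually.of_forall fun v => by rw [norm_norm]; exact hZb v)
    have hZi2 : Integrable (fun v => ‖Z v‖ ^ 2) ν :=
      Integrable.of_bound (hZm.norm.pow 2).aestronglyMeasurable ((∫ t, ‖a t‖) ^ 2)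
        (Eventually.of_forall fun v => by
          rw [norm_pow, norm_norm]
          exact pow_le_pow_left₀ (norm_nonneg _) (hZb v) 2)
    set m : ℝ := ∫ v, ‖Z v‖ ∂ν with hm
    have hm0 : 0 ≤ m := integral_nonneg fun v => norm_nonneg _
    have hm2 : m ^ 2 ≤ ∫ v, ‖Z v‖ ^ 2 ∂ν := by
      have h1 : 0 ≤ ∫ v, (‖Z v‖ - m) ^ 2 ∂ν := integral_nonneg fun v => by positivity
      have h2 : ∫ v, (‖Z v‖ - m) ^ 2 ∂ν = ∫ v, ‖Z v‖ ^ 2 ∂ν - m ^ 2 := by
        have h3 : (fun v => (‖Z v‖ - m) ^ 2) = fun v => (‖Z v‖ ^ 2 - (2 * m) * ‖Z v‖) + m ^ 2 := by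
          funext v; ring
        have h4 : ∫ v, ((‖Z v‖ ^ 2 - (2 * m) * ‖Z v‖) + m ^ 2) ∂ν =
            (∫ v, (‖Z v‖ ^ 2 - (2 * m) * ‖Z v‖) ∂ν) + ∫ _, m ^ 2 ∂ν :=
          integral_add (f := fun v => ‖Z v‖ ^ 2 - (2 * m) * ‖Z v‖) (g := fun _ => m ^ 2)
            (hZi2.sub (hZi.const_mul (2 * m))) (integrable_const _)
        have h5 : ∫ v, (‖Z v‖ ^ 2 - (2 * m) * ‖Z v‖) ∂ν =
            (∫ v, ‖Z v‖ ^ 2 ∂ν) - ∫ v, (2 * m) * ‖Z v‖ ∂ν :=
          integral_sub hZi2 (hZi.const_mul (2 * m))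
        rw [h3, h4, h5, integral_const_mul, integral_const]
        simp only [probReal_univ, smul_eq_mul, one_mul, ← hm]
        ring
      linarith
    have hfub : ((I : ℝ) : ℂ) = ∫ v, (inner ℂ (Z v) (ψ v) : ℂ) ∂ν := by
      have e1 : ((I : ℝ) : ℂ) = ∫ t, (starRingEnd ℂ) (a t) * k t := by
        rw [hIdef, ← integral_complex_ofReal]
        refine integral_congr_ae (Eventually.of_forall fun t => ?_)
        show ((‖a t‖ ^ 2 : ℝ) : ℂ) = (starRingEnd ℂ) (a t) * k t
        by_cases ht : t ∈ S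
        · rw [ha, Set.indicator_of_mem ht, Complex.conj_mul']
          push_cast; rfl
        · rw [ha, Set.indicator_of_notMem ht]; simp
      have e2 : ∫ t, (starRingEnd ℂ) (a t) * k t =
          ∫ t, ∫ v, (starRingEnd ℂ) (a t) * (inner ℂ (Y v t) (ψ v) : ℂ) ∂ν := by
        refine integral_congr_ae (Eventually.of_forall fun t => ?_)
        show (starRingEnd ℂ) (a t) * k t = _
        rw [hkk t]
        exact (integral_const_mul _ _).symm
      have hint : Integrable (Function.uncurry fun t v =>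
          (starRingEnd ℂ) (a t) * (inner ℂ (Y v t) (ψ v) : ℂ)) (volume.prod ν) := by
        have hmeas : StronglyMeasurable (Function.uncurry fun t v =>
            (starRingEnd ℂ) (a t) * (inner ℂ (Y v t) (ψ v) : ℂ)) := by
          have h1 : StronglyMeasurable fun p : ℝ × ℝ => (starRingEnd ℂ) (a p.1) :=
            Complex.continuous_conj.comp_stronglyMeasurable (ham'.comp_measurable measurable_fst)
          have h2 : StronglyMeasurable fun p : ℝ × ℝ => Y p.2 p.1 :=
            hYm.comp_measurable measurable_swap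
          have h3 : StronglyMeasurable fun p : ℝ × ℝ => ψ p.2 := hψ.comp_measurable measurable_snd
          exact h1.mul (h2.inner h3)
        have hdom : Integrable (fun p : ℝ × ℝ => ‖a p.1‖ * c) (volume.prod ν) :=
          (hai.norm.mul_prod (integrable_const (μ := ν) c))
        refine Integrable.mono' hdom hmeas.aestronglyMeasurable (Eventually.of_forall fun p => ?_)
        show ‖(starRingEnd ℂ) (a p.1) * (inner ℂ (Y p.2 p.1) (ψ p.2) : ℂ)‖ ≤ ‖a p.1‖ * c
        rw [norm_mul, RCLike.norm_conj]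
        refine mul_le_mul_of_nonneg_left ?_ (norm_nonneg _)
        refine (norm_inner_le_norm _ _).trans ?_
        calc ‖Y p.2 p.1‖ * ‖ψ p.2‖ ≤ 1 * c :=
              mul_le_mul (hY1 _ _) (hψc _) (norm_nonneg _) zero_le_one
          _ = c := one_mul c
      have e3 : ∫ t, (∫ v, (starRingEnd ℂ) (a t) * (inner ℂ (Y v t) (ψ v) : ℂ) ∂ν) =
          ∫ v, (∫ t, (starRingEnd ℂ) (a t) * (inner ℂ (Y v t) (ψ v) : ℂ)) ∂ν :=
        integral_integral_swap hint
      have e4 : ∀ v, ∫ t, (starRingEnd ℂ) (a t) * (inner ℂ (Y v t) (ψ v) : ℂ) =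
          (inner ℂ (Z v) (ψ v) : ℂ) := by
        intro v
        have h1 : (inner ℂ (ψ v) (Z v) : ℂ) = ∫ t, (inner ℂ (ψ v) (a t • Y v t) : ℂ) :=
          (integral_inner (hai1 v) (ψ v)).symm
        rw [← inner_conj_symm, h1, ← integral_conj]
        refine integral_congr_ae (Eventually.of_forall fun t => ?_)
        show (starRingEnd ℂ) (a t) * (inner ℂ (Y v t) (ψ v) : ℂ) =
          (starRingEnd ℂ) (inner ℂ (ψ v) (a t • Y v t) : ℂ)
        rw [inner_conj_symm, inner_smul_left]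
      rw [e1, e2, e3]
      exact integral_congr_ae (Eventually.of_forall e4)
    have hIle : I ≤ m * c := by
      have h1 : ‖((I : ℝ) : ℂ)‖ ≤ ∫ v, ‖Z v‖ * c ∂ν := by
        rw [hfub]
        refine norm_integral_le_of_norm_le (hZi.mul_const c) (Eventually.of_forall fun v => ?_)
        exact (norm_inner_le_norm _ _).trans (mul_le_mul_of_nonneg_left (hψc v) (norm_nonneg _))
      rw [integral_mul_const, ← hm, Complex.norm_real, Real.norm_of_nonneg hI0] at h1
      exact h1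
    have hm3 : m ^ 2 ≤ K * I := hm2.trans (hS a hai ham)
    rw [hI]
    rcases hI0.eq_or_lt with h0 | h0
    · rw [← h0]; positivity
    · have h1 : I * I ≤ (K * c ^ 2) * I := by
        calc I * I ≤ (m * c) * (m * c) := mul_le_mul hIle hIle hI0 (by positivity)
          _ = m ^ 2 * c ^ 2 := by ring
          _ ≤ (K * I) * c ^ 2 := mul_le_mul_of_nonneg_right hm3 (by positivity)
          _ = (K * c ^ 2) * I := by ring
      exact le_of_mul_le_mul_right h1 h0
  have hlim : Tendsto (fun n : ℕ => (-(n : ℝ))) atTop atBot :=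
    tendsto_neg_atTop_atBot.comp tendsto_natCast_atTop_atTop
  have hlim2 : Tendsto (fun n : ℕ => (n : ℝ)) atTop atTop := tendsto_natCast_atTop_atTop
  have hint : Integrable (fun t => ‖k t‖ ^ 2) := by
    refine integrable_of_intervalIntegral_norm_bounded (K * c ^ 2)
      (fun n => (hk2.integrableOn_Icc).mono_set Set.Ioc_subset_Icc_self) hlim hlim2
      (Eventually.of_forall fun n => ?_)
    simpa only [norm_pow, norm_norm] using main n
  refine ⟨hint, ?_⟩
  exact le_of_tendsto' (intervalIntegral_tendsto_integral hint hlim hlim2) main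

variable {d : ℕ}

/-- the vectors orthogonal to the cyclic space of the origin -/
def Mo (U : Om d → ℝ → L2 d →L[ℂ] L2 d) (V : Om d) : Submodule ℂ (L2 d) where
  carrier := {φ | Ort U V φ}
  add_mem' := by
    intro a b ha hb t
    rw [map_add, inner_add_right, ha t, hb t, add_zero]
  zero_mem' := by
    intro t
    rw [map_zero, inner_zero_right]
  smul_mem' := by
    intro c a ha t
    rw [map_smul, inner_smul_right, ha t, mul_zero]

theorem mem_Mo (U : Om d → ℝ → L2 d →L[ℂ] L2 d) (V : Om d) (φ : L2 d) :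
    φ ∈ Mo U V ↔ Ort U V φ := Iff.rfl

theorem Mo_closed (U : Om d → ℝ → L2 d →L[ℂ] L2 d) (V : Om d) :
    IsClosed (Mo U V : Set (L2 d)) := by
  have : (Mo U V : Set (L2 d)) = ⋂ t : ℝ, {φ | (inner ℂ (ee 0) (U V t φ) : ℂ) = 0} := by
    ext φ
    simp only [SetLike.mem_coe, mem_Mo, Ort, Set.mem_iInter, Set.mem_ofPred_eq]
  rw [this]
  refine isClosed_iInter fun t => ?_
  exact isClosed_eq (continuous_const.inner (U V t).continuous) continuous_const

theorem split (U : Om d → ℝ → L2 d →L[ℂ] L2 d) (V : Om d) (ζ : L2 d) :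
    ∃ η : L2 d, Ort U V η ∧ ‖η‖ ≤ ‖ζ‖ ∧
      ∀ φ : L2 d, Ort U V φ → (inner ℂ η φ : ℂ) = inner ℂ ζ φ := by
  have : CompleteSpace (Mo U V) := (Mo_closed U V).completeSpace_coe
  obtain ⟨y, hy, z, hz, h⟩ := (Mo U V).exists_add_mem_mem_orthogonal ζ
  have hyz : (inner ℂ y z : ℂ) = 0 := hz y hy
  refine ⟨y, hy, ?_, fun φ hφ => ?_⟩
  · have h1 : ‖ζ‖ * ‖ζ‖ = ‖y‖ * ‖y‖ + ‖z‖ * ‖z‖ := by
      rw [h]; exact norm_add_sq_eq_norm_sq_add_norm_sq_of_inner_eq_zero y z hyz
    nlinarith [norm_nonneg y, norm_nonneg ζ, norm_nonneg z]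
  · have h2 : (inner ℂ z φ : ℂ) = 0 := by
      rw [← inner_conj_symm, hz φ hφ, map_zero]
    rw [h, inner_add_left, h2, add_zero]

theorem ud_continuous (V : Om d) : Continuous fun v : ℝ => ud V v :=
  continuous_const.update 0 continuous_id

end ETA

open ETA in
theorem eta_facts (hX : T_XT) (hC : T_COV) (hO : T_ORT) (hS : T_SA) : T_ETA := by
  intro d U hU ν _ K hBD i A hA V b hb hb1
  obtain ⟨hadj, -, -, -, -, -, -, -, -⟩ := hX d U hU
  obtain ⟨-, -, -, -, hmeas⟩ := hC d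
  have hA2 : ∀ (W : Om d) (f : L2 d), ‖A W f‖ ≤ 2 * ‖f‖ := fun W f =>
    ((A W).le_opNorm f).trans (mul_le_mul_of_nonneg_right (hA.bdd W) (norm_nonneg _))
  have hudm : Measurable fun v : ℝ => ud V v := (ud_continuous V).measurable
  have hAm : ∀ f : L2 d, StronglyMeasurable fun v : ℝ => A (ud V v) f := fun f =>
    hmeas A hA.cov ℝ (fun v => ud V v) (fun _ => f) hudm stronglyMeasurable_const
  have hbm : StronglyMeasurable fun v : ℝ => ((b v : ℝ) : ℂ) :=
    (Complex.measurable_ofReal.comp hb).stronglyMeasurable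
  have hbn : ∀ v, ‖((b v : ℝ) : ℂ)‖ ≤ 1 := fun v => by
    rw [Complex.norm_real]; exact hb1 v
  have hζm : StronglyMeasurable fun v : ℝ => ((b v : ℝ) : ℂ) • A (ud V v) (ee 0) :=
    hbm.smul (hAm (ee 0))
  have hζb : ∀ v : ℝ, ‖((b v : ℝ) : ℂ) • A (ud V v) (ee 0)‖ ≤ 2 := fun v => by
    rw [norm_smul]
    calc ‖((b v : ℝ) : ℂ)‖ * ‖A (ud V v) (ee 0)‖ ≤ 1 * (2 * ‖(ee 0 : L2 d)‖) :=
          mul_le_mul (hbn v) (hA2 _ _) (norm_nonneg _) zero_le_one
      _ = 2 := by rw [norm_ee]; norm_num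
  have hζi : Integrable (fun v : ℝ => ((b v : ℝ) : ℂ) • A (ud V v) (ee 0)) ν :=
    Integrable.of_bound hζm.aestronglyMeasurable 2 (Eventually.of_forall hζb)
  obtain ⟨η, hη, -, hηφ⟩ := split U V (∫ v, ((b v : ℝ) : ℂ) • A (ud V v) (ee 0) ∂ν)
  have hform : ∀ φ : L2 d, Ort U V φ → (inner ℂ η φ : ℂ) =
      ∫ v, ((b v : ℝ) : ℂ) * (inner ℂ (A (ud V v) (ee 0)) φ : ℂ) ∂ν := by
    intro φ hφ
    rw [hηφ φ hφ, ← inner_conj_symm, ← integral_inner hζi φ, ← integral_conj]
    refine integral_congr_ae (Eventually.of_forall fun v => ?_)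
    show (starRingEnd ℂ) (inner ℂ φ (((b v : ℝ) : ℂ) • A (ud V v) (ee 0)) : ℂ) = _
    rw [inner_conj_symm, inner_smul_left, Complex.conj_ofReal]
  have hK0 : 0 < K := hBD.1
  refine ⟨η, 2 * Real.pi * K * 4, fun v => ?_, hform⟩
  have hUη : ∀ t, U (ud V v) t η = U V t η := fun t => (hO d U hU V η hη v t).1
  -- the square integral of the matrix elements
  have key : ∀ χ : L2 d, Integrable (fun t : ℝ => ‖(inner ℂ χ (U V t η) : ℂ)‖ ^ 2) ∧
      ∫ t : ℝ, ‖(inner ℂ χ (U V t η) : ℂ)‖ ^ 2 ≤ 2 * Real.pi * K * 4 * ‖χ‖ ^ 2 := by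
    intro χ
    obtain ⟨φ, hφ, hφn, hφχ⟩ := split U V χ
    have hcont : Continuous fun t : ℝ => U V t φ := by
      have h := hU.g0.cont φ
      exact h.comp (continuous_const.prodMk continuous_id)
    set k : ℝ → ℂ := fun t => inner ℂ η (U V t φ) with hk
    have hkc : Continuous k := continuous_const.inner hcont
    have e : ∀ t, ‖(inner ℂ χ (U V t η) : ℂ)‖ ^ 2 = ‖k (-t)‖ ^ 2 := by
      intro t
      have h1 : (inner ℂ χ (U V t η) : ℂ) = (starRingEnd ℂ) (k (-t)) := by
        rw [← hφχ _ (hO d U hU V η hη 0 t).2.2, hk]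
        show (inner ℂ φ (U V t η) : ℂ) = (starRingEnd ℂ) (inner ℂ η (U V (-t) φ) : ℂ)
        rw [inner_conj_symm]
        have := hadj V (-t) φ η
        rw [neg_neg] at this
        exact this.symm
      rw [h1, RCLike.norm_conj]
    have hkb : Integrable (fun t => ‖k t‖ ^ 2) ∧
        ∫ t, ‖k t‖ ^ 2 ≤ (2 * Real.pi * K) * (2 * ‖φ‖) ^ 2 := by
      refine kbound ν (fun w t => U (ud V w) (-t) (ee 0)) ?_ ?_ (2 * Real.pi * K) (by positivity)
        (fun a ha1 ha2 => hS d U hU ν K hBD V a ha1 ha2)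
        (fun w => ((b w : ℝ) : ℂ) • A (ud V w) φ) (hbm.smul (hAm φ)) (2 * ‖φ‖) ?_ k hkc ?_
      · have h := hU.g0.cont (ee 0)
        exact h.comp (((ud_continuous V).comp continuous_fst).prodMk (continuous_snd.neg))
      · intro w t
        rw [hU.g0.norm, norm_ee]
      · intro w
        rw [norm_smul]
        calc ‖((b w : ℝ) : ℂ)‖ * ‖A (ud V w) φ‖ ≤ 1 * (2 * ‖φ‖) :=
              mul_le_mul (hbn w) (hA2 _ _) (norm_nonneg _) zero_le_one
          _ = 2 * ‖φ‖ := one_mul _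
      · intro t
        have h1 : Ort U V (U V t φ) := (hO d U hU V φ hφ 0 t).2.2
        show (inner ℂ η (U V t φ) : ℂ) = _
        rw [hform _ h1]
        refine integral_congr_ae (Eventually.of_forall fun w => ?_)
        show ((b w : ℝ) : ℂ) * (inner ℂ (A (ud V w) (ee 0)) (U V t φ) : ℂ) =
          (inner ℂ (U (ud V w) (-t) (ee 0)) (((b w : ℝ) : ℂ) • A (ud V w) φ) : ℂ)
        rw [inner_smul_right, ← (hO d U hU V φ hφ w t).1, hA.sa, hA.com]
        congr 1
        have := hadj (ud V w) (-t) (ee 0) (A (ud V w) φ)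
        rw [neg_neg] at this
        exact this.symm
    constructor
    · have := hkb.1.comp_neg
      refine this.congr (Eventually.of_forall fun t => ?_)
      exact (e t).symm
    · calc ∫ t : ℝ, ‖(inner ℂ χ (U V t η) : ℂ)‖ ^ 2 = ∫ t : ℝ, ‖k (-t)‖ ^ 2 :=
            integral_congr_ae (Eventually.of_forall e)
        _ = ∫ t : ℝ, ‖k t‖ ^ 2 := integral_neg_eq_self (fun t => ‖k t‖ ^ 2) volume
        _ ≤ (2 * Real.pi * K) * (2 * ‖φ‖) ^ 2 := hkb.2
        _ = 2 * Real.pi * K * 4 * ‖φ‖ ^ 2 := by ring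
        _ ≤ 2 * Real.pi * K * 4 * ‖χ‖ ^ 2 := by
            refine mul_le_mul_of_nonneg_left ?_ (by positivity)
            exact pow_le_pow_left₀ (norm_nonneg _) hφn 2
  refine ⟨(hO d U hU V η hη v 0).2.1, fun χ => ?_, fun χ => ?_⟩
  · simp only [hUη]; exact (key χ).1
  · simp only [hUη]; exact (key χ).2

end Pool.Agent.T2h98.NB
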