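import Pool.Agent.T2h98.NB.Stm

/-! No ballistic motion: the unitary groups exist. -/

set_option autoImplicit false

open scoped BigOperators Topology ENNReal InnerProductSpace
open MeasureTheory Filter

namespace Pool.Agent.T2h98.NB

variable {d : ℕ}

/-- solutions of the equation in the interaction picture have constant norm -/
theorem g0_norm (hM : T_MUC) (V : Om d) (D : ℝ → L2 d)
    (hD : ∀ t : ℝ, HasDerivAt D (-(Complex.I • Mu (t • V) (Ad d (Mu (-(t • V)) (D t))))) t) (t : ℝ) :
    ‖D t‖ = ‖D 0‖ := by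
  obtain ⟨-, -, -, hadj, hsym, -⟩ := hM d
  have h1 : ∀ s, HasDerivAt (fun s => (inner ℂ (D s) (D s) : ℂ)) 0 s := by
    intro s
    have h := (hD s).inner ℂ (hD s)
    refine h.congr_deriv ?_
    set g : L2 d := Mu (-(s • V)) (D s) with hg
    have e1 : (inner ℂ (D s) (Mu (s • V) (Ad d g)) : ℂ) = inner ℂ g (Ad d g) := by
      rw [← inner_conj_symm, hadj, hg, inner_conj_symm]
    have e2 : (inner ℂ (Mu (s • V) (Ad d g)) (D s) : ℂ) = inner ℂ (Ad d g) g := by
      rw [hadj]
    rw [inner_neg_left, inner_neg_right, inner_smul_left, inner_smul_right, e1, e2, hsym]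
    simp
  have h2 : ∀ s, (inner ℂ (D s) (D s) : ℂ) = inner ℂ (D 0) (D 0) := by
    intro s
    exact is_const_of_deriv_eq_zero (fun x => (h1 x).differentiableAt) (fun x => (h1 x).deriv) s 0
  have h3 := h2 t
  rw [inner_self_eq_norm_sq_to_K, inner_self_eq_norm_sq_to_K] at h3
  have h4 : ‖D t‖ ^ 2 = ‖D 0‖ ^ 2 := by exact_mod_cast h3
  exact (sq_eq_sq₀ (norm_nonneg _) (norm_nonneg _)).1 h4

theorem g0 (hP : T_PIC) (hM : T_MUC) : T_G0 := by
  intro d
  have hM' := hM
  obtain ⟨hcont, hmul, hone, hadj, hsym, hAd⟩ := hM d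
  let B : Om d → ℝ → L2 d →L[ℂ] L2 d := fun V t =>
    -(Complex.I • ((Mu (t • V)).toContinuousLinearMap.comp ((Ad d).comp (Mu (-(t • V))).toContinuousLinearMap)))
  have hB : ∀ V t f, B V t f = -(Complex.I • Mu (t • V) (Ad d (Mu (-(t • V)) f))) := fun V t f => rfl
  have hBn : ∀ V t, ‖B V t‖ ≤ 2 * d := by
    intro V t
    refine ContinuousLinearMap.opNorm_le_bound _ (by positivity) fun f => ?_
    rw [hB, norm_neg, norm_smul, Complex.norm_I, one_mul, LinearIsometry.norm_map]
    refine (hAd _).trans ?_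
    rw [LinearIsometry.norm_map]
  have hsm : Continuous fun p : Om d × ℝ => (p.2 • p.1 : Om d) := by fun_prop
  have hBc : ∀ f, Continuous fun p : Om d × ℝ => B p.1 p.2 f := by
    intro f
    have h1 : Continuous fun p : Om d × ℝ => Mu (-(p.2 • p.1)) f :=
      hcont.comp (hsm.neg.prodMk continuous_const)
    have h2 : Continuous fun p : Om d × ℝ => Mu (p.2 • p.1) (Ad d (Mu (-(p.2 • p.1)) f)) :=
      hcont.comp (hsm.prodMk ((Ad d).continuous.comp h1))
    exact (h2.const_smul Complex.I).neg
  obtain ⟨W, hW0, hWd, hWc⟩ := hP (Om d) (L2 d) B (2 * d) hBn hBc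
  let U : Om d → ℝ → L2 d →L[ℂ] L2 d := fun V t => (Mu (-(t • V))).toContinuousLinearMap.comp (W V t)
  have hU : ∀ V t f, U V t f = Mu (-(t • V)) (W V t f) := fun V t f => rfl
  have hMM : ∀ (θ : Om d) (f : L2 d), Mu θ (Mu (-θ) f) = f := by
    intro θ f
    rw [hmul, add_neg_cancel, hone]
  have hMM' : ∀ (θ : Om d) (f : L2 d), Mu (-θ) (Mu θ f) = f := by
    intro θ f
    rw [hmul, neg_add_cancel, hone]
  have hder : ∀ V f t, HasDerivAt (fun s : ℝ => Mu (s • V) (U V s f))
      (-(Complex.I • Mu (t • V) (Ad d (U V t f)))) t := by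
    intro V f t
    have h := hWd V f t
    rw [hB] at h
    have e : (fun s : ℝ => Mu (s • V) (U V s f)) = fun s => W V s f := by
      funext s
      rw [hU, hMM]
    rw [e]
    exact h
  have hzero : ∀ V, U V 0 = 1 := by
    intro V
    ext1 f
    rw [hU, hW0, zero_smul, neg_zero, hone]
  refine ⟨U, hzero, hder, ?_, ?_, ?_⟩
  · intro V t f
    rw [hU, LinearIsometry.norm_map]
    have h := g0_norm hM' V (fun s => W V s f) (fun s => by
      have h := hWd V f s
      rwa [hB] at h) t
    rw [h, hW0]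
    rfl
  · intro V s t f
    let D : ℝ → L2 d := fun r => Mu (r • V) (U V (r + t) f) - Mu (r • V) (U V r (U V t f))
    have hD : ∀ r : ℝ, HasDerivAt D (-(Complex.I • Mu (r • V) (Ad d (Mu (-(r • V)) (D r))))) r := by
      intro r
      have h1 : HasDerivAt (fun r => Mu (r • V) (U V (r + t) f))
          (-(Complex.I • Mu (r • V) (Ad d (U V (r + t) f)))) r := by
        have e : (fun r : ℝ => Mu (r • V) (U V (r + t) f)) =
            fun r => (Mu (-(t • V))).toContinuousLinearMap (W V (r + t) f) := by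
          funext r
          rw [hU, hmul]
          change _ = Mu (-(t • V)) (W V (r + t) f)
          congr 2
          rw [add_smul]
          abel
        rw [e]
        have h2 := (hWd V f (r + t)).comp_add_const r t
        have h3 := ((Mu (-(t • V))).toContinuousLinearMap.restrictScalars ℝ).hasFDerivAt.comp_hasDerivAt r h2
        refine h3.congr_deriv ?_
        change Mu (-(t • V)) (B V (r + t) (W V (r + t) f)) = _
        rw [hB, map_neg, map_smul, hmul, ← hU]
        congr 4
        rw [add_smul]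
        abel
      have h2 := hder V (U V t f) r
      refine (h1.sub h2).congr_deriv ?_
      simp only [D]
      rw [map_sub (Mu (-(r • V))), hMM', hMM', map_sub, map_sub, smul_sub]
      abel
    have h0 : D 0 = 0 := by
      simp only [D]
      rw [zero_add, hzero, sub_eq_zero]
      rfl
    have h := g0_norm hM' V D hD s
    rw [h0, norm_zero, norm_eq_zero] at h
    exact (Mu (s • V)).injective (sub_eq_zero.1 h)
  · intro f
    exact hcont.comp (hsm.neg.prodMk (hWc f))

end Pool.Agent.T2h98.NB
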