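import Pool.Agent.T2h98.NB.Stm

/-! No ballistic motion: a new value of the potential at the origin (Duhamel). -/

set_option autoImplicit false

open scoped BigOperators Topology ENNReal InnerProductSpace
open MeasureTheory Filter

namespace Pool.Agent.T2h98.NB

variable {d : ℕ}

/-- the two multiplications differ at the origin only -/
theorem gdu_mu (V : Om d) (v t : ℝ) (h : L2 d) :
    Mu (t • ud V v) h = Mu (t • V) h +
      ((Complex.exp (((v - V 0 : ℝ) : ℂ) * Complex.I * t) - 1) * inner ℂ (ee 0) (Mu (t • V) h)) • (ee 0 : L2 d) := by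
  ext x
  change _ = (Mu (t • V) h) x + ((Complex.exp (((v - V 0 : ℝ) : ℂ) * Complex.I * t) - 1) *
    inner ℂ (ee 0) (Mu (t • V) h)) * (ee 0 : L2 d) x
  rw [inner_ee, Mu_apply, Mu_apply, Mu_apply, ee_apply]
  by_cases hx : x = 0
  · subst hx
    have e1 : (((t • ud V v) 0 : ℝ) : ℂ) * Complex.I =
        ((v - V 0 : ℝ) : ℂ) * Complex.I * t + (((t • V) 0 : ℝ) : ℂ) * Complex.I := by
      simp only [ud, Pi.smul_apply, Function.update_self, smul_eq_mul]
      push_cast
      ring
    rw [e1, Complex.exp_add]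
    simp only [if_true]
    ring
  · have e1 : (t • ud V v) x = (t • V) x := by
      simp only [ud, Pi.smul_apply, Function.update_of_ne hx, smul_eq_mul]
    rw [e1, if_neg hx]
    ring

theorem gdu (hM : T_MUC) : T_GDU := by
  intro d U hU V v t f
  obtain ⟨hcont, hmul, hone, hadj, hsym, hAd⟩ := hM d
  -- the group is unitary
  have hinv : ∀ V t f, U V t (U V (-t) f) = f := by
    intro V t f
    rw [← hU.add, add_neg_cancel, hU.zero]
    rfl
  have hinner : ∀ V t (f g : L2 d), (inner ℂ (U V t f) (U V t g) : ℂ) = inner ℂ f g := by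
    intro V t f g
    exact (LinearIsometry.inner_map_map (⟨(U V t : L2 d →ₗ[ℂ] L2 d), hU.norm V t⟩ : L2 d →ₗᵢ[ℂ] L2 d) f g)
  have hUadj : ∀ V t (f g : L2 d), (inner ℂ f (U V (-t) g) : ℂ) = inner ℂ (U V t f) g := by
    intro V t f g
    rw [← hinner V t, hinv]
  have hdu := gdu_mu (d := d) V v
  set V' : Om d := ud V v with hV'
  have hV0 : V' 0 = v := by
    simp [hV', ud]
  set c : ℂ := ((v - V 0 : ℝ) : ℂ) with hc
  let a : ℂ := Complex.I * c
  let Q : ℝ → L2 d := fun u => (inner ℂ (ee 0) (U V u f) : ℂ) • U V' (-u) (ee 0)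
  have hQc : Continuous Q := by
    have h1 : Continuous fun u : ℝ => U V u f := (hU.cont f).comp (continuous_const.prodMk continuous_id)
    have h2 : Continuous fun u : ℝ => U V' (-u) (ee 0) :=
      (hU.cont (ee 0)).comp (continuous_const.prodMk continuous_neg)
    have h3 : Continuous fun u : ℝ => (inner ℂ (ee 0) (U V u f) : ℂ) := Continuous.inner (𝕜 := ℂ) continuous_const h1
    exact h3.smul h2
  have hder : ∀ (g : L2 d) (t : ℝ), HasDerivAt (fun t : ℝ => (inner ℂ g (U V' (-t) (U V t f)) : ℂ))
      (inner ℂ g (a • Q t)) t := by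
    intro g t
    have e1 : (fun t : ℝ => (inner ℂ g (U V' (-t) (U V t f)) : ℂ)) = fun t =>
        inner ℂ (Mu (t • V') (U V' t g)) (Mu (t • V) (U V t f) +
          ((Complex.exp (c * Complex.I * t) - 1) *
            inner ℂ (ee 0) (Mu (t • V) (U V t f))) • (ee 0 : L2 d)) := by
      funext t
      rw [hUadj, ← LinearIsometry.inner_map_map (Mu (t • V')), hdu t (U V t f)]
    rw [e1]
    have d1 := hU.der V' g t
    have d2 := hU.der V f t
    have d3 : HasDerivAt (fun t : ℝ => Complex.exp (c * Complex.I * t) - 1)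
        (Complex.exp (c * Complex.I * t) * (c * Complex.I)) t := by
      have h1 : HasDerivAt (fun t : ℝ => c * Complex.I * t) (c * Complex.I) t := by
        simpa using (Complex.ofRealCLM.hasDerivAt (x := t)).const_mul (c * Complex.I)
      exact (h1.cexp).sub_const 1
    have d4 := (hasDerivAt_const t (ee 0 : L2 d)).inner ℂ d2
    have d5 : HasDerivAt (fun t : ℝ => Mu (t • V) (U V t f) + ((Complex.exp (c * Complex.I * t) - 1) *
        inner ℂ (ee 0) (Mu (t • V) (U V t f))) • (ee 0 : L2 d)) (-(Complex.I • Mu (t • V) (Ad d (U V t f))) +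
        (Complex.exp (c * Complex.I * t) * (c * Complex.I) *
          inner ℂ (ee 0) (Mu (t • V) (U V t f)) + (Complex.exp (c * Complex.I * t) - 1) *
            (inner ℂ (ee 0) (-(Complex.I • Mu (t • V) (Ad d (U V t f)))) + inner ℂ (0 : L2 d) (Mu (t • V) (U V t f)))) •
              (ee 0 : L2 d)) t := d2.add ((d3.mul d4).smul_const (ee 0 : L2 d))
    refine (d1.inner ℂ d5).congr_deriv ?_
    have e2 := hdu t (U V t f)
    have e3 := hdu t (Ad d (U V t f))
    have e4 : -(Complex.I • Mu (t • V) (Ad d (U V t f))) +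
        (Complex.exp (c * Complex.I * t) * (c * Complex.I) *
          inner ℂ (ee 0) (Mu (t • V) (U V t f)) + (Complex.exp (c * Complex.I * t) - 1) *
            (inner ℂ (ee 0) (-(Complex.I • Mu (t • V) (Ad d (U V t f)))) + inner ℂ (0 : L2 d) (Mu (t • V) (U V t f)))) •
              (ee 0 : L2 d) =
        -(Complex.I • Mu (t • V') (Ad d (U V t f))) +
          (a * (Complex.exp (c * Complex.I * t) *
            inner ℂ (ee 0) (Mu (t • V) (U V t f)))) • (ee 0 : L2 d) := by
      rw [e3, inner_neg_right, inner_smul_right, inner_zero_left]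
      simp only [a]
      module
    rw [e4, ← e2]
    have e5 : Complex.exp (c * Complex.I * t) * inner ℂ (ee 0) (Mu (t • V) (U V t f)) =
        Complex.exp ((t * v : ℝ) * Complex.I) * inner ℂ (ee 0) (U V t f) := by
      rw [inner_ee, inner_ee, Mu_apply, ← mul_assoc, ← Complex.exp_add]
      congr 2
      simp only [Pi.smul_apply, smul_eq_mul, hc]
      push_cast
      ring
    have e6 : (inner ℂ (Mu (t • V') (U V' t g)) (ee 0) : ℂ) =
        Complex.exp (-((t * v : ℝ) * Complex.I)) * inner ℂ (U V' t g) (ee 0) := by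
      rw [← inner_conj_symm, inner_ee, Mu_apply, map_mul, ← inner_conj_symm, inner_ee, ← Complex.exp_conj]
      congr 2
      simp only [Pi.smul_apply, smul_eq_mul, hV0, map_mul, Complex.conj_I, Complex.conj_ofReal]
      ring
    have e7 : (inner ℂ (Mu (t • V') (U V' t g)) (Mu (t • V') (Ad d (U V t f))) : ℂ) =
        inner ℂ (U V' t g) (Ad d (U V t f)) := LinearIsometry.inner_map_map _ _ _
    have e8 : (inner ℂ (Mu (t • V') (Ad d (U V' t g))) (Mu (t • V') (U V t f)) : ℂ) =
        inner ℂ (U V' t g) (Ad d (U V t f)) := by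
      rw [LinearIsometry.inner_map_map, hsym]
    rw [e5, inner_add_right, inner_neg_right, inner_smul_right, inner_smul_right, inner_neg_left, inner_smul_left,
      e6, e7, e8]
    simp only [Q]
    rw [inner_smul_right, inner_smul_right, hUadj]
    have e9 : Complex.exp ((t * v : ℝ) * Complex.I) * Complex.exp (-((t * v : ℝ) * Complex.I)) = 1 := by
      rw [← Complex.exp_add, add_neg_cancel, Complex.exp_zero]
    rw [Complex.conj_I]
    linear_combination (a * (inner ℂ (ee 0) (U V t f) : ℂ) * inner ℂ (U V' t g) (ee 0)) * e9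
  -- integrate
  have hfin : ∀ g : L2 d, (inner ℂ g (U V' (-t) (U V t f)) : ℂ) = inner ℂ g (f + a • ∫ u in (0 : ℝ)..t, Q u) := by
    intro g
    have hc : Continuous fun s : ℝ => (inner ℂ g (a • Q s) : ℂ) :=
      Continuous.inner continuous_const (hQc.const_smul a)
    have h1 := intervalIntegral.integral_eq_sub_of_hasDerivAt (a := 0) (b := t) (fun s _ => hder g s)
      (hc.intervalIntegrable 0 t)
    have h2 : (∫ s in (0 : ℝ)..t, (inner ℂ g (a • Q s) : ℂ)) = inner ℂ g (a • ∫ u in (0 : ℝ)..t, Q u) := by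
      rw [← intervalIntegral.integral_smul]
      exact (innerSL ℂ g).intervalIntegral_comp_comm ((hQc.const_smul a).intervalIntegrable 0 t)
    rw [h2] at h1
    have h0 : (inner ℂ g (U V' (-0) (U V 0 f)) : ℂ) = inner ℂ g f := by
      rw [neg_zero, hU.zero, hU.zero]
      rfl
    rw [h0] at h1
    rw [inner_add_right, h1]
    ring
  exact ext_inner_left ℂ hfin

end Pool.Agent.T2h98.NB
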