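import Pool.Agent.T2h98.NB.Stm

/-! No ballistic motion: uniqueness, translations, complex conjugation. -/

set_option autoImplicit false

open scoped BigOperators Topology ENNReal InnerProductSpace
open MeasureTheory ProbabilityTheory Filter
open Pool.Agent.TH980.IM.PR (PP sh)

namespace Pool.Agent.T2h98.NB

theorem gun (hM : T_MUC) : T_GUN := by
  intro d U hU V F hF t
  obtain ⟨-, hadd, hzero, -, -, -⟩ := hM d
  have hback : ∀ (s : ℝ) (f : L2 d), Mu (-(s • V)) (Mu (s • V) f) = f := fun s f => by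
    rw [hadd, neg_add_cancel, hzero]
  have hkey : (fun s : ℝ => Mu (s • V) (F s)) = fun s : ℝ => Mu (s • V) (U V s (F 0)) := by
    refine ODE_solution_unique_univ (v := fun (s : ℝ) (w : L2 d) =>
      -(Complex.I • Mu (s • V) (Ad d (Mu (-(s • V)) w)))) (s := fun _ => Set.univ)
      (K := ‖Ad d‖₊) (t₀ := 0) ?_ ?_ ?_ ?_
    · intro s
      refine LipschitzWith.lipschitzOnWith (LipschitzWith.of_dist_le_mul fun x y => ?_)
      rw [dist_eq_norm, dist_eq_norm]
      have h1 : -(Complex.I • Mu (s • V) (Ad d (Mu (-(s • V)) x))) -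
          -(Complex.I • Mu (s • V) (Ad d (Mu (-(s • V)) y))) =
          -(Complex.I • Mu (s • V) (Ad d (Mu (-(s • V)) (x - y)))) := by
        rw [map_sub, map_sub, map_sub, smul_sub]
        abel
      rw [h1, norm_neg, norm_smul, Complex.norm_I, one_mul, LinearIsometry.norm_map]
      refine ((Ad d).le_opNorm _).trans (le_of_eq ?_)
      rw [LinearIsometry.norm_map, coe_nnnorm]
    · intro s
      refine ⟨?_, Set.mem_univ _⟩
      have h := hF s
      simp only [hback]
      exact h
    · intro s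
      refine ⟨?_, Set.mem_univ _⟩
      have h := hU.der V (F 0) s
      simp only [hback]
      exact h
    · show Mu ((0 : ℝ) • V) (F 0) = Mu ((0 : ℝ) • V) (U V 0 (F 0))
      rw [hU.zero]
      rfl
  have h2 := congrFun hkey t
  exact (Mu (t • V)).injective h2

theorem Sf_Ad (d : ℕ) (z : Sd d) (f : L2 d) : Sf z (Ad d f) = Ad d (Sf z f) := by
  ext x
  rw [Sf_apply, Ad_apply, Ad_apply]
  refine Finset.sum_congr rfl fun i _ => ?_
  rw [Sf_apply, Sf_apply, sub_add_eq_add_sub, sub_right_comm]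

theorem Mu_sh (d : ℕ) (z : Sd d) (s : ℝ) (V : Om d) (f : L2 d) :
    Mu (s • sh z V) (Sf (-z) f) = Sf (-z) (Mu (s • V) f) := by
  ext x
  rw [Sf_apply, Mu_apply, Mu_apply, Sf_apply, sub_neg_eq_add]
  rfl

theorem gsh (hM : T_MUC) : T_GSH := by
  intro d U hU z V t f
  have h := gun hM d U hU (sh z V) (fun s => Sf (-z) (U V s (Sf z f))) (fun s => ?_) t
  · rw [h, hU.zero]
    congr 1
    show f = Sf (-z) (Sf z f)
    rw [Sf_Sf, neg_add_cancel, Sf_zero]
  · have h1 : (fun r : ℝ => Mu (r • sh z V) (Sf (-z) (U V r (Sf z f)))) =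
        fun r : ℝ => Sf (-z) (Mu (r • V) (U V r (Sf z f))) := by
      funext r
      exact Mu_sh d z r V _
    rw [h1]
    have h2 := (((Sf (-z)).toContinuousLinearMap).restrictScalars ℝ).hasFDerivAt.comp_hasDerivAt s
      (hU.der V (Sf z f) s)
    refine h2.congr_deriv ?_
    show Sf (-z) (-(Complex.I • Mu (s • V) (Ad d (U V s (Sf z f))))) = _
    rw [map_neg, map_smul, ← Mu_sh, Sf_Ad]

theorem star_Ad (d : ℕ) (f : L2 d) : Ad d (star f) = star (Ad d f) := by
  ext x
  rw [Ad_apply, lp.star_apply, Ad_apply, star_sum]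
  refine Finset.sum_congr rfl fun i _ => ?_
  rw [lp.star_apply, lp.star_apply, star_add]

theorem star_Mu (d : ℕ) (θ : Om d) (f : L2 d) : star (Mu θ f) = Mu (-θ) (star f) := by
  ext x
  rw [lp.star_apply, Mu_apply, Mu_apply, lp.star_apply, star_mul']
  congr 1
  show (starRingEnd ℂ) (Complex.exp _) = _
  rw [← Complex.exp_conj]
  congr 1
  rw [map_mul, Complex.conj_ofReal, Complex.conj_I, Pi.neg_apply]
  push_cast
  ring

theorem gcj (hM : T_MUC) : T_GCJ := by
  intro d U hU V t f
  have h := gun hM d U hU V (fun s => star (U V (-s) f)) (fun s => ?_) t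
  · rw [h, neg_zero, hU.zero]
    rfl
  · have h1 : (fun r : ℝ => Mu (r • V) (star (U V (-r) f))) =
        fun r : ℝ => star (Mu ((-r) • V) (U V (-r) f)) := by
      funext r
      rw [star_Mu, neg_smul, neg_neg]
    rw [h1]
    have h2 : HasDerivAt (fun r : ℝ => Mu ((-r) • V) (U V (-r) f))
        (-(-(Complex.I • Mu ((-s) • V) (Ad d (U V (-s) f))))) s := by
      have h3 := (hU.der V f (-s)).scomp s (hasDerivAt_neg s)
      refine h3.congr_deriv ?_
      rw [neg_one_smul]
    have h4 := h2.star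
    refine h4.congr_deriv ?_
    rw [neg_neg, star_smul, star_Mu, neg_smul, neg_neg, ← star_Ad]
    show (starRingEnd ℂ) Complex.I • _ = _
    rw [Complex.conj_I, neg_smul]

end Pool.Agent.T2h98.NB
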