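import Pool.Agent.T2h98.NB.Stm

/-! The amplitude is in the kernel of the averaged transform (task NB-GZ). -/

set_option autoImplicit false

open scoped BigOperators Topology ENNReal InnerProductSpace
open MeasureTheory ProbabilityTheory Filter
open Pool.Agent.TH980.IM.PR (PP sh)

namespace Pool.Agent.T2h98.NB

namespace GZ

/-- small values along arbitrarily large times -/
theorem exists_small (g : ℝ → ℝ) (hg : Continuous g) (hg0 : ∀ t, 0 ≤ g t) (S : ℕ → ℝ)
    (hS : Tendsto S atTop atTop)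
    (h : Tendsto (fun n : ℕ => (S n)⁻¹ * ∫ t in (-(S n))..(S n), g t) atTop (𝓝 0))
    (s ε : ℝ) (hε : 0 < ε) : ∃ t, s ≤ t ∧ 0 ≤ t ∧ g t + g (-t) ≤ ε := by
  by_contra hcon
  push Not at hcon
  set r : ℝ := max s 0 with hr
  have hr0 : 0 ≤ r := le_max_right _ _
  have hlow : ∀ t, r ≤ t → ε ≤ g t + g (-t) := fun t ht =>
    (hcon t ((le_max_left _ _).trans ht) (hr0.trans ht)).le
  have hev1 : ∀ᶠ n in atTop, (S n)⁻¹ * ∫ t in (-(S n))..(S n), g t < ε / 2 :=
    h.eventually (gt_mem_nhds (by positivity))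
  have hev2 : ∀ᶠ n in atTop, 2 * r + 1 ≤ S n := hS.eventually_ge_atTop _
  obtain ⟨n, hn1, hn2⟩ := (hev1.and hev2).exists
  have hSn : 0 < S n := by linarith
  have hcont2 : Continuous fun t => g t + g (-t) := hg.add (hg.comp continuous_neg)
  have e1 : ∫ t in (-(S n))..(S n), g t = ∫ t in (0 : ℝ)..(S n), (g t + g (-t)) := by
    have e0 : ∫ t in (0 : ℝ)..(S n), (g t + g (-t)) = (∫ t in (0 : ℝ)..(S n), g t) +
        ∫ t in (0 : ℝ)..(S n), g (-t) :=
      intervalIntegral.integral_add (hg.intervalIntegrable _ _)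
        ((hg.comp continuous_neg).intervalIntegrable _ _)
    rw [e0]
    have e2 : ∫ t in (0 : ℝ)..(S n), g (-t) = ∫ t in (-(S n))..(0 : ℝ), g t := by
      rw [intervalIntegral.integral_comp_neg (fun t => g t), neg_zero]
    rw [e2, add_comm]
    exact (intervalIntegral.integral_add_adjacent_intervals (hg.intervalIntegrable _ _)
      (hg.intervalIntegrable _ _)).symm
  have e3 : ε * (S n - r) ≤ ∫ t in (0 : ℝ)..(S n), (g t + g (-t)) := by
    rw [← intervalIntegral.integral_add_adjacent_intervals (b := r)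
      (hcont2.intervalIntegrable _ _) (hcont2.intervalIntegrable _ _)]
    have h1 : 0 ≤ ∫ t in (0 : ℝ)..r, (g t + g (-t)) :=
      intervalIntegral.integral_nonneg hr0 fun t _ => add_nonneg (hg0 _) (hg0 _)
    have h2 : ∫ _ in r..(S n), ε ≤ ∫ t in r..(S n), (g t + g (-t)) := by
      refine intervalIntegral.integral_mono_on (by linarith) intervalIntegrable_const
        (hcont2.intervalIntegrable _ _) fun t ht => hlow t ht.1
    rw [intervalIntegral.integral_const, smul_eq_mul] at h2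
    linarith
  have h4 : ε / 2 ≤ (S n)⁻¹ * ∫ t in (-(S n))..(S n), g t := by
    rw [e1, inv_mul_eq_div, le_div_iff₀ hSn]
    nlinarith
  linarith

theorem sq_bound {E : Type*} [NormedAddCommGroup E] (x y : E) :
    ‖x‖ ^ 2 ≤ 2 * ‖y‖ ^ 2 + 2 * ‖x - y‖ ^ 2 := by
  have h : ‖x‖ ≤ ‖y‖ + ‖x - y‖ := by
    calc ‖x‖ = ‖y + (x - y)‖ := by congr 1; abel
      _ ≤ ‖y‖ + ‖x - y‖ := norm_add_le _ _
  have h2 : ‖x‖ ^ 2 ≤ (‖y‖ + ‖x - y‖) ^ 2 := pow_le_pow_left₀ (norm_nonneg _) h 2
  nlinarith [sq_nonneg (‖y‖ - ‖x - y‖)]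

/-- convergence to zero -/
theorem conv {E : Type*} [NormedAddCommGroup E] [InnerProductSpace ℂ E] [CompleteSpace E]
    (ν : Measure ℝ) [IsProbabilityMeasure ν] (Y : ℝ → ℝ → E)
    (hY : Continuous fun p : ℝ × ℝ => Y p.1 p.2)
    (hY1 : ∀ v t, ‖Y v t‖ ≤ 1) (K : ℝ) (hK : 0 ≤ K)
    (hS : ∀ a : ℝ → ℂ, Integrable a → MemLp a 2 →
      ∫ v, ‖∫ t, a t • Y v t‖ ^ 2 ∂ν ≤ K * ∫ t, ‖a t‖ ^ 2)
    (k : ℝ → ℂ) (hk : Continuous k) (hk2 : Integrable fun t => ‖k t‖ ^ 2)
    (M : ℕ → Set ℝ) (hM : ∀ n, MeasurableSet (M n))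
    (hMn : Tendsto (fun n => ν (M n)ᶜ) atTop (𝓝 0))
    (hgood : ∀ (n : ℕ) (s ε : ℝ), 0 < ε → ∃ t, s ≤ t ∧ 0 ≤ t ∧
      ∫ v in M n, ‖∫ u in (-t)..t, k u • Y v u‖ ^ 2 ∂ν ≤ ε) :
    Tendsto (fun t : ℝ => ∫ v, ‖∫ u in (-t)..t, k u • Y v u‖ ^ 2 ∂ν) atTop (𝓝 0) := by
  have hYm : StronglyMeasurable fun p : ℝ × ℝ => Y p.1 p.2 := hY.stronglyMeasurable
  set a : ℝ → ℝ → ℂ := fun t => (Set.Ioc (-t) t).indicator k with ha
  have ham : ∀ t, StronglyMeasurable (a t) := fun t =>
    hk.stronglyMeasurable.indicator measurableSet_Ioc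
  have hai : ∀ t, Integrable (a t) := fun t =>
    ((hk.integrableOn_Icc).mono_set Set.Ioc_subset_Icc_self).integrable_indicator
      measurableSet_Ioc
  have hmem : ∀ t, MemLp (a t) 2 := by
    intro t
    obtain ⟨B, hB⟩ := (isCompact_Icc (a := -t) (b := t)).exists_bound_of_continuousOn
      hk.continuousOn
    show MemLp ((Set.Ioc (-t) t).indicator k) 2
    rw [memLp_indicator_iff_restrict measurableSet_Ioc]
    have : IsFiniteMeasure (volume.restrict (Set.Ioc (-t) t)) := ⟨by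
      rw [Measure.restrict_apply_univ]; exact measure_Ioc_lt_top⟩
    exact MemLp.of_bound hk.aestronglyMeasurable B ((ae_restrict_iff' measurableSet_Ioc).2
      (Eventually.of_forall fun u hu => hB u (Set.Ioc_subset_Icc_self hu)))
  set Z : ℝ → ℝ → E := fun t v => ∫ u, a t u • Y v u with hZ
  have hFm : ∀ t, StronglyMeasurable fun p : ℝ × ℝ => a t p.2 • Y p.1 p.2 := fun t =>
    ((ham t).comp_measurable measurable_snd).smul hYm
  have hZm : ∀ t, StronglyMeasurable (Z t) := fun t => StronglyMeasurable.integral_prod_right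
    (f := fun v u => a t u • Y v u) (hFm t)
  have hYint : ∀ t v, Integrable fun u => a t u • Y v u := by
    intro t v
    refine Integrable.mono (hai t) (((hFm t).comp_measurable
      (measurable_const.prodMk measurable_id (β := ℝ)) : StronglyMeasurable
        fun u => a t u • Y v u).aestronglyMeasurable) (Eventually.of_forall fun u => ?_)
    rw [norm_smul]
    exact mul_le_of_le_one_right (norm_nonneg _) (hY1 v u)
  have hZb : ∀ t v, ‖Z t v‖ ≤ ∫ u, ‖a t u‖ := by
    intro t v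
    refine (norm_integral_le_integral_norm _).trans
      (integral_mono (hYint t v).norm (hai t).norm fun u => ?_)
    show ‖a t u • Y v u‖ ≤ ‖a t u‖
    rw [norm_smul]
    exact mul_le_of_le_one_right (norm_nonneg _) (hY1 v u)
  have hZi : ∀ t, Integrable (fun v => ‖Z t v‖ ^ 2) ν := fun t =>
    Integrable.of_bound ((hZm t).norm.pow 2).aestronglyMeasurable ((∫ u, ‖a t u‖) ^ 2)
      (Eventually.of_forall fun v => by
        rw [norm_pow, norm_norm]
        exact pow_le_pow_left₀ (norm_nonneg _) (hZb t v) 2)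
  have hZd : ∀ s t, Integrable (fun v => ‖Z s v - Z t v‖ ^ 2) ν := fun s t =>
    Integrable.of_bound (((hZm s).sub (hZm t)).norm.pow 2).aestronglyMeasurable
      (((∫ u, ‖a s u‖) + ∫ u, ‖a t u‖) ^ 2)
      (Eventually.of_forall fun v => by
        rw [norm_pow, norm_norm]
        exact pow_le_pow_left₀ (norm_nonneg _)
          ((norm_sub_le _ _).trans (add_le_add (hZb s v) (hZb t v))) 2)
  have heq : ∀ t, 0 ≤ t → ∀ v, ∫ u in (-t)..t, k u • Y v u = Z t v := by
    intro t ht v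
    rw [intervalIntegral.integral_of_le (by linarith), ← integral_indicator measurableSet_Ioc]
    refine integral_congr_ae (Eventually.of_forall fun u => ?_)
    show (Set.Ioc (-t) t).indicator (fun u => k u • Y v u) u = (Set.Ioc (-t) t).indicator k u • Y v u
    by_cases hu : u ∈ Set.Ioc (-t) t
    · rw [Set.indicator_of_mem hu, Set.indicator_of_mem hu]
    · rw [Set.indicator_of_notMem hu, Set.indicator_of_notMem hu, zero_smul]
  set q : ℝ → ℝ := fun t => ∫ u, ‖a t u‖ ^ 2 with hq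
  have hqi : ∀ t, Integrable (fun u => ‖a t u‖ ^ 2) := by
    intro t
    refine Integrable.mono hk2 ((ham t).norm.pow 2).aestronglyMeasurable
      (Eventually.of_forall fun u => ?_)
    rw [Real.norm_of_nonneg (by positivity), Real.norm_of_nonneg (by positivity)]
    by_cases hu : u ∈ Set.Ioc (-t) t
    · show ‖(Set.Ioc (-t) t).indicator k u‖ ^ 2 ≤ _
      rw [Set.indicator_of_mem hu]
    · show ‖(Set.Ioc (-t) t).indicator k u‖ ^ 2 ≤ _
      rw [Set.indicator_of_notMem hu]; simp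
  have hpt : ∀ s t, 0 ≤ s → s ≤ t → ∀ u, ‖a t u - a s u‖ ^ 2 = ‖a t u‖ ^ 2 - ‖a s u‖ ^ 2 := by
    intro s t hs hst u
    show ‖(Set.Ioc (-t) t).indicator k u - (Set.Ioc (-s) s).indicator k u‖ ^ 2 =
      ‖(Set.Ioc (-t) t).indicator k u‖ ^ 2 - ‖(Set.Ioc (-s) s).indicator k u‖ ^ 2
    by_cases hu : u ∈ Set.Ioc (-s) s
    · have hu' : u ∈ Set.Ioc (-t) t := ⟨by linarith [hu.1], hu.2.trans hst⟩
      rw [Set.indicator_of_mem hu, Set.indicator_of_mem hu']; simp
    · rw [Set.indicator_of_notMem hu]; simp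
  have hdiff : ∀ s t, 0 ≤ s → s ≤ t → ∫ v, ‖Z t v - Z s v‖ ^ 2 ∂ν ≤ K * (q t - q s) := by
    intro s t hs hst
    have h1 := hS (fun u => a t u - a s u) ((hai t).sub (hai s)) ((hmem t).sub (hmem s))
    have h2 : ∀ v, ∫ u, (a t u - a s u) • Y v u = Z t v - Z s v := by
      intro v
      rw [hZ]
      show _ = (∫ u, a t u • Y v u) - ∫ u, a s u • Y v u
      rw [← integral_sub (hYint t v) (hYint s v)]
      exact integral_congr_ae (Eventually.of_forall fun u => sub_smul _ _ _)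
    have h3 : ∫ u, ‖a t u - a s u‖ ^ 2 = q t - q s := by
      rw [hq]
      show _ = (∫ u, ‖a t u‖ ^ 2) - ∫ u, ‖a s u‖ ^ 2
      rw [← integral_sub (hqi t) (hqi s)]
      exact integral_congr_ae (Eventually.of_forall fun u => hpt s t hs hst u)
    simp only [h2, h3] at h1
    exact h1
  set Q : ℝ := ∫ u, ‖k u‖ ^ 2 with hQ
  have hqQ : ∀ t, q t ≤ Q := by
    intro t
    refine integral_mono (hqi t) hk2 fun u => ?_
    show ‖(Set.Ioc (-t) t).indicator k u‖ ^ 2 ≤ ‖k u‖ ^ 2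
    by_cases hu : u ∈ Set.Ioc (-t) t
    · rw [Set.indicator_of_mem hu]
    · rw [Set.indicator_of_notMem hu]; simp
  have hqlim : Tendsto q atTop (𝓝 Q) := by
    have h1 : Tendsto (fun t : ℝ => ∫ u in (-t)..t, ‖k u‖ ^ 2) atTop (𝓝 Q) :=
      intervalIntegral_tendsto_integral hk2 tendsto_neg_atTop_atBot tendsto_id
    refine h1.congr' ((eventually_ge_atTop 0).mono fun t ht => ?_)
    rw [intervalIntegral.integral_of_le (by linarith), ← integral_indicator measurableSet_Ioc]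
    refine integral_congr_ae (Eventually.of_forall fun u => ?_)
    show (Set.Ioc (-t) t).indicator (fun u => ‖k u‖ ^ 2) u = ‖(Set.Ioc (-t) t).indicator k u‖ ^ 2
    by_cases hu : u ∈ Set.Ioc (-t) t
    · rw [Set.indicator_of_mem hu, Set.indicator_of_mem hu]
    · rw [Set.indicator_of_notMem hu, Set.indicator_of_notMem hu]; simp
  -- the estimate
  rw [Metric.tendsto_atTop]
  intro ε₀ hε₀
  set ε : ℝ := ε₀ / 16 with hεdef
  have hε : 0 < ε := by positivity
  have hev : ∀ᶠ t in atTop, K * (Q - q t) < ε := by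
    have h1 : Tendsto (fun t => K * (Q - q t)) atTop (𝓝 (K * (Q - Q))) :=
      (tendsto_const_nhds.sub hqlim).const_mul K
    rw [sub_self, mul_zero] at h1
    exact h1.eventually (gt_mem_nhds hε)
  obtain ⟨T, hT1, hT0⟩ := (hev.and (eventually_ge_atTop (0 : ℝ))).exists
  set B : ℝ := (∫ u, ‖a T u‖) ^ 2 with hBdef
  have hB0 : 0 ≤ B := by positivity
  have hνlim : Tendsto (fun n => (ν (M n)ᶜ).toReal * B) atTop (𝓝 0) := by
    have h1 := (ENNReal.tendsto_toReal ENNReal.zero_ne_top).comp hMn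
    have h2 := h1.mul_const B
    simpa using h2
  obtain ⟨n, hn⟩ := (hνlim.eventually (gt_mem_nhds hε)).exists
  refine ⟨T, fun s hs => ?_⟩
  have hs0 : 0 ≤ s := hT0.trans hs
  obtain ⟨t, hst, ht0, hgt⟩ := hgood n s ε hε
  simp only [heq t ht0] at hgt
  simp only [heq s hs0]
  -- the good part
  have h1 : ∫ v in M n, ‖Z s v‖ ^ 2 ∂ν ≤ 4 * ε := by
    have h2 : ∫ v in M n, ‖Z s v‖ ^ 2 ∂ν ≤
        ∫ v in M n, (2 * ‖Z t v‖ ^ 2 + 2 * ‖Z s v - Z t v‖ ^ 2) ∂ν :=
      integral_mono (hZi s).integrableOn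
        (((hZi t).integrableOn.const_mul 2).add ((hZd s t).integrableOn.const_mul 2))
        fun v => sq_bound _ _
    have h3 : ∫ v in M n, (2 * ‖Z t v‖ ^ 2 + 2 * ‖Z s v - Z t v‖ ^ 2) ∂ν =
        2 * (∫ v in M n, ‖Z t v‖ ^ 2 ∂ν) + 2 * ∫ v in M n, ‖Z s v - Z t v‖ ^ 2 ∂ν := by
      rw [integral_add ((hZi t).integrableOn.const_mul 2) ((hZd s t).integrableOn.const_mul 2),
        integral_const_mul, integral_const_mul]
    have h4 : ∫ v in M n, ‖Z s v - Z t v‖ ^ 2 ∂ν ≤ ∫ v, ‖Z s v - Z t v‖ ^ 2 ∂ν :=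
      setIntegral_le_integral (hZd s t) (Eventually.of_forall fun v => by positivity)
    have h5 : ∫ v, ‖Z s v - Z t v‖ ^ 2 ∂ν = ∫ v, ‖Z t v - Z s v‖ ^ 2 ∂ν :=
      integral_congr_ae (Eventually.of_forall fun v => by
        show ‖Z s v - Z t v‖ ^ 2 = ‖Z t v - Z s v‖ ^ 2
        rw [norm_sub_rev])
    have h6 := hdiff s t hs0 hst
    have h7 : K * (q t - q s) ≤ K * (Q - q T) := by
      refine mul_le_mul_of_nonneg_left ?_ hK
      have : q T ≤ q s := by
        have h8 : 0 ≤ ∫ u, ‖a s u - a T u‖ ^ 2 := integral_nonneg fun u => by positivity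
        have h9 : ∫ u, ‖a s u - a T u‖ ^ 2 = q s - q T := by
          rw [hq]
          show _ = (∫ u, ‖a s u‖ ^ 2) - ∫ u, ‖a T u‖ ^ 2
          rw [← integral_sub (hqi s) (hqi T)]
          exact integral_congr_ae (Eventually.of_forall fun u => hpt T s hT0 hs u)
        linarith
      linarith [hqQ t]
    linarith
  -- the small set
  have h2 : ∫ v in (M n)ᶜ, ‖Z s v‖ ^ 2 ∂ν ≤ 4 * ε := by
    have h3 : ∫ v in (M n)ᶜ, ‖Z s v‖ ^ 2 ∂ν ≤
        ∫ v in (M n)ᶜ, (2 * ‖Z T v‖ ^ 2 + 2 * ‖Z s v - Z T v‖ ^ 2) ∂ν :=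
      integral_mono (hZi s).integrableOn
        (((hZi T).integrableOn.const_mul 2).add ((hZd s T).integrableOn.const_mul 2))
        fun v => sq_bound _ _
    have h4 : ∫ v in (M n)ᶜ, (2 * ‖Z T v‖ ^ 2 + 2 * ‖Z s v - Z T v‖ ^ 2) ∂ν =
        2 * (∫ v in (M n)ᶜ, ‖Z T v‖ ^ 2 ∂ν) + 2 * ∫ v in (M n)ᶜ, ‖Z s v - Z T v‖ ^ 2 ∂ν := by
      rw [integral_add ((hZi T).integrableOn.const_mul 2) ((hZd s T).integrableOn.const_mul 2),
        integral_const_mul, integral_const_mul]
    have h5 : ∫ v in (M n)ᶜ, ‖Z s v - Z T v‖ ^ 2 ∂ν ≤ ∫ v, ‖Z s v - Z T v‖ ^ 2 ∂ν :=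
      setIntegral_le_integral (hZd s T) (Eventually.of_forall fun v => by positivity)
    have h6 := hdiff T s hT0 hs
    have h7 : K * (q s - q T) ≤ K * (Q - q T) :=
      mul_le_mul_of_nonneg_left (by linarith [hqQ s]) hK
    have h8 : ∫ v in (M n)ᶜ, ‖Z T v‖ ^ 2 ∂ν ≤ (ν (M n)ᶜ).toReal * B := by
      have h9 : ∫ v in (M n)ᶜ, ‖Z T v‖ ^ 2 ∂ν ≤ ∫ _ in (M n)ᶜ, B ∂ν :=
        integral_mono (hZi T).integrableOn (integrable_const _) fun v =>
          pow_le_pow_left₀ (norm_nonneg _) (hZb T v) 2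
      rw [setIntegral_const, smul_eq_mul] at h9
      exact h9
    linarith
  have h3 : ∫ v, ‖Z s v‖ ^ 2 ∂ν = (∫ v in M n, ‖Z s v‖ ^ 2 ∂ν) + ∫ v in (M n)ᶜ, ‖Z s v‖ ^ 2 ∂ν :=
    (integral_add_compl (hM n) (hZi s)).symm
  have h4 : 0 ≤ ∫ v, ‖Z s v‖ ^ 2 ∂ν := integral_nonneg fun v => by positivity
  rw [Real.dist_eq, sub_zero, abs_of_nonneg h4]
  have h5 : ε₀ = 16 * ε := by rw [hεdef]; ring
  linarith

variable {d : ℕ}

theorem ud_continuous (V : Om d) : Continuous fun v : ℝ => ud V v :=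
  continuous_const.update 0 continuous_id

end GZ

open GZ in
theorem gz_facts (hX : T_XT) (hO : T_ORT) (hS : T_SA) (hD : T_DEC) : T_GZ := by
  intro d U hU ν _ K hBD i A hA V S hP φ C hφ
  obtain ⟨hadj, hinv, -, -, -, -, -, -, -⟩ := hX d U hU
  have hK0 : 0 < K := hBD.1
  have hA2 : ∀ (W : Om d) (f : L2 d), ‖A W f‖ ≤ 2 * ‖f‖ := fun W f =>
    ((A W).le_opNorm f).trans (mul_le_mul_of_nonneg_right (hA.bdd W) (norm_nonneg _))
  have hUc : ∀ (W : Om d) (f : L2 d), Continuous fun t : ℝ => U W t f := fun W f =>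
    (hU.g0.cont f).comp (continuous_const.prodMk continuous_id)
  set k : ℝ → ℂ := fun u => inner ℂ (ee 0) (U V u (A V φ)) with hk
  have hkc : Continuous k := continuous_const.inner (hUc V (A V φ))
  have hk2 : Integrable fun t => ‖k t‖ ^ 2 := by
    refine (hφ.int (A V (ee 0))).congr (Eventually.of_forall fun t => ?_)
    show ‖(inner ℂ (A V (ee 0)) (U V t φ) : ℂ)‖ ^ 2 =
      ‖(inner ℂ (ee 0) (U V t (A V φ)) : ℂ)‖ ^ 2
    rw [hA.sa, hA.com]
  -- the difference operator along the evolution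
  set g : ℕ → ℝ → ℝ := fun n t => ∫ v in Set.Icc (-(n : ℝ)) n,
    ‖A (ud V v) (U V t φ) - A V (U V t φ)‖ ^ 2 ∂ν with hg
  have hDm : ∀ t, StronglyMeasurable fun v : ℝ => A (ud V v) (U V t φ) - A V (U V t φ) := by
    intro t
    have h1 : StronglyMeasurable fun W => A W (U V t φ) := hA.cov.meas _
    exact (h1.comp_measurable (ud_continuous V).measurable).sub stronglyMeasurable_const
  have hDb : ∀ t v, ‖A (ud V v) (U V t φ) - A V (U V t φ)‖ ^ 2 ≤ (4 * ‖φ‖) ^ 2 := by
    intro t v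
    refine pow_le_pow_left₀ (norm_nonneg _) ?_ 2
    refine (norm_sub_le _ _).trans ?_
    have h1 := hA2 (ud V v) (U V t φ)
    have h2 := hA2 V (U V t φ)
    rw [hU.g0.norm] at h1 h2
    linarith
  have hDi : ∀ t, Integrable (fun v => ‖A (ud V v) (U V t φ) - A V (U V t φ)‖ ^ 2) ν := fun t =>
    Integrable.of_bound ((hDm t).norm.pow 2).aestronglyMeasurable ((4 * ‖φ‖) ^ 2)
      (Eventually.of_forall fun v => by
        rw [Real.norm_of_nonneg (by positivity)]; exact hDb t v)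
  have hgc : ∀ n, Continuous (g n) := by
    intro n
    refine continuous_of_dominated (bound := fun _ => (4 * ‖φ‖) ^ 2)
      (fun t => ((hDm t).norm.pow 2).aestronglyMeasurable) (fun t => Eventually.of_forall fun v => by
        rw [Real.norm_of_nonneg (by positivity)]; exact hDb t v) (integrable_const _)
      (Eventually.of_forall fun v => ?_)
    exact ((((A (ud V v)).continuous.comp (hUc V φ)).sub
      ((A V).continuous.comp (hUc V φ))).norm).pow 2
  have hg0 : ∀ n t, 0 ≤ g n t := fun n t => integral_nonneg fun v => by positivity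
  -- the formula
  have hform : ∀ (v t : ℝ), (Complex.I * ((v - V 0 : ℝ) : ℂ)) •
      (∫ u in (-t)..t, k u • U (ud V v) (-u) (ee 0)) =
      U (ud V v) t (A (ud V v) (U V (-t) φ) - A V (U V (-t) φ)) -
        U (ud V v) (-t) (A (ud V v) (U V t φ) - A V (U V t φ)) := by
    intro v t
    have hcont : Continuous fun u : ℝ => k u • U (ud V v) (-u) (ee 0) :=
      hkc.smul ((hUc (ud V v) (ee 0)).comp continuous_neg)
    have e1 : ∫ u in (-t)..t, k u • U (ud V v) (-u) (ee 0) =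
        (∫ u in (0 : ℝ)..t, k u • U (ud V v) (-u) (ee 0)) -
          ∫ u in (0 : ℝ)..(-t), k u • U (ud V v) (-u) (ee 0) := by
      rw [intervalIntegral.integral_interval_sub_left (hcont.intervalIntegrable _ _)
        (hcont.intervalIntegrable _ _)]
    have hcomm : ∀ s : ℝ, U (ud V v) (-s) (U V s (A V φ)) = A (ud V v) φ -
        U (ud V v) (-s) (A (ud V v) (U V s φ) - A V (U V s φ)) := by
      intro s
      have h1 : U (ud V v) (-s) (A (ud V v) (U V s φ)) = A (ud V v) φ := by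
        rw [← (hO d U hU V φ hφ.ort v s).1, hA.com, hinv]
      rw [map_sub, h1, hA.com]
      abel
    have e2 := hU.duh V v t (A V φ)
    have e3 := hU.duh V v (-t) (A V φ)
    rw [hcomm] at e2 e3
    rw [neg_neg] at e3
    rw [e1, smul_sub]
    have e4 : (Complex.I * ((v - V 0 : ℝ) : ℂ)) •
        (∫ u in (0 : ℝ)..t, k u • U (ud V v) (-u) (ee 0)) = A (ud V v) φ -
        U (ud V v) (-t) (A (ud V v) (U V t φ) - A V (U V t φ)) - A V φ := by
      rw [e2]; simp only [hk]; abel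
    have e5 : (Complex.I * ((v - V 0 : ℝ) : ℂ)) •
        (∫ u in (0 : ℝ)..(-t), k u • U (ud V v) (-u) (ee 0)) = A (ud V v) φ -
        U (ud V v) t (A (ud V v) (U V (-t) φ) - A V (U V (-t) φ)) - A V φ := by
      rw [e3]; simp only [hk]; abel
    rw [e4, e5]
    abel
  set M : ℕ → Set ℝ := fun n => {v | |v| ≤ n ∧ 1 / ((n : ℝ) + 1) ≤ |v - V 0|} with hM
  have hMm : ∀ n, MeasurableSet (M n) := by
    intro n
    have h1 : IsClosed (M n) := by
      have : M n = {v : ℝ | |v| ≤ n} ∩ {v : ℝ | 1 / ((n : ℝ) + 1) ≤ |v - V 0|} := rfl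
      rw [this]
      exact (isClosed_le continuous_abs continuous_const).inter
        (isClosed_le continuous_const ((continuous_id.sub continuous_const).abs))
    exact h1.measurableSet
  refine conv ν (fun v t => U (ud V v) (-t) (ee 0)) ?_ ?_ (2 * Real.pi * K) (by positivity)
    (fun a ha1 ha2 => hS d U hU ν K hBD V a ha1 ha2) k hkc hk2 M hMm ?_ ?_
  · exact (hU.g0.cont (ee 0)).comp
      (((ud_continuous V).comp continuous_fst).prodMk (continuous_snd.neg))
  · intro w t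
    rw [hU.g0.norm, norm_ee]
  · -- the measure of the complements
    have hanti : Antitone fun n => (M n)ᶜ := by
      intro m n hmn v hv hv'
      refine hv ⟨hv'.1.trans (by exact_mod_cast hmn), le_trans ?_ hv'.2⟩
      refine one_div_le_one_div_of_le (by positivity) ?_
      have : (m : ℝ) ≤ n := by exact_mod_cast hmn
      linarith
    have h1 := tendsto_measure_iInter_atTop (μ := ν) (s := fun n => (M n)ᶜ)
      (fun n => (hMm n).compl.nullMeasurableSet) hanti ⟨0, measure_ne_top _ _⟩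
    have h2 : ν (⋂ n, (M n)ᶜ) = 0 := by
      have h3 : (⋂ n, (M n)ᶜ) ⊆ {V 0} := by
        intro v hv
        by_contra hne
        have hpos : 0 < |v - V 0| := abs_pos.2 (sub_ne_zero.2 hne)
        obtain ⟨n1, hn1⟩ := exists_nat_ge |v|
        obtain ⟨n2, hn2⟩ := exists_nat_one_div_lt hpos
        have hmem : v ∈ M (max n1 n2) := by
          refine ⟨hn1.trans (by exact_mod_cast le_max_left n1 n2), ?_⟩
          refine le_trans (one_div_le_one_div_of_le (by positivity) ?_) hn2.le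
          have : (n2 : ℝ) ≤ ((max n1 n2 : ℕ) : ℝ) := by exact_mod_cast le_max_right n1 n2
          linarith
        exact (Set.mem_iInter.1 hv (max n1 n2)) hmem
      refine measure_mono_null h3 ?_
      have h4 := hBD.2 {V 0} (measurableSet_singleton _)
      rw [Real.volume_singleton, mul_zero] at h4
      exact le_antisymm h4 zero_le
    rw [h2] at h1
    exact h1
  · intro n s ε hε
    have hδ : (0 : ℝ) < 1 / ((n : ℝ) + 1) := by positivity
    set δ : ℝ := 1 / ((n : ℝ) + 1) with hδdef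
    obtain ⟨t, hst, ht0, ht⟩ := exists_small (g n) (hgc n) (hg0 n) S hP.top
      (hD d U hU ν i A hA V S hP φ C hφ n) s (δ ^ 2 * ε / 2) (by positivity)
    refine ⟨t, hst, ht0, ?_⟩
    have hpt : ∀ v ∈ M n, ‖∫ u in (-t)..t, k u • U (ud V v) (-u) (ee 0)‖ ^ 2 ≤
        2 / δ ^ 2 * (‖A (ud V v) (U V t φ) - A V (U V t φ)‖ ^ 2 +
          ‖A (ud V v) (U V (-t) φ) - A V (U V (-t) φ)‖ ^ 2) := by
      intro v hv
      have h1 := congrArg (fun x : L2 d => ‖x‖) (hform v t)
      simp only [norm_smul, norm_mul, Complex.norm_I, one_mul, Complex.norm_real,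
        Real.norm_eq_abs] at h1
      set z : ℝ := ‖∫ u in (-t)..t, k u • U (ud V v) (-u) (ee 0)‖ with hz
      have hz0 : 0 ≤ z := norm_nonneg _
      have h2 : |v - V 0| * z ≤ ‖A (ud V v) (U V t φ) - A V (U V t φ)‖ +
          ‖A (ud V v) (U V (-t) φ) - A V (U V (-t) φ)‖ := by
        rw [h1]
        refine (norm_sub_le _ _).trans ?_
        rw [hU.g0.norm, hU.g0.norm, add_comm]
      set x : ℝ := ‖A (ud V v) (U V t φ) - A V (U V t φ)‖ with hx
      set y : ℝ := ‖A (ud V v) (U V (-t) φ) - A V (U V (-t) φ)‖ with hy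
      have hx0 : 0 ≤ x := norm_nonneg _
      have hy0 : 0 ≤ y := norm_nonneg _
      have h3 : δ * z ≤ x + y := (mul_le_mul_of_nonneg_right hv.2 hz0).trans h2
      have h4 : (δ * z) ^ 2 ≤ 2 * (x ^ 2 + y ^ 2) := by
        have := pow_le_pow_left₀ (by positivity) h3 2
        nlinarith [sq_nonneg (x - y)]
      rw [div_mul_eq_mul_div, le_div_iff₀ (by positivity)]
      linarith [mul_pow δ z 2]
    have hsub : M n ⊆ Set.Icc (-(n : ℝ)) n := fun v hv => abs_le.1 hv.1
    have hi1 : Integrable (fun v => 2 / δ ^ 2 * (‖A (ud V v) (U V t φ) - A V (U V t φ)‖ ^ 2 +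
          ‖A (ud V v) (U V (-t) φ) - A V (U V (-t) φ)‖ ^ 2)) ν :=
      ((hDi t).add (hDi (-t))).const_mul _
    calc ∫ v in M n, ‖∫ u in (-t)..t, k u • U (ud V v) (-u) (ee 0)‖ ^ 2 ∂ν
        ≤ ∫ v in M n, 2 / δ ^ 2 * (‖A (ud V v) (U V t φ) - A V (U V t φ)‖ ^ 2 +
          ‖A (ud V v) (U V (-t) φ) - A V (U V (-t) φ)‖ ^ 2) ∂ν := by
          refine integral_mono_of_nonneg (Eventually.of_forall fun v => by positivity)
            hi1.integrableOn ((ae_restrict_iff' (hMm n)).2 (Eventually.of_forall hpt))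
      _ ≤ ∫ v in Set.Icc (-(n : ℝ)) n,
          2 / δ ^ 2 * (‖A (ud V v) (U V t φ) - A V (U V t φ)‖ ^ 2 +
          ‖A (ud V v) (U V (-t) φ) - A V (U V (-t) φ)‖ ^ 2) ∂ν :=
          setIntegral_mono_set hi1.integrableOn (Eventually.of_forall fun v => by positivity)
            (Eventually.of_forall hsub)
      _ = 2 / δ ^ 2 * (g n t + g n (-t)) := by
          rw [integral_const_mul, integral_add (hDi t).integrableOn (hDi (-t)).integrableOn]
      _ ≤ 2 / δ ^ 2 * (δ ^ 2 * ε / 2) := mul_le_mul_of_nonneg_left ht (by positivity)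
      _ = ε := by field_simp

end Pool.Agent.T2h98.NB
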