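import Pool.Agent.T2h98.NB.Stm

/-! The Laplace transform of the return amplitude, averaged over the value at the origin. -/

set_option autoImplicit false

open scoped Topology
open MeasureTheory Filter

namespace Pool.Agent.T2h98.NB

namespace LAP

section

variable {H : Type} [NormedAddCommGroup H] [InnerProductSpace ℂ H]

theorem norm_exp (ζ : ℂ) (t : ℝ) : ‖Complex.exp (-ζ * t)‖ = Real.exp (-ζ.re * t) := by
  rw [Complex.norm_exp]
  congr 1
  simp

theorem cont_exp (ζ : ℂ) : Continuous fun t : ℝ => Complex.exp (-ζ * t) := by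
  fun_prop

theorem lap_int {ζ : ℂ} (hζ : 0 < ζ.re) {F : ℝ → H} (hF : Continuous F) (hF1 : ∀ t, ‖F t‖ ≤ 1)
    (a : ℝ) : IntegrableOn (fun t : ℝ => Complex.exp (-ζ * t) • F t) (Set.Ioi a) := by
  refine (exp_neg_integrableOn_Ioi a hζ).mono'
    ((cont_exp ζ).smul hF).aestronglyMeasurable (Eventually.of_forall fun t => ?_)
  rw [norm_smul, norm_exp]
  exact mul_le_of_le_one_right (Real.exp_pos _).le (hF1 t)

variable [CompleteSpace H]

theorem lap_pos {ζ : ℂ} (hζ : 0 < ζ.re) {F : ℝ → H} (hF : Continuous F) (hF1 : ∀ t, ‖F t‖ ≤ 1)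
    (U : ℝ → H →L[ℂ] H) (hU : ∀ s f, ‖U s f‖ = ‖f‖) (hUF : ∀ s t, U s (F t) = F (t + s)) :
    (inner ℂ (F 0) (∫ t in Set.Ioi (0 : ℝ), Complex.exp (-ζ * t) • F t) : ℂ).re =
      ζ.re * ‖∫ t in Set.Ioi (0 : ℝ), Complex.exp (-ζ * t) • F t‖ ^ 2 := by
  set G : H := ∫ t in Set.Ioi (0 : ℝ), Complex.exp (-ζ * t) • F t with hG
  let f : ℝ → H := fun t => Complex.exp (-ζ * t) • F t
  have hfc : Continuous f := (cont_exp ζ).smul hF
  have h1 : ∀ s : ℝ, Complex.exp (-ζ * s) • U s G = G - ∫ t in (0 : ℝ)..s, f t := by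
    intro s
    have h2 : U s G = ∫ t in Set.Ioi (0 : ℝ), U s (f t) :=
      ((U s).integral_comp_comm (lap_int hζ hF hF1 0)).symm
    have h3 : Complex.exp (-ζ * s) • U s G = ∫ t in Set.Ioi (0 : ℝ), f (t + s) := by
      rw [h2, ← integral_smul]
      refine integral_congr_ae (Eventually.of_forall fun t => ?_)
      show Complex.exp (-ζ * s) • U s (Complex.exp (-ζ * t) • F t) =
        Complex.exp (-ζ * ((t + s : ℝ) : ℂ)) • F (t + s)
      rw [map_smul, hUF, smul_smul, ← Complex.exp_add]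
      congr 2
      push_cast
      ring
    have h4 : ∫ t in Set.Ioi (0 : ℝ), f (t + s) = ∫ t in Set.Ioi s, f t := by
      have h5 := (measurePreserving_add_right (volume : Measure ℝ) s).setIntegral_preimage_emb
        (measurableEmbedding_addRight s) f (Set.Ioi s)
      rw [← h5]
      congr 2
      ext t
      simp
    rw [h3, h4, ← intervalIntegral.integral_Ioi_sub_Ioi' (lap_int hζ hF hF1 0)
      (lap_int hζ hF hF1 s)]
    show _ = G - (G - _)
    rw [sub_sub_cancel]
  have h6 : HasDerivAt (fun s : ℝ => G - ∫ t in (0 : ℝ)..s, f t) (-f 0) 0 := by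
    have h7 : HasDerivAt (fun s : ℝ => ∫ t in (0 : ℝ)..s, f t) (f 0) 0 :=
      intervalIntegral.integral_hasDerivAt_right (hfc.intervalIntegrable _ _)
        (hfc.stronglyMeasurableAtFilter _ _) hfc.continuousAt
    simpa using h7.const_sub G
  have h8 := h6.inner ℂ h6
  have h9 : (fun s : ℝ => (inner ℂ (G - ∫ t in (0 : ℝ)..s, f t)
      (G - ∫ t in (0 : ℝ)..s, f t) : ℂ)) =
      fun s : ℝ => ((Real.exp (-ζ.re * s) ^ 2 * ‖G‖ ^ 2 : ℝ) : ℂ) := by
    funext s
    rw [← h1 s, inner_self_eq_norm_sq_to_K, norm_smul, norm_exp, hU]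
    show ((Real.exp (-ζ.re * s) * ‖G‖ : ℝ) : ℂ) ^ 2 = _
    rw [← Complex.ofReal_pow, mul_pow]
  have h10 : HasDerivAt (fun s : ℝ => ((Real.exp (-ζ.re * s) ^ 2 * ‖G‖ ^ 2 : ℝ) : ℂ))
      ((-2 * ζ.re * ‖G‖ ^ 2 : ℝ) : ℂ) 0 := by
    have h11 : HasDerivAt (fun s : ℝ => Real.exp (-ζ.re * s) ^ 2 * ‖G‖ ^ 2)
        (-2 * ζ.re * ‖G‖ ^ 2) 0 := by
      have h12 : HasDerivAt (fun s : ℝ => -ζ.re * s) (-ζ.re) 0 := by
        simpa using (hasDerivAt_id (0 : ℝ)).const_mul (-ζ.re)
      have h13 := ((h12.exp).pow 2).mul_const (‖G‖ ^ 2)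
      have h14 : (2 : ℕ) * Real.exp (-ζ.re * 0) ^ (2 - 1) * (Real.exp (-ζ.re * 0) * -ζ.re) *
          ‖G‖ ^ 2 = -2 * ζ.re * ‖G‖ ^ 2 := by
        rw [mul_zero, Real.exp_zero]
        push_cast
        ring
      rw [← h14]
      exact h13
    exact h11.ofReal_comp
  rw [h9] at h8
  have h14 := h8.unique h10
  simp only [intervalIntegral.integral_same, sub_zero] at h14
  have hf0 : f 0 = F 0 := by
    show Complex.exp (-ζ * ((0 : ℝ) : ℂ)) • F 0 = F 0
    simp
  rw [hf0, inner_neg_right, inner_neg_left] at h14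
  have h15 := congrArg Complex.re h14
  have h16 : (inner ℂ G (F 0) : ℂ).re = (inner ℂ (F 0) G : ℂ).re := by
    rw [← inner_conj_symm, Complex.conj_re]
  rw [Complex.add_re, Complex.neg_re, Complex.neg_re, h16, Complex.ofReal_re] at h15
  linarith

end

/-- the integral over the value at the origin -/
theorem int_val {z : ℂ} (hz : 0 < z.re) {ν : Measure ℝ} [IsProbabilityMeasure ν] {C : ℝ}
    (hν : BD ν C) {M : ℝ → ℂ} (hM : ∀ v : ℝ, M v = (z + Complex.I * (v : ℂ))⁻¹) :
    0 ≤ (∫ v, M v ∂ν).re ∧ (∫ v, M v ∂ν).re ≤ Real.pi * C := by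
  have hne : ∀ v : ℝ, z + Complex.I * (v : ℂ) ≠ 0 := by
    intro v h
    have h1 := congrArg Complex.re h
    simp at h1
    exact hz.ne' h1
  have hre : ∀ v : ℝ, (M v).re = z.re⁻¹ * (1 + ((v + z.im) / z.re) ^ 2)⁻¹ := by
    intro v
    rw [hM, Complex.inv_re, Complex.normSq_apply]
    have h1 : (z + Complex.I * (v : ℂ)).re = z.re := by simp
    have h2 : (z + Complex.I * (v : ℂ)).im = z.im + v := by simp
    rw [h1, h2]
    have h3 : z.re * z.re + (z.im + v) * (z.im + v) ≠ 0 :=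
      (add_pos_of_pos_of_nonneg (mul_pos hz hz) (mul_self_nonneg _)).ne'
    have h4 : 1 + ((v + z.im) / z.re) ^ 2 ≠ 0 := by positivity
    field_simp
    ring
  have hcont : Continuous M := by
    have : M = fun v : ℝ => (z + Complex.I * (v : ℂ))⁻¹ := funext hM
    rw [this]
    exact Continuous.inv₀ (by fun_prop) hne
  have hbd : ∀ v, ‖M v‖ ≤ z.re⁻¹ := by
    intro v
    rw [hM, norm_inv]
    refine inv_anti₀ hz ?_
    have h1 : (z + Complex.I * (v : ℂ)).re = z.re := by simp
    rw [← h1]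
    exact Complex.re_le_norm _
  have hint : Integrable M ν := Integrable.of_bound hcont.aestronglyMeasurable _
    (Eventually.of_forall hbd)
  have hre2 : (∫ v, M v ∂ν).re = ∫ v, (M v).re ∂ν := by
    exact (Complex.reCLM.integral_comp_comm hint).symm
  have hnn : ∀ v, 0 ≤ (M v).re := by
    intro v
    rw [hre]
    positivity
  have hle : ν ≤ ENNReal.ofReal C • (volume : Measure ℝ) := by
    refine Measure.le_iff.2 fun S hS => ?_
    rw [Measure.smul_apply, smul_eq_mul]
    exact hν.2 S hS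
  have hgi : Integrable (fun v : ℝ => (M v).re) (volume : Measure ℝ) := by
    have h1 : Integrable (fun v : ℝ => (1 + (v / z.re) ^ 2)⁻¹) :=
      integrable_inv_one_add_sq.comp_div hz.ne'
    have h2 := (h1.comp_add_right z.im).const_mul z.re⁻¹
    refine h2.congr (Eventually.of_forall fun v => ?_)
    exact (hre v).symm
  have hgv : ∫ v : ℝ, (M v).re = Real.pi := by
    have h1 : ∫ v : ℝ, (M v).re = ∫ v : ℝ, z.re⁻¹ * (1 + ((v + z.im) / z.re) ^ 2)⁻¹ :=
      integral_congr_ae (Eventually.of_forall hre)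
    rw [h1, integral_const_mul, integral_add_right_eq_self
      (fun v : ℝ => (1 + (v / z.re) ^ 2)⁻¹) z.im]
    have h2 := Measure.integral_comp_div (fun u : ℝ => (1 + u ^ 2)⁻¹) z.re
    rw [h2, integral_univ_inv_one_add_sq, abs_of_pos hz, smul_eq_mul, ← mul_assoc,
      inv_mul_cancel₀ hz.ne', one_mul]
  rw [hre2]
  refine ⟨integral_nonneg hnn, ?_⟩
  have h3 : ∫ v, (M v).re ∂ν ≤ ∫ v, (M v).re ∂(ENNReal.ofReal C • (volume : Measure ℝ)) :=
    integral_mono_measure hle (Eventually.of_forall hnn)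
      (hgi.smul_measure ENNReal.ofReal_ne_top)
  rw [integral_smul_measure, hgv, ENNReal.toReal_ofReal hν.1.le, smul_eq_mul, mul_comm] at h3
  exact h3

end LAP

theorem lap (hX : T_XT) : T_LAP := by
  intro d U hU ν _ C hν V η E hη
  set ζ : ℂ := (η : ℂ) + E * Complex.I with hζ
  have hζr : ζ.re = η := by simp [hζ]
  have hζ0 : 0 < ζ.re := by rw [hζr]; exact hη
  let e : L2 d := ee 0
  let m : ℝ → ℝ → ℂ := fun v t => inner ℂ e (U (ud V v) t e)
  let M : ℝ → ℂ := fun v => ∫ t in Set.Ioi (0 : ℝ), Complex.exp (-ζ * t) * m v t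
  have hUc : ∀ v, Continuous fun t => U (ud V v) t e := fun v =>
    (hU.g0.cont e).comp (continuous_const.prodMk continuous_id)
  have hmc : ∀ v, Continuous (m v) := fun v => continuous_const.inner (hUc v)
  have he : ‖e‖ = 1 := norm_ee 0
  have hU1 : ∀ v t, ‖U (ud V v) t e‖ ≤ 1 := fun v t => by rw [hU.g0.norm, he]
  have hm1 : ∀ v t, ‖m v t‖ ≤ 1 := by
    intro v t
    refine (norm_inner_le_norm _ _).trans ?_
    rw [he, one_mul]
    exact hU1 v t
  -- the Volterra equation
  have hV : ∀ v t, m 0 t = m v t + (Complex.I * (v : ℂ)) *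
      ∫ u in (0 : ℝ)..t, m 0 u * m v (t - u) := by
    intro v t
    have h1 := hU.duh (ud V 0) v t e
    have h2 : ud (ud V 0) v = ud V v := by
      unfold ud
      rw [Function.update_idem]
    have h3 : (ud V 0 : Om d) 0 = 0 := by
      unfold ud
      rw [Function.update_self]
    rw [h2, h3, sub_zero] at h1
    have h4 : U (ud V v) t (U (ud V v) (-t) (U (ud V 0) t e)) = U (ud V 0) t e := by
      have := (hX d U hU).2.1 (ud V v) (-t) (U (ud V 0) t e)
      rwa [neg_neg] at this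
    have h5 := congrArg (U (ud V v) t) h1
    rw [h4, map_add, map_smul] at h5
    have hci : Continuous fun u : ℝ =>
        (inner ℂ (ee 0) (U (ud V 0) u e) : ℂ) • U (ud V v) (-u) (ee 0) :=
      (hmc 0).smul ((hUc v).comp continuous_neg)
    have h6 : U (ud V v) t (∫ u in (0 : ℝ)..t,
        (inner ℂ (ee 0) (U (ud V 0) u e) : ℂ) • U (ud V v) (-u) (ee 0)) =
        ∫ u in (0 : ℝ)..t, m 0 u • U (ud V v) (t - u) e := by
      rw [← (U (ud V v) t).intervalIntegral_comp_comm (hci.intervalIntegrable _ _)]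
      refine intervalIntegral.integral_congr fun u _ => ?_
      show U (ud V v) t ((inner ℂ (ee 0) (U (ud V 0) u e) : ℂ) • U (ud V v) (-u) (ee 0)) = _
      rw [map_smul, ← hU.g0.add, ← sub_eq_add_neg]
    rw [h6] at h5
    have h7 := congrArg (fun x => (inner ℂ e x : ℂ)) h5
    simp only [inner_add_right, inner_smul_right] at h7
    have hcj : Continuous fun u : ℝ => m 0 u • U (ud V v) (t - u) e :=
      (hmc 0).smul ((hUc v).comp (continuous_const.sub continuous_id))
    have h8 : (inner ℂ e (∫ u in (0 : ℝ)..t, m 0 u • U (ud V v) (t - u) e) : ℂ) =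
        ∫ u in (0 : ℝ)..t, m 0 u * m v (t - u) := by
      have h9 := (innerSL ℂ e).intervalIntegral_comp_comm
        (hcj.intervalIntegrable (μ := volume) 0 t)
      refine Eq.trans h9.symm (intervalIntegral.integral_congr fun u _ => ?_)
      show inner ℂ e (m 0 u • U (ud V v) (t - u) e) = _
      rw [inner_smul_right]
    rw [h8] at h7
    exact h7
  -- the Laplace transform of it
  have hI : ∀ v, IntegrableOn (fun t : ℝ => Complex.exp (-ζ * t) * m v t) (Set.Ioi 0) :=
    fun v => LAP.lap_int hζ0 (hmc v) (hm1 v) 0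
  have hL : ∀ v : ℝ, M 0 = M v + (Complex.I * (v : ℂ)) * (M 0 * M v) := by
    intro v
    have h1 := integral_posConvolution (μ := volume) (ν := volume) (hI 0) (hI v)
      (ContinuousLinearMap.mul ℝ ℂ)
    simp only [ContinuousLinearMap.mul_apply'] at h1
    have h2 : (M 0 * M v) = ∫ t in Set.Ioi (0 : ℝ), ∫ u in (0 : ℝ)..t,
        (Complex.exp (-ζ * u) * m 0 u) * (Complex.exp (-ζ * ((t - u : ℝ) : ℂ)) * m v (t - u)) :=
      h1.symm
    have h3 : ∀ t : ℝ, ∫ u in (0 : ℝ)..t,
        (Complex.exp (-ζ * u) * m 0 u) * (Complex.exp (-ζ * ((t - u : ℝ) : ℂ)) * m v (t - u)) =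
        Complex.exp (-ζ * t) * ∫ u in (0 : ℝ)..t, m 0 u * m v (t - u) := by
      intro t
      rw [← intervalIntegral.integral_const_mul]
      refine intervalIntegral.integral_congr fun u _ => ?_
      show (Complex.exp (-ζ * u) * m 0 u) * (Complex.exp (-ζ * ((t - u : ℝ) : ℂ)) * m v (t - u)) =
        Complex.exp (-ζ * t) * (m 0 u * m v (t - u))
      have h4 : Complex.exp (-ζ * t) =
          Complex.exp (-ζ * u) * Complex.exp (-ζ * ((t - u : ℝ) : ℂ)) := by
        rw [← Complex.exp_add]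
        congr 1
        push_cast
        ring
      rw [h4]
      ring
    simp only [h3] at h2
    rw [h2, ← integral_const_mul]
    have h5 : ∀ t : ℝ, (Complex.I * (v : ℂ)) * (Complex.exp (-ζ * t) *
        ∫ u in (0 : ℝ)..t, m 0 u * m v (t - u)) =
        Complex.exp (-ζ * t) * m 0 t - Complex.exp (-ζ * t) * m v t := by
      intro t
      rw [hV v t]
      ring
    simp only [h5]
    rw [integral_sub (hI 0) (hI v)]
    show M 0 = M v + (M 0 - M v)
    ring
  show 0 ≤ (∫ v, M v ∂ν).re ∧ (∫ v, M v ∂ν).re ≤ Real.pi * C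
  by_cases h0 : M 0 = 0
  · have h1 : ∀ v, M v = 0 := by
      intro v
      have h2 := hL v
      rw [h0, zero_mul, mul_zero, add_zero] at h2
      exact h2.symm
    simp only [h1, integral_zero, Complex.zero_re]
    exact ⟨le_rfl, mul_nonneg Real.pi_pos.le hν.1.le⟩
  · have h1 : 0 < (M 0).re := by
      have h2 := LAP.lap_pos hζ0 (hUc 0) (hU1 0) (fun s => U (ud V 0) s)
        (fun s f => hU.g0.norm _ s f) (fun s t => by
          show U (ud V 0) s (U (ud V 0) t e) = U (ud V 0) (t + s) e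
          rw [← hU.g0.add, add_comm])
      have h3 : U (ud V 0) 0 e = e := by rw [hU.g0.zero]; rfl
      have h4 : (inner ℂ e (∫ t in Set.Ioi (0 : ℝ),
          Complex.exp (-ζ * t) • U (ud V 0) t e) : ℂ) = M 0 := by
        rw [← integral_inner (LAP.lap_int hζ0 (hUc 0) (hU1 0) 0) e]
        refine integral_congr_ae (Eventually.of_forall fun t => ?_)
        show inner ℂ e (Complex.exp (-ζ * t) • U (ud V 0) t e) = _
        rw [inner_smul_right]
      rw [h3] at h2
      have h6 : (M 0).re = ζ.re * ‖∫ t in Set.Ioi (0 : ℝ),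
          Complex.exp (-ζ * t) • U (ud V 0) t e‖ ^ 2 := by
        rw [← h4]
        exact h2
      rw [h6]
      refine mul_pos hζ0 (pow_pos (norm_pos_iff.2 fun h5 => h0 ?_) 2)
      rw [← h4, h5, inner_zero_right]
    have hz : 0 < ((M 0)⁻¹).re := by
      rw [Complex.inv_re]
      exact div_pos h1 (Complex.normSq_pos.2 h0)
    refine LAP.int_val hz hν fun v => ?_
    have h2 := hL v
    have h3 : M v * ((M 0)⁻¹ + Complex.I * (v : ℂ)) = 1 := by
      have h4 : M v * ((M 0)⁻¹ + Complex.I * (v : ℂ)) =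
          (M 0)⁻¹ * (M v + (Complex.I * (v : ℂ)) * (M 0 * M v)) := by
        field_simp
      rw [h4, ← h2, inv_mul_cancel₀ h0]
    exact eq_inv_of_mul_eq_one_left h3

end Pool.Agent.T2h98.NB
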