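import Pool.Agent.T2h98.NB.Stm

/-! No ballistic motion: the mean ergodic theorem for stationary sequences of vectors. -/

set_option autoImplicit false

open scoped BigOperators Topology ENNReal InnerProductSpace
open MeasureTheory Filter

namespace Pool.Agent.T2h98.NB

namespace MET

variable {E : Type} [NormedAddCommGroup E] [InnerProductSpace ℂ E]

/-- the shifted combinations -/
noncomputable def Lk (x : ℕ → E) (k : ℕ) : (ℕ →₀ ℂ) →ₗ[ℂ] E :=
  Finsupp.linearCombination ℂ (fun j => x (j + k))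

/-- the sum of the coefficients -/
noncomputable def sg : (ℕ →₀ ℂ) →ₗ[ℂ] ℂ := Finsupp.linearCombination ℂ (fun _ => (1 : ℂ))

theorem Lk_single (x : ℕ → E) (k j : ℕ) (a : ℂ) : Lk x k (Finsupp.single j a) = a • x (j + k) := by
  unfold Lk
  rw [Finsupp.linearCombination_single]

theorem sg_single (j : ℕ) (a : ℂ) : sg (Finsupp.single j a) = a := by
  unfold sg
  rw [Finsupp.linearCombination_single, smul_eq_mul, mul_one]

theorem inner_succ {x : ℕ → E}
    (hx : ∀ m n : ℕ, (inner ℂ (x (m + 1)) (x (n + 1)) : ℂ) = inner ℂ (x m) (x n)) (k : ℕ)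
    (a b : ℕ →₀ ℂ) :
    (inner ℂ (Lk x (k + 1) a) (Lk x (k + 1) b) : ℂ) = inner ℂ (Lk x k a) (Lk x k b) := by
  induction a using Finsupp.induction_linear with
  | zero => simp
  | add f g hf hg => rw [map_add, map_add, inner_add_left, inner_add_left, hf, hg]
  | single i r =>
    induction b using Finsupp.induction_linear with
    | zero => simp
    | add f g hf hg => rw [map_add, map_add, inner_add_right, inner_add_right, hf, hg]
    | single j s =>
      rw [Lk_single, Lk_single, Lk_single, Lk_single, inner_smul_left, inner_smul_right,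
        inner_smul_left, inner_smul_right, ← add_assoc, ← add_assoc, hx]

theorem norm_Lk {x : ℕ → E}
    (hx : ∀ m n : ℕ, (inner ℂ (x (m + 1)) (x (n + 1)) : ℂ) = inner ℂ (x m) (x n)) (k : ℕ)
    (a : ℕ →₀ ℂ) : ‖Lk x k a‖ = ‖Lk x 0 a‖ := by
  induction k with
  | zero => rfl
  | succ k ih =>
    rw [← ih]
    have h := inner_succ hx k a a
    rw [inner_self_eq_norm_sq_to_K, inner_self_eq_norm_sq_to_K] at h
    have h2 : ‖Lk x (k + 1) a‖ ^ 2 = ‖Lk x k a‖ ^ 2 := by exact_mod_cast h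
    exact (sq_eq_sq₀ (norm_nonneg _) (norm_nonneg _)).1 h2

theorem norm_x {x : ℕ → E}
    (hx : ∀ m n : ℕ, (inner ℂ (x (m + 1)) (x (n + 1)) : ℂ) = inner ℂ (x m) (x n)) (k : ℕ) :
    ‖x k‖ = ‖x 0‖ := by
  have h := norm_Lk hx k (Finsupp.single 0 1)
  rw [Lk_single, Lk_single, one_smul, one_smul, zero_add, zero_add] at h
  exact h

theorem near {x : ℕ → E}
    (hx : ∀ m n : ℕ, (inner ℂ (x (m + 1)) (x (n + 1)) : ℂ) = inner ℂ (x m) (x n)) (c : ℕ →₀ ℂ) :
    ∃ M : ℝ, ∀ N : ℕ, ‖∑ k ∈ Finset.range N, Lk x k c - sg c • ∑ k ∈ Finset.range N, x k‖ ≤ M := by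
  induction c using Finsupp.induction_linear with
  | zero => exact ⟨0, fun N => by simp⟩
  | add f g hf hg =>
    obtain ⟨M1, h1⟩ := hf
    obtain ⟨M2, h2⟩ := hg
    refine ⟨M1 + M2, fun N => ?_⟩
    have e : ∑ k ∈ Finset.range N, Lk x k (f + g) - sg (f + g) • ∑ k ∈ Finset.range N, x k =
        (∑ k ∈ Finset.range N, Lk x k f - sg f • ∑ k ∈ Finset.range N, x k) +
        (∑ k ∈ Finset.range N, Lk x k g - sg g • ∑ k ∈ Finset.range N, x k) := by
      simp only [map_add, Finset.sum_add_distrib, add_smul]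
      abel
    rw [e]
    exact (norm_add_le _ _).trans (add_le_add (h1 N) (h2 N))
  | single j a =>
    have key : ∀ (j N : ℕ), ‖∑ k ∈ Finset.range N, x (j + k) - ∑ k ∈ Finset.range N, x k‖ ≤
        2 * j * ‖x 0‖ := by
      intro j N
      induction j with
      | zero => simp
      | succ j ih =>
        have e : ∑ k ∈ Finset.range N, x (j + 1 + k) =
            ∑ k ∈ Finset.range N, x (j + k) + (x (j + N) - x j) := by
          have h1 := Finset.sum_range_succ (fun k => x (j + k)) N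
          have h2 := Finset.sum_range_succ' (fun k => x (j + k)) N
          have h3 : ∀ k, x (j + 1 + k) = x (j + (k + 1)) := fun k => by
            rw [show j + 1 + k = j + (k + 1) by omega]
          simp only [h3]
          rw [h1] at h2
          rw [add_zero] at h2
          rw [eq_sub_of_add_eq h2.symm]
          abel
        rw [e]
        have h4 : ‖x (j + N) - x j‖ ≤ 2 * ‖x 0‖ := by
          refine (norm_sub_le _ _).trans ?_
          rw [norm_x hx, norm_x hx j]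
          linarith
        calc _ = ‖(∑ k ∈ Finset.range N, x (j + k) - ∑ k ∈ Finset.range N, x k) +
              (x (j + N) - x j)‖ := by congr 1; abel
          _ ≤ 2 * j * ‖x 0‖ + 2 * ‖x 0‖ := (norm_add_le _ _).trans (add_le_add ih h4)
          _ = _ := by push_cast; ring
    refine ⟨‖a‖ * (2 * j * ‖x 0‖), fun N => ?_⟩
    have e : ∑ k ∈ Finset.range N, Lk x k (Finsupp.single j a) -
        sg (Finsupp.single j a) • ∑ k ∈ Finset.range N, x k =
        a • (∑ k ∈ Finset.range N, x (j + k) - ∑ k ∈ Finset.range N, x k) := by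
      simp only [Lk_single, sg_single, smul_sub, Finset.smul_sum]
    rw [e, norm_smul]
    exact mul_le_mul_of_nonneg_left (key j N) (norm_nonneg _)

theorem bound {x : ℕ → E}
    (hx : ∀ m n : ℕ, (inner ℂ (x (m + 1)) (x (n + 1)) : ℂ) = inner ℂ (x m) (x n)) (c : ℕ →₀ ℂ)
    (hc : sg c = 1) : ∃ M : ℝ, ∀ N : ℕ, 1 ≤ N →
    ‖((N : ℂ))⁻¹ • ∑ k ∈ Finset.range N, x k‖ ≤ ‖Lk x 0 c‖ + M / N := by
  obtain ⟨M, hM⟩ := near hx c
  refine ⟨M, fun N hN => ?_⟩
  have hN0 : (0 : ℝ) < N := by exact_mod_cast hN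
  have h1 := hM N
  rw [hc, one_smul] at h1
  have h2 : ‖∑ k ∈ Finset.range N, Lk x k c‖ ≤ N * ‖Lk x 0 c‖ := by
    refine (norm_sum_le _ _).trans ?_
    rw [Finset.sum_congr rfl fun k _ => norm_Lk hx k c, Finset.sum_const, Finset.card_range,
      nsmul_eq_mul]
  have h3 : ‖∑ k ∈ Finset.range N, x k‖ ≤ N * ‖Lk x 0 c‖ + M := by
    have := norm_sub_norm_le (∑ k ∈ Finset.range N, x k) (∑ k ∈ Finset.range N, Lk x k c)
    rw [norm_sub_rev] at this
    linarith
  rw [norm_smul, norm_inv, Complex.norm_natCast, inv_mul_le_iff₀ hN0]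
  calc _ ≤ N * ‖Lk x 0 c‖ + M := h3
    _ = _ := by field_simp

/-- the coefficients of the averages -/
noncomputable def av (N : ℕ) : ℕ →₀ ℂ :=
  ((N : ℂ))⁻¹ • ∑ k ∈ Finset.range N, Finsupp.single k (1 : ℂ)

theorem sg_av {N : ℕ} (hN : 1 ≤ N) : sg (av N) = 1 := by
  unfold av
  rw [map_smul, map_sum]
  simp only [sg_single, Finset.sum_const, Finset.card_range, nsmul_eq_mul, mul_one, smul_eq_mul]
  exact inv_mul_cancel₀ (by exact_mod_cast (by omega : N ≠ 0))

theorem L_av (x : ℕ → E) (N : ℕ) : Lk x 0 (av N) = ((N : ℂ))⁻¹ • ∑ k ∈ Finset.range N, x k := by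
  unfold av
  rw [map_smul, map_sum]
  simp only [Lk_single, one_smul, add_zero]

end MET

open MET in
theorem met : T_MET := by
  intro E _ _ _ x hx
  set A : ℕ → E := fun n => ((n : ℂ))⁻¹ • ∑ k ∈ Finset.range n, x k with hA
  set S : Set ℝ := {r | ∃ c : ℕ →₀ ℂ, sg c = 1 ∧ r = ‖Lk x 0 c‖} with hS
  have hSb : BddBelow S := ⟨0, by rintro r ⟨c, _, rfl⟩; exact norm_nonneg _⟩
  have hSn : S.Nonempty := ⟨_, Finsupp.single 0 1, sg_single 0 1, rfl⟩
  set μ := sInf S with hμ
  have hμ0 : 0 ≤ μ := le_csInf hSn (by rintro r ⟨c, _, rfl⟩; exact norm_nonneg _)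
  have hlow : ∀ c, sg c = 1 → μ ≤ ‖Lk x 0 c‖ := fun c hc => csInf_le hSb ⟨c, hc, rfl⟩
  have hcau : CauchySeq A := by
    rw [Metric.cauchySeq_iff]
    intro ε hε
    -- choose δ with  4 ((μ+δ)^2 - μ^2) < ε^2
    obtain ⟨δ, hδ0, hδ⟩ : ∃ δ : ℝ, 0 < δ ∧ 4 * ((μ + δ) ^ 2 - μ ^ 2) < ε ^ 2 := by
      refine ⟨min 1 (ε ^ 2 / (16 * (μ + 1))), by positivity, ?_⟩
      set δ := min 1 (ε ^ 2 / (16 * (μ + 1))) with hd
      have h1 : δ ≤ 1 := min_le_left _ _
      have h2 : δ ≤ ε ^ 2 / (16 * (μ + 1)) := min_le_right _ _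
      have h0 : 0 < δ := by positivity
      have h3 : δ * (16 * (μ + 1)) ≤ ε ^ 2 := by
        rwa [le_div_iff₀ (by positivity)] at h2
      nlinarith [sq_pos_of_pos hε]
    obtain ⟨r, ⟨c, hc, rfl⟩, hr⟩ := exists_lt_of_csInf_lt hSn (show sInf S < μ + δ / 2 by
      rw [← hμ]; linarith)
    obtain ⟨M, hM⟩ := bound hx c hc
    obtain ⟨N0, hN0⟩ := exists_nat_gt (2 * |M| / δ)
    refine ⟨N0 + 1, fun m hm n hn => ?_⟩
    have hle : ∀ n, N0 + 1 ≤ n → ‖A n‖ ≤ μ + δ := by
      intro n hn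
      have h1 := hM n (by omega)
      have hn0 : (0 : ℝ) < n := by exact_mod_cast (by omega : 0 < n)
      have h2 : M / n ≤ δ / 2 := by
        rw [div_le_iff₀ hn0]
        have h3 : (N0 : ℝ) ≤ n := by exact_mod_cast (by omega : N0 ≤ n)
        have h4 : 2 * |M| < δ * N0 := by
          rw [div_lt_iff₀ hδ0] at hN0; linarith
        have h5 : δ * N0 ≤ δ * n := mul_le_mul_of_nonneg_left h3 hδ0.le
        linarith [le_abs_self M]
      show ‖((n : ℂ))⁻¹ • ∑ k ∈ Finset.range n, x k‖ ≤ _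
      linarith
    have hmid : μ ≤ ‖(1 / 2 : ℂ) • (A m + A n)‖ := by
      have h1 : sg ((1 / 2 : ℂ) • (av m + av n)) = 1 := by
        rw [map_smul, map_add, sg_av (by omega), sg_av (by omega)]
        norm_num
      have h2 := hlow _ h1
      rwa [map_smul, map_add, L_av, L_av] at h2
    rw [norm_smul] at hmid
    have e2 : ‖(1 / 2 : ℂ)‖ = 1 / 2 := by norm_num
    rw [e2] at hmid
    have hpar := parallelogram_law_with_norm ℂ (A m) (A n)
    have h5 := hle m hm
    have h6 := hle n hn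
    rw [dist_eq_norm]
    have h7 : ‖A m - A n‖ ^ 2 < ε ^ 2 := by
      have a1 : (2 * μ) ^ 2 ≤ ‖A m + A n‖ ^ 2 := pow_le_pow_left₀ (by positivity) (by linarith) 2
      have a2 : ‖A m‖ ^ 2 ≤ (μ + δ) ^ 2 := pow_le_pow_left₀ (norm_nonneg _) h5 2
      have a3 : ‖A n‖ ^ 2 ≤ (μ + δ) ^ 2 := pow_le_pow_left₀ (norm_nonneg _) h6 2
      nlinarith
    exact lt_of_pow_lt_pow_left₀ 2 hε.le h7
  exact cauchySeq_tendsto_of_complete hcau

end Pool.Agent.T2h98.NB
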