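import Pool.Agent.T2h98.NB.Stm

/-! No ballistic motion: the multiplication operators. -/

set_option autoImplicit false

open scoped BigOperators Topology ENNReal InnerProductSpace
open MeasureTheory ProbabilityTheory Filter

namespace Pool.Agent.T2h98.NB

variable {d : ℕ}

theorem muc_add (θ κ : Om d) (f : L2 d) : Mu θ (Mu κ f) = Mu (θ + κ) f := by
  ext x
  rw [Mu_apply, Mu_apply, Mu_apply, ← mul_assoc, ← Complex.exp_add, Pi.add_apply]
  push_cast
  rw [add_mul]

theorem muc_zero (f : L2 d) : Mu 0 f = f := by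
  ext x
  rw [Mu_apply, Pi.zero_apply]
  simp

theorem muc_adj (θ : Om d) (f g : L2 d) :
    inner ℂ (Mu θ f) g = (inner ℂ f (Mu (-θ) g) : ℂ) := by
  conv_lhs => rw [← muc_zero g, ← add_neg_cancel θ, ← muc_add]
  exact (Mu θ).inner_map_map f _

theorem muc_Sf_adj (z : Sd d) (f g : L2 d) :
    inner ℂ (Sf z f) g = (inner ℂ f (Sf (-z) g) : ℂ) := by
  conv_lhs => rw [← Sf_zero g, ← add_neg_cancel z, ← Sf_Sf]
  exact (Sf z).inner_map_map f _

theorem muc_Ad_eq (f : L2 d) : Ad d f = ∑ i : Fin d, (Sf (-Pi.single i 1) f +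
    Sf (Pi.single i 1) f) := by
  unfold Ad
  rw [sum_apply]
  rfl

theorem muc_Ad_symm (f g : L2 d) : inner ℂ (Ad d f) g = (inner ℂ f (Ad d g) : ℂ) := by
  rw [muc_Ad_eq, muc_Ad_eq, sum_inner, inner_sum]
  refine Finset.sum_congr rfl fun i _ => ?_
  rw [inner_add_left, inner_add_right, muc_Sf_adj, muc_Sf_adj, neg_neg, add_comm]

theorem muc_Ad_norm (f : L2 d) : ‖Ad d f‖ ≤ 2 * d * ‖f‖ := by
  rw [muc_Ad_eq]
  calc ‖∑ i : Fin d, (Sf (-Pi.single i 1) f + Sf (Pi.single i 1) f)‖
      ≤ ∑ _i : Fin d, (2 * ‖f‖) := by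
        refine norm_sum_le_of_le _ fun i _ => ?_
        refine (norm_add_le _ _).trans (le_of_eq ?_)
        rw [LinearIsometry.norm_map, LinearIsometry.norm_map]
        ring
    _ = 2 * d * ‖f‖ := by
        rw [Finset.sum_const, Finset.card_univ, Fintype.card_fin, nsmul_eq_mul]
        ring

theorem muc_single (θ : Om d) (x : Sd d) (c : ℂ) :
    Mu θ (lp.single 2 x c : L2 d) = Complex.exp ((θ x : ℂ) * Complex.I) • lp.single 2 x c := by
  ext y
  rw [Mu_apply]
  show _ = Complex.exp ((θ x : ℂ) * Complex.I) * (lp.single 2 x c : L2 d) y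
  rw [lp.single_apply]
  by_cases h : y = x
  · subst h
    simp
  · rw [Pi.single_eq_of_ne h, mul_zero, mul_zero]

theorem muc_cont_one (f : L2 d) : Continuous fun θ : Om d => Mu θ f := by
  have hs : HasSum (fun x : Sd d => (lp.single 2 x (f x) : L2 d)) f :=
    lp.hasSum_single (by norm_num) f
  have hu : TendstoUniformly (fun (s : Finset (Sd d)) (θ : Om d) =>
      Mu θ (∑ x ∈ s, (lp.single 2 x (f x) : L2 d))) (fun θ => Mu θ f) atTop := by
    rw [Metric.tendstoUniformly_iff]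
    intro ε hε
    have h1 := (Metric.tendsto_nhds.1 hs) ε hε
    filter_upwards [h1] with s hs2 θ
    rw [dist_eq_norm, ← map_sub, LinearIsometry.norm_map, ← dist_eq_norm, dist_comm]
    exact hs2
  refine hu.continuous (Frequently.of_forall fun s => ?_)
  have h2 : (fun θ : Om d => Mu θ (∑ x ∈ s, (lp.single 2 x (f x) : L2 d))) = fun θ =>
      ∑ x ∈ s, Complex.exp ((θ x : ℂ) * Complex.I) • (lp.single 2 x (f x) : L2 d) := by
    funext θ
    rw [map_sum]
    exact Finset.sum_congr rfl fun x _ => muc_single θ x _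
  rw [h2]
  refine continuous_finsetSum _ fun x _ => ?_
  have h3 : Continuous fun θ : Om d => Complex.exp ((θ x : ℂ) * Complex.I) :=
    Complex.continuous_exp.comp ((Complex.continuous_ofReal.comp
      (continuous_apply x)).mul continuous_const)
  exact h3.smul continuous_const

theorem muc_cont : Continuous fun p : Om d × L2 d => Mu p.1 p.2 := by
  rw [continuous_iff_continuousAt]
  rintro ⟨θ₀, f₀⟩
  rw [ContinuousAt, Metric.tendsto_nhds]
  intro ε hε
  have h1 : ∀ᶠ p : Om d × L2 d in 𝓝 (θ₀, f₀), dist (Mu p.1 f₀) (Mu θ₀ f₀) < ε / 2 := by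
    have h := ((muc_cont_one f₀).comp (continuous_fst (X := Om d) (Y := L2 d))).continuousAt
      (x := (θ₀, f₀))
    exact (Metric.tendsto_nhds.1 h) (ε / 2) (by linarith)
  have h2 : ∀ᶠ p : Om d × L2 d in 𝓝 (θ₀, f₀), dist p.2 f₀ < ε / 2 := by
    have h := (continuous_snd (X := Om d) (Y := L2 d)).continuousAt (x := (θ₀, f₀))
    exact (Metric.tendsto_nhds.1 h) (ε / 2) (by linarith)
  filter_upwards [h1, h2] with p hp1 hp2
  calc dist (Mu p.1 p.2) (Mu θ₀ f₀) ≤ dist (Mu p.1 p.2) (Mu p.1 f₀) +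
      dist (Mu p.1 f₀) (Mu θ₀ f₀) := dist_triangle _ _ _
    _ < ε := by
      rw [(Mu p.1).isometry.dist_eq]
      linarith

theorem muc : T_MUC := fun _ =>
  ⟨muc_cont, muc_add, muc_zero, muc_adj, muc_Ad_symm, muc_Ad_norm⟩

end Pool.Agent.T2h98.NB
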