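import Pool.Agent.T2h98.NB.Stm

/-! T_NB: the conclusion. -/

set_option autoImplicit false

open scoped BigOperators Topology ENNReal InnerProductSpace
open MeasureTheory ProbabilityTheory Filter
open Pool.Agent.TH980.IM.PR (PP sh)

namespace Pool.Agent.T2h98.NB

theorem ud_ud_self {d : ℕ} (V : Om d) (v : ℝ) : ud (ud V v) (V 0) = V := by
  unfold ud
  rw [Function.update_idem, Function.update_eq_self]

theorem nb (hX : T_XT) (hL : T_LIM) (hF : T_FAT) (hUp : T_UPD) (hO : T_ORT) (hCy : T_CYC)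
    (hR : T_REA) (hZ : T_ZER) : T_NB := by
  intro d U hU ν hν K hK i
  obtain ⟨A, hA⟩ := hL d U hU ν i
  obtain ⟨-, -, -, hXeq, hXbd, -, -, hXcov, -⟩ := hX d U hU
  -- reality
  have hreal : ∀ᵐ V ∂(PP (Sd d) ν), star (A V (ee 0)) = A V (ee 0) := by
    have h1 := hF d U hU ν i A hA
    have h2 := (hUp d ν).1 _ h1
    refine (hUp d ν).2 (fun V => star (A V (ee 0)) = A V (ee 0)) ?_ ?_
    · have hm := hA.cov.meas (ee 0)
      exact StronglyMeasurable.measurableSet_eq_fun (continuous_star.comp_stronglyMeasurable hm) hm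
    · filter_upwards [h2] with V hV
      filter_upwards [hCy d U hU ν K hK i A hA V hV] with v hv
      refine hR d U hU ν i A hA (ud V v) fun φ hφ => hv φ ?_
      have h3 := (hO d U hU (ud V v) φ hφ (V 0) 0).2.1
      rwa [ud_ud_self] at h3
  have hzero := hZ d U hU ν i A hA hreal
  -- bounded fields are integrable
  have hint : ∀ (B : Om d → L2 d) (C : ℝ), StronglyMeasurable B → (∀ V, ‖B V‖ ≤ C) →
      Integrable (fun V => ‖B V‖ ^ 2) (PP (Sd d) ν) := by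
    intro B C hB hC
    refine Integrable.of_bound (hB.norm.pow 2).aestronglyMeasurable (C ^ 2) (ae_of_all _ fun V => ?_)
    rw [Real.norm_of_nonneg (by positivity)]
    exact pow_le_pow_left₀ (norm_nonneg _) (hC V) 2
  have hee : ‖(ee 0 : L2 d)‖ = 1 := norm_ee 0
  have hAm := hA.cov.meas (ee 0)
  have hAi : Integrable (fun V => ‖A V (ee 0)‖ ^ 2) (PP (Sd d) ν) := by
    refine hint _ 2 hAm fun V => ?_
    calc ‖A V (ee 0)‖ ≤ ‖A V‖ * ‖(ee 0 : L2 d)‖ := (A V).le_opNorm _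
      _ ≤ 2 * 1 := by rw [hee]; exact mul_le_mul_of_nonneg_right (hA.bdd V) zero_le_one
      _ = 2 := by norm_num
  have hDi : ∀ T : ℝ, Integrable (fun V => ‖T⁻¹ • XT U i V T (ee 0) - A V (ee 0)‖ ^ 2)
      (PP (Sd d) ν) := by
    intro T
    have hsm : StronglyMeasurable fun V => T⁻¹ • XT U i V T (ee 0) - A V (ee 0) :=
      (((hXcov i T).meas (ee 0)).const_smul T⁻¹).sub hAm
    refine hint _ (|T⁻¹| * (2 * |T|) + 2) hsm fun V => ?_
    have e1 : ‖XT U i V T (ee 0)‖ ≤ 2 * |T| := by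
      calc ‖XT U i V T (ee 0)‖ ≤ ‖XT U i V T‖ * ‖(ee 0 : L2 d)‖ := (XT U i V T).le_opNorm _
        _ ≤ 2 * |T| * 1 := by rw [hee]; exact mul_le_mul_of_nonneg_right (hXbd i V T) zero_le_one
        _ = 2 * |T| := mul_one _
    have e2 : ‖A V (ee 0)‖ ≤ 2 := by
      calc ‖A V (ee 0)‖ ≤ ‖A V‖ * ‖(ee 0 : L2 d)‖ := (A V).le_opNorm _
        _ ≤ 2 * 1 := by rw [hee]; exact mul_le_mul_of_nonneg_right (hA.bdd V) zero_le_one
        _ = 2 := by norm_num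
    calc ‖T⁻¹ • XT U i V T (ee 0) - A V (ee 0)‖
        ≤ ‖T⁻¹ • XT U i V T (ee 0)‖ + ‖A V (ee 0)‖ := norm_sub_le _ _
      _ ≤ |T⁻¹| * (2 * |T|) + 2 := by
          refine add_le_add ?_ e2
          rw [norm_smul, Real.norm_eq_abs]
          exact mul_le_mul_of_nonneg_left e1 (abs_nonneg _)
  have hform : ∀ T : ℝ, (T ^ 2)⁻¹ * ∫ V, (∑' x : Sd d, (x i : ℝ) ^ 2 * ‖(U V T (ee 0)) x‖ ^ 2)
      ∂(PP (Sd d) ν) = ∫ V, ‖T⁻¹ • XT U i V T (ee 0)‖ ^ 2 ∂(PP (Sd d) ν) := by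
    intro T
    rw [← integral_const_mul]
    refine integral_congr_ae (ae_of_all _ fun V => ?_)
    show (T ^ 2)⁻¹ * (∑' x : Sd d, (x i : ℝ) ^ 2 * ‖(U V T (ee 0)) x‖ ^ 2) =
      ‖T⁻¹ • XT U i V T (ee 0)‖ ^ 2
    rw [(hU.pos i V T).tsum_eq, norm_smul, mul_pow, hXeq, Real.norm_eq_abs, sq_abs, inv_pow]
  have hle : ∀ T : ℝ, ∫ V, ‖T⁻¹ • XT U i V T (ee 0)‖ ^ 2 ∂(PP (Sd d) ν) ≤
      2 * ∫ V, ‖T⁻¹ • XT U i V T (ee 0) - A V (ee 0)‖ ^ 2 ∂(PP (Sd d) ν) := by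
    intro T
    have h4 : ∫ V, ‖T⁻¹ • XT U i V T (ee 0)‖ ^ 2 ∂(PP (Sd d) ν) ≤
        ∫ V, (2 * ‖T⁻¹ • XT U i V T (ee 0) - A V (ee 0)‖ ^ 2 + 2 * ‖A V (ee 0)‖ ^ 2)
          ∂(PP (Sd d) ν) := by
      refine integral_mono_of_nonneg (ae_of_all _ fun V => by positivity)
        (((hDi T).const_mul 2).add (hAi.const_mul 2)) (ae_of_all _ fun V => ?_)
      show ‖T⁻¹ • XT U i V T (ee 0)‖ ^ 2 ≤
        2 * ‖T⁻¹ • XT U i V T (ee 0) - A V (ee 0)‖ ^ 2 + 2 * ‖A V (ee 0)‖ ^ 2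
      have h5 : ‖T⁻¹ • XT U i V T (ee 0)‖ ≤
          ‖T⁻¹ • XT U i V T (ee 0) - A V (ee 0)‖ + ‖A V (ee 0)‖ := by
        have := norm_add_le (T⁻¹ • XT U i V T (ee 0) - A V (ee 0)) (A V (ee 0))
        rwa [sub_add_cancel] at this
      have h6 := norm_nonneg (T⁻¹ • XT U i V T (ee 0))
      have h7 := pow_le_pow_left₀ h6 h5 2
      nlinarith [sq_nonneg (‖T⁻¹ • XT U i V T (ee 0) - A V (ee 0)‖ - ‖A V (ee 0)‖)]
    rw [integral_add ((hDi T).const_mul 2) (hAi.const_mul 2), integral_const_mul,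
      integral_const_mul, hzero, mul_zero, add_zero] at h4
    exact h4
  have hlim : Tendsto (fun T : ℝ => 2 * ∫ V, ‖T⁻¹ • XT U i V T (ee 0) - A V (ee 0)‖ ^ 2
      ∂(PP (Sd d) ν)) atTop (𝓝 0) := by
    have := hA.lim.const_mul 2
    rwa [mul_zero] at this
  refine squeeze_zero (fun T => ?_) (fun T => ?_) hlim
  · rw [hform T]
    exact integral_nonneg fun V => by positivity
  · rw [hform T]
    exact hle T

end Pool.Agent.T2h98.NB
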