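import Pool.Agent.T2h98.NB.Stm

/-! Amplitudes in the kernel of the averaged transform vanish. -/

set_option autoImplicit false

open scoped Topology
open MeasureTheory Filter

namespace Pool.Agent.T2h98.NB

theorem nn : T_NN := by
  intro E _ _ _ ν _ Y K C ψ hY hY1 _ hψ hψC hi _ hlim
  set κ : ℝ → ℝ → ℂ := fun v t => inner ℂ (Y v t) (ψ v) with hκ
  have hYc : ∀ v, Continuous (Y v) := fun v => hY.comp (continuous_const.prodMk continuous_id)
  have hκc : ∀ v, Continuous (κ v) := fun v => (hYc v).inner continuous_const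
  have hm : ∀ v, MemLp (κ v) 2 (volume : Measure ℝ) := fun v =>
    (memLp_two_iff_integrable_sq_norm (hκc v).aestronglyMeasurable).2 (hi v)
  let k : ℝ → Lp ℂ 2 (volume : Measure ℝ) := fun v => (hm v).toLp (κ v)
  have hk : ∀ v, (k v : ℝ → ℂ) =ᵐ[volume] κ v := fun v => (hm v).coeFn_toLp
  let N : Set (Lp ℂ 2 (volume : Measure ℝ)) :=
    {a | Tendsto (fun n : ℕ => ∫ w, ‖∫ u in (-(n : ℝ))..n, a u • Y w u‖ ^ 2 ∂ν) atTop (𝓝 0)}
  have hN : ∀ᵐ v ∂ν, k v ∈ N := by
    filter_upwards [hlim] with v hv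
    have h1 := hv.comp (tendsto_natCast_atTop_atTop (R := ℝ))
    refine h1.congr fun n => ?_
    show ∫ w, ‖∫ u in (-(n : ℝ))..n, (inner ℂ (Y v u) (ψ v) : ℂ) • Y w u‖ ^ 2 ∂ν = _
    refine integral_congr_ae (Eventually.of_forall fun w => ?_)
    show ‖∫ u in (-(n : ℝ))..n, (inner ℂ (Y v u) (ψ v) : ℂ) • Y w u‖ ^ 2 =
      ‖∫ u in (-(n : ℝ))..n, k v u • Y w u‖ ^ 2
    congr 2
    refine intervalIntegral.integral_congr_ae ?_
    filter_upwards [hk v] with u hu _
    rw [hu]
  have hA : ∀ a ∈ N, ∀ᵐ v ∂ν, (inner ℂ a (k v) : ℂ) = 0 := by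
    intro a ha
    have hC : 0 ≤ C := (norm_nonneg _).trans (hψC 0)
    -- the truncated amplitudes
    let F : ℕ → ℝ → E := fun n v => ∫ u in (-(n : ℝ))..n, a u • Y v u
    let f : ℕ → ℝ → ℂ := fun n v => inner ℂ (F n v) (ψ v)
    have hai : ∀ n : ℕ, IntervalIntegrable (fun u => a u) volume (-(n : ℝ)) n := by
      intro n
      rw [intervalIntegrable_iff]
      have h2 : MemLp (fun u => a u) 2 (volume.restrict (Set.uIoc (-(n : ℝ)) n)) :=
        (Lp.memLp a).restrict _
      have : IsFiniteMeasure (volume.restrict (Set.uIoc (-(n : ℝ)) n)) := by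
        constructor
        rw [Measure.restrict_apply_univ, Set.uIoc, Real.volume_Ioc]
        exact ENNReal.ofReal_lt_top
      exact h2.integrable (by norm_num)
    have haY : ∀ (n : ℕ) (v : ℝ),
        IntervalIntegrable (fun u => a u • Y v u) volume (-(n : ℝ)) n := by
      intro n v
      exact (hai n).smul_continuousOn (hYc v).continuousOn
    have hFm : ∀ n, StronglyMeasurable (F n) := by
      intro n
      have h2 : StronglyMeasurable (Function.uncurry fun (v u : ℝ) => a u • Y v u) := by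
        have h3 : StronglyMeasurable fun p : ℝ × ℝ => a p.2 :=
          (Lp.stronglyMeasurable a).comp_measurable measurable_snd
        have h4 : StronglyMeasurable fun p : ℝ × ℝ => Y p.1 p.2 := hY.stronglyMeasurable
        exact h3.smul h4
      have h5 : F n = fun v => ∫ u in Set.Ioc (-(n : ℝ)) n, a u • Y v u := by
        funext v
        exact intervalIntegral.integral_of_le (by
          have : (0 : ℝ) ≤ n := n.cast_nonneg
          linarith)
      rw [h5]
      exact h2.integral_prod_right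
    have hfm : ∀ n, StronglyMeasurable (f n) := fun n => (hFm n).inner hψ
    have hFb : ∀ (n : ℕ) (v : ℝ), ‖F n v‖ ≤ ∫ u in (-(n : ℝ))..n, ‖a u‖ := by
      intro n v
      refine intervalIntegral.norm_integral_le_of_norm_le (by
          have : (0 : ℝ) ≤ n := n.cast_nonneg
          linarith) (Eventually.of_forall fun u _ => ?_) (hai n).norm
      rw [norm_smul]
      exact mul_le_of_le_one_right (norm_nonneg _) (hY1 v u)
    have hfF : ∀ (n : ℕ) (v : ℝ), ‖f n v‖ ^ 2 ≤ C ^ 2 * ‖F n v‖ ^ 2 := by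
      intro n v
      have h2 : ‖f n v‖ ≤ ‖F n v‖ * C :=
        (norm_inner_le_norm _ _).trans (mul_le_mul_of_nonneg_left (hψC v) (norm_nonneg _))
      calc ‖f n v‖ ^ 2 ≤ (‖F n v‖ * C) ^ 2 := by gcongr
        _ = C ^ 2 * ‖F n v‖ ^ 2 := by ring
    have hFi : ∀ n, Integrable (fun v => ‖F n v‖ ^ 2) ν := by
      intro n
      refine Integrable.of_bound (C := (∫ u in (-(n : ℝ))..n, ‖a u‖) ^ 2)
        ((hFm n).norm.pow 2).aestronglyMeasurable (Eventually.of_forall fun v => ?_)
      rw [Real.norm_eq_abs, abs_of_nonneg (by positivity)]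
      have := hFb n v
      gcongr
    have hfi : ∀ n, Integrable (fun v => ‖f n v‖ ^ 2) ν := by
      intro n
      refine ((hFi n).const_mul (C ^ 2)).mono' ((hfm n).norm.pow 2).aestronglyMeasurable
        (Eventually.of_forall fun v => ?_)
      rw [Real.norm_eq_abs, abs_of_nonneg (by positivity)]
      exact hfF n v
    have hf0 : Tendsto (fun n => ∫ v, ‖f n v‖ ^ 2 ∂ν) atTop (𝓝 0) := by
      have h2 : Tendsto (fun n => C ^ 2 * ∫ v, ‖F n v‖ ^ 2 ∂ν) atTop (𝓝 (C ^ 2 * 0)) :=
        Tendsto.const_mul _ ha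
      rw [mul_zero] at h2
      refine squeeze_zero (fun n => integral_nonneg fun v => by positivity) (fun n => ?_) h2
      rw [← integral_const_mul]
      exact integral_mono (hfi n) ((hFi n).const_mul _) (hfF n)
    -- the limit of the truncated amplitudes
    have hfl : ∀ v, Tendsto (fun n => f n v) atTop (𝓝 (inner ℂ a (k v) : ℂ)) := by
      intro v
      have h2 : ∀ n, f n v = ∫ u in (-(n : ℝ))..n, (inner ℂ (a u) (k v u) : ℂ) := by
        intro n
        have h3 : f n v = (starRingEnd ℂ) (inner ℂ (ψ v) (F n v)) := (inner_conj_symm _ _).symm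
        rw [h3]
        have h4 : (inner ℂ (ψ v) (F n v) : ℂ) =
            ∫ u in (-(n : ℝ))..n, (inner ℂ (ψ v) (a u • Y v u) : ℂ) := by
          show inner ℂ (ψ v) (∫ u in (-(n : ℝ))..n, a u • Y v u) = _
          exact (((innerSL ℂ (ψ v)).intervalIntegral_comp_comm (haY n v))).symm
        rw [h4, ← intervalIntegral.intervalIntegral_conj]
        refine intervalIntegral.integral_congr_ae ?_
        filter_upwards [hk v] with u hu _
        rw [hu, inner_conj_symm, inner_smul_left]
        show _ = inner ℂ (a u) (inner ℂ (Y v u) (ψ v) : ℂ)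
        rw [RCLike.inner_apply, mul_comm]
      have h5 : (inner ℂ a (k v) : ℂ) = ∫ u, (inner ℂ (a u) (k v u) : ℂ) := L2.inner_def a (k v)
      rw [h5]
      refine (intervalIntegral_tendsto_integral (L2.integrable_inner a (k v))
        (tendsto_neg_atTop_atBot.comp tendsto_natCast_atTop_atTop)
        tendsto_natCast_atTop_atTop).congr fun n => ?_
      exact (h2 n).symm
    -- Fatou
    have h6 : ∫⁻ v, ENNReal.ofReal (‖(inner ℂ a (k v) : ℂ)‖ ^ 2) ∂ν = 0 := by
      have h7 : ∀ v, ENNReal.ofReal (‖(inner ℂ a (k v) : ℂ)‖ ^ 2) =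
          liminf (fun n => ENNReal.ofReal (‖f n v‖ ^ 2)) atTop := by
        intro v
        refine (Tendsto.liminf_eq ?_).symm
        exact (ENNReal.continuous_ofReal.tendsto _).comp (((hfl v).norm).pow 2)
      have h8 : ∀ n, ∫⁻ v, ENNReal.ofReal (‖f n v‖ ^ 2) ∂ν =
          ENNReal.ofReal (∫ v, ‖f n v‖ ^ 2 ∂ν) := fun n =>
        (ofReal_integral_eq_lintegral_ofReal (hfi n)
          (Eventually.of_forall fun v => by positivity)).symm
      have h9 : liminf (fun n => ∫⁻ v, ENNReal.ofReal (‖f n v‖ ^ 2) ∂ν) atTop = 0 := by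
        refine Tendsto.liminf_eq ?_
        simp only [h8]
        have := (ENNReal.continuous_ofReal.tendsto (0 : ℝ)).comp hf0
        rw [ENNReal.ofReal_zero] at this
        exact this
      refine le_antisymm ?_ (zero_le)
      rw [← h9]
      simp only [h7]
      exact lintegral_liminf_le fun n =>
        ENNReal.measurable_ofReal.comp ((hfm n).norm.pow 2).measurable
    have h10 : Measurable fun v => ENNReal.ofReal (‖(inner ℂ a (k v) : ℂ)‖ ^ 2) := by
      have h11 : Measurable fun v => (inner ℂ a (k v) : ℂ) :=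
        measurable_of_tendsto_metrizable (fun n => (hfm n).measurable)
          (tendsto_pi_nhds.2 hfl)
      exact ENNReal.measurable_ofReal.comp (h11.norm.pow_const 2)
    have h12 := (lintegral_eq_zero_iff h10).1 h6
    filter_upwards [h12] with v hv
    have h13 : ‖(inner ℂ a (k v) : ℂ)‖ ^ 2 ≤ 0 := ENNReal.ofReal_eq_zero.1 hv
    have h14 : ‖(inner ℂ a (k v) : ℂ)‖ = 0 := by
      have h15 : ‖(inner ℂ a (k v) : ℂ)‖ ^ 2 = 0 := le_antisymm h13 (by positivity)
      exact pow_eq_zero_iff (two_ne_zero) |>.1 h15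
    exact norm_eq_zero.1 h14
  have : Fact ((2 : ENNReal) ≠ ⊤) := ⟨ENNReal.ofNat_ne_top⟩
  obtain ⟨t, htN, htc, htd⟩ :=
    (TopologicalSpace.IsSeparable.of_separableSpace N).exists_countable_dense_subset
  have h1 : ∀ᵐ v ∂ν, ∀ a ∈ t, (inner ℂ a (k v) : ℂ) = 0 :=
    (ae_ball_iff htc).2 fun a ha => hA a (htN ha)
  filter_upwards [hN, h1] with v hv hv1
  have h2 : (inner ℂ (k v) (k v) : ℂ) = 0 := by
    have h3 : IsClosed {a : Lp ℂ 2 (volume : Measure ℝ) | (inner ℂ a (k v) : ℂ) = 0} :=
      isClosed_eq (continuous_id.inner continuous_const) continuous_const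
    exact (closure_minimal (fun a ha => hv1 a ha) h3) (htd hv)
  have h4 : k v = 0 := inner_self_eq_zero.1 h2
  have h5 : κ v =ᵐ[volume] fun _ => (0 : ℂ) := by
    have h6 := hk v
    rw [h4] at h6
    exact h6.symm.trans (Lp.coeFn_zero _ _ _)
  have h7 : κ v = fun _ => (0 : ℂ) :=
    (Continuous.ae_eq_iff_eq volume (hκc v) continuous_const).1 h5
  intro t
  exact congrFun h7 t

end Pool.Agent.T2h98.NB
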