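import Pool.Agent.T2h98.NB.Stm
import Pool.Agent.Helper390.CovarioA

/-! T_PLA: a function with a bounded Fourier transform is a bounded convolution kernel. -/

set_option autoImplicit false

open scoped BigOperators Topology ENNReal InnerProductSpace FourierTransform Convolution
open MeasureTheory ProbabilityTheory Filter

namespace Pool.Agent.T2h98.NB

namespace PLA

/-- the damped kernel -/
noncomputable def mk (m : ℝ → ℂ) (η : ℝ) (t : ℝ) : ℂ := (Real.exp (-(η * |t|)) : ℂ) * m t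

theorem norm_mk (m : ℝ → ℂ) (η : ℝ) (t : ℝ) : ‖mk m η t‖ = Real.exp (-(η * |t|)) * ‖m t‖ := by
  unfold mk
  rw [norm_mul, Complex.norm_real, Real.norm_of_nonneg (Real.exp_pos _).le]

theorem norm_mk_le {m : ℝ → ℂ} (hb : ∀ t, ‖m t‖ ≤ 1) {η : ℝ} (hη : 0 ≤ η) (t : ℝ) :
    ‖mk m η t‖ ≤ 1 := by
  rw [norm_mk]
  have h1 : Real.exp (-(η * |t|)) ≤ 1 :=
    Real.exp_le_one_iff.2 (neg_nonpos.2 (mul_nonneg hη (abs_nonneg _)))
  calc Real.exp (-(η * |t|)) * ‖m t‖ ≤ 1 * 1 :=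
        mul_le_mul h1 (hb t) (norm_nonneg _) zero_le_one
    _ = 1 := one_mul 1

theorem mk_cont {m : ℝ → ℂ} (hm : Continuous m) (η : ℝ) : Continuous (mk m η) := by
  unfold mk
  fun_prop

theorem int_exp_abs {η : ℝ} (hη : 0 < η) : Integrable fun t : ℝ => Real.exp (-(η * |t|)) := by
  have h1 : IntegrableOn (fun t : ℝ => Real.exp (-(η * |t|))) (Set.Ioi 0) := by
    refine (integrableOn_exp_mul_Ioi (a := -η) (by linarith) 0).congr_fun ?_ measurableSet_Ioi
    intro t ht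
    simp only [Set.mem_Ioi] at ht
    show Real.exp (-η * t) = Real.exp (-(η * |t|))
    rw [abs_of_pos ht, neg_mul]
  have h2 : IntegrableOn (fun t : ℝ => Real.exp (-(η * |t|))) (Set.Iic 0) := by
    refine (integrableOn_exp_mul_Iic (a := η) hη 0).congr_fun ?_ measurableSet_Iic
    intro t ht
    simp only [Set.mem_Iic] at ht
    show Real.exp (η * t) = Real.exp (-(η * |t|))
    rw [abs_of_nonpos ht]
    congr 1
    ring
  have h3 := h2.union h1
  rwa [Set.Iic_union_Ioi, integrableOn_univ] at h3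

theorem mk_int {m : ℝ → ℂ} (hm : Continuous m) (hb : ∀ t, ‖m t‖ ≤ 1) {η : ℝ} (hη : 0 < η) :
    Integrable (mk m η) := by
  refine (int_exp_abs hη).mono' (mk_cont hm η).aestronglyMeasurable (ae_of_all _ fun t => ?_)
  rw [norm_mk]
  exact mul_le_of_le_one_right (Real.exp_pos _).le (hb t)

/-- the Fourier transform of the damped kernel -/
theorem four_mk {m : ℝ → ℂ} (hm : Continuous m) (hb : ∀ t, ‖m t‖ ≤ 1)
    (hs : ∀ t, m (-t) = (starRingEnd ℂ) (m t)) {η : ℝ} (hη : 0 < η) (ξ : ℝ) :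
    𝓕 (mk m η) ξ = ((2 * (∫ t in Set.Ioi (0 : ℝ),
      Complex.exp (-((η : ℂ) + ((2 * Real.pi * ξ : ℝ) : ℂ) * Complex.I) * t) * m t).re : ℝ) : ℂ) := by
  set G : ℝ → ℂ := fun t => Complex.exp (((-2 * Real.pi * t * ξ : ℝ) : ℂ) * Complex.I) * mk m η t
    with hG
  have hGc : Continuous G := by
    have := mk_cont hm η
    rw [hG]
    fun_prop
  have hGi : Integrable G := by
    refine (mk_int hm hb hη).norm.mono' hGc.aestronglyMeasurable (ae_of_all _ fun t => ?_)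
    rw [hG]
    simp only [norm_mul, Complex.norm_exp_ofReal_mul_I, one_mul]
    exact le_refl _
  have h0 : 𝓕 (mk m η) ξ = ∫ t, G t := by
    rw [Real.fourier_real_eq_integral_exp_smul]
    rfl
  have h1 : ∫ t in Set.Ioi (0 : ℝ), G t = ∫ t in Set.Ioi (0 : ℝ),
      Complex.exp (-((η : ℂ) + ((2 * Real.pi * ξ : ℝ) : ℂ) * Complex.I) * t) * m t := by
    refine setIntegral_congr_fun measurableSet_Ioi fun t ht => ?_
    simp only [Set.mem_Ioi] at ht
    simp only [hG, mk, abs_of_pos ht]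
    rw [Complex.ofReal_exp, ← mul_assoc, ← Complex.exp_add]
    congr 2
    push_cast
    ring
  have h2 : ∫ t in Set.Iic (0 : ℝ), G t = (starRingEnd ℂ) (∫ t in Set.Ioi (0 : ℝ), G t) := by
    have e1 : ∫ t in Set.Iic (0 : ℝ), G t = ∫ t in Set.Ioi (0 : ℝ), G (-t) := by
      have := integral_comp_neg_Ioi (0 : ℝ) G
      rw [neg_zero] at this
      exact this.symm
    rw [e1, ← integral_conj]
    refine setIntegral_congr_fun measurableSet_Ioi fun t ht => ?_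
    simp only [hG, mk, abs_neg, hs, map_mul, Complex.conj_ofReal, ← Complex.exp_conj,
      Complex.conj_I]
    congr 2
    push_cast
    ring
  have h3 : ∫ t, G t = (∫ t in Set.Iic (0 : ℝ), G t) + ∫ t in Set.Ioi (0 : ℝ), G t :=
    (intervalIntegral.integral_Iic_add_Ioi hGi.integrableOn hGi.integrableOn).symm
  rw [h0, h3, h2, h1, add_comm, Complex.add_conj]

/-- the inequality for the damped kernel -/
theorem core_pos {m : ℝ → ℂ} {K : ℝ} (hm : Continuous m) (hb : ∀ t, ‖m t‖ ≤ 1)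
    (hs : ∀ t, m (-t) = (starRingEnd ℂ) (m t)) (hK0 : 0 < K)
    (hK : ∀ η E : ℝ, 0 < η → |(∫ t in Set.Ioi (0 : ℝ),
      Complex.exp (-((η : ℂ) + E * Complex.I) * t) * m t).re| ≤ K)
    {a : ℝ → ℂ} (ha : Integrable a) (ha2 : MemLp a 2) {η : ℝ} (hη : 0 < η) :
    ‖∫ s, ∫ t, (starRingEnd ℂ) (a s) * a t * mk m η (s - t)‖ ≤ 2 * K * ∫ t, ‖a t‖ ^ 2 := by
  set b : ℝ → ℂ := a ⋆[ContinuousLinearMap.mul ℂ ℂ] (mk m η) with hbdef
  have hbs : ∀ s, b s = ∫ t, a t * mk m η (s - t) := fun s => rfl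
  have hbi : Integrable b := ha.integrable_convolution (ContinuousLinearMap.mul ℂ ℂ) (mk_int hm hb hη)
  have hbb : ∀ s, ‖b s‖ ≤ ∫ t, ‖a t‖ := by
    intro s
    rw [hbs]
    refine norm_integral_le_of_norm_le ha.norm (ae_of_all _ fun t => ?_)
    rw [norm_mul]
    exact mul_le_of_le_one_right (norm_nonneg _) (norm_mk_le hb hη.le _)
  have hb2 : MemLp b 2 := by
    rw [memLp_two_iff_integrable_sq_norm hbi.aestronglyMeasurable]
    refine (hbi.norm.const_mul (∫ t, ‖a t‖)).mono' (hbi.aestronglyMeasurable.norm.pow 2)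
      (ae_of_all _ fun s => ?_)
    rw [Real.norm_of_nonneg (by positivity), sq]
    exact mul_le_mul_of_nonneg_right (hbb s) (norm_nonneg _)
  have hA2 : Integrable fun x => ‖a x‖ ^ 2 :=
    (memLp_two_iff_integrable_sq_norm ha.aestronglyMeasurable).1 ha2
  have hB2 : Integrable fun x => ‖b x‖ ^ 2 :=
    (memLp_two_iff_integrable_sq_norm hbi.aestronglyMeasurable).1 hb2
  obtain ⟨hFa, ea⟩ := Pool.Agent.Helper390.Covario.plancherel ha ha2
  obtain ⟨hFb, eb⟩ := Pool.Agent.Helper390.Covario.plancherel hbi hb2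
  have hFa2 : Integrable fun x => ‖𝓕 a x‖ ^ 2 :=
    (memLp_two_iff_integrable_sq_norm hFa.aestronglyMeasurable).1 hFa
  have hFb2 : Integrable fun x => ‖𝓕 b x‖ ^ 2 :=
    (memLp_two_iff_integrable_sq_norm hFb.aestronglyMeasurable).1 hFb
  have hkey : ∫ x, ‖b x‖ ^ 2 ≤ (2 * K) ^ 2 * ∫ x, ‖a x‖ ^ 2 := by
    rw [← ea, ← eb, ← integral_const_mul]
    refine integral_mono hFb2 (hFa2.const_mul _) fun ξ => ?_
    have e1 : 𝓕 b ξ = 𝓕 a ξ * 𝓕 (mk m η) ξ :=
      Real.fourier_mul_convolution_eq ha (mk_int hm hb hη) ξ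
    have e2 : ‖𝓕 (mk m η) ξ‖ ≤ 2 * K := by
      rw [four_mk hm hb hs hη ξ, Complex.norm_real, Real.norm_eq_abs, abs_mul,
        abs_of_pos (by norm_num : (0 : ℝ) < 2)]
      exact mul_le_mul_of_nonneg_left (hK η (2 * Real.pi * ξ) hη) (by norm_num)
    show ‖𝓕 b ξ‖ ^ 2 ≤ (2 * K) ^ 2 * ‖𝓕 a ξ‖ ^ 2
    rw [e1, norm_mul, mul_pow, mul_comm]
    exact mul_le_mul_of_nonneg_right (pow_le_pow_left₀ (norm_nonneg _) e2 2) (by positivity)
  have h1 : ∫ s, ∫ t, (starRingEnd ℂ) (a s) * a t * mk m η (s - t) =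
      ∫ s, (starRingEnd ℂ) (a s) * b s := by
    refine integral_congr_ae (ae_of_all _ fun s => ?_)
    show ∫ t, (starRingEnd ℂ) (a s) * a t * mk m η (s - t) = (starRingEnd ℂ) (a s) * b s
    rw [hbs, ← integral_const_mul]
    simp only [mul_assoc]
  rw [h1]
  have hint : Integrable fun s => (1 / 2 : ℝ) * (2 * K * ‖a s‖ ^ 2 + (2 * K)⁻¹ * ‖b s‖ ^ 2) :=
    ((hA2.const_mul _).add (hB2.const_mul _)).const_mul _
  have h2 : ‖∫ s, (starRingEnd ℂ) (a s) * b s‖ ≤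
      ∫ s, (1 / 2 : ℝ) * (2 * K * ‖a s‖ ^ 2 + (2 * K)⁻¹ * ‖b s‖ ^ 2) := by
    refine norm_integral_le_of_norm_le hint (ae_of_all _ fun s => ?_)
    rw [norm_mul, RCLike.norm_conj]
    have hk : 0 < 2 * K := by linarith
    have h3 : 0 ≤ (2 * K)⁻¹ * (2 * K * ‖a s‖ - ‖b s‖) ^ 2 := by positivity
    have h4 : (2 * K)⁻¹ * (2 * K * ‖a s‖ - ‖b s‖) ^ 2 =
        2 * K * ‖a s‖ ^ 2 + (2 * K)⁻¹ * ‖b s‖ ^ 2 - 2 * (‖a s‖ * ‖b s‖) := by
      field_simp
      ring
    linarith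
  refine h2.trans ?_
  rw [integral_const_mul, integral_add (hA2.const_mul _) (hB2.const_mul _), integral_const_mul,
    integral_const_mul]
  have hk : 0 < 2 * K := by linarith
  have h5 : (2 * K)⁻¹ * ∫ x, ‖b x‖ ^ 2 ≤ 2 * K * ∫ x, ‖a x‖ ^ 2 := by
    calc (2 * K)⁻¹ * ∫ x, ‖b x‖ ^ 2 ≤ (2 * K)⁻¹ * ((2 * K) ^ 2 * ∫ x, ‖a x‖ ^ 2) :=
          mul_le_mul_of_nonneg_left hkey (by positivity)
      _ = 2 * K * ∫ x, ‖a x‖ ^ 2 := by
          field_simp
  linarith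

theorem core {m : ℝ → ℂ} {K : ℝ} (hm : Continuous m) (hb : ∀ t, ‖m t‖ ≤ 1)
    (hs : ∀ t, m (-t) = (starRingEnd ℂ) (m t)) (hK0 : 0 ≤ K)
    (hK : ∀ η E : ℝ, 0 < η → |(∫ t in Set.Ioi (0 : ℝ),
      Complex.exp (-((η : ℂ) + E * Complex.I) * t) * m t).re| ≤ K)
    {a : ℝ → ℂ} (ha : Integrable a) (ha2 : MemLp a 2) {η : ℝ} (hη : 0 < η) :
    ‖∫ s, ∫ t, (starRingEnd ℂ) (a s) * a t * mk m η (s - t)‖ ≤ 2 * K * ∫ t, ‖a t‖ ^ 2 := by
  have hA : 0 ≤ ∫ t, ‖a t‖ ^ 2 := integral_nonneg fun t => by positivity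
  refine le_of_forall_pos_le_add fun δ hδ => ?_
  have hε : 0 < δ / (2 * (∫ t, ‖a t‖ ^ 2) + 1) := by positivity
  have h := core_pos hm hb hs (K := K + δ / (2 * (∫ t, ‖a t‖ ^ 2) + 1)) (by linarith)
    (fun η' E hη' => (hK η' E hη').trans (by linarith)) ha ha2 hη
  refine h.trans ?_
  have h2 : δ / (2 * (∫ t, ‖a t‖ ^ 2) + 1) * (2 * ∫ t, ‖a t‖ ^ 2) ≤ δ := by
    rw [div_mul_eq_mul_div, div_le_iff₀ (by positivity)]
    nlinarith
  nlinarith

end PLA

theorem pla : T_PLA := by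
  intro m K hm hb hs hK0 hK a ha ha2
  have hη : ∀ n : ℕ, (0 : ℝ) < 1 / ((n : ℝ) + 1) := fun n => by positivity
  have hlimη : Tendsto (fun n : ℕ => 1 / ((n : ℝ) + 1)) atTop (𝓝 0) :=
    tendsto_one_div_add_atTop_nhds_zero_nat
  have hmk : ∀ t : ℝ, Tendsto (fun n : ℕ => PLA.mk m (1 / ((n : ℝ) + 1)) t) atTop (𝓝 (m t)) := by
    intro t
    have h1 : Tendsto (fun n : ℕ => ((Real.exp (-(1 / ((n : ℝ) + 1) * |t|)) : ℝ) : ℂ) * m t) atTop
        (𝓝 (((Real.exp (-(0 * |t|)) : ℝ) : ℂ) * m t)) := by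
      refine Tendsto.mul_const _ ?_
      exact (Complex.continuous_ofReal.tendsto _).comp
        ((Real.continuous_exp.tendsto _).comp ((hlimη.mul_const _).neg))
    rw [zero_mul, neg_zero, Real.exp_zero, Complex.ofReal_one, one_mul] at h1
    exact h1
  have hin : ∀ s : ℝ, Tendsto (fun n : ℕ => ∫ t, (starRingEnd ℂ) (a s) * a t *
      PLA.mk m (1 / ((n : ℝ) + 1)) (s - t)) atTop
      (𝓝 (∫ t, (starRingEnd ℂ) (a s) * a t * m (s - t))) := by
    intro s
    refine tendsto_integral_of_dominated_convergence (fun t => ‖a s‖ * ‖a t‖) (fun n => ?_)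
      (ha.norm.const_mul _) (fun n => ae_of_all _ fun t => ?_) (ae_of_all _ fun t => ?_)
    · exact (ha.aestronglyMeasurable.const_mul _).mul
        ((PLA.mk_cont hm _).comp (continuous_const.sub continuous_id)).aestronglyMeasurable
    · rw [norm_mul, norm_mul, RCLike.norm_conj]
      exact mul_le_of_le_one_right (by positivity) (PLA.norm_mk_le hb (hη n).le _)
    · exact (hmk (s - t)).const_mul _
  have hbound : ∀ (n : ℕ) (s : ℝ), ‖∫ t, (starRingEnd ℂ) (a s) * a t *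
      PLA.mk m (1 / ((n : ℝ) + 1)) (s - t)‖ ≤ ‖a s‖ * ∫ t, ‖a t‖ := by
    intro n s
    rw [← integral_const_mul]
    refine norm_integral_le_of_norm_le (ha.norm.const_mul _) (ae_of_all _ fun t => ?_)
    rw [norm_mul, norm_mul, RCLike.norm_conj]
    exact mul_le_of_le_one_right (by positivity) (PLA.norm_mk_le hb (hη n).le _)
  have hout : Tendsto (fun n : ℕ => ∫ s, ∫ t, (starRingEnd ℂ) (a s) * a t *
      PLA.mk m (1 / ((n : ℝ) + 1)) (s - t)) atTop
      (𝓝 (∫ s, ∫ t, (starRingEnd ℂ) (a s) * a t * m (s - t))) := by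
    refine tendsto_integral_of_dominated_convergence (fun s => ‖a s‖ * ∫ t, ‖a t‖) (fun n => ?_)
      (ha.norm.mul_const _) (fun n => ae_of_all _ fun s => hbound n s)
      (ae_of_all _ fun s => hin s)
    have hc := ha.integrable_convolution (ContinuousLinearMap.mul ℂ ℂ) (PLA.mk_int hm hb (hη n))
    have h1 : (fun s => ∫ t, (starRingEnd ℂ) (a s) * a t * PLA.mk m (1 / ((n : ℝ) + 1)) (s - t)) =
        fun s => (starRingEnd ℂ) (a s) *
          (a ⋆[ContinuousLinearMap.mul ℂ ℂ] (PLA.mk m (1 / ((n : ℝ) + 1)))) s := by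
      funext s
      show _ = (starRingEnd ℂ) (a s) * ∫ t, a t * PLA.mk m (1 / ((n : ℝ) + 1)) (s - t)
      rw [← integral_const_mul]
      simp only [mul_assoc]
    rw [h1]
    exact (Complex.continuous_conj.comp_aestronglyMeasurable ha.aestronglyMeasurable).mul
      hc.aestronglyMeasurable
  exact le_of_tendsto hout.norm (Eventually.of_forall fun n =>
    PLA.core hm hb hs hK0 hK ha ha2 (hη n))

end Pool.Agent.T2h98.NB
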