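import Pool.Agent.T2h98.NB.Stm

/-! No ballistic motion: spectral averaging (task NB-SA). -/

set_option autoImplicit false

open scoped BigOperators Topology ENNReal InnerProductSpace
open MeasureTheory ProbabilityTheory Filter

namespace Pool.Agent.T2h98.NB

namespace SA

variable {d : ℕ}

theorem ud_cont (V : Om d) : Continuous fun v : ℝ => ud V v := by
  unfold ud
  exact continuous_const.update 0 continuous_id

theorem U_cont {U : Om d → ℝ → L2 d →L[ℂ] L2 d} (hU : Gr0 U) (V : Om d) (f : L2 d) :
    Continuous fun p : ℝ × ℝ => U (ud V p.1) p.2 f :=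
  (hU.cont f).comp (((ud_cont V).comp continuous_fst).prodMk continuous_snd)

theorem inner_int_left {f : ℝ → L2 d} (hf : Integrable f) (c : L2 d) :
    (inner ℂ (∫ x, f x) c : ℂ) = ∫ x, (inner ℂ (f x) c : ℂ) := by
  rw [← inner_conj_symm, ← integral_inner hf c, ← integral_conj]
  refine integral_congr_ae (Eventually.of_forall fun x => ?_)
  exact inner_conj_symm _ _

end SA

open SA in
theorem t_SA (hL : T_LAP) (hP : T_PLA) (hX : T_XT) : T_SA := by
  intro d U hU ν _ C hC V a ha1 ha2
  obtain ⟨hadj, -, -⟩ := hX d U hU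
  have hc := U_cont hU.g0 V (ee 0)
  have hn : ∀ v t, ‖U (ud V v) t (ee 0)‖ = 1 := fun v t => by
    rw [hU.g0.norm, norm_ee]
  -- the return amplitudes
  obtain ⟨mv, hmv⟩ : ∃ mv : ℝ → ℝ → ℂ, ∀ v t, mv v t = inner ℂ (ee 0) (U (ud V v) t (ee 0)) :=
    ⟨fun v t => inner ℂ (ee 0) (U (ud V v) t (ee 0)), fun _ _ => rfl⟩
  have hmc : Continuous fun p : ℝ × ℝ => mv p.1 p.2 := by
    simp only [hmv]
    exact continuous_const.inner hc
  have hmb : ∀ v t, ‖mv v t‖ ≤ 1 := by
    intro v t
    rw [hmv]
    refine (norm_inner_le_norm _ _).trans ?_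
    rw [hn, norm_ee, one_mul]
  have hmconj : ∀ v t, mv v (-t) = (starRingEnd ℂ) (mv v t) := by
    intro v t
    rw [hmv, hmv, ← hadj, inner_conj_symm]
  obtain ⟨m, hm⟩ : ∃ m : ℝ → ℂ, ∀ t, m t = ∫ v, mv v t ∂ν := ⟨fun t => ∫ v, mv v t ∂ν, fun _ => rfl⟩
  have hmcont : Continuous m := by
    have h1 : m = fun t => ∫ v, mv v t ∂ν := funext hm
    rw [h1]
    refine continuous_of_dominated (bound := fun _ => 1) ?_ ?_ (integrable_const _) ?_
    · intro t
      exact (hmc.comp (continuous_id.prodMk continuous_const)).aestronglyMeasurable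
    · intro t
      exact Eventually.of_forall fun v => hmb v t
    · exact Eventually.of_forall fun v => hmc.comp (continuous_const.prodMk continuous_id)
  have hmle : ∀ t, ‖m t‖ ≤ 1 := by
    intro t
    rw [hm]
    refine (norm_integral_le_of_norm_le_const (Eventually.of_forall fun v => hmb v t)).trans ?_
    simp
  have hmsym : ∀ t, m (-t) = (starRingEnd ℂ) (m t) := by
    intro t
    rw [hm, hm, ← integral_conj]
    exact integral_congr_ae (Eventually.of_forall fun v => hmconj v t)
  have hK : 0 ≤ Real.pi * C := mul_nonneg Real.pi_pos.le hC.1.le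
  have hlap : ∀ η E : ℝ, 0 < η → |(∫ t in Set.Ioi (0 : ℝ),
      Complex.exp (-((η : ℂ) + E * Complex.I) * t) * m t).re| ≤ Real.pi * C := by
    intro η E hη
    have h1 := hL d U hU ν C hC V η E hη
    have h2 : ∫ t in Set.Ioi (0 : ℝ), Complex.exp (-((η : ℂ) + E * Complex.I) * t) * m t =
        ∫ v, (∫ t in Set.Ioi (0 : ℝ), Complex.exp (-((η : ℂ) + E * Complex.I) * t) *
          (inner ℂ (ee 0) (U (ud V v) t (ee 0)) : ℂ)) ∂ν := by
      have h3 : ∀ t : ℝ, Complex.exp (-((η : ℂ) + E * Complex.I) * t) * m t =
          ∫ v, Complex.exp (-((η : ℂ) + E * Complex.I) * t) * mv v t ∂ν := by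
        intro t
        rw [hm, integral_const_mul]
      simp only [h3, ← hmv]
      rw [integral_integral_swap]
      have hexp : Integrable (fun t : ℝ => Complex.exp (-((η : ℂ) + E * Complex.I) * t))
          (volume.restrict (Set.Ioi (0 : ℝ))) := by
        have h4 := integrableOn_exp_mul_complex_Ioi (a := -((η : ℂ) + E * Complex.I)) (by
          simp; exact hη) 0
        exact h4
      have h5 : Integrable (fun p : ℝ × ℝ => Complex.exp (-((η : ℂ) + E * Complex.I) * p.1))
          ((volume.restrict (Set.Ioi (0 : ℝ))).prod ν) := hexp.comp_fst ν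
      refine (h5.bdd_mul (c := 1) (f := fun p : ℝ × ℝ => mv p.2 p.1) ?_ ?_).congr ?_
      · exact (hmc.comp continuous_swap).aestronglyMeasurable
      · exact Eventually.of_forall fun p => hmb _ _
      · exact Eventually.of_forall fun p => mul_comm _ _
    rw [h2, abs_of_nonneg h1.1]
    exact h1.2
  have hfin := hP m (Real.pi * C) hmcont hmle hmsym hK hlap a ha1 ha2
  -- the identity
  have hint : ∀ v, Integrable fun t => a t • U (ud V v) (-t) (ee 0) := by
    intro v
    exact ha1.smul_bdd 1 (hc.comp (continuous_const.prodMk continuous_neg)).aestronglyMeasurable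
      (Eventually.of_forall fun t => (hn v (-t)).le)
  have hid : ∀ v, ((‖∫ t, a t • U (ud V v) (-t) (ee 0)‖ ^ 2 : ℝ) : ℂ) =
      ∫ s, ∫ t, (starRingEnd ℂ) (a s) * a t * mv v (s - t) := by
    intro v
    have h1 : ((‖∫ t, a t • U (ud V v) (-t) (ee 0)‖ ^ 2 : ℝ) : ℂ) =
        inner ℂ (∫ t, a t • U (ud V v) (-t) (ee 0)) (∫ t, a t • U (ud V v) (-t) (ee 0)) := by
      rw [inner_self_eq_norm_sq_to_K]
      push_cast
      rfl
    rw [h1, inner_int_left (hint v)]
    refine integral_congr_ae (Eventually.of_forall fun s => ?_)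
    simp only
    rw [← integral_inner (hint v)]
    refine integral_congr_ae (Eventually.of_forall fun t => ?_)
    simp only
    rw [inner_smul_left, inner_smul_right, hadj, neg_neg, ← hU.g0.add, hmv, mul_assoc,
      sub_eq_add_neg]
  have hswap : ∫ v, (∫ s, ∫ t, (starRingEnd ℂ) (a s) * a t * mv v (s - t)) ∂ν =
      ∫ s, ∫ t, (starRingEnd ℂ) (a s) * a t * m (s - t) := by
    rw [integral_integral_swap]
    · refine integral_congr_ae (Eventually.of_forall fun s => ?_)
      simp only
      rw [integral_integral_swap]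
      · refine integral_congr_ae (Eventually.of_forall fun t => ?_)
        simp only
        rw [integral_const_mul, hm]
      · have h1 : Integrable (fun p : ℝ × ℝ => (starRingEnd ℂ) (a s) * a p.2) (ν.prod volume) :=
          (ha1.comp_snd ν).const_mul _
        refine (h1.bdd_mul (c := 1) (f := fun p : ℝ × ℝ => mv p.1 (s - p.2)) ?_ ?_).congr ?_
        · exact (hmc.comp (continuous_fst.prodMk
            (continuous_const.sub continuous_snd))).aestronglyMeasurable
        · exact Eventually.of_forall fun p => hmb _ _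
        · exact Eventually.of_forall fun p => mul_comm _ _
    · have h1 : Integrable (fun p : ℝ × ℝ => (starRingEnd ℂ) (a p.2)) (ν.prod volume) := by
        refine Integrable.comp_snd (f := fun s => (starRingEnd ℂ) (a s)) ?_ ν
        exact Complex.conjCLE.toContinuousLinearMap.integrable_comp ha1
      have h2 : Continuous fun p : ℝ × ℝ => ∫ t, a t * mv p.1 (p.2 - t) := by
        refine continuous_of_dominated (bound := fun t => ‖a t‖) ?_ ?_ ha1.norm ?_
        · intro p
          exact ha1.aestronglyMeasurable.mul (hmc.comp (continuous_const.prodMk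
            (continuous_const.sub continuous_id))).aestronglyMeasurable
        · intro p
          refine Eventually.of_forall fun t => ?_
          rw [norm_mul]
          exact mul_le_of_le_one_right (norm_nonneg _) (hmb _ _)
        · refine Eventually.of_forall fun t => ?_
          exact continuous_const.mul (hmc.comp (continuous_fst.prodMk
            (continuous_snd.sub continuous_const)))
      refine (h1.bdd_mul (c := ∫ t, ‖a t‖)
        (f := fun p : ℝ × ℝ => ∫ t, a t * mv p.1 (p.2 - t)) h2.aestronglyMeasurable ?_).congr ?_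
      · refine Eventually.of_forall fun p => ?_
        refine (norm_integral_le_integral_norm _).trans ?_
        refine integral_mono_of_nonneg (Eventually.of_forall fun t => norm_nonneg _) ha1.norm
          (Eventually.of_forall fun t => ?_)
        simp only
        rw [norm_mul]
        exact mul_le_of_le_one_right (norm_nonneg _) (hmb _ _)
      · refine Eventually.of_forall fun p => ?_
        simp only [Function.uncurry]
        rw [mul_comm, ← integral_const_mul]
        refine integral_congr_ae (Eventually.of_forall fun t => ?_)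
        simp only
        rw [mul_assoc]
  have hreal : ((∫ v, ‖∫ t, a t • U (ud V v) (-t) (ee 0)‖ ^ 2 ∂ν : ℝ) : ℂ) =
      ∫ s, ∫ t, (starRingEnd ℂ) (a s) * a t * m (s - t) := by
    rw [← hswap, ← integral_complex_ofReal]
    exact integral_congr_ae (Eventually.of_forall hid)
  have hnn : 0 ≤ ∫ v, ‖∫ t, a t • U (ud V v) (-t) (ee 0)‖ ^ 2 ∂ν :=
    integral_nonneg fun v => by positivity
  have h5 : ‖((∫ v, ‖∫ t, a t • U (ud V v) (-t) (ee 0)‖ ^ 2 ∂ν : ℝ) : ℂ)‖ =
      ∫ v, ‖∫ t, a t • U (ud V v) (-t) (ee 0)‖ ^ 2 ∂ν := by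
    rw [Complex.norm_real, Real.norm_of_nonneg hnn]
  rw [← h5, hreal]
  refine hfin.trans (le_of_eq ?_)
  ring

end Pool.Agent.T2h98.NB
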