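import Pool.Agent.T2h98.NB.Stm

/-! No ballistic motion: the trace per volume. -/

set_option autoImplicit false

open scoped BigOperators Topology ENNReal InnerProductSpace
open MeasureTheory ProbabilityTheory Filter
open Pool.Agent.TH980.IM.PR (PP sh mp_sh)

namespace Pool.Agent.T2h98.NB

section

variable {d : ℕ}

/-- matrix elements -/
noncomputable def mel (B : Om d → L2 d →L[ℂ] L2 d) (V : Om d) (x y : Sd d) : ℂ := (B V (ee y)) x

theorem mel_sh {B : Om d → L2 d →L[ℂ] L2 d} (hB : Cov B) (z : Sd d) (V : Om d) (x y : Sd d) :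
    mel B (sh z V) x y = mel B V (x + z) (y + z) := by
  unfold mel
  rw [hB.cov, Sf_apply, Sf_ee, sub_neg_eq_add]

theorem sm_apply {α : Type} [MeasurableSpace α] {g : α → L2 d} (hg : StronglyMeasurable g)
    (x : Sd d) : StronglyMeasurable fun V => (g V) x := by
  have h : (fun V => (g V) x) = fun V => (inner ℂ (ee x) (g V) : ℂ) := by
    funext V
    rw [inner_ee]
  rw [h]
  exact stronglyMeasurable_const.inner hg

theorem sm_mel {B : Om d → L2 d →L[ℂ] L2 d} (hB : Cov B) (x y : Sd d) :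
    StronglyMeasurable fun V => mel B V x y := sm_apply (hB.meas (ee y)) x

theorem hasSum_ee (f : L2 d) : HasSum (fun x : Sd d => (f x) • (ee x : L2 d)) f := by
  have h := lp.hasSum_single (E := fun _ : Sd d => ℂ) (p := 2) (by norm_num) f
  refine h.congr_fun ?_ |> fun h => h
  intro x
  unfold ee
  rw [← lp.single_smul]
  simp

theorem hasSum_mel {B C : Om d → L2 d →L[ℂ] L2 d} (V : Om d) :
    HasSum (fun x : Sd d => mel C V x 0 * mel B V 0 x) (inner ℂ (ee 0) (B V (C V (ee 0))) : ℂ) := by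
  have h1 := (hasSum_ee (C V (ee 0))).mapL (B V)
  have h2 := h1.mapL (innerSL ℂ (ee (0 : Sd d)))
  simp only [map_smul, innerSL_apply_apply, smul_eq_mul, inner_ee] at h2
  rw [inner_ee]
  exact h2

theorem sum_bd (f g : L2 d) (u : Finset (Sd d)) :
    ∑ x ∈ u, ‖f x‖ * ‖g x‖ ≤ (‖f‖ ^ 2 + ‖g‖ ^ 2) / 2 := by
  have h1 : ∑ x ∈ u, ‖f x‖ ^ 2 ≤ ‖f‖ ^ 2 := by
    rw [norm_sq]
    exact (sq_summable f).sum_le_tsum u fun x _ => by positivity
  have h2 : ∑ x ∈ u, ‖g x‖ ^ 2 ≤ ‖g‖ ^ 2 := by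
    rw [norm_sq]
    exact (sq_summable g).sum_le_tsum u fun x _ => by positivity
  have h3 : ∑ x ∈ u, ‖f x‖ * ‖g x‖ ≤ ∑ x ∈ u, (‖f x‖ ^ 2 + ‖g x‖ ^ 2) / 2 := by
    refine Finset.sum_le_sum fun x _ => ?_
    nlinarith [sq_nonneg (‖f x‖ - ‖g x‖)]
  rw [← Finset.sum_div, Finset.sum_add_distrib] at h3
  linarith

theorem norm_mel (B : Om d → L2 d →L[ℂ] L2 d) (V : Om d) (x : Sd d) :
    ‖mel B V 0 x‖ = ‖(ContinuousLinearMap.adjoint (B V) (ee 0)) x‖ := by
  have h : mel B V 0 x = (starRingEnd ℂ) ((ContinuousLinearMap.adjoint (B V) (ee 0)) x) := by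
    unfold mel
    rw [← inner_ee, ← inner_ee, inner_conj_symm, ContinuousLinearMap.adjoint_inner_left]
  rw [h]
  exact RCLike.norm_conj _

theorem sum_mel {B C : Om d → L2 d →L[ℂ] L2 d} (hB : Cov B) (hC : Cov C) :
    ∃ K : ℝ, ∀ (V : Om d) (u : Finset (Sd d)), ∑ x ∈ u, ‖mel C V x 0 * mel B V 0 x‖ ≤ K := by
  obtain ⟨K1, h1⟩ := hB.bdd
  obtain ⟨K2, h2⟩ := hC.bdd
  refine ⟨(K2 ^ 2 + K1 ^ 2) / 2, fun V u => ?_⟩
  have h3 := sum_bd (C V (ee 0)) (ContinuousLinearMap.adjoint (B V) (ee 0)) u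
  have h4 : ‖C V (ee 0)‖ ≤ K2 := by
    have := (C V).le_opNorm (ee 0)
    rw [norm_ee, mul_one] at this
    exact this.trans (h2 V)
  have h5 : ‖ContinuousLinearMap.adjoint (B V) (ee (0 : Sd d))‖ ≤ K1 := by
    have := (ContinuousLinearMap.adjoint (B V)).le_opNorm (ee 0)
    rw [norm_ee, mul_one, LinearIsometryEquiv.norm_map] at this
    exact this.trans (h1 V)
  calc ∑ x ∈ u, ‖mel C V x 0 * mel B V 0 x‖
      = ∑ x ∈ u, ‖(C V (ee 0)) x‖ * ‖(ContinuousLinearMap.adjoint (B V) (ee 0)) x‖ := by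
        refine Finset.sum_congr rfl fun x _ => ?_
        rw [norm_mul, norm_mel]
        rfl
    _ ≤ _ := h3
    _ ≤ (K2 ^ 2 + K1 ^ 2) / 2 := by
        have h6 := pow_le_pow_left₀ (norm_nonneg _) h4 2
        have h7 := pow_le_pow_left₀ (norm_nonneg _) h5 2
        linarith

theorem int_mel {B C : Om d → L2 d →L[ℂ] L2 d} (hB : Cov B) (hC : Cov C) (ν : Measure ℝ)
    [IsProbabilityMeasure ν] (x : Sd d) :
    Integrable (fun V => mel C V x 0 * mel B V 0 x) (PP (Sd d) ν) := by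
  obtain ⟨K, hK⟩ := sum_mel hB hC
  refine Integrable.of_bound (C := K) ((sm_mel hC x 0).mul (sm_mel hB 0 x)).aestronglyMeasurable
    (Eventually.of_forall fun V => ?_)
  have := hK V {x}
  rwa [Finset.sum_singleton] at this

theorem hasSum_int {B C : Om d → L2 d →L[ℂ] L2 d} (hB : Cov B) (hC : Cov C) (ν : Measure ℝ)
    [IsProbabilityMeasure ν] :
    HasSum (fun x : Sd d => ∫ V, mel C V x 0 * mel B V 0 x ∂(PP (Sd d) ν))
      (∫ V, (inner ℂ (ee 0) (B V (C V (ee 0))) : ℂ) ∂(PP (Sd d) ν)) := by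
  obtain ⟨K, hK⟩ := sum_mel hB hC
  have h1 := hasSum_integral_of_summable_integral_norm (μ := PP (Sd d) ν)
    (F := fun (x : Sd d) V => mel C V x 0 * mel B V 0 x) (int_mel hB hC ν)
    (summable_of_sum_le (fun x => integral_nonneg fun V => norm_nonneg _) (c := K) fun u => by
      rw [← integral_finsetSum _ fun x _ => (int_mel hB hC ν x).norm]
      calc ∫ V, ∑ x ∈ u, ‖mel C V x 0 * mel B V 0 x‖ ∂(PP (Sd d) ν)
          ≤ ∫ _, K ∂(PP (Sd d) ν) := by
            refine integral_mono (integrable_finsetSum _ fun x _ => (int_mel hB hC ν x).norm)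
              (integrable_const K) fun V => hK V u
        _ = K := by simp)
  have h2 : ∀ V, ∑' x : Sd d, mel C V x 0 * mel B V 0 x =
      (inner ℂ (ee 0) (B V (C V (ee 0))) : ℂ) := fun V => (hasSum_mel V).tsum_eq
  simp only [h2] at h1
  exact h1

theorem integral_sh {E : Type} [NormedAddCommGroup E] [NormedSpace ℝ E] (ν : Measure ℝ)
    [IsProbabilityMeasure ν] (z : Sd d) {F : Om d → E} (hF : StronglyMeasurable F) :
    ∫ V, F (sh z V) ∂(PP (Sd d) ν) = ∫ V, F V ∂(PP (Sd d) ν) := by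
  have h := integral_map (μ := PP (Sd d) ν) (mp_sh ν z).measurable.aemeasurable (f := F)
    hF.aestronglyMeasurable
  rw [(mp_sh ν z).map_eq] at h
  exact h.symm

end

theorem tp : T_TP := by
  intro d ν _ B C hB hC
  have h1 := hasSum_int hB hC ν
  have h2 := hasSum_int hC hB ν
  rw [← h2.tsum_eq, ← h1.tsum_eq, ← (Equiv.neg (Sd d)).tsum_eq]
  refine tsum_congr fun x => ?_
  refine (integral_sh ν x ((sm_mel hC (-x) 0).mul (sm_mel hB 0 (-x)))).symm.trans ?_
  refine integral_congr_ae (Eventually.of_forall fun V => ?_)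
  show mel C (sh x V) (-x) 0 * mel B (sh x V) 0 (-x) = mel B V x 0 * mel C V 0 x
  rw [mel_sh hC, mel_sh hB, neg_add_cancel, zero_add, mul_comm]

theorem tu (hC : T_COV) : T_TU := by
  intro d ν _ B W hB hW hWW x
  obtain ⟨c1, -, -, c4, -⟩ := hC d
  have hBW := c1 B W hB hW
  have hadB := c4 B hB
  have hadW := c4 W hW
  have hmeas : StronglyMeasurable fun V => ‖B V (W V (ee (0 : Sd d)))‖ ^ 2 :=
    ((hBW.meas (ee 0)).norm.pow 2)
  have e1 : ∫ V, ‖B V (W V (ee x))‖ ^ 2 ∂(PP (Sd d) ν) =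
      ∫ V, ‖B V (W V (ee (0 : Sd d)))‖ ^ 2 ∂(PP (Sd d) ν) := by
    rw [← integral_sh ν x hmeas]
    refine integral_congr_ae (Eventually.of_forall fun V => ?_)
    show ‖B V (W V (ee x))‖ ^ 2 = ‖B (sh x V) (W (sh x V) (ee (0 : Sd d)))‖ ^ 2
    have h := hBW.cov x V (ee 0)
    have h' : B (sh x V) (W (sh x V) (ee (0 : Sd d))) = Sf (-x) (B V (W V (ee x))) := by
      have h2 : (Sf x (ee 0) : L2 d) = ee x := by rw [Sf_ee, zero_add]
      rw [h2] at h
      exact h
    rw [h', LinearIsometry.norm_map]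
  rw [e1]
  have key := tp d ν (fun V => ContinuousLinearMap.adjoint (W V))
    (fun V => (ContinuousLinearMap.adjoint (B V)).comp ((B V).comp (W V))) hadW
    (c1 _ _ hadB hBW)
  have e2 : ∀ V : Om d, (inner ℂ (ee 0) (ContinuousLinearMap.adjoint (W V)
      (((ContinuousLinearMap.adjoint (B V)).comp ((B V).comp (W V))) (ee 0))) : ℂ) =
      ((‖B V (W V (ee (0 : Sd d)))‖ ^ 2 : ℝ) : ℂ) := by
    intro V
    rw [ContinuousLinearMap.adjoint_inner_right]
    show (inner ℂ (W V (ee 0)) (ContinuousLinearMap.adjoint (B V) (B V (W V (ee 0)))) : ℂ) = _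
    rw [ContinuousLinearMap.adjoint_inner_right, inner_self_eq_norm_sq_to_K]
    push_cast
    rfl
  have e3 : ∀ V : Om d, (inner ℂ (ee 0) (((ContinuousLinearMap.adjoint (B V)).comp
      ((B V).comp (W V))) (ContinuousLinearMap.adjoint (W V) (ee 0))) : ℂ) =
      ((‖B V (ee (0 : Sd d))‖ ^ 2 : ℝ) : ℂ) := by
    intro V
    have h1 : W V (ContinuousLinearMap.adjoint (W V) (ee 0)) = ee 0 := by
      have := congrArg (fun T : L2 d →L[ℂ] L2 d => T (ee 0)) (hWW V)
      simpa using this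
    show (inner ℂ (ee 0) (ContinuousLinearMap.adjoint (B V)
      (B V (W V (ContinuousLinearMap.adjoint (W V) (ee 0))))) : ℂ) = _
    rw [h1, ContinuousLinearMap.adjoint_inner_right, inner_self_eq_norm_sq_to_K]
    push_cast
    rfl
  simp only [e2, e3] at key
  rw [integral_complex_ofReal, integral_complex_ofReal] at key
  exact_mod_cast key

end Pool.Agent.T2h98.NB
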