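import Pool.Agent.T2h98.NB.TP

/-! No ballistic motion: the limit vanishes. -/

set_option autoImplicit false

open scoped BigOperators Topology ENNReal InnerProductSpace
open MeasureTheory ProbabilityTheory Filter
open Pool.Agent.TH980.IM.PR (PP sh)

namespace Pool.Agent.T2h98.NB

section

variable {d : ℕ}

/-- complex conjugation as a real-linear operator -/
noncomputable def stC (d : ℕ) : L2 d →L[ℝ] L2 d :=
  LinearMap.mkContinuous
    { toFun := fun f => star f
      map_add' := fun f g => star_add f g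
      map_smul' := fun c f => by
        ext x
        show star (c • f x) = c • star (f x)
        rw [star_smul, star_trivial] }
    1 fun f => by rw [one_mul]; exact (norm_star f).le

theorem stC_apply (f : L2 d) : stC d f = star f := rfl

/-- complex conjugation as a real-linear equivalence -/
noncomputable def stE (d : ℕ) : L2 d ≃L[ℝ] L2 d :=
  ContinuousLinearEquiv.equivOfInverse (stC d) (stC d) (fun f => star_star f) fun f => star_star f

theorem stE_apply (f : L2 d) : stE d f = star f := rfl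

theorem inner_star (f g : L2 d) :
    (inner ℂ (star f) (star g) : ℂ) = (starRingEnd ℂ) (inner ℂ f g) := by
  rw [lp.inner_eq_tsum, lp.inner_eq_tsum, Complex.conj_tsum]
  refine tsum_congr fun x => ?_
  simp only [lp.star_apply, RCLike.inner_apply, map_mul, RCLike.star_def]

theorem star_ee (x : Sd d) : star (ee x : L2 d) = ee x := by
  ext y
  rw [lp.star_apply, ee_apply]
  split_ifs <;> simp

theorem star_Xt {U : Om d → ℝ → L2 d →L[ℂ] L2 d} (hU : Grp U) (hV : T_VEL) (i : Fin d) (V : Om d)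
    (t : ℝ) : star (Xt U i V t (ee 0)) = Xt U i V (-t) (ee 0) := by
  obtain ⟨-, -, hvs, -, -⟩ := hV d i
  have hs : ∀ (s : ℝ) (f : L2 d), star (U V s f) = U V (-s) (star f) := fun s f => by
    rw [hU.conj, neg_neg]
  have hv : ∀ f : L2 d, star (vel i f) = -(vel i (star f)) := fun f => by rw [hvs, neg_neg]
  unfold Xt
  rw [← stE_apply, intervalIntegral, map_sub, ← ContinuousLinearEquiv.integral_comp_comm,
    ← ContinuousLinearEquiv.integral_comp_comm, ← intervalIntegral]
  have h1 : ∀ s : ℝ, stE d (U V (-s) (vel i (U V s (ee 0)))) =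
      -(U V (-(-s)) (vel i (U V (-s) (ee 0)))) := by
    intro s
    rw [stE_apply, hs, hv, hs, star_ee, map_neg]
  simp only [h1]
  rw [intervalIntegral.integral_neg,
    intervalIntegral.integral_comp_neg (fun s => U V (-s) (vel i (U V s (ee 0)))), neg_zero,
    ← intervalIntegral.integral_symm]

end

theorem zer (hX : T_XT) (hV : T_VEL) (hC : T_COV) (hT : T_TP) : T_ZER := by
  intro d U hU ν _ i A hA hstar
  obtain ⟨x1, x2, x3, x4, x5, x6, x7, x8, x9⟩ := hX d U hU
  obtain ⟨c1, c2, c3, c4, c5⟩ := hC d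
  set μ := PP (Sd d) ν with hμ
  -- measurability and bounds
  have mA : StronglyMeasurable fun V => A V (ee (0 : Sd d)) := hA.cov.meas (ee 0)
  have mX : ∀ t : ℝ, StronglyMeasurable fun V => XT U i V t (ee (0 : Sd d)) :=
    fun t => (x8 i t).meas (ee 0)
  have bA : ∀ V, ‖A V (ee (0 : Sd d))‖ ≤ 2 := fun V => by
    have := (A V).le_opNorm (ee 0)
    rw [norm_ee, mul_one] at this
    exact this.trans (hA.bdd V)
  have bX : ∀ (t : ℝ) V, ‖XT U i V t (ee (0 : Sd d))‖ ≤ 2 * |t| := fun t V => by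
    have := (XT U i V t).le_opNorm (ee 0)
    rw [norm_ee, mul_one] at this
    exact this.trans (x5 i V t)
  -- the function φ
  set φ : ℝ → ℂ := fun t => ∫ V, (inner ℂ (XT U i V t (ee 0)) (A V (ee 0)) : ℂ) ∂μ with hφ
  have φ2 : ∀ t, φ t = ∫ V, (inner ℂ (ee 0) (XT U i V t (A V (ee 0))) : ℂ) ∂μ := fun t =>
    integral_congr_ae (Eventually.of_forall fun V => x7 i V t (ee 0) (A V (ee 0)))
  have φ3 : ∀ t, φ t = ∫ V, (inner ℂ (ee 0) (A V (XT U i V t (ee 0))) : ℂ) ∂μ := fun t => by
    rw [φ2]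
    exact hT d ν _ _ (x8 i t) hA.cov
  -- additivity
  have hodd : ∀ t, φ (-t) = -φ t := by
    intro t
    have e0 : ∀ V f, XT U i V 0 f = 0 := fun V f => by
      rw [x4]
      exact intervalIntegral.integral_same
    have e1 : ∀ V, (inner ℂ (ee 0) (XT U i V t (A V (ee 0))) : ℂ) +
        inner ℂ (ee 0) (U V (-t) (XT U i V (-t) (U V t (A V (ee 0))))) = 0 := fun V => by
      have := x6 i V t (-t) (A V (ee 0))
      rw [add_neg_cancel, e0] at this
      rw [← inner_add_right, ← this, inner_zero_right]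
    have hB : Cov fun V => (U V (-t)).comp (XT U i V (-t)) := c1 _ _ (x3 (-t)) (x8 i (-t))
    have hD : Cov fun V => (U V t).comp (A V) := c1 _ _ (x3 t) hA.cov
    have e2 := hT d ν _ _ hB hD
    have e3 : ∫ V, (inner ℂ (ee 0) (U V (-t) (XT U i V (-t) (U V t (A V (ee 0))))) : ℂ) ∂μ =
        φ (-t) := by
      rw [φ3]
      refine Eq.trans e2 ?_
      refine integral_congr_ae (Eventually.of_forall fun V => ?_)
      show (inner ℂ (ee 0) (U V t (A V (U V (-t) (XT U i V (-t) (ee 0))))) : ℂ) = _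
      rw [hA.com, ← hA.com, ← hA.com, ← hU.g0.add, add_neg_cancel, hU.g0.zero]
      rfl
    have i1 : Integrable (fun V => (inner ℂ (ee 0) (XT U i V t (A V (ee 0))) : ℂ)) μ := by
      refine Integrable.of_bound (C := 2 * |t| * 2) ?_ (Eventually.of_forall fun V => ?_)
      · exact (stronglyMeasurable_const.inner ((c1 _ _ (x8 i t) hA.cov).meas (ee 0))).aestronglyMeasurable
      · refine (norm_inner_le_norm _ _).trans ?_
        rw [norm_ee, one_mul]
        refine ((XT U i V t).le_opNorm _).trans ?_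
        exact mul_le_mul (x5 i V t) (bA V) (norm_nonneg _) (by positivity)
    have i2 : Integrable (fun V =>
        (inner ℂ (ee 0) (U V (-t) (XT U i V (-t) (U V t (A V (ee 0))))) : ℂ)) μ := by
      refine Integrable.of_bound (C := 2 * |-t| * 2) ?_ (Eventually.of_forall fun V => ?_)
      · exact (stronglyMeasurable_const.inner ((c1 _ _ hB hD).meas (ee 0))).aestronglyMeasurable
      · refine (norm_inner_le_norm _ _).trans ?_
        rw [norm_ee, one_mul, hU.g0.norm]
        refine ((XT U i V (-t)).le_opNorm _).trans ?_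
        rw [hU.g0.norm]
        exact mul_le_mul (x5 i V (-t)) (bA V) (norm_nonneg _) (by positivity)
    have e4 := integral_add i1 i2
    rw [← φ2, e3] at e4
    have e5 : ∫ V, ((inner ℂ (ee 0) (XT U i V t (A V (ee 0))) : ℂ) +
        inner ℂ (ee 0) (U V (-t) (XT U i V (-t) (U V t (A V (ee 0)))))) ∂μ = 0 := by
      simp only [e1, integral_zero]
    rw [e5] at e4
    exact (neg_eq_of_add_eq_zero_right e4.symm).symm
  -- conjugation
  have hconj : ∀ t, (starRingEnd ℂ) (φ t) = φ (-t) := by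
    intro t
    rw [hφ]
    simp only
    rw [← integral_conj]
    refine integral_congr_ae ?_
    filter_upwards [hstar] with V h
    rw [← inner_star, h, x4, x4, star_Xt hU hV]
  have hre : ∀ t, (φ t).re = 0 := by
    intro t
    have h1 := congrArg Complex.re (hconj t)
    rw [hodd, Complex.conj_re, Complex.neg_re] at h1
    linarith
  -- the estimate
  have hest : ∀ δ : ℝ, 0 < δ → ∀ T : ℝ, 0 < T → ∫ V, ‖A V (ee (0 : Sd d))‖ ^ 2 ∂μ ≤
      δ + δ⁻¹ * ∫ V, ‖T⁻¹ • XT U i V T (ee 0) - A V (ee 0)‖ ^ 2 ∂μ := by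
    intro δ hδ T hT0
    have j1 : Integrable (fun V => (inner ℂ (XT U i V T (ee 0)) (A V (ee 0)) : ℂ)) μ := by
      refine Integrable.of_bound (C := 2 * |T| * 2) ((mX T).inner mA).aestronglyMeasurable
        (Eventually.of_forall fun V => ?_)
      exact (norm_inner_le_norm _ _).trans
        (mul_le_mul (bX T V) (bA V) (norm_nonneg _) (by positivity))
    have j2 : Integrable (fun V => ‖T⁻¹ • XT U i V T (ee (0 : Sd d)) - A V (ee 0)‖ ^ 2) μ := by
      refine Integrable.of_bound (C := (T⁻¹ * (2 * |T|) + 2) ^ 2)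
        ((((mX T).const_smul T⁻¹).sub mA).norm.pow 2).aestronglyMeasurable
        (Eventually.of_forall fun V => ?_)
      rw [norm_pow, norm_norm]
      refine pow_le_pow_left₀ (norm_nonneg _) ((norm_sub_le _ _).trans (add_le_add ?_ (bA V))) 2
      rw [norm_smul, norm_inv, Real.norm_of_nonneg hT0.le]
      exact mul_le_mul_of_nonneg_left (bX T V) (by positivity)
    have j3 : Integrable (fun V => ‖A V (ee (0 : Sd d))‖ ^ 2) μ := by
      refine Integrable.of_bound (C := 2 ^ 2) (mA.norm.pow 2).aestronglyMeasurable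
        (Eventually.of_forall fun V => ?_)
      rw [norm_pow, norm_norm]
      exact pow_le_pow_left₀ (norm_nonneg _) (bA V) 2
    have hpt : ∀ V, ‖A V (ee (0 : Sd d))‖ ^ 2 ≤
        T⁻¹ * (inner ℂ (XT U i V T (ee 0)) (A V (ee 0)) : ℂ).re +
          (δ + δ⁻¹ * ‖T⁻¹ • XT U i V T (ee 0) - A V (ee 0)‖ ^ 2) := by
      intro V
      set x := XT U i V T (ee (0 : Sd d))
      set y := A V (ee (0 : Sd d))
      have h1 : (inner ℂ y y : ℂ).re = ‖y‖ ^ 2 := by
        rw [inner_self_eq_norm_sq_to_K]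
        norm_cast
      have h2 : (inner ℂ (T⁻¹ • x - y) y : ℂ).re = T⁻¹ * (inner ℂ x y : ℂ).re - ‖y‖ ^ 2 := by
        rw [inner_sub_left, Complex.sub_re, h1]
        congr 1
        have h3 : (T⁻¹ • x : L2 d) = ((T⁻¹ : ℝ) : ℂ) • x := by
          ext z
          show T⁻¹ • (x z) = ((T⁻¹ : ℝ) : ℂ) * x z
          exact Complex.real_smul
        rw [h3, inner_smul_left, Complex.conj_ofReal, Complex.re_ofReal_mul]
      have h4 : |(inner ℂ (T⁻¹ • x - y) y : ℂ).re| ≤ ‖T⁻¹ • x - y‖ * 2 :=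
        (Complex.abs_re_le_norm _).trans ((norm_inner_le_norm _ _).trans
          (mul_le_mul_of_nonneg_left (bA V) (norm_nonneg _)))
      have h5 : ‖T⁻¹ • x - y‖ * 2 ≤ δ + δ⁻¹ * ‖T⁻¹ • x - y‖ ^ 2 := by
        have h6 : 0 ≤ δ⁻¹ * (‖T⁻¹ • x - y‖ - δ) ^ 2 := by positivity
        have h7 : δ⁻¹ * (‖T⁻¹ • x - y‖ - δ) ^ 2 =
            δ⁻¹ * ‖T⁻¹ • x - y‖ ^ 2 - ‖T⁻¹ • x - y‖ * 2 + δ := by
          field_simp
          ring
        linarith
      rw [h2] at h4
      have h8 := (abs_le.1 h4).1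
      linarith
    have h9 : ∫ V, ‖A V (ee (0 : Sd d))‖ ^ 2 ∂μ ≤
        ∫ V, (T⁻¹ * (inner ℂ (XT U i V T (ee 0)) (A V (ee 0)) : ℂ).re +
          (δ + δ⁻¹ * ‖T⁻¹ • XT U i V T (ee 0) - A V (ee 0)‖ ^ 2)) ∂μ :=
      integral_mono j3 ((j1.re.const_mul _).add ((integrable_const δ).add (j2.const_mul _))) hpt
    have k1 : Integrable (fun V => T⁻¹ * (inner ℂ (XT U i V T (ee 0)) (A V (ee 0)) : ℂ).re) μ :=
      j1.re.const_mul _
    have k2 : Integrable (fun V => δ⁻¹ * ‖T⁻¹ • XT U i V T (ee 0) - A V (ee (0 : Sd d))‖ ^ 2) μ :=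
      j2.const_mul _
    have k3 : Integrable (fun V => δ + δ⁻¹ *
        ‖T⁻¹ • XT U i V T (ee 0) - A V (ee (0 : Sd d))‖ ^ 2) μ := (integrable_const δ).add k2
    rw [integral_add k1 k3, integral_const_mul, integral_add (integrable_const δ) k2,
      integral_const_mul] at h9
    have h10 : ∫ V, (inner ℂ (XT U i V T (ee 0)) (A V (ee 0)) : ℂ).re ∂μ = 0 := by
      have := integral_re j1
      rw [← hre T]
      exact this
    rw [h10] at h9
    simpa using h9
  -- conclusion
  refine le_antisymm ?_ (integral_nonneg fun V => by positivity)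
  refine le_of_forall_pos_le_add fun δ hδ => ?_
  rw [zero_add]
  have hlim : Tendsto (fun T : ℝ => δ + δ⁻¹ * ∫ V, ‖T⁻¹ • XT U i V T (ee 0) - A V (ee 0)‖ ^ 2 ∂μ)
      atTop (𝓝 (δ + δ⁻¹ * 0)) := (hA.lim.const_mul δ⁻¹).const_add δ
  rw [mul_zero, add_zero] at hlim
  exact ge_of_tendsto hlim ((eventually_gt_atTop 0).mono fun T hT0 => hest δ hδ T hT0)

end Pool.Agent.T2h98.NB
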