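import Pool.Agent.T2h98.NB.PIC
import Pool.Agent.T2h98.NB.MUC
import Pool.Agent.T2h98.NB.G0
import Pool.Agent.T2h98.NB.GUN
import Pool.Agent.T2h98.NB.GDU
import Pool.Agent.T2h98.NB.GPO
import Pool.Agent.T2h98.NB.COV
import Pool.Agent.T2h98.NB.XT
import Pool.Agent.T2h98.NB.TP
import Pool.Agent.T2h98.NB.MET
import Pool.Agent.T2h98.NB.CAU
import Pool.Agent.T2h98.NB.LIM
import Pool.Agent.T2h98.NB.LAP
import Pool.Agent.T2h98.NB.PLA
import Pool.Agent.T2h98.NB.SA
import Pool.Agent.T2h98.NB.FAT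
import Pool.Agent.T2h98.NB.ORT
import Pool.Agent.T2h98.NB.DEC
import Pool.Agent.T2h98.NB.GZ
import Pool.Agent.T2h98.NB.NN
import Pool.Agent.T2h98.NB.ETA
import Pool.Agent.T2h98.NB.CYC
import Pool.Agent.T2h98.NB.ZER
import Pool.Agent.T2h98.NB.NB

/-! No ballistic motion: all parts. -/

set_option autoImplicit false

namespace Pool.Agent.T2h98.NB.All

open Pool.Agent.T2h98.NB

theorem g0A : T_G0 := g0 pic muc

theorem grpA (d : ℕ) : ∃ U : Om d → ℝ → L2 d →L[ℂ] L2 d, Grp U := by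
  obtain ⟨U, hU⟩ := g0A d
  exact ⟨U, hU, gsh muc d U hU, gcj muc d U hU, gdu muc d U hU, GPO.t_GPO muc d U hU⟩

theorem xtA : T_XT := XTx.t_XT vel_facts

theorem cauA : T_CAU := cau xtA cov_facts tp met

theorem limA : T_LIM := lim_ xtA cov_facts cauA

theorem saA : T_SA := t_SA (lap xtA) pla xtA

theorem fatA : T_FAT := fat_ xtA cov_facts (tu cov_facts)

theorem decA : T_DEC := dec xtA vel_facts ort

theorem gzA : T_GZ := gz_facts xtA ort saA decA

theorem etaA : T_ETA := eta_facts xtA cov_facts ort saA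

theorem cycA : T_CYC := t_CYC xtA cov_facts ort saA etaA gzA nn

theorem zerA : T_ZER := zer xtA vel_facts cov_facts tp

theorem nbA : T_NB := nb xtA limA fatA upd ort cycA (rea xtA) zerA

end Pool.Agent.T2h98.NB.All
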