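import Pool.Agent.T2h98.NB.StmO
import Pool.Agent.T2h98.NB.CAU

/-! Local observables: the time averages of a local observable are a Cauchy family in mean
square. -/

set_option autoImplicit false

open scoped BigOperators Topology ENNReal InnerProductSpace
open MeasureTheory Filter
open Pool.Agent.TH980.IM.PR (PP sh)

namespace Pool.Agent.T2h98.NB

namespace CAUO

variable {d : ℕ}

theorem Obs_nonneg {O : Om d → L2 d →L[ℂ] L2 d} {c : ℝ} (hOb : Obs O c) : 0 ≤ c :=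
  (norm_nonneg (O 0)).trans (hOb.bdd 0)

/-- the increments -/
noncomputable def Bk (U : Om d → ℝ → L2 d →L[ℂ] L2 d) (O : Om d → L2 d →L[ℂ] L2 d) (k : ℕ)
    (V : Om d) : L2 d →L[ℂ] L2 d := (U V (-(k : ℝ))).comp ((XOT U O V 1).comp (U V k))

theorem Bk_apply (U : Om d → ℝ → L2 d →L[ℂ] L2 d) (O : Om d → L2 d →L[ℂ] L2 d) (k : ℕ)
    (V : Om d) (f : L2 d) :
    Bk U O k V f = U V (-(k : ℝ)) (XOT U O V 1 (U V k f)) := rfl

theorem Bk_cov (hX : T_XT) (hO : T_XO) (hC : T_COV) {U : Om d → ℝ → L2 d →L[ℂ] L2 d}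
    (hU : Grp U) {O : Om d → L2 d →L[ℂ] L2 d} {c : ℝ} (hOb : Obs O c) (k : ℕ) :
    Cov (Bk U O k) := by
  obtain ⟨-, -, x3, -⟩ := hX d U hU
  obtain ⟨-, -, -, -, -, y6, -⟩ := hO d U hU O c hOb
  exact (hC d).1 _ _ (x3 _) ((hC d).1 _ _ (y6 1) (x3 _))

theorem Bk_norm (hO : T_XO) {U : Om d → ℝ → L2 d →L[ℂ] L2 d} (hU : Grp U)
    {O : Om d → L2 d →L[ℂ] L2 d} {c : ℝ} (hOb : Obs O c)
    (k : ℕ) (V : Om d) (f : L2 d) : ‖Bk U O k V f‖ ≤ c * ‖f‖ := by
  obtain ⟨-, -, y3, -⟩ := hO d U hU O c hOb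
  rw [Bk_apply, hU.g0.norm]
  refine ((XOT U O V 1).le_opNorm _).trans ?_
  rw [hU.g0.norm]
  have := y3 V 1
  rw [abs_one, mul_one] at this
  exact mul_le_mul_of_nonneg_right this (norm_nonneg _)

theorem Bk_succ {U : Om d → ℝ → L2 d →L[ℂ] L2 d} (hU : Grp U) (O : Om d → L2 d →L[ℂ] L2 d)
    (k : ℕ) (V : Om d) (f : L2 d) :
    Bk U O (k + 1) V f = U V (-1) (Bk U O k V (U V 1 f)) := by
  rw [Bk_apply, Bk_apply, ← hU.g0.add, ← hU.g0.add]
  congr 2
  · push_cast; ring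
  · push_cast; rfl

theorem Bk_sa (hX : T_XT) (hO : T_XO) {U : Om d → ℝ → L2 d →L[ℂ] L2 d} (hU : Grp U)
    {O : Om d → L2 d →L[ℂ] L2 d} {c : ℝ} (hOb : Obs O c)
    (k : ℕ) (V : Om d) (f g : L2 d) :
    (inner ℂ (Bk U O k V f) g : ℂ) = inner ℂ f (Bk U O k V g) := by
  obtain ⟨x1, -⟩ := hX d U hU
  obtain ⟨-, -, -, -, y5, -⟩ := hO d U hU O c hOb
  rw [Bk_apply, Bk_apply, x1, neg_neg, y5, x1]

theorem XOT_zero (hO : T_XO) {U : Om d → ℝ → L2 d →L[ℂ] L2 d} (hU : Grp U)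
    {O : Om d → L2 d →L[ℂ] L2 d} {c : ℝ} (hOb : Obs O c)
    (V : Om d) (f : L2 d) : XOT U O V 0 f = 0 := by
  obtain ⟨-, -, y3, -⟩ := hO d U hU O c hOb
  have := y3 V 0
  rw [abs_zero, mul_zero] at this
  rw [norm_le_zero_iff.1 this]
  rfl

theorem XOT_sum (hO : T_XO) {U : Om d → ℝ → L2 d →L[ℂ] L2 d} (hU : Grp U)
    {O : Om d → L2 d →L[ℂ] L2 d} {c : ℝ} (hOb : Obs O c)
    (V : Om d) (f : L2 d) (n : ℕ) : XOT U O V n f = ∑ k ∈ Finset.range n, Bk U O k V f := by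
  obtain ⟨-, -, -, y4, -⟩ := id (hO d U hU O c hOb)
  induction n with
  | zero => rw [Nat.cast_zero, XOT_zero hO hU hOb]; rfl
  | succ n ih => rw [Finset.sum_range_succ, ← ih, Nat.cast_succ, y4]; rfl

theorem XOT_near (hO : T_XO) {U : Om d → ℝ → L2 d →L[ℂ] L2 d} (hU : Grp U)
    {O : Om d → L2 d →L[ℂ] L2 d} {c : ℝ} (hOb : Obs O c)
    (V : Om d) (T : ℝ) (hT : 1 ≤ T) :
    ‖T⁻¹ • XOT U O V T (ee 0) - ((⌊T⌋₊ : ℝ))⁻¹ • XOT U O V (⌊T⌋₊ : ℝ) (ee 0)‖ ≤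
      2 * c / T := by
  obtain ⟨-, -, y3, y4, -⟩ := hO d U hU O c hOb
  have hc := Obs_nonneg hOb
  set N : ℝ := (⌊T⌋₊ : ℝ) with hN
  have hT0 : 0 < T := by linarith
  have hN1 : 1 ≤ N := by
    have h : 1 ≤ ⌊T⌋₊ := Nat.le_floor (by simpa using hT)
    rw [hN]
    exact_mod_cast h
  have hNT : N ≤ T := Nat.floor_le hT0.le
  have hTN : T < N + 1 := Nat.lt_floor_add_one T
  have hN0 : 0 < N := by linarith
  have e : XOT U O V T (ee 0) = XOT U O V N (ee 0) +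
      U V (-N) (XOT U O V (T - N) (U V N (ee 0))) := by
    rw [← y4, add_sub_cancel]
  have h1 : ‖U V (-N) (XOT U O V (T - N) (U V N (ee 0)))‖ ≤ c * (T - N) := by
    rw [hU.g0.norm]
    refine ((XOT U O V (T - N)).le_opNorm _).trans ?_
    rw [hU.g0.norm, norm_ee, mul_one]
    have := y3 V (T - N)
    rwa [abs_of_nonneg (by linarith)] at this
  have h2 : ‖XOT U O V N (ee 0)‖ ≤ c * N := by
    refine ((XOT U O V N).le_opNorm _).trans ?_
    rw [norm_ee, mul_one]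
    have := y3 V N
    rwa [abs_of_nonneg (by linarith)] at this
  have e2 : T⁻¹ • XOT U O V T (ee 0) - N⁻¹ • XOT U O V N (ee 0) =
      T⁻¹ • U V (-N) (XOT U O V (T - N) (U V N (ee 0))) - (N⁻¹ - T⁻¹) • XOT U O V N (ee 0) := by
    rw [e, smul_add, sub_smul]
    abel
  rw [e2]
  refine (norm_sub_le _ _).trans ?_
  have h3 : 0 ≤ N⁻¹ - T⁻¹ := sub_nonneg.2 (inv_anti₀ hN0 hNT)
  rw [norm_smul, norm_smul, Real.norm_of_nonneg (by positivity), Real.norm_of_nonneg h3]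
  calc _ ≤ T⁻¹ * (c * (T - N)) + (N⁻¹ - T⁻¹) * (c * N) :=
        add_le_add (mul_le_mul_of_nonneg_left h1 (by positivity))
          (mul_le_mul_of_nonneg_left h2 h3)
    _ = 2 * c * (T - N) / T := by field_simp; ring
    _ ≤ 2 * c / T := by
        rw [div_le_div_iff_of_pos_right hT0]
        have : 2 * c * (T - N) ≤ 2 * c * 1 :=
          mul_le_mul_of_nonneg_left (by linarith) (by linarith)
        linarith

end CAUO

open CAUO in
set_option maxHeartbeats 1000000 in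
/-- the averages of a local observable are a Cauchy family in mean square -/
theorem cauo (hX : T_XT) (hO : T_XO) (hC : T_COV) (hT : T_TP) (hM : T_MET) : T_CAUO := by
  intro d U hU O c hOb ν _ η hη
  obtain ⟨x1, x2, x3, -⟩ := id (hX d U hU)
  obtain ⟨-, -, y3, y4, y5, y6, -⟩ := id (hO d U hU O c hOb)
  have hc : 0 ≤ c := Obs_nonneg hOb
  set μ := PP (Sd d) ν with hμ
  have : IsProbabilityMeasure μ := by rw [hμ]; unfold PP; infer_instance
  -- the stationary sequence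
  have hm : ∀ k : ℕ, MemLp (fun V => Bk U O k V (ee 0)) 2 μ := fun k => by
    refine MemLp.of_bound ((Bk_cov hX hO hC hU hOb k).meas _).aestronglyMeasurable c
      (Eventually.of_forall fun V => ?_)
    have := Bk_norm hO hU hOb k V (ee 0)
    rwa [norm_ee, mul_one] at this
  have hst : ∀ m n : ℕ, (inner ℂ ((hm (m + 1)).toLp _) ((hm (n + 1)).toLp _) : ℂ) =
      inner ℂ ((hm m).toLp _) ((hm n).toLp _) := by
    intro m n
    rw [CAU.inner_toLp, CAU.inner_toLp]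
    have e1 : ∀ V, (inner ℂ (Bk U O (m + 1) V (ee 0)) (Bk U O (n + 1) V (ee 0)) : ℂ) =
        inner ℂ (ee 0) (U V (-1) (((Bk U O m V).comp ((Bk U O n V).comp (U V 1))) (ee 0))) := by
      intro V
      rw [Bk_succ hU, Bk_succ hU, x1, ← hU.g0.add, add_comm, add_neg_cancel, hU.g0.zero]
      show (inner ℂ (Bk U O m V (U V 1 (ee 0))) (Bk U O n V (U V 1 (ee 0))) : ℂ) =
        inner ℂ (ee 0) (U V (-1) (Bk U O m V (Bk U O n V (U V 1 (ee 0)))))
      rw [Bk_sa hX hO hU hOb, x1]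
    have e2 : ∀ V, (inner ℂ (Bk U O m V (ee 0)) (Bk U O n V (ee 0)) : ℂ) =
        inner ℂ (ee 0) (((Bk U O m V).comp ((Bk U O n V).comp (U V 1))) (U V (-1) (ee 0))) := by
      intro V
      show _ = (inner ℂ (ee 0) (Bk U O m V (Bk U O n V (U V 1 (U V (-1) (ee 0))))) : ℂ)
      rw [← hU.g0.add, add_neg_cancel, hU.g0.zero, Bk_sa hX hO hU hOb]
      rfl
    simp only [e1, e2]
    exact hT d ν (fun V => U V (-1)) (fun V => (Bk U O m V).comp ((Bk U O n V).comp (U V 1)))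
      (x3 _) ((hC d).1 _ _ (Bk_cov hX hO hC hU hOb m)
        ((hC d).1 _ _ (Bk_cov hX hO hC hU hOb n) (x3 _)))
  obtain ⟨y, hy⟩ := hM (Lp (L2 d) 2 μ) (fun k => (hm k).toLp _) hst
  -- the averages as functions
  have hma : ∀ N : ℕ, MemLp (fun V => ((N : ℝ))⁻¹ • XOT U O V N (ee 0)) 2 μ := fun N => by
    have hsm : StronglyMeasurable fun V => ((N : ℝ))⁻¹ • XOT U O V N (ee 0) :=
      ((y6 N).meas (ee 0)).const_smul ((N : ℝ))⁻¹
    refine MemLp.of_bound (C := c) hsm.aestronglyMeasurable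
      (Eventually.of_forall fun V => ?_)
    rw [norm_smul, norm_inv, Real.norm_of_nonneg (Nat.cast_nonneg _)]
    rcases Nat.eq_zero_or_pos N with h0 | h0
    · subst h0; simpa using hc
    · have hN0 : (0 : ℝ) < N := by exact_mod_cast h0
      rw [inv_mul_le_iff₀ hN0]
      refine ((XOT U O V N).le_opNorm _).trans ?_
      rw [norm_ee, mul_one]
      have := y3 V N
      rw [abs_of_nonneg hN0.le] at this
      linarith
  have hav : ∀ N : ℕ, ((N : ℂ))⁻¹ • ∑ k ∈ Finset.range N, (hm k).toLp _ = (hma N).toLp _ := by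
    intro N
    have hsum : ∀ N : ℕ, ∃ h : MemLp (fun V => ∑ k ∈ Finset.range N, Bk U O k V (ee 0)) 2 μ,
        ∑ k ∈ Finset.range N, (hm k).toLp _ = h.toLp _ := by
      intro N
      induction N with
      | zero =>
        refine ⟨by simp, ?_⟩
        rw [Finset.sum_range_zero]
        symm
        rw [Lp.eq_zero_iff_ae_eq_zero]
        refine (MemLp.coeFn_toLp _).trans (Eventually.of_forall fun V => ?_)
        simp
      | succ N ih =>
        obtain ⟨h, e⟩ := ih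
        have h2 := h.add (hm N)
        have e3 : (fun V => ∑ k ∈ Finset.range (N + 1), Bk U O k V (ee 0)) =
            (fun V => ∑ k ∈ Finset.range N, Bk U O k V (ee 0)) +
            fun V => Bk U O N V (ee 0) := by
          ext1 V
          rw [Finset.sum_range_succ]
          rfl
        refine ⟨by rw [e3]; exact h2, ?_⟩
        rw [Finset.sum_range_succ, e, ← MemLp.toLp_add]
        exact (MemLp.toLp_congr _ _ (Eventually.of_forall fun V => congrFun e3 V)).symm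
    obtain ⟨h, e⟩ := hsum N
    rw [e, ← MemLp.toLp_const_smul]
    refine MemLp.toLp_congr _ _ (Eventually.of_forall fun V => ?_)
    show ((N : ℂ))⁻¹ • ∑ k ∈ Finset.range N, Bk U O k V (ee 0) =
      ((N : ℝ))⁻¹ • XOT U O V N (ee 0)
    rw [XOT_sum hO hU hOb]
    have : ((N : ℂ))⁻¹ = (((N : ℝ)⁻¹ : ℝ) : ℂ) := by push_cast; rfl
    rw [this, CAU.rs]
  have hcs : CauchySeq fun N : ℕ => (hma N).toLp _ := by
    have := hy.cauchySeq
    simpa only [hav] using this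
  rw [Metric.cauchySeq_iff] at hcs
  obtain ⟨N0, hN0⟩ := hcs (Real.sqrt (η / 6)) (by positivity)
  refine ⟨max (N0 + 1) (Real.sqrt (48 * c ^ 2 / η) + 1), by positivity, fun S T hS hT' => ?_⟩
  have hS1 : (N0 : ℝ) + 1 ≤ S := (le_max_left _ _).trans hS
  have hS2 : Real.sqrt (48 * c ^ 2 / η) + 1 ≤ S := (le_max_right _ _).trans hS
  have hT1 : (N0 : ℝ) + 1 ≤ T := (le_max_left _ _).trans hT'
  have hT2 : Real.sqrt (48 * c ^ 2 / η) + 1 ≤ T := (le_max_right _ _).trans hT'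
  have hN0' : (0 : ℝ) ≤ N0 := Nat.cast_nonneg _
  have hq : ∀ r : ℝ, (N0 : ℝ) + 1 ≤ r → Real.sqrt (48 * c ^ 2 / η) + 1 ≤ r →
      (2 * c / r) ^ 2 ≤ η / 12 := by
    intro r h1 h2
    have hr0 : 0 < r := by linarith
    have h3 : 48 * c ^ 2 / η ≤ r ^ 2 := by
      have := pow_le_pow_left₀ (Real.sqrt_nonneg (48 * c ^ 2 / η))
        (show Real.sqrt (48 * c ^ 2 / η) ≤ r by linarith) 2
      rwa [Real.sq_sqrt (by positivity)] at this
    rw [div_le_iff₀ hη] at h3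
    rw [div_pow, div_le_div_iff₀ (by positivity) (by norm_num)]
    nlinarith
  have hfl : ∀ r : ℝ, (N0 : ℝ) + 1 ≤ r → N0 ≤ ⌊r⌋₊ := fun r hr =>
    Nat.le_floor (by linarith)
  have hD := hN0 ⌊S⌋₊ (hfl S hS1) ⌊T⌋₊ (hfl T hT1)
  rw [dist_eq_norm, ← MemLp.toLp_sub] at hD
  have hD2 := pow_le_pow_left₀ (norm_nonneg _) hD.le 2
  rw [CAU.norm_toLp, Real.sq_sqrt (by positivity)] at hD2
  set F : Om d → L2 d := fun V => ((⌊S⌋₊ : ℝ))⁻¹ • XOT U O V (⌊S⌋₊ : ℝ) (ee 0) -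
    ((⌊T⌋₊ : ℝ))⁻¹ • XOT U O V (⌊T⌋₊ : ℝ) (ee 0) with hF
  have hFm : MemLp F 2 μ := (hma ⌊S⌋₊).sub (hma ⌊T⌋₊)
  have hFi : Integrable (fun V => ‖F V‖ ^ 2) μ := hFm.integrable_norm_pow (by norm_num)
  have hD3 : ∫ V, ‖F V‖ ^ 2 ∂μ ≤ η / 6 := hD2
  have hpt : ∀ V, ‖S⁻¹ • XOT U O V S (ee 0) - T⁻¹ • XOT U O V T (ee 0)‖ ^ 2 ≤
      3 * ‖F V‖ ^ 2 + η / 2 := by
    intro V
    have h1 := XOT_near hO hU hOb V S (by linarith)
    have h2 := XOT_near hO hU hOb V T (by linarith)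
    have e : S⁻¹ • XOT U O V S (ee 0) - T⁻¹ • XOT U O V T (ee 0) =
        (S⁻¹ • XOT U O V S (ee 0) - ((⌊S⌋₊ : ℝ))⁻¹ • XOT U O V (⌊S⌋₊ : ℝ) (ee 0)) + F V -
        (T⁻¹ • XOT U O V T (ee 0) - ((⌊T⌋₊ : ℝ))⁻¹ • XOT U O V (⌊T⌋₊ : ℝ) (ee 0)) := by
      simp only [hF]
      abel
    have h3 : ‖S⁻¹ • XOT U O V S (ee 0) - T⁻¹ • XOT U O V T (ee 0)‖ ≤
        2 * c / S + ‖F V‖ + 2 * c / T := by
      rw [e]
      refine (norm_sub_le _ _).trans (add_le_add ((norm_add_le _ _).trans ?_) h2)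
      exact add_le_add h1 le_rfl
    have h4 := pow_le_pow_left₀ (norm_nonneg _) h3 2
    have h5 := hq S hS1 hS2
    have h6 := hq T hT1 hT2
    nlinarith [sq_nonneg (2 * c / S - ‖F V‖), sq_nonneg (2 * c / S - 2 * c / T),
      sq_nonneg (‖F V‖ - 2 * c / T)]
  calc ∫ V, ‖S⁻¹ • XOT U O V S (ee 0) - T⁻¹ • XOT U O V T (ee 0)‖ ^ 2 ∂μ
      ≤ ∫ V, (3 * ‖F V‖ ^ 2 + η / 2) ∂μ :=
        integral_mono_of_nonneg (Eventually.of_forall fun V => sq_nonneg _)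
          ((hFi.const_mul 3).add (integrable_const _)) (Eventually.of_forall hpt)
    _ = 3 * (∫ V, ‖F V‖ ^ 2 ∂μ) + η / 2 := by
        rw [integral_add (hFi.const_mul 3) (integrable_const _), integral_const_mul,
          integral_const, probReal_univ, one_smul]
    _ ≤ η := by linarith

end Pool.Agent.T2h98.NB
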