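import Pool.Agent.T2h98.NB.StmO
import Pool.Agent.T2h98.NB.CYC

/-! Local observables: almost surely the limit maps the origin to its cyclic space (task NBO-CYO). -/

set_option autoImplicit false
set_option linter.unusedVariables false

open scoped BigOperators Topology ENNReal InnerProductSpace
open MeasureTheory ProbabilityTheory Filter
open Pool.Agent.TH980.IM.PR (PP sh)

namespace Pool.Agent.T2h98.NB

namespace CYO

variable {d : ℕ}

/-- finite combinations of the evolved origin -/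
noncomputable def comb (U : Om d → ℝ → L2 d →L[ℂ] L2 d) (V : Om d) (k : ℕ) (q : Fin k → ℝ × ℂ) :
    L2 d := ∑ j, (q j).2 • U V (q j).1 (ee 0)

theorem comb_cont {U : Om d → ℝ → L2 d →L[ℂ] L2 d} (hU : Gr0 U) (V : Om d) (k : ℕ) :
    Continuous (comb U V k) := by
  unfold comb
  refine continuous_finsetSum _ fun j _ => ?_
  have h1 : Continuous fun q : Fin k → ℝ × ℂ => q j := continuous_apply j
  exact h1.snd.smul ((hU.cont (ee 0)).comp (continuous_const.prodMk h1.fst))

/-- description of the vectors with `inner x φ = 0` for all `φ` orthogonal to the cyclic space -/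
theorem iff_comb {U : Om d → ℝ → L2 d →L[ℂ] L2 d} (hU : Gr0 U)
    (hadj : ∀ (V : Om d) (t : ℝ) (f g : L2 d), inner ℂ (U V t f) g = (inner ℂ f (U V (-t) g) : ℂ))
    (V : Om d) (x : L2 d) :
    (∀ φ : L2 d, Ort U V φ → (inner ℂ x φ : ℂ) = 0) ↔
      ∀ n : ℕ, ∃ k m : ℕ, ‖x - comb U V k (TopologicalSpace.denseSeq (Fin k → ℝ × ℂ) m)‖ <
        1 / ((n : ℝ) + 1) := by
  constructor
  · intro h n
    obtain ⟨K, hK⟩ : ∃ K : Submodule ℂ (L2 d), K =
        Submodule.span ℂ (Set.range fun t : ℝ => U V t (ee 0)) := ⟨_, rfl⟩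
    have h1 : x ∈ K.topologicalClosure := by
      rw [← Submodule.orthogonal_orthogonal_eq_closure, Submodule.mem_orthogonal']
      intro φ hφ
      apply h
      intro t
      rw [Submodule.mem_orthogonal] at hφ
      have h2 := hφ (U V (-t) (ee 0)) (by
        rw [hK]
        exact Submodule.subset_span ⟨-t, rfl⟩)
      rwa [hadj, neg_neg] at h2
    have h2 : x ∈ closure (K : Set (L2 d)) := h1
    have hpos : (0 : ℝ) < 1 / ((n : ℝ) + 1) / 2 := by positivity
    obtain ⟨y, hy, hxy⟩ := Metric.mem_closure_iff.1 h2 _ hpos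
    have hy' : y ∈ Submodule.span ℂ (Set.range fun t : ℝ => U V t (ee 0)) := by
      rw [← hK]
      exact hy
    obtain ⟨k, c, g, hs⟩ := Submodule.mem_span_set'.1 hy'
    choose t ht using fun i => (g i).2
    have hq : comb U V k (fun j => (t j, c j)) = y := by
      unfold comb
      rw [← hs]
      exact Finset.sum_congr rfl fun j _ => by
        show c j • U V (t j) (ee 0) = _
        rw [← ht j]
    have hopen : IsOpen ((comb U V k) ⁻¹' Metric.ball y (1 / ((n : ℝ) + 1) / 2)) :=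
      Metric.isOpen_ball.preimage (comb_cont hU V k)
    obtain ⟨m, hm⟩ := (TopologicalSpace.denseRange_denseSeq (Fin k → ℝ × ℂ)).exists_mem_open hopen
      ⟨fun j => (t j, c j), by
        rw [Set.mem_preimage, hq]
        exact Metric.mem_ball_self hpos⟩
    refine ⟨k, m, ?_⟩
    rw [Set.mem_preimage, Metric.mem_ball] at hm
    rw [← dist_eq_norm]
    calc dist x (comb U V k (TopologicalSpace.denseSeq (Fin k → ℝ × ℂ) m))
        ≤ dist x y + dist y (comb U V k (TopologicalSpace.denseSeq (Fin k → ℝ × ℂ) m)) :=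
          dist_triangle _ _ _
      _ < 1 / ((n : ℝ) + 1) / 2 + 1 / ((n : ℝ) + 1) / 2 := by
          rw [dist_comm y]
          exact add_lt_add hxy hm
      _ = 1 / ((n : ℝ) + 1) := by ring
  · intro h φ hφ
    have h0 : ∀ (k : ℕ) (q : Fin k → ℝ × ℂ), (inner ℂ (comb U V k q) φ : ℂ) = 0 := by
      intro k q
      unfold comb
      rw [sum_inner]
      refine Finset.sum_eq_zero fun j _ => ?_
      rw [inner_smul_left, hadj, hφ, mul_zero]
    have h1 : ∀ n : ℕ, ‖(inner ℂ x φ : ℂ)‖ ≤ 1 / ((n : ℝ) + 1) * ‖φ‖ := by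
      intro n
      obtain ⟨k, m, hkm⟩ := h n
      have h2 : (inner ℂ x φ : ℂ) =
          inner ℂ (x - comb U V k (TopologicalSpace.denseSeq (Fin k → ℝ × ℂ) m)) φ := by
        rw [inner_sub_left, h0, sub_zero]
      rw [h2]
      exact (norm_inner_le_norm _ _).trans (mul_le_mul_of_nonneg_right hkm.le (norm_nonneg _))
    have h2 : Tendsto (fun n : ℕ => 1 / ((n : ℝ) + 1) * ‖φ‖) atTop (𝓝 (0 * ‖φ‖)) :=
      tendsto_one_div_add_atTop_nhds_zero_nat.mul_const _
    rw [zero_mul] at h2
    have h3 : ‖(inner ℂ x φ : ℂ)‖ ≤ 0 := ge_of_tendsto' h2 h1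
    exact norm_le_zero_iff.1 h3

end CYO

open CYO in
theorem t_CYO (hX : T_XT) (hC : T_COV) (hF : T_FATO) (hUp : T_UPD) (hR : T_ORT)
    (hCy : T_CYCO) : T_CYO := by
  intro d U hU ν _ K hK O c hO A hA
  obtain ⟨hadj, -, hcov, -⟩ := hX d U hU
  obtain ⟨hup1, hup2⟩ := hUp d ν
  refine hup2 (fun V => ∀ φ : L2 d, Ort U V φ → (inner ℂ (A V (ee 0)) φ : ℂ) = 0) ?_ ?_
  · have h1 : {V : Om d | ∀ φ : L2 d, Ort U V φ → (inner ℂ (A V (ee 0)) φ : ℂ) = 0} =
        ⋂ n : ℕ, ⋃ k : ℕ, ⋃ m : ℕ, {V : Om d | ‖A V (ee 0) - comb U V k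
          (TopologicalSpace.denseSeq (Fin k → ℝ × ℂ) m)‖ < 1 / ((n : ℝ) + 1)} := by
      ext V
      simp only [Set.mem_ofPred_eq, Set.mem_iInter, Set.mem_iUnion]
      exact iff_comb hU.g0 hadj V _
    rw [h1]
    refine MeasurableSet.iInter fun n => MeasurableSet.iUnion fun k => MeasurableSet.iUnion
      fun m => ?_
    refine measurableSet_lt ?_ measurable_const
    have h2 : StronglyMeasurable fun V : Om d => comb U V k
        (TopologicalSpace.denseSeq (Fin k → ℝ × ℂ) m) := by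
      unfold comb
      refine Finset.stronglyMeasurable_fun_sum _ fun j _ => ?_
      have h3 : StronglyMeasurable fun V : Om d =>
          U V (TopologicalSpace.denseSeq (Fin k → ℝ × ℂ) m j).1 (ee 0) := (hcov _).meas (ee 0)
      exact h3.const_smul (TopologicalSpace.denseSeq (Fin k → ℝ × ℂ) m j).2
    exact ((hA.cov.meas (ee 0)).sub h2).norm.measurable
  · have h1 := hup1 _ (hF d U hU ν O c hO A hA)
    filter_upwards [h1] with V hV
    have h2 := hCy d U hU ν K hK O c hO A hA V hV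
    filter_upwards [h2] with v hv φ hφ
    apply hv
    have h4 := (hR d U hU (ud V v) φ hφ (V 0) 0).2.1
    rwa [CYC.ud_ud, CYC.ud_self] at h4

end Pool.Agent.T2h98.NB
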