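import Pool.Agent.T2h98.NB.StmO
import Pool.Agent.T2h98.NB.DEC

/-! Local observables: the effect of the new value at the origin. -/

set_option autoImplicit false

open scoped BigOperators Topology ENNReal InnerProductSpace
open MeasureTheory Filter

namespace Pool.Agent.T2h98.NB

namespace DECO

open DEC (cs meas_ud mu2 mu2_univ cont1 cont2 duh1)

variable {d : ℕ}

theorem c_nonneg {O : Om d → L2 d →L[ℂ] L2 d} {c : ℝ} (hO : Obs O c) : 0 ≤ c :=
  (norm_nonneg _).trans (hO.bdd 0)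

theorem O_le {O : Om d → L2 d →L[ℂ] L2 d} {c : ℝ} (hO : Obs O c) (V : Om d) (f : L2 d) :
    ‖O V f‖ ≤ c * ‖f‖ :=
  ((O V).le_opNorm f).trans (mul_le_mul_of_nonneg_right (hO.bdd V) (norm_nonneg _))

/-- the kernel of the change of the group -/
noncomputable def ka (U : Om d → ℝ → L2 d →L[ℂ] L2 d) (O : Om d → L2 d →L[ℂ] L2 d) (V : Om d)
    (φ : L2 d) (t : ℝ) (p : ℝ × ℝ) : ℝ :=
  ‖(inner ℂ (O V (U V (-p.2) (ee 0))) (U V (p.1 + t) φ) : ℂ)‖

/-- the kernel of the change of the observable -/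
noncomputable def kb (U : Om d → ℝ → L2 d →L[ℂ] L2 d) (F : Finset (Sd d)) (c : ℝ) (V : Om d)
    (φ : L2 d) (t : ℝ) (s : ℝ) : ℝ :=
  2 * c * ∑ x ∈ F, ‖(inner ℂ (ee x) (U V (s + t) φ) : ℂ)‖

/-- the kernel -/
noncomputable def kk (U : Om d → ℝ → L2 d →L[ℂ] L2 d) (O : Om d → L2 d →L[ℂ] L2 d)
    (F : Finset (Sd d)) (c : ℝ) (V : Om d) (φ : L2 d) (t : ℝ) (p : ℝ × ℝ) : ℝ :=
  ka U O V φ t p + kb U F c V φ t p.1

theorem ka0 (U : Om d → ℝ → L2 d →L[ℂ] L2 d) (O : Om d → L2 d →L[ℂ] L2 d) (V : Om d)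
    (φ : L2 d) (t : ℝ) (p : ℝ × ℝ) : 0 ≤ ka U O V φ t p := norm_nonneg _

theorem kb0 (U : Om d → ℝ → L2 d →L[ℂ] L2 d) (F : Finset (Sd d)) {c : ℝ} (hc : 0 ≤ c) (V : Om d)
    (φ : L2 d) (t : ℝ) (s : ℝ) : 0 ≤ kb U F c V φ t s := by
  unfold kb
  exact mul_nonneg (by linarith) (Finset.sum_nonneg fun x _ => norm_nonneg _)

theorem kk0 (U : Om d → ℝ → L2 d →L[ℂ] L2 d) (O : Om d → L2 d →L[ℂ] L2 d)
    (F : Finset (Sd d)) {c : ℝ} (hc : 0 ≤ c) (V : Om d) (φ : L2 d) (t : ℝ) (p : ℝ × ℝ) :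
    0 ≤ kk U O F c V φ t p := add_nonneg (ka0 _ _ _ _ _ _) (kb0 _ _ hc _ _ _ _)

theorem ka_cont {U : Om d → ℝ → L2 d →L[ℂ] L2 d} (hU : Gr0 U) (O : Om d → L2 d →L[ℂ] L2 d)
    (V : Om d) (φ : L2 d) : Continuous fun q : ℝ × (ℝ × ℝ) => ka U O V φ q.1 q.2 := by
  unfold ka
  refine Continuous.norm (Continuous.inner ?_ ?_)
  · exact (O V).continuous.comp ((cont1 hU V (ee 0)).comp (by fun_prop))
  · exact (cont1 hU V φ).comp (by fun_prop)

theorem kb_cont {U : Om d → ℝ → L2 d →L[ℂ] L2 d} (hU : Gr0 U) (F : Finset (Sd d)) (c : ℝ)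
    (V : Om d) (φ : L2 d) : Continuous fun q : ℝ × ℝ => kb U F c V φ q.1 q.2 := by
  unfold kb
  refine continuous_const.mul (continuous_finsetSum _ fun x _ => ?_)
  exact (Continuous.inner continuous_const ((cont1 hU V φ).comp (by fun_prop))).norm

theorem kk_cont {U : Om d → ℝ → L2 d →L[ℂ] L2 d} (hU : Gr0 U) (O : Om d → L2 d →L[ℂ] L2 d)
    (F : Finset (Sd d)) (c : ℝ) (V : Om d) (φ : L2 d) :
    Continuous fun q : ℝ × (ℝ × ℝ) => kk U O F c V φ q.1 q.2 := by
  unfold kk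
  exact (ka_cont hU O V φ).add
    ((kb_cont hU F c V φ).comp (f := fun q : ℝ × (ℝ × ℝ) => (q.1, q.2.1)) (by fun_prop))

theorem kk_c1 {U : Om d → ℝ → L2 d →L[ℂ] L2 d} (hU : Gr0 U) (O : Om d → L2 d →L[ℂ] L2 d)
    (F : Finset (Sd d)) (c : ℝ) (V : Om d) (φ : L2 d)
    (t : ℝ) : Continuous fun p : ℝ × ℝ => kk U O F c V φ t p :=
  (kk_cont hU O F c V φ).comp (f := fun p : ℝ × ℝ => (t, p)) (by fun_prop)

theorem kk_c2 {U : Om d → ℝ → L2 d →L[ℂ] L2 d} (hU : Gr0 U) (O : Om d → L2 d →L[ℂ] L2 d)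
    (F : Finset (Sd d)) (c : ℝ) (V : Om d) (φ : L2 d)
    (p : ℝ × ℝ) : Continuous fun t : ℝ => kk U O F c V φ t p :=
  (kk_cont hU O F c V φ).comp (f := fun t : ℝ => (t, p)) (by fun_prop)

theorem ka_le {U : Om d → ℝ → L2 d →L[ℂ] L2 d} (hU : Gr0 U) {O : Om d → L2 d →L[ℂ] L2 d} {c : ℝ}
    (hO : Obs O c) (V : Om d) (φ : L2 d) (t : ℝ) (p : ℝ × ℝ) : ka U O V φ t p ≤ c * ‖φ‖ := by
  unfold ka
  refine (norm_inner_le_norm _ _).trans ?_
  rw [hU.norm]
  refine mul_le_mul_of_nonneg_right ?_ (norm_nonneg _)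
  have := O_le hO V (U V (-p.2) (ee 0))
  rwa [hU.norm, norm_ee, mul_one] at this

theorem kb_le {U : Om d → ℝ → L2 d →L[ℂ] L2 d} (hU : Gr0 U) (F : Finset (Sd d)) {c : ℝ}
    (hc : 0 ≤ c) (V : Om d) (φ : L2 d) (t s : ℝ) :
    kb U F c V φ t s ≤ 2 * c * ((F.card : ℝ) * ‖φ‖) := by
  unfold kb
  refine mul_le_mul_of_nonneg_left ?_ (by linarith)
  have h : ∀ x ∈ F, ‖(inner ℂ (ee x) (U V (s + t) φ) : ℂ)‖ ≤ ‖φ‖ := fun x _ => by
    refine (norm_inner_le_norm _ _).trans ?_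
    rw [hU.norm, norm_ee, one_mul]
  refine (Finset.sum_le_sum h).trans_eq ?_
  rw [Finset.sum_const, nsmul_eq_mul]

theorem kk_le {U : Om d → ℝ → L2 d →L[ℂ] L2 d} (hU : Gr0 U) {O : Om d → L2 d →L[ℂ] L2 d} {c : ℝ}
    (hO : Obs O c) (F : Finset (Sd d)) (V : Om d) (φ : L2 d) (t : ℝ) (p : ℝ × ℝ) :
    kk U O F c V φ t p ≤ c * ‖φ‖ + 2 * c * ((F.card : ℝ) * ‖φ‖) :=
  add_le_add (ka_le hU hO V φ t p) (kb_le hU F (c_nonneg hO) V φ t p.1)

set_option maxHeartbeats 1000000 in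
theorem diff_bound (hX : T_XT) (hXO : T_XO) (hR : T_ORT) {U : Om d → ℝ → L2 d →L[ℂ] L2 d}
    (hU : Grp U) {O : Om d → L2 d →L[ℂ] L2 d} {c : ℝ} (hO : Obs O c) (F : Finset (Sd d))
    (hF : ∀ (V : Om d) (v : ℝ) (f : L2 d), ‖O (ud V v) f - O V f‖ ≤ 2 * c * ∑ x ∈ F, ‖f x‖)
    (V : Om d) (φ : L2 d) (hφ : Ort U V φ) (τ : ℝ) (hτ : 1 ≤ τ) (v t : ℝ) :
    ‖XOT U O (ud V v) τ (U V t φ) - XOT U O V τ (U V t φ)‖ ≤
      (|v - V 0| + 1) * ∫ p, kk U O F c V φ t p ∂(mu2 τ) := by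
  obtain ⟨x1, -⟩ := hX d U hU
  obtain ⟨-, x4, -⟩ := hXO d U hU O c hO
  have hc := c_nonneg hO
  have hτ0 : 0 ≤ τ := by linarith
  have ort : Ort U V (U V t φ) := (hR d U hU V φ hφ 0 t).2.2
  have hs : ∀ s, U (ud V v) s (U V t φ) = U V s (U V t φ) := fun s => (hR d U hU V _ ort v s).1
  have hadd : ∀ s, U V s (U V t φ) = U V (s + t) φ := fun s => (hU.g0.add V s t φ).symm
  rw [x4, x4]
  unfold XO
  simp only [hs, hadd]
  have hg : ∀ W : Om d, Continuous fun s : ℝ => O W (U V (s + t) φ) := fun W =>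
    (O W).continuous.comp ((cont1 hU.g0 V φ).comp (by fun_prop))
  have hc1 : Continuous fun s : ℝ => U (ud V v) (-s) (O (ud V v) (U V (s + t) φ)) :=
    cont2 hU.g0 _ _ (by fun_prop) _ (hg _)
  have hc2 : Continuous fun s : ℝ => U V (-s) (O V (U V (s + t) φ)) :=
    cont2 hU.g0 _ _ (by fun_prop) _ (hg _)
  rw [← intervalIntegral.integral_sub (hc1.intervalIntegrable _ _) (hc2.intervalIntegrable _ _)]
  refine (intervalIntegral.norm_integral_le_integral_norm hτ0).trans ?_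
  have hk := kk_cont hU.g0 O F c V φ
  have hka := ka_cont hU.g0 O V φ
  have hint : Integrable (fun p => kk U O F c V φ t p) (mu2 τ) := by
    refine Integrable.of_bound (C := c * ‖φ‖ + 2 * c * ((F.card : ℝ) * ‖φ‖)) ?_ ?_
    · exact (kk_c1 hU.g0 O F c V φ t).aestronglyMeasurable
    · refine Eventually.of_forall fun p => ?_
      rw [Real.norm_of_nonneg (kk0 _ _ _ hc _ _ _ _)]
      exact kk_le hU.g0 hO F V φ t p
  have e1 : ∫ p, kk U O F c V φ t p ∂(mu2 τ) =
      ∫ s in (0 : ℝ)..τ, ∫ u in (-τ)..0, kk U O F c V φ t (s, u) := by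
    unfold mu2 at hint ⊢
    rw [integral_prod _ hint, intervalIntegral.integral_of_le hτ0]
    refine integral_congr_ae (Eventually.of_forall fun s => ?_)
    show _ = ∫ u in (-τ)..0, kk U O F c V φ t (s, u)
    rw [intervalIntegral.integral_of_le (by linarith)]
  rw [e1, ← intervalIntegral.integral_const_mul]
  have hpc : Continuous fun s : ℝ => ∫ u in (-τ)..0, kk U O F c V φ t (s, u) := by
    refine intervalIntegral.continuous_parametric_intervalIntegral_of_continuous'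
      (f := fun s u => kk U O F c V φ t (s, u)) ?_ _ _
    exact hk.comp (f := fun q : ℝ × ℝ => (t, (q.1, q.2))) (by fun_prop)
  refine intervalIntegral.integral_mono_on hτ0 ((hc1.sub hc2).norm.intervalIntegrable _ _)
    ((continuous_const.mul hpc).intervalIntegrable _ _) fun s hs => ?_
  -- the two parts of the difference
  have e0 : U (ud V v) (-s) (O (ud V v) (U V (s + t) φ)) - U V (-s) (O V (U V (s + t) φ)) =
      U (ud V v) (-s) (O (ud V v) (U V (s + t) φ) - O V (U V (s + t) φ)) +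
      (U (ud V v) (-s) (O V (U V (s + t) φ)) - U V (-s) (O V (U V (s + t) φ))) := by
    rw [map_sub]; abel
  have b1 : ‖U (ud V v) (-s) (O (ud V v) (U V (s + t) φ) - O V (U V (s + t) φ))‖ ≤
      kb U F c V φ t s := by
    rw [hU.g0.norm]
    refine (hF V v _).trans_eq ?_
    unfold kb
    simp only [inner_ee]
  have hkau : Continuous fun u : ℝ => ka U O V φ t (s, u) :=
    hka.comp (f := fun u : ℝ => (t, (s, u))) (by fun_prop)
  have b2 : ‖U (ud V v) (-s) (O V (U V (s + t) φ)) - U V (-s) (O V (U V (s + t) φ))‖ ≤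
      |v - V 0| * ∫ u in (-τ)..0, ka U O V φ t (s, u) := by
    refine (duh1 hX hU V v s hs.1 _).trans ?_
    refine mul_le_mul_of_nonneg_left ?_ (abs_nonneg _)
    have e2 : ∀ u : ℝ, ‖(inner ℂ (ee 0) (U V u (O V (U V (s + t) φ))) : ℂ)‖ =
        ka U O V φ t (s, u) := by
      intro u
      unfold ka
      have a1 := x1 V (-u) (ee 0) (O V (U V (s + t) φ))
      rw [neg_neg] at a1
      rw [← a1, ← hO.sa]
    simp only [e2]
    refine intervalIntegral.integral_mono_interval (by linarith [hs.2]) (by linarith [hs.1]) le_rfl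
      (Eventually.of_forall fun u => ?_) (hkau.intervalIntegrable _ _)
    show 0 ≤ ka U O V φ t (s, u)
    exact ka0 _ _ _ _ _ _
  have e3 : ∫ u in (-τ)..0, kk U O F c V φ t (s, u) =
      (∫ u in (-τ)..0, ka U O V φ t (s, u)) + τ * kb U F c V φ t s := by
    have e4 : ∀ u : ℝ, kk U O F c V φ t (s, u) = ka U O V φ t (s, u) + kb U F c V φ t s :=
      fun u => rfl
    simp only [e4]
    rw [intervalIntegral.integral_add (hkau.intervalIntegrable _ _)
      (continuous_const.intervalIntegrable _ _), intervalIntegral.integral_const, smul_eq_mul]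
    ring
  have hI0 : 0 ≤ ∫ u in (-τ)..0, ka U O V φ t (s, u) :=
    intervalIntegral.integral_nonneg (by linarith) fun u _ => ka0 _ _ _ _ _ _
  have hkb0 : 0 ≤ kb U F c V φ t s := kb0 _ _ hc _ _ _ _
  have hv0 : 0 ≤ |v - V 0| := abs_nonneg _
  rw [e0, e3]
  refine (norm_add_le _ _).trans ((add_le_add b1 b2).trans ?_)
  have h5 : kb U F c V φ t s ≤ τ * kb U F c V φ t s := by nlinarith
  have h6 : 0 ≤ |v - V 0| * (τ * kb U F c V φ t s) := by positivity
  nlinarith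

theorem ms {U : Om d → ℝ → L2 d →L[ℂ] L2 d} (hU : Grp U) {O : Om d → L2 d →L[ℂ] L2 d} {c : ℝ}
    (hO : Obs O c) (F : Finset (Sd d)) (V : Om d)
    (φ : L2 d) (C : ℝ) (hS : Smo U V φ C) (τ : ℝ) (hτ : 0 ≤ τ) (S : ℝ) (hS0 : 0 ≤ S) :
    ∫ t in (-S)..S, (∫ p, kk U O F c V φ t p ∂(mu2 τ)) ^ 2 ≤
      τ * τ * (τ * τ * (2 * (c ^ 2 * |C|) + 8 * c ^ 2 * (F.card * (F.card * |C|)))) := by
  have hc := c_nonneg hO
  have hk := kk_cont hU.g0 O F c V φ
  have hk0 : ∀ t p, 0 ≤ kk U O F c V φ t p := fun t p => kk0 _ _ _ hc _ _ _ _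
  set Kb : ℝ := c * ‖φ‖ + 2 * c * ((F.card : ℝ) * ‖φ‖) with hKb
  have hb : ∀ t p, kk U O F c V φ t p ≤ Kb := kk_le hU.g0 hO F V φ
  have hint : ∀ t, Integrable (fun p => kk U O F c V φ t p) (mu2 τ) := fun t => by
    refine Integrable.of_bound (C := Kb) ?_ (Eventually.of_forall fun p => ?_)
    · exact (kk_c1 hU.g0 O F c V φ t).aestronglyMeasurable
    · rw [Real.norm_of_nonneg (hk0 _ _)]
      exact hb t p
  have hint2 : ∀ t, Integrable (fun p => kk U O F c V φ t p ^ 2) (mu2 τ) := fun t => by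
    refine Integrable.of_bound (C := Kb ^ 2) ?_ (Eventually.of_forall fun p => ?_)
    · exact ((kk_c1 hU.g0 O F c V φ t).pow 2).aestronglyMeasurable
    · rw [Real.norm_of_nonneg (sq_nonneg _)]
      exact pow_le_pow_left₀ (hk0 _ _) (hb t p) 2
  rw [intervalIntegral.integral_of_le (by linarith)]
  have hI : Integrable (Function.uncurry fun (t : ℝ) (p : ℝ × ℝ) => kk U O F c V φ t p ^ 2)
      ((volume.restrict (Set.Ioc (-S) S)).prod (mu2 τ)) := by
    refine Integrable.of_bound (C := Kb ^ 2) ?_ (Eventually.of_forall fun q => ?_)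
    · exact (hk.pow 2).aestronglyMeasurable
    · show ‖kk U O F c V φ q.1 q.2 ^ 2‖ ≤ _
      rw [Real.norm_of_nonneg (sq_nonneg _)]
      exact pow_le_pow_left₀ (hk0 _ _) (hb q.1 q.2) 2
  set B : ℝ := 2 * (c ^ 2 * |C|) + 8 * c ^ 2 * (F.card * (F.card * |C|)) with hB
  calc ∫ t in Set.Ioc (-S) S, (∫ p, kk U O F c V φ t p ∂(mu2 τ)) ^ 2
      ≤ ∫ t in Set.Ioc (-S) S, τ * τ * ∫ p, kk U O F c V φ t p ^ 2 ∂(mu2 τ) := by
        refine integral_mono_of_nonneg (Eventually.of_forall fun t => sq_nonneg _)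
          (hI.integral_prod_left.const_mul _) (Eventually.of_forall fun t => ?_)
        have := cs (mu2 τ) (fun p => kk U O F c V φ t p) (hint t) (hint2 t)
        rwa [mu2_univ hτ] at this
    _ = τ * τ * ∫ p, (∫ t in Set.Ioc (-S) S, kk U O F c V φ t p ^ 2) ∂(mu2 τ) := by
        rw [integral_const_mul, integral_integral_swap hI]
    _ ≤ τ * τ * ∫ p, B ∂(mu2 τ) := by
        refine mul_le_mul_of_nonneg_left ?_ (by positivity)
        refine integral_mono_of_nonneg (Eventually.of_forall fun p =>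
          integral_nonneg fun t => sq_nonneg _) (integrable_const _)
          (Eventually.of_forall fun p => ?_)
        show ∫ t in Set.Ioc (-S) S, kk U O F c V φ t p ^ 2 ≤ B
        set χ : L2 d := O V (U V (-p.2) (ee 0)) with hχ
        have hχ2 : ‖χ‖ ≤ c := by
          have := O_le hO V (U V (-p.2) (ee 0))
          rwa [hU.g0.norm, norm_ee, mul_one] at this
        have ia := (hS.int χ).comp_add_left p.1
        have ba := hS.bd χ
        rw [← integral_add_left_eq_self _ p.1] at ba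
        have ix : ∀ x : Sd d, Integrable fun t : ℝ =>
            ‖(inner ℂ (ee x) (U V (p.1 + t) φ) : ℂ)‖ ^ 2 := fun x =>
          (hS.int (ee x)).comp_add_left p.1
        have bx : ∀ x : Sd d, ∫ t : ℝ, ‖(inner ℂ (ee x) (U V (p.1 + t) φ) : ℂ)‖ ^ 2 ≤ |C| := by
          intro x
          have h := hS.bd (ee x)
          rw [← integral_add_left_eq_self _ p.1, norm_ee, one_pow, mul_one] at h
          exact h.trans (le_abs_self C)
        have hpt : ∀ t : ℝ, kk U O F c V φ t p ^ 2 ≤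
            2 * ‖(inner ℂ χ (U V (p.1 + t) φ) : ℂ)‖ ^ 2 +
            8 * c ^ 2 * (F.card * ∑ x ∈ F, ‖(inner ℂ (ee x) (U V (p.1 + t) φ) : ℂ)‖ ^ 2) := by
          intro t
          have h1 : (∑ x ∈ F, ‖(inner ℂ (ee x) (U V (p.1 + t) φ) : ℂ)‖) ^ 2 ≤
              F.card * ∑ x ∈ F, ‖(inner ℂ (ee x) (U V (p.1 + t) φ) : ℂ)‖ ^ 2 :=
            sq_sum_le_card_mul_sum_sq
          unfold kk ka kb
          rw [← hχ]
          set a := ‖(inner ℂ χ (U V (p.1 + t) φ) : ℂ)‖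
          set b := ∑ x ∈ F, ‖(inner ℂ (ee x) (U V (p.1 + t) φ) : ℂ)‖
          have h2 : (a + 2 * c * b) ^ 2 ≤ 2 * a ^ 2 + 8 * c ^ 2 * b ^ 2 := by
            nlinarith [sq_nonneg (a - 2 * c * b)]
          refine h2.trans (add_le_add le_rfl ?_)
          exact mul_le_mul_of_nonneg_left h1 (by positivity)
        have i1 : Integrable fun t : ℝ => 2 * ‖(inner ℂ χ (U V (p.1 + t) φ) : ℂ)‖ ^ 2 :=
          ia.const_mul 2
        have i2 : Integrable fun t : ℝ =>
            8 * c ^ 2 * (F.card * ∑ x ∈ F, ‖(inner ℂ (ee x) (U V (p.1 + t) φ) : ℂ)‖ ^ 2) :=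
          ((integrable_finsetSum _ fun x _ => ix x).const_mul _).const_mul _
        calc ∫ t in Set.Ioc (-S) S, kk U O F c V φ t p ^ 2
            ≤ ∫ t in Set.Ioc (-S) S, (2 * ‖(inner ℂ χ (U V (p.1 + t) φ) : ℂ)‖ ^ 2 +
              8 * c ^ 2 * (F.card * ∑ x ∈ F, ‖(inner ℂ (ee x) (U V (p.1 + t) φ) : ℂ)‖ ^ 2)) := by
              refine integral_mono_of_nonneg (Eventually.of_forall fun t => sq_nonneg _)
                (i1.add i2).integrableOn (Eventually.of_forall hpt)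
          _ ≤ ∫ t : ℝ, (2 * ‖(inner ℂ χ (U V (p.1 + t) φ) : ℂ)‖ ^ 2 +
              8 * c ^ 2 * (F.card * ∑ x ∈ F, ‖(inner ℂ (ee x) (U V (p.1 + t) φ) : ℂ)‖ ^ 2)) :=
              setIntegral_le_integral (i1.add i2) (Eventually.of_forall fun t => by
                show 0 ≤ 2 * ‖(inner ℂ χ (U V (p.1 + t) φ) : ℂ)‖ ^ 2 +
                  8 * c ^ 2 * (F.card * ∑ x ∈ F, ‖(inner ℂ (ee x) (U V (p.1 + t) φ) : ℂ)‖ ^ 2)
                positivity)
          _ = 2 * (∫ t : ℝ, ‖(inner ℂ χ (U V (p.1 + t) φ) : ℂ)‖ ^ 2) +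
              8 * c ^ 2 * (F.card * ∑ x ∈ F,
                (∫ t : ℝ, ‖(inner ℂ (ee x) (U V (p.1 + t) φ) : ℂ)‖ ^ 2)) := by
              rw [integral_add i1 i2, integral_const_mul, integral_const_mul, integral_const_mul,
                integral_finsetSum _ fun x _ => ix x]
          _ ≤ 2 * (c ^ 2 * |C|) + 8 * c ^ 2 * (F.card * ∑ x ∈ F, |C|) := by
              refine add_le_add (mul_le_mul_of_nonneg_left ?_ (by norm_num))
                (mul_le_mul_of_nonneg_left (mul_le_mul_of_nonneg_left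
                  (Finset.sum_le_sum fun x _ => bx x) (Nat.cast_nonneg _)) (by positivity))
              refine ba.trans ?_
              have h1 : ‖χ‖ ^ 2 ≤ c ^ 2 := pow_le_pow_left₀ (norm_nonneg _) hχ2 2
              calc C * ‖χ‖ ^ 2 ≤ |C| * ‖χ‖ ^ 2 :=
                    mul_le_mul_of_nonneg_right (le_abs_self C) (sq_nonneg _)
                _ ≤ |C| * c ^ 2 := mul_le_mul_of_nonneg_left h1 (abs_nonneg _)
                _ = c ^ 2 * |C| := mul_comm _ _
          _ = B := by rw [Finset.sum_const, nsmul_eq_mul]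
    _ = _ := by rw [integral_const, smul_eq_mul, mu2_univ hτ]

theorem h_cont {U : Om d → ℝ → L2 d →L[ℂ] L2 d} (hU : Grp U) {O : Om d → L2 d →L[ℂ] L2 d} {c : ℝ}
    (hO : Obs O c) (F : Finset (Sd d)) (V : Om d) (φ : L2 d) (τ : ℝ) :
    Continuous fun t : ℝ => ∫ p, kk U O F c V φ t p ∂(mu2 τ) := by
  refine continuous_of_dominated (bound := fun _ => c * ‖φ‖ + 2 * c * ((F.card : ℝ) * ‖φ‖))
    (fun t => (kk_c1 hU.g0 O F c V φ t).aestronglyMeasurable)
    (fun t => Eventually.of_forall fun p => ?_) (integrable_const _)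
    (Eventually.of_forall fun p => kk_c2 hU.g0 O F c V φ p)
  rw [Real.norm_of_nonneg (kk0 _ _ _ (c_nonneg hO) _ _ _ _)]
  exact kk_le hU.g0 hO F V φ t p

end DECO

open DEC (cs meas_ud mu2 mu2_univ cont1 cont2 duh1) in
open DECO in
set_option maxHeartbeats 1000000 in
theorem deco (hX : T_XT) (hXO : T_XO) (hR : T_ORT) : T_DECO := by
  intro d U hU ν _ O c hO A hA V S hS φ C hφ R
  obtain ⟨-, -, x5, -, -, x8, -⟩ := id (hXO d U hU O c hO)
  obtain ⟨F, hF⟩ := hO.loc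
  have hc := c_nonneg hO
  have hort : ∀ v t, U (ud V v) t φ = U V t φ := fun v t => (hR d U hU V φ hφ.ort v t).1
  set M : ℝ := |R| + |V 0| + 1 with hM
  have hM0 : 0 ≤ M := by positivity
  -- norms of `BfO`
  have hBf : ∀ (τ : ℝ), 1 ≤ τ → ∀ (W : Om d) (t : ℝ),
      ‖BfO U O A τ W (U V t φ)‖ ≤ 2 * c * ‖φ‖ := by
    intro τ hτ W t
    unfold BfO
    refine (norm_sub_le _ _).trans ?_
    have h1 : ‖A W (U V t φ)‖ ≤ c * ‖φ‖ := by
      refine ((A W).le_opNorm _).trans ?_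
      rw [hU.g0.norm]
      exact mul_le_mul_of_nonneg_right (hA.bdd W) (norm_nonneg _)
    have h2 : ‖τ⁻¹ • XOT U O W τ (U V t φ)‖ ≤ c * ‖φ‖ := by
      rw [norm_smul, norm_inv, Real.norm_of_nonneg (by linarith), inv_mul_le_iff₀ (by linarith)]
      refine ((XOT U O W τ).le_opNorm _).trans ?_
      rw [hU.g0.norm]
      have := x5 W τ
      rw [abs_of_nonneg (by linarith)] at this
      calc ‖XOT U O W τ‖ * ‖φ‖ ≤ c * τ * ‖φ‖ := mul_le_mul_of_nonneg_right this (norm_nonneg _)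
        _ = τ * (c * ‖φ‖) := by ring
    linarith
  -- measurability in `v`
  have hBm : ∀ (τ t : ℝ), StronglyMeasurable fun v : ℝ => BfO U O A τ (ud V v) (U V t φ) := by
    intro τ t
    unfold BfO
    exact ((hA.cov.meas _).comp_measurable (meas_ud V)).sub
      ((((x8 τ).meas _).comp_measurable (meas_ud V)).const_smul τ⁻¹)
  have hBi : ∀ (τ : ℝ), 1 ≤ τ → ∀ t : ℝ,
      Integrable (fun v : ℝ => ‖BfO U O A τ (ud V v) (U V t φ)‖ ^ 2) ν := by
    intro τ hτ t
    refine Integrable.of_bound (C := (2 * c * ‖φ‖) ^ 2)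
      ((hBm τ t).norm.pow 2).aestronglyMeasurable (Eventually.of_forall fun v => ?_)
    rw [Real.norm_of_nonneg (sq_nonneg _)]
    exact pow_le_pow_left₀ (norm_nonneg _) (hBf τ hτ _ t) 2
  -- the main bound
  have main : ∀ (τ : ℝ), 1 ≤ τ → ∀ t : ℝ,
      ∫ v in Set.Icc (-R) R, ‖A (ud V v) (U V t φ) - A V (U V t φ)‖ ^ 2 ∂ν ≤
      3 * (‖BfO U O A τ V (U V t φ)‖ ^ 2 +
        ∫ v, ‖BfO U O A τ (ud V v) (U (ud V v) t φ)‖ ^ 2 ∂ν) +
      3 * M ^ 2 * (∫ p, kk U O F c V φ t p ∂(mu2 τ)) ^ 2 := by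
    intro τ hτ t
    simp only [hort]
    set h := ∫ p, kk U O F c V φ t p ∂(mu2 τ) with hh
    set b := ‖BfO U O A τ V (U V t φ)‖ ^ 2 with hb
    have hpt : ∀ v ∈ Set.Icc (-R) R, ‖A (ud V v) (U V t φ) - A V (U V t φ)‖ ^ 2 ≤
        3 * ‖BfO U O A τ (ud V v) (U V t φ)‖ ^ 2 + (3 * b + 3 * M ^ 2 * h ^ 2) := by
      intro v hv
      have e : A (ud V v) (U V t φ) - A V (U V t φ) =
          BfO U O A τ (ud V v) (U V t φ) - BfO U O A τ V (U V t φ) +
          τ⁻¹ • (XOT U O (ud V v) τ (U V t φ) - XOT U O V τ (U V t φ)) := by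
        unfold BfO
        rw [smul_sub]
        abel
      have h1 : ‖τ⁻¹ • (XOT U O (ud V v) τ (U V t φ) - XOT U O V τ (U V t φ))‖ ≤ M * h := by
        rw [norm_smul, norm_inv, Real.norm_of_nonneg (by linarith)]
        have h2 := diff_bound hX hXO hR hU hO F hF V φ hφ.ort τ hτ v t
        have h3 : |v - V 0| + 1 ≤ M := by
          have h31 : |v - V 0| ≤ |v| + |V 0| := abs_sub _ _
          have : |v| ≤ |R| := abs_le_abs hv.2 (by linarith [hv.1])
          rw [hM]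
          linarith
        have h4 : 0 ≤ h := integral_nonneg fun p => kk0 _ _ _ hc _ _ _ _
        calc τ⁻¹ * _ ≤ 1 * ((|v - V 0| + 1) * h) :=
              mul_le_mul (inv_le_one_of_one_le₀ hτ) h2 (norm_nonneg _) zero_le_one
          _ ≤ M * h := by rw [one_mul]; exact mul_le_mul_of_nonneg_right h3 h4
      have h5 : ‖A (ud V v) (U V t φ) - A V (U V t φ)‖ ≤
          ‖BfO U O A τ (ud V v) (U V t φ)‖ + ‖BfO U O A τ V (U V t φ)‖ + M * h := by
        rw [e]
        refine (norm_add_le _ _).trans ?_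
        exact add_le_add (norm_sub_le _ _) h1
      have h6 := pow_le_pow_left₀ (norm_nonneg _) h5 2
      refine h6.trans ?_
      rw [hb]
      nlinarith [sq_nonneg (‖BfO U O A τ (ud V v) (U V t φ)‖ - ‖BfO U O A τ V (U V t φ)‖),
        sq_nonneg (‖BfO U O A τ (ud V v) (U V t φ)‖ - M * h),
        sq_nonneg (‖BfO U O A τ V (U V t φ)‖ - M * h)]
    have hcn : 0 ≤ 3 * b + 3 * M ^ 2 * h ^ 2 := by positivity
    calc ∫ v in Set.Icc (-R) R, ‖A (ud V v) (U V t φ) - A V (U V t φ)‖ ^ 2 ∂ν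
        ≤ ∫ v in Set.Icc (-R) R, (3 * ‖BfO U O A τ (ud V v) (U V t φ)‖ ^ 2 +
            (3 * b + 3 * M ^ 2 * h ^ 2)) ∂ν := by
          refine integral_mono_of_nonneg (Eventually.of_forall fun v => sq_nonneg _)
            ((((hBi τ hτ t).const_mul 3).add (integrable_const _)).integrableOn) ?_
          exact (ae_restrict_mem measurableSet_Icc).mono fun v hv => hpt v hv
      _ ≤ ∫ v, (3 * ‖BfO U O A τ (ud V v) (U V t φ)‖ ^ 2 +
            (3 * b + 3 * M ^ 2 * h ^ 2)) ∂ν :=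
          setIntegral_le_integral (((hBi τ hτ t).const_mul 3).add (integrable_const _))
            (Eventually.of_forall fun v => by
              show 0 ≤ 3 * ‖BfO U O A τ (ud V v) (U V t φ)‖ ^ 2 + (3 * b + 3 * M ^ 2 * h ^ 2)
              positivity)
      _ = _ := by
          rw [integral_add ((hBi τ hτ t).const_mul 3) (integrable_const _), integral_const_mul,
            integral_const, probReal_univ, one_smul]
          ring
  -- continuity in `t`
  have hG : ∀ (τ : ℝ), 1 ≤ τ → Continuous fun t : ℝ => ‖BfO U O A τ V (U V t φ)‖ ^ 2 +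
      ∫ v, ‖BfO U O A τ (ud V v) (U (ud V v) t φ)‖ ^ 2 ∂ν := by
    intro τ hτ
    simp only [hort]
    have hBc : ∀ W : Om d, Continuous fun t : ℝ => BfO U O A τ W (U V t φ) := by
      intro W
      unfold BfO
      exact ((A W).continuous.comp (cont1 hU.g0 V φ)).sub
        (((XOT U O W τ).continuous.comp (cont1 hU.g0 V φ)).const_smul τ⁻¹)
    refine ((hBc V).norm.pow 2).add ?_
    refine continuous_of_dominated (bound := fun _ => (2 * c * ‖φ‖) ^ 2)
      (fun t => ((hBm τ t).norm.pow 2).aestronglyMeasurable)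
      (fun t => Eventually.of_forall fun v => ?_) (integrable_const _)
      (Eventually.of_forall fun v => (hBc _).norm.pow 2)
    rw [Real.norm_of_nonneg (sq_nonneg _)]
    exact pow_le_pow_left₀ (norm_nonneg _) (hBf τ hτ _ t) 2
  rw [Metric.tendsto_atTop]
  intro ε hε
  obtain ⟨τ, hτ, hsm⟩ := hS.small φ (ε / 6) (by positivity)
  set K : ℝ := 3 * M ^ 2 * (τ * τ * (τ * τ *
    (2 * (c ^ 2 * |C|) + 8 * c ^ 2 * (F.card * (F.card * |C|))))) with hK
  have hK0 : 0 ≤ K := by positivity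
  obtain ⟨N, hN⟩ := (tendsto_atTop.1 hS.top (4 * (K + 1) / ε)).exists_forall_of_atTop
  refine ⟨N, fun n hn => ?_⟩
  have hSn := hN n hn
  have h1 := hS.one n
  have hS0 : 0 < S n := by linarith
  rw [Real.dist_eq, sub_zero, abs_of_nonneg]
  · have hle : ∫ t in (-(S n))..(S n),
        ∫ v in Set.Icc (-R) R, ‖A (ud V v) (U V t φ) - A V (U V t φ)‖ ^ 2 ∂ν ≤
        3 * (∫ t in (-(S n))..(S n), (‖BfO U O A τ V (U V t φ)‖ ^ 2 +
          ∫ v, ‖BfO U O A τ (ud V v) (U (ud V v) t φ)‖ ^ 2 ∂ν)) + K := by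
      have hi1 := (((hG τ hτ).const_mul 3)).intervalIntegrable (μ := volume) (-(S n)) (S n)
      have hi2 := (continuous_const.mul ((h_cont hU hO F V φ τ).pow 2) :
        Continuous fun t : ℝ =>
          3 * M ^ 2 * (∫ p, kk U O F c V φ t p ∂(mu2 τ)) ^ 2).intervalIntegrable
          (μ := volume) (-(S n)) (S n)
      have hms := ms hU hO F V φ C hφ τ (by linarith) (S n) hS0.le
      calc _ ≤ ∫ t in (-(S n))..(S n), (3 * (‖BfO U O A τ V (U V t φ)‖ ^ 2 +
              ∫ v, ‖BfO U O A τ (ud V v) (U (ud V v) t φ)‖ ^ 2 ∂ν) +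
            3 * M ^ 2 * (∫ p, kk U O F c V φ t p ∂(mu2 τ)) ^ 2) := by
            rw [intervalIntegral.integral_of_le (by linarith),
              intervalIntegral.integral_of_le (by linarith)]
            refine integral_mono_of_nonneg (Eventually.of_forall fun t =>
              integral_nonneg fun v => sq_nonneg _) ?_ (Eventually.of_forall fun t => main τ hτ t)
            have := hi1.add hi2
            rwa [intervalIntegrable_iff_integrableOn_Ioc_of_le (by linarith)] at this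
        _ = _ := intervalIntegral.integral_add hi1 hi2
        _ ≤ _ := by
            rw [intervalIntegral.integral_const_mul, intervalIntegral.integral_const_mul]
            refine add_le_add le_rfl ?_
            rw [hK]
            exact mul_le_mul_of_nonneg_left hms (by positivity)
    have h2 := hsm n
    have h3 : (S n)⁻¹ * K < ε / 2 := by
      rw [inv_mul_lt_iff₀ hS0]
      rw [div_le_iff₀ hε] at hSn
      nlinarith
    calc _ ≤ (S n)⁻¹ * (3 * (∫ t in (-(S n))..(S n), (‖BfO U O A τ V (U V t φ)‖ ^ 2 +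
          ∫ v, ‖BfO U O A τ (ud V v) (U (ud V v) t φ)‖ ^ 2 ∂ν)) + K) :=
          mul_le_mul_of_nonneg_left hle (by positivity)
      _ = 3 * ((S n)⁻¹ * ∫ t in (-(S n))..(S n), (‖BfO U O A τ V (U V t φ)‖ ^ 2 +
          ∫ v, ‖BfO U O A τ (ud V v) (U (ud V v) t φ)‖ ^ 2 ∂ν)) + (S n)⁻¹ * K := by ring
      _ < ε := by linarith
  · refine mul_nonneg (by positivity) ?_
    exact intervalIntegral.integral_nonneg (by linarith) fun t _ =>
      integral_nonneg fun v => sq_nonneg _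

end Pool.Agent.T2h98.NB
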