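import Pool.Agent.T2h98.NB.StmO
import Pool.Agent.T2h98.NB.ETA

/-! Smooth vectors made by averaging over the value at the origin, for local observables
(task NBO-ETAO). -/

set_option autoImplicit false

open scoped BigOperators Topology ENNReal InnerProductSpace
open MeasureTheory ProbabilityTheory Filter
open Pool.Agent.TH980.IM.PR (PP sh)

namespace Pool.Agent.T2h98.NB

open ETA in
theorem etao_facts (hX : T_XT) (hC : T_COV) (hO : T_ORT) (hS : T_SA) : T_ETAO := by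
  intro d U hU ν _ K hBD O c _ A hA V b hb hb1
  have hc0 : 0 ≤ c := (norm_nonneg _).trans (hA.bdd V)
  obtain ⟨hadj, -, -, -, -, -, -, -, -⟩ := hX d U hU
  obtain ⟨-, -, -, -, hmeas⟩ := hC d
  have hA2 : ∀ (W : Om d) (f : L2 d), ‖A W f‖ ≤ c * ‖f‖ := fun W f =>
    ((A W).le_opNorm f).trans (mul_le_mul_of_nonneg_right (hA.bdd W) (norm_nonneg _))
  have hudm : Measurable fun v : ℝ => ud V v := (ud_continuous V).measurable
  have hAm : ∀ f : L2 d, StronglyMeasurable fun v : ℝ => A (ud V v) f := fun f =>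
    hmeas A hA.cov ℝ (fun v => ud V v) (fun _ => f) hudm stronglyMeasurable_const
  have hbm : StronglyMeasurable fun v : ℝ => ((b v : ℝ) : ℂ) :=
    (Complex.measurable_ofReal.comp hb).stronglyMeasurable
  have hbn : ∀ v, ‖((b v : ℝ) : ℂ)‖ ≤ 1 := fun v => by
    rw [Complex.norm_real]; exact hb1 v
  have hζm : StronglyMeasurable fun v : ℝ => ((b v : ℝ) : ℂ) • A (ud V v) (ee 0) :=
    hbm.smul (hAm (ee 0))
  have hζb : ∀ v : ℝ, ‖((b v : ℝ) : ℂ) • A (ud V v) (ee 0)‖ ≤ c := fun v => by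
    rw [norm_smul]
    calc ‖((b v : ℝ) : ℂ)‖ * ‖A (ud V v) (ee 0)‖ ≤ 1 * (c * ‖(ee 0 : L2 d)‖) :=
          mul_le_mul (hbn v) (hA2 _ _) (norm_nonneg _) zero_le_one
      _ = c := by rw [norm_ee]; ring
  have hζi : Integrable (fun v : ℝ => ((b v : ℝ) : ℂ) • A (ud V v) (ee 0)) ν :=
    Integrable.of_bound hζm.aestronglyMeasurable c (Eventually.of_forall hζb)
  obtain ⟨η, hη, -, hηφ⟩ := split U V (∫ v, ((b v : ℝ) : ℂ) • A (ud V v) (ee 0) ∂ν)
  have hform : ∀ φ : L2 d, Ort U V φ → (inner ℂ η φ : ℂ) =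
      ∫ v, ((b v : ℝ) : ℂ) * (inner ℂ (A (ud V v) (ee 0)) φ : ℂ) ∂ν := by
    intro φ hφ
    rw [hηφ φ hφ, ← inner_conj_symm, ← integral_inner hζi φ, ← integral_conj]
    refine integral_congr_ae (Eventually.of_forall fun v => ?_)
    show (starRingEnd ℂ) (inner ℂ φ (((b v : ℝ) : ℂ) • A (ud V v) (ee 0)) : ℂ) = _
    rw [inner_conj_symm, inner_smul_left, Complex.conj_ofReal]
  have hK0 : 0 < K := hBD.1
  refine ⟨η, 2 * Real.pi * K * c ^ 2, fun v => ?_, hform⟩
  have hUη : ∀ t, U (ud V v) t η = U V t η := fun t => (hO d U hU V η hη v t).1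
  -- the square integral of the matrix elements
  have key : ∀ χ : L2 d, Integrable (fun t : ℝ => ‖(inner ℂ χ (U V t η) : ℂ)‖ ^ 2) ∧
      ∫ t : ℝ, ‖(inner ℂ χ (U V t η) : ℂ)‖ ^ 2 ≤ 2 * Real.pi * K * c ^ 2 * ‖χ‖ ^ 2 := by
    intro χ
    obtain ⟨φ, hφ, hφn, hφχ⟩ := split U V χ
    have hcont : Continuous fun t : ℝ => U V t φ := by
      have h := hU.g0.cont φ
      exact h.comp (continuous_const.prodMk continuous_id)
    set k : ℝ → ℂ := fun t => inner ℂ η (U V t φ) with hk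
    have hkc : Continuous k := continuous_const.inner hcont
    have e : ∀ t, ‖(inner ℂ χ (U V t η) : ℂ)‖ ^ 2 = ‖k (-t)‖ ^ 2 := by
      intro t
      have h1 : (inner ℂ χ (U V t η) : ℂ) = (starRingEnd ℂ) (k (-t)) := by
        rw [← hφχ _ (hO d U hU V η hη 0 t).2.2, hk]
        show (inner ℂ φ (U V t η) : ℂ) = (starRingEnd ℂ) (inner ℂ η (U V (-t) φ) : ℂ)
        rw [inner_conj_symm]
        have := hadj V (-t) φ η
        rw [neg_neg] at this
        exact this.symm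
      rw [h1, RCLike.norm_conj]
    have hkb : Integrable (fun t => ‖k t‖ ^ 2) ∧
        ∫ t, ‖k t‖ ^ 2 ≤ (2 * Real.pi * K) * (c * ‖φ‖) ^ 2 := by
      refine kbound ν (fun w t => U (ud V w) (-t) (ee 0)) ?_ ?_ (2 * Real.pi * K) (by positivity)
        (fun a ha1 ha2 => hS d U hU ν K hBD V a ha1 ha2)
        (fun w => ((b w : ℝ) : ℂ) • A (ud V w) φ) (hbm.smul (hAm φ)) (c * ‖φ‖) ?_ k hkc ?_
      · have h := hU.g0.cont (ee 0)
        exact h.comp (((ud_continuous V).comp continuous_fst).prodMk (continuous_snd.neg))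
      · intro w t
        rw [hU.g0.norm, norm_ee]
      · intro w
        rw [norm_smul]
        calc ‖((b w : ℝ) : ℂ)‖ * ‖A (ud V w) φ‖ ≤ 1 * (c * ‖φ‖) :=
              mul_le_mul (hbn w) (hA2 _ _) (norm_nonneg _) zero_le_one
          _ = c * ‖φ‖ := one_mul _
      · intro t
        have h1 : Ort U V (U V t φ) := (hO d U hU V φ hφ 0 t).2.2
        show (inner ℂ η (U V t φ) : ℂ) = _
        rw [hform _ h1]
        refine integral_congr_ae (Eventually.of_forall fun w => ?_)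
        show ((b w : ℝ) : ℂ) * (inner ℂ (A (ud V w) (ee 0)) (U V t φ) : ℂ) =
          (inner ℂ (U (ud V w) (-t) (ee 0)) (((b w : ℝ) : ℂ) • A (ud V w) φ) : ℂ)
        rw [inner_smul_right, ← (hO d U hU V φ hφ w t).1, hA.sa, hA.com]
        congr 1
        have := hadj (ud V w) (-t) (ee 0) (A (ud V w) φ)
        rw [neg_neg] at this
        exact this.symm
    constructor
    · have := hkb.1.comp_neg
      refine this.congr (Eventually.of_forall fun t => ?_)
      exact (e t).symm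
    · calc ∫ t : ℝ, ‖(inner ℂ χ (U V t η) : ℂ)‖ ^ 2 = ∫ t : ℝ, ‖k (-t)‖ ^ 2 :=
            integral_congr_ae (Eventually.of_forall e)
        _ = ∫ t : ℝ, ‖k t‖ ^ 2 := integral_neg_eq_self (fun t => ‖k t‖ ^ 2) volume
        _ ≤ (2 * Real.pi * K) * (c * ‖φ‖) ^ 2 := hkb.2
        _ = 2 * Real.pi * K * c ^ 2 * ‖φ‖ ^ 2 := by ring
        _ ≤ 2 * Real.pi * K * c ^ 2 * ‖χ‖ ^ 2 := by
            refine mul_le_mul_of_nonneg_left ?_ (by positivity)
            exact pow_le_pow_left₀ (norm_nonneg _) hφn 2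
  refine ⟨(hO d U hU V η hη v 0).2.1, fun χ => ?_, fun χ => ?_⟩
  · simp only [hUη]; exact (key χ).1
  · simp only [hUη]; exact (key χ).2

end Pool.Agent.T2h98.NB
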