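import Pool.Agent.T2h98.NB.FAT
import Pool.Agent.T2h98.NB.LIMO

/-! Local observables: the subsequence of times. -/

set_option autoImplicit false

open scoped BigOperators Topology ENNReal InnerProductSpace
open MeasureTheory ProbabilityTheory Filter
open Pool.Agent.TH980.IM.PR (PP sh mp_sh mp_up meas_up up)

namespace Pool.Agent.T2h98.NB

variable {d : ℕ}

/-- FATO. -/
theorem fato_ (hX : T_XT) (hO : T_XO) (hC : T_COV) (hT : T_TU) : T_FATO := by
  intro d U hU ν _ O c₀ hOb A hL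
  obtain ⟨hadj, hinv, hUc, _⟩ := hX d U hU
  obtain ⟨hOc, hXt, hXb, hcoc, hXs, hXc, hXcont⟩ := hO d U hU O c₀ hOb
  have hc0 : 0 ≤ c₀ := (norm_nonneg _).trans (hOb.bdd 0)
  obtain ⟨_, hCsub, hCs, _, hCm⟩ := hC d
  set B : ℝ → Om d → L2 d →L[ℂ] L2 d := fun τ V => A V - ((τ⁻¹ : ℝ) : ℂ) • XOT U O V τ with hB
  have hBf : ∀ τ V g, BfO U O A τ V g = B τ V g := by
    intro τ V g
    simp only [hB, BfO, sub_apply, smul_apply]
    rfl
  have hBc : ∀ τ, Cov (B τ) := fun τ => hCsub _ _ hL.cov (hCs _ _ (hXc τ))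
  have hBb : ∀ τ, 0 < τ → ∀ V, ‖B τ V‖ ≤ 2 * c₀ := by
    intro τ hτ V
    have h1 : ‖((τ⁻¹ : ℝ) : ℂ) • XOT U O V τ‖ ≤ c₀ := by
      rw [norm_smul, Complex.norm_real, norm_inv, Real.norm_of_nonneg hτ.le]
      have h1 := hXb V τ
      rw [abs_of_pos hτ] at h1
      calc τ⁻¹ * ‖XOT U O V τ‖ ≤ τ⁻¹ * (c₀ * τ) :=
            mul_le_mul_of_nonneg_left h1 (inv_nonneg.2 hτ.le)
        _ = c₀ := by field_simp
    calc ‖B τ V‖ ≤ ‖A V‖ + ‖((τ⁻¹ : ℝ) : ℂ) • XOT U O V τ‖ := norm_sub_le _ _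
      _ ≤ c₀ + c₀ := add_le_add (hL.bdd V) h1
      _ = 2 * c₀ := by ring
  -- the times
  have hτ : ∀ j : ℕ, ∃ τ : ℝ, 1 ≤ τ ∧ ∫ V, ‖B τ V (ee 0)‖ ^ 2 ∂(PP (Sd d) ν) ≤ (1 / 8) ^ j := by
    intro j
    have h1 := (Metric.tendsto_nhds.1 hL.lim ((1 / 8) ^ j) (by positivity)).and
      (eventually_ge_atTop 1)
    obtain ⟨τ, h2, h3⟩ := h1.exists
    refine ⟨τ, h3, ?_⟩
    rw [Real.dist_eq, sub_zero] at h2
    refine le_trans (le_of_eq ?_) ((le_abs_self _).trans h2.le)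
    congr 1
    ext V
    rw [← hBf]
    unfold BfO
    rw [norm_sub_rev]
  choose τ hτ1 hτ2 using hτ
  have hτ0 : ∀ j, 0 < τ j := fun j => one_pos.trans_le (hτ1 j)
  set Q : ℕ → Sd d → Om d × ℝ → ℝ≥0∞ := fun j x p => ‖B (τ j) p.1 (U p.1 p.2 (ee x))‖ₑ ^ 2 with hQ
  have hsm : ∀ j f, StronglyMeasurable fun p : Om d × ℝ => B (τ j) p.1 (U p.1 p.2 f) := by
    intro j f
    exact hCm _ (hBc _) (Om d × ℝ) (fun p => p.1) (fun p => U p.1 p.2 f) measurable_fst
      (hU.g0.cont f).stronglyMeasurable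
  have hQm : ∀ j x, Measurable (Q j x) := fun j x => (hsm j (ee x)).enorm.pow_const 2
  have hQc : ∀ j x t, ∫⁻ V, Q j x (V, t) ∂(PP (Sd d) ν) ≤ (1 / 8) ^ j := by
    intro j x t
    have hun : ∀ V, (U V t).comp (ContinuousLinearMap.adjoint (U V t)) = 1 := by
      intro V
      have h1 : U V (-t) = ContinuousLinearMap.adjoint (U V t) := by
        rw [ContinuousLinearMap.eq_adjoint_iff]
        intro f g
        have h2 := hadj V (-t) f g
        rwa [neg_neg] at h2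
      rw [← h1]
      ext1 f
      have h3 := hinv V (-t) f
      rw [neg_neg] at h3
      exact h3
    have h1 := hT d ν (B (τ j)) (fun V => U V t) (hBc _) (hUc t) hun x
    have hsmV : StronglyMeasurable fun V => B (τ j) V (U V t (ee x)) :=
      (hsm j (ee x)).comp_measurable (measurable_id.prodMk measurable_const)
    have hint : Integrable (fun V => ‖B (τ j) V (U V t (ee x))‖ ^ 2) (PP (Sd d) ν) := by
      refine Integrable.of_bound (C := (2 * c₀) ^ 2) (hsmV.norm.pow 2).aestronglyMeasurable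
        (ae_of_all _ fun V => ?_)
      rw [Real.norm_of_nonneg (by positivity)]
      have h2 : ‖B (τ j) V (U V t (ee x))‖ ≤ 2 * c₀ := by
        refine ((B (τ j) V).le_opNorm _).trans ?_
        rw [hU.g0.norm, norm_ee, mul_one]
        exact hBb _ (hτ0 j) V
      exact pow_le_pow_left₀ (norm_nonneg _) h2 2
    calc ∫⁻ V, Q j x (V, t) ∂(PP (Sd d) ν)
        = ∫⁻ V, ENNReal.ofReal (‖B (τ j) V (U V t (ee x))‖ ^ 2) ∂(PP (Sd d) ν) := by
          refine lintegral_congr fun V => ?_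
          simp only [hQ]
          rw [ENNReal.ofReal_pow (norm_nonneg _), ofReal_norm]
      _ = ENNReal.ofReal (∫ V, ‖B (τ j) V (U V t (ee x))‖ ^ 2 ∂(PP (Sd d) ν)) :=
          (ofReal_integral_eq_lintegral_ofReal hint (ae_of_all _ fun V => by positivity)).symm
      _ ≤ ENNReal.ofReal ((1 / 8) ^ j) := by
          rw [h1]
          exact ENNReal.ofReal_le_ofReal (hτ2 j)
      _ = (1 / 8) ^ j := by
          rw [ENNReal.ofReal_pow (by norm_num), ENNReal.ofReal_div_of_pos (by norm_num)]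
          simp
  obtain ⟨w, hw0, hwt, hae⟩ := fat_seq ν Q hQm hQc
  filter_upwards [hae] with V hV
  obtain ⟨N, φ, hN, hφ, hb⟩ := hV
  refine ⟨fun n => (φ (n + 1) : ℝ), ⟨?_, ?_, ?_⟩⟩
  · intro n
    have h1 := hφ.id_le (n + 1)
    have h2 : 1 ≤ φ (n + 1) := le_trans (Nat.succ_le_succ (Nat.zero_le n)) h1
    exact_mod_cast h2
  · exact tendsto_natCast_atTop_atTop.comp
      ((hφ.tendsto_atTop).comp (tendsto_add_atTop_nat 1))
  · intro f δ hδ
    have hs := lp.hasSum_single (E := fun _ : Sd d => ℂ) (p := 2) (by norm_num) f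
    have hε' : 0 < Real.sqrt (δ / (64 * (c₀ + 1) ^ 2)) := Real.sqrt_pos.2 (by positivity)
    obtain ⟨s, hs1⟩ := (Metric.tendsto_nhds.1 hs _ hε').exists
    have hg2 : (∑ x ∈ s, lp.single 2 x (f x) : L2 d) = ∑ x ∈ s, (f x) • ee x := by
      refine Finset.sum_congr rfl fun x _ => ?_
      unfold ee
      rw [← lp.single_smul, smul_eq_mul, mul_one]
    rw [hg2, dist_comm, dist_eq_norm] at hs1
    have hs2 : 4 * (2 * (2 * c₀) ^ 2 * ‖f - ∑ x ∈ s, f x • ee x‖ ^ 2) ≤ δ / 2 := by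
      have h1 := pow_le_pow_left₀ (norm_nonneg _) hs1.le 2
      rw [Real.sq_sqrt (by positivity)] at h1
      calc 4 * (2 * (2 * c₀) ^ 2 * ‖f - ∑ x ∈ s, f x • ee x‖ ^ 2)
          = (32 * c₀ ^ 2) * ‖f - ∑ x ∈ s, f x • ee x‖ ^ 2 := by ring
        _ ≤ (32 * (c₀ + 1) ^ 2) * (δ / (64 * (c₀ + 1) ^ 2)) := by
            refine mul_le_mul ?_ h1 (by positivity) (by positivity)
            nlinarith
        _ = δ / 2 := by
            field_simp
            norm_num
    set c : Sd d → ℝ≥0∞ := fun x => ENNReal.ofReal (2 * s.card * ‖f x‖ ^ 2) with hc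
    set K : ℝ≥0∞ := ∑ x ∈ s, c x * (N / w x) with hK
    have hKt : K ≠ ⊤ := by
      rw [hK]
      refine ENNReal.sum_ne_top.2 fun x _ => ?_
      exact ENNReal.mul_ne_top ENNReal.ofReal_ne_top (ENNReal.div_ne_top hN (hw0 x))
    have hδ' : ENNReal.ofReal (δ / 2) ≠ 0 := by simpa using by linarith
    obtain ⟨j, hj⟩ := ENNReal.exists_nat_mul_gt hδ' hKt
    refine ⟨τ j, hτ1 j, fun n => ?_⟩
    have hS : (0 : ℝ) < φ (n + 1) := by
      have h1 := hφ.id_le (n + 1)
      have h2 : 0 < φ (n + 1) := lt_of_lt_of_le (Nat.succ_pos n) h1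
      exact_mod_cast h2
    set r : Om d × ℝ → ℝ := fun p => ‖B (τ j) p.1 (U p.1 p.2 f)‖ ^ 2 with hr
    have hfin : ENNReal.ofReal ((φ (n + 1) : ℝ)⁻¹ * ∫ t in (-(φ (n + 1) : ℝ))..(φ (n + 1) : ℝ),
        (r (V, t) + ∫ v, r (ud V v, t) ∂ν)) ≤ ENNReal.ofReal δ := by
      refine (fat_real ν r V hS).trans ?_
      have h1 : ∀ p, ‖r p‖ₑ ≤ ∑ x ∈ s, c x * Q j x p +
          ENNReal.ofReal (2 * (2 * c₀) ^ 2 * ‖f - ∑ x ∈ s, f x • ee x‖ ^ 2) := by
        intro p
        have h2 := fato_pt (B (τ j) p.1) (U p.1 p.2) (hBb _ (hτ0 j) _) (hU.g0.norm _ _) f s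
        have h3 : ‖r p‖ₑ = ENNReal.ofReal (‖B (τ j) p.1 (U p.1 p.2 f)‖ ^ 2) := by
          rw [Real.enorm_eq_ofReal (by positivity)]
        rw [h3]
        refine (ENNReal.ofReal_le_ofReal h2).trans ?_
        rw [ENNReal.ofReal_add (Finset.sum_nonneg fun x _ => by positivity) (by positivity),
          ENNReal.ofReal_sum_of_nonneg fun x _ => by positivity]
        refine add_le_add (Finset.sum_le_sum fun x _ => ?_) le_rfl
        rw [ENNReal.ofReal_mul (by positivity)]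
        simp only [hc, hQ]
        rw [ENNReal.ofReal_pow (norm_nonneg _), ofReal_norm]
      refine (fat_lin ν s (Q j) (hQm j) _ c _ h1 V _).trans ?_
      have h4 : ∑ x ∈ s, c x * fatI ν (Q j x) V (φ (n + 1)) ≤ ENNReal.ofReal (δ / 2) := by
        have h5 : (∑ x ∈ s, c x * fatI ν (Q j x) V (φ (n + 1))) * 2 ^ j ≤
            ENNReal.ofReal (δ / 2) * 2 ^ j := by
          calc (∑ x ∈ s, c x * fatI ν (Q j x) V (φ (n + 1))) * 2 ^ j
              = ∑ x ∈ s, c x * (2 ^ j * fatI ν (Q j x) V (φ (n + 1))) := by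
                rw [Finset.sum_mul]
                exact Finset.sum_congr rfl fun x _ => by ring
            _ ≤ K := by
                refine Finset.sum_le_sum fun x _ => mul_le_mul_right ?_ _
                rw [ENNReal.le_div_iff_mul_le (Or.inl (hw0 x)) (Or.inl (hwt x))]
                calc 2 ^ j * fatI ν (Q j x) V (φ (n + 1)) * w x
                    = 2 ^ j * w x * fatI ν (Q j x) V (φ (n + 1)) := by ring
                  _ ≤ N := hb (n + 1) j x
            _ ≤ (j : ℝ≥0∞) * ENNReal.ofReal (δ / 2) := hj.le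
            _ ≤ ENNReal.ofReal (δ / 2) * 2 ^ j := by
                rw [mul_comm]
                refine mul_le_mul_right ?_ _
                exact_mod_cast (Nat.lt_two_pow_self (n := j)).le
        have h6 : (2 : ℝ≥0∞) ^ j ≠ 0 := by positivity
        have h7 : (2 : ℝ≥0∞) ^ j ≠ ⊤ := ENNReal.pow_ne_top (by norm_num)
        exact (ENNReal.mul_le_mul_iff_left h6 h7).1 h5
      have h8 : 4 * ENNReal.ofReal (2 * (2 * c₀) ^ 2 * ‖f - ∑ x ∈ s, f x • ee x‖ ^ 2) ≤
          ENNReal.ofReal (δ / 2) := by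
        have h9 : (4 : ℝ≥0∞) = ENNReal.ofReal 4 := by simp
        rw [h9, ← ENNReal.ofReal_mul (by norm_num)]
        apply ENNReal.ofReal_le_ofReal
        linarith
      calc _ ≤ ENNReal.ofReal (δ / 2) + ENNReal.ofReal (δ / 2) := add_le_add h4 h8
        _ = ENNReal.ofReal δ := by
          rw [← ENNReal.ofReal_add (by linarith) (by linarith), add_halves]
    have h10 := (ENNReal.ofReal_le_ofReal_iff hδ.le).1 hfin
    simp only [hr] at h10
    simp only [hBf]
    exact h10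

end Pool.Agent.T2h98.NB
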