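import Pool.Agent.T2h98.NB.StmO
import Pool.Agent.T2h98.NB.GZ

/-! The amplitude is in the kernel of the averaged transform, for local observables
(task NBO-GZO). -/

set_option autoImplicit false

open scoped BigOperators Topology ENNReal InnerProductSpace
open MeasureTheory ProbabilityTheory Filter
open Pool.Agent.TH980.IM.PR (PP sh)

namespace Pool.Agent.T2h98.NB

open GZ in
theorem gzo_facts (hX : T_XT) (hO : T_ORT) (hS : T_SA) (hD : T_DECO) : T_GZO := by
  intro d U hU ν _ K hBD O c hObs A hA V S hP φ C hφ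
  have hc0 : 0 ≤ c := (norm_nonneg _).trans (hA.bdd V)
  obtain ⟨hadj, hinv, -, -, -, -, -, -, -⟩ := hX d U hU
  have hK0 : 0 < K := hBD.1
  have hA2 : ∀ (W : Om d) (f : L2 d), ‖A W f‖ ≤ c * ‖f‖ := fun W f =>
    ((A W).le_opNorm f).trans (mul_le_mul_of_nonneg_right (hA.bdd W) (norm_nonneg _))
  have hUc : ∀ (W : Om d) (f : L2 d), Continuous fun t : ℝ => U W t f := fun W f =>
    (hU.g0.cont f).comp (continuous_const.prodMk continuous_id)
  set k : ℝ → ℂ := fun u => inner ℂ (ee 0) (U V u (A V φ)) with hk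
  have hkc : Continuous k := continuous_const.inner (hUc V (A V φ))
  have hk2 : Integrable fun t => ‖k t‖ ^ 2 := by
    refine (hφ.int (A V (ee 0))).congr (Eventually.of_forall fun t => ?_)
    show ‖(inner ℂ (A V (ee 0)) (U V t φ) : ℂ)‖ ^ 2 =
      ‖(inner ℂ (ee 0) (U V t (A V φ)) : ℂ)‖ ^ 2
    rw [hA.sa, hA.com]
  -- the difference operator along the evolution
  set g : ℕ → ℝ → ℝ := fun n t => ∫ v in Set.Icc (-(n : ℝ)) n,
    ‖A (ud V v) (U V t φ) - A V (U V t φ)‖ ^ 2 ∂ν with hg
  have hDm : ∀ t, StronglyMeasurable fun v : ℝ => A (ud V v) (U V t φ) - A V (U V t φ) := by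
    intro t
    have h1 : StronglyMeasurable fun W => A W (U V t φ) := hA.cov.meas _
    exact (h1.comp_measurable (ud_continuous V).measurable).sub stronglyMeasurable_const
  have hDb : ∀ t v, ‖A (ud V v) (U V t φ) - A V (U V t φ)‖ ^ 2 ≤ (2 * c * ‖φ‖) ^ 2 := by
    intro t v
    refine pow_le_pow_left₀ (norm_nonneg _) ?_ 2
    refine (norm_sub_le _ _).trans ?_
    have h1 := hA2 (ud V v) (U V t φ)
    have h2 := hA2 V (U V t φ)
    rw [hU.g0.norm] at h1 h2
    linarith
  have hDi : ∀ t, Integrable (fun v => ‖A (ud V v) (U V t φ) - A V (U V t φ)‖ ^ 2) ν := fun t =>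
    Integrable.of_bound ((hDm t).norm.pow 2).aestronglyMeasurable ((2 * c * ‖φ‖) ^ 2)
      (Eventually.of_forall fun v => by
        rw [Real.norm_of_nonneg (by positivity)]; exact hDb t v)
  have hgc : ∀ n, Continuous (g n) := by
    intro n
    refine continuous_of_dominated (bound := fun _ => (2 * c * ‖φ‖) ^ 2)
      (fun t => ((hDm t).norm.pow 2).aestronglyMeasurable) (fun t => Eventually.of_forall fun v => by
        rw [Real.norm_of_nonneg (by positivity)]; exact hDb t v) (integrable_const _)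
      (Eventually.of_forall fun v => ?_)
    exact ((((A (ud V v)).continuous.comp (hUc V φ)).sub
      ((A V).continuous.comp (hUc V φ))).norm).pow 2
  have hg0 : ∀ n t, 0 ≤ g n t := fun n t => integral_nonneg fun v => by positivity
  -- the formula
  have hform : ∀ (v t : ℝ), (Complex.I * ((v - V 0 : ℝ) : ℂ)) •
      (∫ u in (-t)..t, k u • U (ud V v) (-u) (ee 0)) =
      U (ud V v) t (A (ud V v) (U V (-t) φ) - A V (U V (-t) φ)) -
        U (ud V v) (-t) (A (ud V v) (U V t φ) - A V (U V t φ)) := by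
    intro v t
    have hcont : Continuous fun u : ℝ => k u • U (ud V v) (-u) (ee 0) :=
      hkc.smul ((hUc (ud V v) (ee 0)).comp continuous_neg)
    have e1 : ∫ u in (-t)..t, k u • U (ud V v) (-u) (ee 0) =
        (∫ u in (0 : ℝ)..t, k u • U (ud V v) (-u) (ee 0)) -
          ∫ u in (0 : ℝ)..(-t), k u • U (ud V v) (-u) (ee 0) := by
      rw [intervalIntegral.integral_interval_sub_left (hcont.intervalIntegrable _ _)
        (hcont.intervalIntegrable _ _)]
    have hcomm : ∀ s : ℝ, U (ud V v) (-s) (U V s (A V φ)) = A (ud V v) φ -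
        U (ud V v) (-s) (A (ud V v) (U V s φ) - A V (U V s φ)) := by
      intro s
      have h1 : U (ud V v) (-s) (A (ud V v) (U V s φ)) = A (ud V v) φ := by
        rw [← (hO d U hU V φ hφ.ort v s).1, hA.com, hinv]
      rw [map_sub, h1, hA.com]
      abel
    have e2 := hU.duh V v t (A V φ)
    have e3 := hU.duh V v (-t) (A V φ)
    rw [hcomm] at e2 e3
    rw [neg_neg] at e3
    rw [e1, smul_sub]
    have e4 : (Complex.I * ((v - V 0 : ℝ) : ℂ)) •
        (∫ u in (0 : ℝ)..t, k u • U (ud V v) (-u) (ee 0)) = A (ud V v) φ -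
        U (ud V v) (-t) (A (ud V v) (U V t φ) - A V (U V t φ)) - A V φ := by
      rw [e2]; simp only [hk]; abel
    have e5 : (Complex.I * ((v - V 0 : ℝ) : ℂ)) •
        (∫ u in (0 : ℝ)..(-t), k u • U (ud V v) (-u) (ee 0)) = A (ud V v) φ -
        U (ud V v) t (A (ud V v) (U V (-t) φ) - A V (U V (-t) φ)) - A V φ := by
      rw [e3]; simp only [hk]; abel
    rw [e4, e5]
    abel
  set M : ℕ → Set ℝ := fun n => {v | |v| ≤ n ∧ 1 / ((n : ℝ) + 1) ≤ |v - V 0|} with hM
  have hMm : ∀ n, MeasurableSet (M n) := by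
    intro n
    have h1 : IsClosed (M n) := by
      have : M n = {v : ℝ | |v| ≤ n} ∩ {v : ℝ | 1 / ((n : ℝ) + 1) ≤ |v - V 0|} := rfl
      rw [this]
      exact (isClosed_le continuous_abs continuous_const).inter
        (isClosed_le continuous_const ((continuous_id.sub continuous_const).abs))
    exact h1.measurableSet
  refine conv ν (fun v t => U (ud V v) (-t) (ee 0)) ?_ ?_ (2 * Real.pi * K) (by positivity)
    (fun a ha1 ha2 => hS d U hU ν K hBD V a ha1 ha2) k hkc hk2 M hMm ?_ ?_
  · exact (hU.g0.cont (ee 0)).comp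
      (((ud_continuous V).comp continuous_fst).prodMk (continuous_snd.neg))
  · intro w t
    rw [hU.g0.norm, norm_ee]
  · -- the measure of the complements
    have hanti : Antitone fun n => (M n)ᶜ := by
      intro m n hmn v hv hv'
      refine hv ⟨hv'.1.trans (by exact_mod_cast hmn), le_trans ?_ hv'.2⟩
      refine one_div_le_one_div_of_le (by positivity) ?_
      have : (m : ℝ) ≤ n := by exact_mod_cast hmn
      linarith
    have h1 := tendsto_measure_iInter_atTop (μ := ν) (s := fun n => (M n)ᶜ)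
      (fun n => (hMm n).compl.nullMeasurableSet) hanti ⟨0, measure_ne_top _ _⟩
    have h2 : ν (⋂ n, (M n)ᶜ) = 0 := by
      have h3 : (⋂ n, (M n)ᶜ) ⊆ {V 0} := by
        intro v hv
        by_contra hne
        have hpos : 0 < |v - V 0| := abs_pos.2 (sub_ne_zero.2 hne)
        obtain ⟨n1, hn1⟩ := exists_nat_ge |v|
        obtain ⟨n2, hn2⟩ := exists_nat_one_div_lt hpos
        have hmem : v ∈ M (max n1 n2) := by
          refine ⟨hn1.trans (by exact_mod_cast le_max_left n1 n2), ?_⟩
          refine le_trans (one_div_le_one_div_of_le (by positivity) ?_) hn2.le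
          have : (n2 : ℝ) ≤ ((max n1 n2 : ℕ) : ℝ) := by exact_mod_cast le_max_right n1 n2
          linarith
        exact (Set.mem_iInter.1 hv (max n1 n2)) hmem
      refine measure_mono_null h3 ?_
      have h4 := hBD.2 {V 0} (measurableSet_singleton _)
      rw [Real.volume_singleton, mul_zero] at h4
      exact le_antisymm h4 zero_le
    rw [h2] at h1
    exact h1
  · intro n s ε hε
    have hδ : (0 : ℝ) < 1 / ((n : ℝ) + 1) := by positivity
    set δ : ℝ := 1 / ((n : ℝ) + 1) with hδdef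
    obtain ⟨t, hst, ht0, ht⟩ := exists_small (g n) (hgc n) (hg0 n) S hP.top
      (hD d U hU ν O c hObs A hA V S hP φ C hφ n) s (δ ^ 2 * ε / 2) (by positivity)
    refine ⟨t, hst, ht0, ?_⟩
    have hpt : ∀ v ∈ M n, ‖∫ u in (-t)..t, k u • U (ud V v) (-u) (ee 0)‖ ^ 2 ≤
        2 / δ ^ 2 * (‖A (ud V v) (U V t φ) - A V (U V t φ)‖ ^ 2 +
          ‖A (ud V v) (U V (-t) φ) - A V (U V (-t) φ)‖ ^ 2) := by
      intro v hv
      have h1 := congrArg (fun x : L2 d => ‖x‖) (hform v t)
      simp only [norm_smul, norm_mul, Complex.norm_I, one_mul, Complex.norm_real,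
        Real.norm_eq_abs] at h1
      set z : ℝ := ‖∫ u in (-t)..t, k u • U (ud V v) (-u) (ee 0)‖ with hz
      have hz0 : 0 ≤ z := norm_nonneg _
      have h2 : |v - V 0| * z ≤ ‖A (ud V v) (U V t φ) - A V (U V t φ)‖ +
          ‖A (ud V v) (U V (-t) φ) - A V (U V (-t) φ)‖ := by
        rw [h1]
        refine (norm_sub_le _ _).trans ?_
        rw [hU.g0.norm, hU.g0.norm, add_comm]
      set x : ℝ := ‖A (ud V v) (U V t φ) - A V (U V t φ)‖ with hx
      set y : ℝ := ‖A (ud V v) (U V (-t) φ) - A V (U V (-t) φ)‖ with hy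
      have hx0 : 0 ≤ x := norm_nonneg _
      have hy0 : 0 ≤ y := norm_nonneg _
      have h3 : δ * z ≤ x + y := (mul_le_mul_of_nonneg_right hv.2 hz0).trans h2
      have h4 : (δ * z) ^ 2 ≤ 2 * (x ^ 2 + y ^ 2) := by
        have := pow_le_pow_left₀ (by positivity) h3 2
        nlinarith [sq_nonneg (x - y)]
      rw [div_mul_eq_mul_div, le_div_iff₀ (by positivity)]
      linarith [mul_pow δ z 2]
    have hsub : M n ⊆ Set.Icc (-(n : ℝ)) n := fun v hv => abs_le.1 hv.1
    have hi1 : Integrable (fun v => 2 / δ ^ 2 * (‖A (ud V v) (U V t φ) - A V (U V t φ)‖ ^ 2 +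
          ‖A (ud V v) (U V (-t) φ) - A V (U V (-t) φ)‖ ^ 2)) ν :=
      ((hDi t).add (hDi (-t))).const_mul _
    calc ∫ v in M n, ‖∫ u in (-t)..t, k u • U (ud V v) (-u) (ee 0)‖ ^ 2 ∂ν
        ≤ ∫ v in M n, 2 / δ ^ 2 * (‖A (ud V v) (U V t φ) - A V (U V t φ)‖ ^ 2 +
          ‖A (ud V v) (U V (-t) φ) - A V (U V (-t) φ)‖ ^ 2) ∂ν := by
          refine integral_mono_of_nonneg (Eventually.of_forall fun v => by positivity)
            hi1.integrableOn ((ae_restrict_iff' (hMm n)).2 (Eventually.of_forall hpt))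
      _ ≤ ∫ v in Set.Icc (-(n : ℝ)) n,
          2 / δ ^ 2 * (‖A (ud V v) (U V t φ) - A V (U V t φ)‖ ^ 2 +
          ‖A (ud V v) (U V (-t) φ) - A V (U V (-t) φ)‖ ^ 2) ∂ν :=
          setIntegral_mono_set hi1.integrableOn (Eventually.of_forall fun v => by positivity)
            (Eventually.of_forall hsub)
      _ = 2 / δ ^ 2 * (g n t + g n (-t)) := by
          rw [integral_const_mul, integral_add (hDi t).integrableOn (hDi (-t)).integrableOn]
      _ ≤ 2 / δ ^ 2 * (δ ^ 2 * ε / 2) := mul_le_mul_of_nonneg_left ht (by positivity)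
      _ = ε := by field_simp

end Pool.Agent.T2h98.NB
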