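import Pool.Agent.T2h98.NB.All
import Pool.Agent.T2h98.NB.XO
import Pool.Agent.T2h98.NB.CAUO
import Pool.Agent.T2h98.NB.LIMO
import Pool.Agent.T2h98.NB.FATO
import Pool.Agent.T2h98.NB.DECO
import Pool.Agent.T2h98.NB.GZO
import Pool.Agent.T2h98.NB.ETAO
import Pool.Agent.T2h98.NB.CYCO
import Pool.Agent.T2h98.NB.CYO

/-! Local observables: all parts. -/

set_option autoImplicit false

namespace Pool.Agent.T2h98.NB.All

open Pool.Agent.T2h98.NB

theorem xoA : T_XO := XOx.t_XO

theorem cauoA : T_CAUO := cauo xtA xoA cov_facts tp met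

theorem limoA : T_LIMO := limo xtA xoA cov_facts cauoA

theorem alloA : T_ALLO := allo xoA cov_facts

theorem fatoA : T_FATO := fato_ xtA xoA cov_facts (tu cov_facts)

theorem decoA : T_DECO := deco xtA xoA ort

theorem gzoA : T_GZO := gzo_facts xtA ort saA decoA

theorem etaoA : T_ETAO := etao_facts xtA cov_facts ort saA

theorem cycoA : T_CYCO := t_CYCO xtA cov_facts ort saA etaoA gzoA nn

theorem cyoA : T_CYO := t_CYO xtA cov_facts fatoA upd ort cycoA

end Pool.Agent.T2h98.NB.All
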