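import Pool.Agent.TH980.IM.Prob

/-! No ballistic motion: the Hilbert space, translations, the Laplacian, the velocity. -/

set_option autoImplicit false

open scoped BigOperators Topology ENNReal InnerProductSpace
open MeasureTheory ProbabilityTheory Filter

namespace Pool.Agent.T2h98.NB

/-- sites -/
abbrev Sd (d : ℕ) : Type := Fin d → ℤ

/-- the Hilbert space -/
abbrev L2 (d : ℕ) : Type := lp (fun _ : Sd d => ℂ) 2

/-- potentials -/
abbrev Om (d : ℕ) : Type := Sd d → ℝ

/-- unit vectors -/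
noncomputable def ee {d : ℕ} (x : Sd d) : L2 d := lp.single 2 x (1 : ℂ)

variable {d : ℕ}

theorem ee_apply (x y : Sd d) : (ee x : L2 d) y = if y = x then 1 else 0 := by
  unfold ee
  rw [lp.single_apply]
  by_cases h : y = x
  · subst h; simp
  · rw [Pi.single_eq_of_ne h, if_neg h]

theorem inner_ee (x : Sd d) (w : L2 d) : inner ℂ (ee x) w = w x := by
  unfold ee
  rw [lp.inner_single_left]
  simp

theorem norm_ee (x : Sd d) : ‖(ee x : L2 d)‖ = 1 := by
  unfold ee
  rw [lp.norm_single (by norm_num)]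
  simp

theorem sq_summable (f : L2 d) : Summable fun x => ‖f x‖ ^ 2 := by
  have h2 := (lp.memℓp f).summable (by norm_num : 0 < (2 : ℝ≥0∞).toReal)
  simpa only [ENNReal.toReal_ofNat, Real.rpow_two] using h2

theorem norm_sq (f : L2 d) : ‖f‖ ^ 2 = ∑' x, ‖f x‖ ^ 2 := by
  have h1 := lp.norm_rpow_eq_tsum (by norm_num : 0 < (2 : ℝ≥0∞).toReal) f
  simpa only [ENNReal.toReal_ofNat, Real.rpow_two] using h1

theorem mem_of_summable {g : Sd d → ℂ} (h : Summable fun x => ‖g x‖ ^ 2) : Memℓp g 2 := by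
  apply memℓp_gen
  simpa only [ENNReal.toReal_ofNat, Real.rpow_two] using h

/-- translation, `(Sf z f) x = f (x - z)` -/
noncomputable def Sf (z : Sd d) : L2 d →ₗᵢ[ℂ] L2 d where
  toFun f := ⟨fun x => f (x - z), mem_of_summable
    (((Equiv.subRight z).summable_iff (f := fun x => ‖f x‖ ^ 2)).2 (sq_summable f))⟩
  map_add' f g := by ext x; rfl
  map_smul' c f := by ext x; rfl
  norm_map' f := by
    have h : ‖(⟨fun x => f (x - z), mem_of_summable
      (((Equiv.subRight z).summable_iff (f := fun x => ‖f x‖ ^ 2)).2 (sq_summable f))⟩ : L2 d)‖ ^ 2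
        = ‖f‖ ^ 2 := by
      rw [norm_sq, norm_sq]
      exact (Equiv.subRight z).tsum_eq (fun x => ‖f x‖ ^ 2)
    exact (sq_eq_sq₀ (norm_nonneg _) (norm_nonneg _)).1 h

theorem Sf_apply (z : Sd d) (f : L2 d) (x : Sd d) : (Sf z f) x = f (x - z) := rfl

theorem Sf_Sf (z w : Sd d) (f : L2 d) : Sf z (Sf w f) = Sf (z + w) f := by
  ext x
  rw [Sf_apply, Sf_apply, Sf_apply, sub_sub]

theorem Sf_zero (f : L2 d) : Sf 0 f = f := by
  ext x
  rw [Sf_apply, sub_zero]

theorem Sf_ee (z x : Sd d) : Sf z (ee x) = ee (x + z) := by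
  ext y
  rw [Sf_apply, ee_apply, ee_apply]
  simp only [sub_eq_iff_eq_add]

/-- the sum over the nearest neighbours -/
noncomputable def Ad (d : ℕ) : L2 d →L[ℂ] L2 d :=
  ∑ i : Fin d, ((Sf (-Pi.single i 1)).toContinuousLinearMap +
    (Sf (Pi.single i 1)).toContinuousLinearMap)

theorem Ad_apply (f : L2 d) (x : Sd d) :
    (Ad d f) x = ∑ i : Fin d, (f (x + Pi.single i 1) + f (x - Pi.single i 1)) := by
  unfold Ad
  rw [sum_apply]
  have h : ∀ s : Finset (Fin d), (∑ i ∈ s, ((Sf (-Pi.single i 1)).toContinuousLinearMap +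
      (Sf (Pi.single i 1)).toContinuousLinearMap) f : L2 d) x =
      ∑ i ∈ s, (f (x + Pi.single i 1) + f (x - Pi.single i 1)) := by
    intro s
    induction s using Finset.cons_induction with
    | empty => rfl
    | cons a s ha ih =>
      rw [Finset.sum_cons, Finset.sum_cons, ← ih]
      show (Sf (-Pi.single a 1) f) x + (Sf (Pi.single a 1) f) x + _ = _
      rw [Sf_apply, Sf_apply, sub_neg_eq_add]
  exact h _

/-- the velocity `v_i = i [Δ, x_i]` -/
noncomputable def vel (i : Fin d) : L2 d →L[ℂ] L2 d :=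
  Complex.I • ((Sf (-Pi.single i 1)).toContinuousLinearMap -
    (Sf (Pi.single i 1)).toContinuousLinearMap)

theorem vel_apply (i : Fin d) (f : L2 d) (x : Sd d) :
    (vel i f) x = Complex.I * (f (x + Pi.single i 1) - f (x - Pi.single i 1)) := by
  show Complex.I * ((Sf (-Pi.single i 1) f) x - (Sf (Pi.single i 1) f) x) = _
  rw [Sf_apply, Sf_apply, sub_neg_eq_add]

/-- multiplication by `exp (i θ)` -/
noncomputable def Mu (θ : Sd d → ℝ) : L2 d →ₗᵢ[ℂ] L2 d where
  toFun f := ⟨fun x => Complex.exp ((θ x : ℂ) * Complex.I) * f x, mem_of_summable (by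
    simpa only [norm_mul, Complex.norm_exp_ofReal_mul_I, one_mul] using sq_summable f)⟩
  map_add' f g := by ext x; exact mul_add _ _ _
  map_smul' c f := by
    ext x
    show Complex.exp ((θ x : ℂ) * Complex.I) * (c * f x) =
      c * (Complex.exp ((θ x : ℂ) * Complex.I) * f x)
    ring
  norm_map' f := by
    have h : ‖(⟨fun x => Complex.exp ((θ x : ℂ) * Complex.I) * f x, mem_of_summable (by
        simpa only [norm_mul, Complex.norm_exp_ofReal_mul_I, one_mul] using sq_summable f)⟩ :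
        L2 d)‖ ^ 2 = ‖f‖ ^ 2 := by
      rw [norm_sq, norm_sq]
      refine tsum_congr fun x => ?_
      show ‖Complex.exp ((θ x : ℂ) * Complex.I) * f x‖ ^ 2 = _
      rw [norm_mul, Complex.norm_exp_ofReal_mul_I, one_mul]
    exact (sq_eq_sq₀ (norm_nonneg _) (norm_nonneg _)).1 h

theorem Mu_apply (θ : Sd d → ℝ) (f : L2 d) (x : Sd d) :
    (Mu θ f) x = Complex.exp ((θ x : ℂ) * Complex.I) * f x := rfl

end Pool.Agent.T2h98.NB
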