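import Pool.Agent.T2h98.NB.Stm

/-! No ballistic motion: the subsequence of times. -/

set_option autoImplicit false

open scoped BigOperators Topology ENNReal InnerProductSpace
open MeasureTheory ProbabilityTheory Filter
open Pool.Agent.TH980.IM.PR (PP sh mp_sh mp_up meas_up up)

namespace Pool.Agent.T2h98.NB

variable {d : ℕ}

/-- the average over the times in `[-S, S]`, with the resampled values at the origin -/
noncomputable def fatI (ν : Measure ℝ) (Q : Om d × ℝ → ℝ≥0∞) (V : Om d) (S : ℝ) : ℝ≥0∞ :=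
  ENNReal.ofReal S⁻¹ * ∫⁻ t in Set.Ioc (-S) S, (Q (V, t) + ∫⁻ v, Q (ud V v, t) ∂ν)

theorem fat_ud : Measurable fun p : Om d × ℝ => ud p.1 p.2 := meas_up (0 : Sd d)

theorem fat_meas3 {Q : Om d × ℝ → ℝ≥0∞} (hQ : Measurable Q) :
    Measurable fun p : (Om d × ℝ) × ℝ => Q (ud p.1.1 p.2, p.1.2) :=
  hQ.comp ((fat_ud.comp ((measurable_fst.comp measurable_fst).prodMk measurable_snd)).prodMk
    (measurable_snd.comp measurable_fst))

theorem fat_meas2 (ν : Measure ℝ) [IsProbabilityMeasure ν] {Q : Om d × ℝ → ℝ≥0∞}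
    (hQ : Measurable Q) :
    Measurable fun p : Om d × ℝ => Q (p.1, p.2) + ∫⁻ v, Q (ud p.1 v, p.2) ∂ν :=
  hQ.add (Measurable.lintegral_prod_right' (fat_meas3 hQ))

theorem fat_measI (ν : Measure ℝ) [IsProbabilityMeasure ν] {Q : Om d × ℝ → ℝ≥0∞}
    (hQ : Measurable Q) (S : ℝ) : Measurable fun V => fatI ν Q V S := by
  unfold fatI
  exact (Measurable.lintegral_prod_right' (fat_meas2 ν hQ)).const_mul _

theorem fat_avg (ν : Measure ℝ) [IsProbabilityMeasure ν] {Q : Om d × ℝ → ℝ≥0∞}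
    (hQ : Measurable Q) (c : ℝ≥0∞) (hc : ∀ t, ∫⁻ V, Q (V, t) ∂(PP (Sd d) ν) ≤ c) (S : ℝ) :
    ∫⁻ V, fatI ν Q V S ∂(PP (Sd d) ν) ≤ 4 * c := by
  unfold fatI
  by_cases hS : 0 < S
  swap
  · have h1 : ENNReal.ofReal S⁻¹ = 0 := ENNReal.ofReal_of_nonpos (inv_nonpos.2 (not_lt.1 hS))
    simp [h1]
  rw [lintegral_const_mul _ (Measurable.lintegral_prod_right' (fat_meas2 ν hQ))]
  rw [lintegral_lintegral_swap (fat_meas2 ν hQ).aemeasurable]
  have h1 : ∀ t, ∫⁻ V, (Q (V, t) + ∫⁻ v, Q (ud V v, t) ∂ν) ∂(PP (Sd d) ν) ≤ 2 * c := by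
    intro t
    have hQt : Measurable fun V => Q (V, t) := hQ.comp measurable_prodMk_right
    rw [lintegral_add_left hQt, two_mul]
    refine add_le_add (hc t) ?_
    have h2 : ∫⁻ V, ∫⁻ v, Q (ud V v, t) ∂ν ∂(PP (Sd d) ν) =
        ∫⁻ p, Q (up (0 : Sd d) p, t) ∂((PP (Sd d) ν).prod ν) := by
      rw [lintegral_prod (fun p : Om d × ℝ => Q (up (0 : Sd d) p, t))
        (hQt.comp (meas_up (0 : Sd d))).aemeasurable]
      rfl
    rw [h2, (mp_up ν (0 : Sd d)).lintegral_comp hQt]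
    exact hc t
  calc ENNReal.ofReal S⁻¹ * ∫⁻ t in Set.Ioc (-S) S,
        ∫⁻ V, (Q (V, t) + ∫⁻ v, Q (ud V v, t) ∂ν) ∂(PP (Sd d) ν)
      ≤ ENNReal.ofReal S⁻¹ * ∫⁻ _ in Set.Ioc (-S) S, 2 * c :=
        mul_le_mul_right (lintegral_mono fun t => h1 t) _
    _ = ENNReal.ofReal S⁻¹ * (2 * c * ENNReal.ofReal (2 * S)) := by
        rw [setLIntegral_const, Real.volume_Ioc]
        congr 3
        ring
    _ = 4 * c := by
        rw [ENNReal.ofReal_mul (by norm_num), ENNReal.ofReal_inv_of_pos hS]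
        have h3 : ENNReal.ofReal S ≠ 0 := by simpa using hS
        calc (ENNReal.ofReal S)⁻¹ * (2 * c * (ENNReal.ofReal 2 * ENNReal.ofReal S))
            = ((ENNReal.ofReal S)⁻¹ * ENNReal.ofReal S) * (2 * ENNReal.ofReal 2 * c) := by ring
          _ = 4 * c := by
            rw [ENNReal.inv_mul_cancel h3 ENNReal.ofReal_ne_top, one_mul,
              ENNReal.ofReal_ofNat]
            norm_num

/-- almost surely there is a sequence of times along which all averages are bounded -/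
theorem fat_seq (ν : Measure ℝ) [IsProbabilityMeasure ν] (Q : ℕ → Sd d → Om d × ℝ → ℝ≥0∞)
    (hQ : ∀ j x, Measurable (Q j x))
    (hc : ∀ j x t, ∫⁻ V, Q j x (V, t) ∂(PP (Sd d) ν) ≤ (1 / 8) ^ j) :
    ∃ w : Sd d → ℝ≥0∞, (∀ x, w x ≠ 0) ∧ (∀ x, w x ≠ ⊤) ∧ ∀ᵐ V ∂(PP (Sd d) ν),
      ∃ (N : ℝ≥0∞) (φ : ℕ → ℕ), N ≠ ⊤ ∧ StrictMono φ ∧
        ∀ n j x, 2 ^ j * w x * fatI ν (Q j x) V (φ n) ≤ N := by
  obtain ⟨w, hw, hws⟩ := ENNReal.exists_pos_sum_of_countable' (ε := 1) (by norm_num) (Sd d)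
  refine ⟨w, fun x => (hw x).ne', fun x => ?_, ?_⟩
  · exact ne_top_of_le_ne_top ENNReal.one_ne_top ((ENNReal.le_tsum x).trans hws.le)
  set G : ℕ → Om d → ℝ≥0∞ := fun n V => ∑' j : ℕ, ∑' x, 2 ^ j * w x * fatI ν (Q j x) V n with hG
  have hGm : ∀ n, Measurable (G n) := fun n =>
    Measurable.tsum fun j => Measurable.tsum fun x => (fat_measI ν (hQ j x) _).const_mul _
  have hE : ∀ n, ∫⁻ V, G n V ∂(PP (Sd d) ν) ≤ 8 := by
    intro n
    simp only [hG]
    rw [lintegral_tsum fun j => (Measurable.tsum fun x =>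
      (fat_measI ν (hQ j x) _).const_mul _).aemeasurable]
    have h1 : ∀ j : ℕ, ∫⁻ V, ∑' x, 2 ^ j * w x * fatI ν (Q j x) V n ∂(PP (Sd d) ν) ≤
        4 * (1 / 2) ^ j := by
      intro j
      rw [lintegral_tsum fun x => ((fat_measI ν (hQ j x) _).const_mul _).aemeasurable]
      have h2 : ∀ x, ∫⁻ V, 2 ^ j * w x * fatI ν (Q j x) V n ∂(PP (Sd d) ν) ≤
          w x * (4 * (1 / 2) ^ j) := by
        intro x
        rw [lintegral_const_mul _ (fat_measI ν (hQ j x) _)]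
        calc 2 ^ j * w x * ∫⁻ V, fatI ν (Q j x) V n ∂(PP (Sd d) ν)
            ≤ 2 ^ j * w x * (4 * (1 / 8) ^ j) :=
              mul_le_mul_right (fat_avg ν (hQ j x) _ (hc j x) _) _
          _ = w x * (4 * (2 ^ j * (1 / 8) ^ j)) := by ring
          _ ≤ w x * (4 * (1 / 2) ^ j) := by
              refine mul_le_mul_right (mul_le_mul_right ?_ _) _
              rw [← mul_pow]
              refine pow_le_pow_left₀ (by positivity) ?_ _
              have h3 : (2 : ℝ≥0∞) * (1 / 8) = 1 / 4 := by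
                rw [one_div, one_div, show (8 : ℝ≥0∞) = 2 * 4 by norm_num,
                  ENNReal.mul_inv (by norm_num) (by norm_num), ← mul_assoc,
                  ENNReal.mul_inv_cancel (by norm_num) (by norm_num), one_mul]
              rw [h3]
              exact ENNReal.div_le_div_left (by norm_num) _
      refine (ENNReal.tsum_le_tsum h2).trans ?_
      rw [ENNReal.tsum_mul_right]
      calc (∑' x, w x) * (4 * (1 / 2) ^ j) ≤ 1 * (4 * (1 / 2) ^ j) := mul_le_mul_left hws.le _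
        _ = _ := one_mul _
    refine (ENNReal.tsum_le_tsum h1).trans ?_
    rw [ENNReal.tsum_mul_left, ENNReal.tsum_geometric]
    have h4 : (1 - 1 / 2 : ℝ≥0∞)⁻¹ = 2 := by
      rw [one_div, ENNReal.one_sub_inv_two, inv_inv]
    rw [h4]
    norm_num
  have hF : ∫⁻ V, liminf (fun n => G n V) atTop ∂(PP (Sd d) ν) ≠ ⊤ := by
    refine ne_top_of_le_ne_top (b := 8) (by norm_num) ((lintegral_liminf_le hGm).trans ?_)
    refine liminf_le_of_le ?_ ?_
    · isBoundedDefault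
    · intro b hb
      obtain ⟨n, hn⟩ := hb.exists
      exact hn.trans (hE n)
  have hae := ae_lt_top (Measurable.liminf hGm) hF
  filter_upwards [hae] with V hV
  obtain ⟨N, hN1, hN2⟩ := exists_between hV
  have hfr : ∃ᶠ n in atTop, G n V < N := frequently_lt_of_liminf_lt (by isBoundedDefault) hN1
  obtain ⟨φ, hφ, hφ2⟩ := extraction_of_frequently_atTop hfr
  refine ⟨N, φ, hN2.ne, hφ, fun n j x => ?_⟩
  refine le_trans ?_ (hφ2 n).le
  simp only [hG]
  exact (ENNReal.le_tsum (f := fun x => 2 ^ j * w x * fatI ν (Q j x) V (φ n)) x).trans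
    (ENNReal.le_tsum (f := fun j => ∑' x, 2 ^ j * w x * fatI ν (Q j x) V (φ n)) j)

theorem fat_lin (ν : Measure ℝ) [IsProbabilityMeasure ν] (s : Finset (Sd d))
    (Q : Sd d → Om d × ℝ → ℝ≥0∞) (hQ : ∀ x, Measurable (Q x)) (R : Om d × ℝ → ℝ≥0∞)
    (c : Sd d → ℝ≥0∞) (e : ℝ≥0∞) (hR : ∀ p, R p ≤ ∑ x ∈ s, c x * Q x p + e) (V : Om d) (S : ℝ) :
    fatI ν R V S ≤ ∑ x ∈ s, c x * fatI ν (Q x) V S + 4 * e := by
  unfold fatI
  by_cases hS : 0 < S
  swap
  · have h1 : ENNReal.ofReal S⁻¹ = 0 := ENNReal.ofReal_of_nonpos (inv_nonpos.2 (not_lt.1 hS))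
    simp [h1]
  have hm1 : ∀ x, Measurable fun t => Q x (V, t) := fun x => (hQ x).comp measurable_prodMk_left
  have hm2 : ∀ x t, Measurable fun v => Q x (ud V v, t) := by
    intro x t
    exact (hQ x).comp ((fat_ud.comp measurable_prodMk_left).prodMk measurable_const)
  have hm3 : ∀ x, Measurable fun t => ∫⁻ v, Q x (ud V v, t) ∂ν := by
    intro x
    have h1 : Measurable fun p : ℝ × ℝ => Q x (ud V p.2, p.1) :=
      (hQ x).comp ((fat_ud.comp (measurable_const.prodMk measurable_snd)).prodMk measurable_fst)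
    exact Measurable.lintegral_prod_right' h1
  have h1 : ∀ t, R (V, t) + ∫⁻ v, R (ud V v, t) ∂ν ≤
      ∑ x ∈ s, c x * (Q x (V, t) + ∫⁻ v, Q x (ud V v, t) ∂ν) + 2 * e := by
    intro t
    have h2 : ∫⁻ v, R (ud V v, t) ∂ν ≤ ∑ x ∈ s, c x * ∫⁻ v, Q x (ud V v, t) ∂ν + e := by
      calc ∫⁻ v, R (ud V v, t) ∂ν ≤ ∫⁻ v, (∑ x ∈ s, c x * Q x (ud V v, t) + e) ∂ν :=
            lintegral_mono fun v => hR _
        _ = ∑ x ∈ s, c x * ∫⁻ v, Q x (ud V v, t) ∂ν + e := by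
            rw [lintegral_add_right _ measurable_const, lintegral_const, measure_univ, mul_one,
              lintegral_finsetSum _ fun x _ => (hm2 x t).const_mul _]
            congr 1
            exact Finset.sum_congr rfl fun x _ => lintegral_const_mul _ (hm2 x t)
    calc R (V, t) + ∫⁻ v, R (ud V v, t) ∂ν
        ≤ (∑ x ∈ s, c x * Q x (V, t) + e) + (∑ x ∈ s, c x * ∫⁻ v, Q x (ud V v, t) ∂ν + e) :=
          add_le_add (hR _) h2
      _ = _ := by
          simp only [mul_add, Finset.sum_add_distrib]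
          ring
  calc ENNReal.ofReal S⁻¹ * ∫⁻ t in Set.Ioc (-S) S, (R (V, t) + ∫⁻ v, R (ud V v, t) ∂ν)
      ≤ ENNReal.ofReal S⁻¹ * ∫⁻ t in Set.Ioc (-S) S,
        (∑ x ∈ s, c x * (Q x (V, t) + ∫⁻ v, Q x (ud V v, t) ∂ν) + 2 * e) :=
        mul_le_mul_right (lintegral_mono fun t => h1 t) _
    _ = ENNReal.ofReal S⁻¹ * ((∑ x ∈ s, c x * ∫⁻ t in Set.Ioc (-S) S,
        (Q x (V, t) + ∫⁻ v, Q x (ud V v, t) ∂ν)) + 2 * e * ENNReal.ofReal (2 * S)) := by
        have hm4 : ∀ x, Measurable fun t => Q x (V, t) + ∫⁻ v, Q x (ud V v, t) ∂ν := fun x =>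
          (hm1 x).add (hm3 x)
        rw [lintegral_add_right _ measurable_const, setLIntegral_const, Real.volume_Ioc,
          lintegral_finsetSum (f := fun x t => c x * (Q x (V, t) + ∫⁻ v, Q x (ud V v, t) ∂ν)) s
            fun x _ => (hm4 x).const_mul _]
        congr 2
        · exact Finset.sum_congr rfl fun x _ => lintegral_const_mul _ (hm4 x)
        · congr 2
          ring
    _ = _ := by
        rw [mul_add, Finset.mul_sum]
        congr 1
        · exact Finset.sum_congr rfl fun x _ => by ring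
        · rw [ENNReal.ofReal_mul (by norm_num), ENNReal.ofReal_inv_of_pos hS]
          have h3 : ENNReal.ofReal S ≠ 0 := by simpa using hS
          calc (ENNReal.ofReal S)⁻¹ * (2 * e * (ENNReal.ofReal 2 * ENNReal.ofReal S))
              = ((ENNReal.ofReal S)⁻¹ * ENNReal.ofReal S) * (2 * ENNReal.ofReal 2 * e) := by ring
            _ = 4 * e := by
              rw [ENNReal.inv_mul_cancel h3 ENNReal.ofReal_ne_top, one_mul,
                ENNReal.ofReal_ofNat]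
              norm_num

/-- from Lebesgue integrals to real integrals -/
theorem fat_real (ν : Measure ℝ) [IsProbabilityMeasure ν] (r : Om d × ℝ → ℝ)
    (V : Om d) {S : ℝ} (hS : 0 < S) :
    ENNReal.ofReal (S⁻¹ * ∫ t in (-S)..S, (r (V, t) + ∫ v, r (ud V v, t) ∂ν)) ≤
      fatI ν (fun p => ‖r p‖ₑ) V S := by
  unfold fatI
  rw [ENNReal.ofReal_mul (inv_nonneg.2 hS.le)]
  refine mul_le_mul_right ?_ _
  rw [intervalIntegral.integral_of_le (by linarith)]
  calc ENNReal.ofReal (∫ t in Set.Ioc (-S) S, (r (V, t) + ∫ v, r (ud V v, t) ∂ν))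
      ≤ ‖∫ t in Set.Ioc (-S) S, (r (V, t) + ∫ v, r (ud V v, t) ∂ν)‖ₑ := by
        rw [Real.enorm_eq_ofReal_abs]
        exact ENNReal.ofReal_le_ofReal (le_abs_self _)
    _ ≤ ∫⁻ t in Set.Ioc (-S) S, ‖r (V, t) + ∫ v, r (ud V v, t) ∂ν‖ₑ :=
        enorm_integral_le_lintegral_enorm _
    _ ≤ ∫⁻ t in Set.Ioc (-S) S, (‖r (V, t)‖ₑ + ∫⁻ v, ‖r (ud V v, t)‖ₑ ∂ν) := by
        refine lintegral_mono fun t => ?_
        refine (enorm_add_le _ _).trans ?_
        exact add_le_add le_rfl (enorm_integral_le_lintegral_enorm _)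

/-- approximation by finite combinations of the unit vectors -/
theorem fat_pt (B W : L2 d →L[ℂ] L2 d) (hB : ‖B‖ ≤ 4) (hW : ∀ h, ‖W h‖ = ‖h‖) (f : L2 d)
    (s : Finset (Sd d)) :
    ‖B (W f)‖ ^ 2 ≤ ∑ x ∈ s, (2 * s.card * ‖f x‖ ^ 2) * ‖B (W (ee x))‖ ^ 2 +
      32 * ‖f - ∑ x ∈ s, f x • ee x‖ ^ 2 := by
  set g : L2 d := ∑ x ∈ s, f x • ee x with hg
  have h1 : ‖B (W (f - g))‖ ≤ 4 * ‖f - g‖ := by
    refine (B.le_opNorm _).trans ?_
    rw [hW]
    exact mul_le_mul_of_nonneg_right hB (norm_nonneg _)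
  have h2 : ‖B (W g)‖ ≤ ∑ x ∈ s, ‖f x‖ * ‖B (W (ee x))‖ := by
    rw [hg, map_sum, map_sum]
    refine (norm_sum_le _ _).trans (Finset.sum_le_sum fun x _ => ?_)
    rw [map_smul, map_smul, norm_smul]
  have h3 : ‖B (W g)‖ ^ 2 ≤ s.card * ∑ x ∈ s, (‖f x‖ * ‖B (W (ee x))‖) ^ 2 :=
    (pow_le_pow_left₀ (norm_nonneg _) h2 2).trans sq_sum_le_card_mul_sum_sq
  have h4 : ‖B (W f)‖ ≤ ‖B (W g)‖ + ‖B (W (f - g))‖ := by
    have h5 : B (W f) = B (W g) + B (W (f - g)) := by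
      rw [← map_add, ← map_add]
      congr 2
      abel
    rw [h5]
    exact norm_add_le _ _
  have h6 : ∑ x ∈ s, (2 * (s.card : ℝ) * ‖f x‖ ^ 2) * ‖B (W (ee x))‖ ^ 2 =
      2 * (s.card * ∑ x ∈ s, (‖f x‖ * ‖B (W (ee x))‖) ^ 2) := by
    rw [Finset.mul_sum, Finset.mul_sum]
    exact Finset.sum_congr rfl fun x _ => by ring
  rw [h6]
  have h7 := norm_nonneg (B (W f))
  have h8 := norm_nonneg (B (W g))
  have h9 := norm_nonneg (B (W (f - g)))
  have h10 := norm_nonneg (f - g)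
  have h11 : ‖B (W f)‖ ^ 2 ≤ (‖B (W g)‖ + ‖B (W (f - g))‖) ^ 2 := pow_le_pow_left₀ h7 h4 2
  have h12 : ‖B (W (f - g))‖ ^ 2 ≤ (4 * ‖f - g‖) ^ 2 := pow_le_pow_left₀ h9 h1 2
  nlinarith [sq_nonneg (‖B (W g)‖ - ‖B (W (f - g))‖)]

/-- FAT. -/
theorem fat_ (hX : T_XT) (hC : T_COV) (hT : T_TU) : T_FAT := by
  intro d U hU ν _ i A hL
  obtain ⟨hadj, hinv, hUc, hXt, hXb, hcoc, hXs, hXc, hXcont⟩ := hX d U hU
  obtain ⟨_, hCsub, hCs, _, hCm⟩ := hC d
  set B : ℝ → Om d → L2 d →L[ℂ] L2 d := fun τ V => A V - ((τ⁻¹ : ℝ) : ℂ) • XT U i V τ with hB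
  have hBf : ∀ τ V g, Bf U i A τ V g = B τ V g := by
    intro τ V g
    simp only [hB, Bf, sub_apply, smul_apply]
    rfl
  have hBc : ∀ τ, Cov (B τ) := fun τ => hCsub _ _ hL.cov (hCs _ _ (hXc i τ))
  have hBb : ∀ τ, 0 < τ → ∀ V, ‖B τ V‖ ≤ 4 := by
    intro τ hτ V
    have h1 : ‖((τ⁻¹ : ℝ) : ℂ) • XT U i V τ‖ ≤ 2 := by
      rw [norm_smul, Complex.norm_real, norm_inv, Real.norm_of_nonneg hτ.le]
      have h1 := hXb i V τ
      rw [abs_of_pos hτ] at h1
      calc τ⁻¹ * ‖XT U i V τ‖ ≤ τ⁻¹ * (2 * τ) :=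
            mul_le_mul_of_nonneg_left h1 (inv_nonneg.2 hτ.le)
        _ = 2 := by field_simp
    calc ‖B τ V‖ ≤ ‖A V‖ + ‖((τ⁻¹ : ℝ) : ℂ) • XT U i V τ‖ := norm_sub_le _ _
      _ ≤ 2 + 2 := add_le_add (hL.bdd V) h1
      _ = 4 := by norm_num
  -- the times
  have hτ : ∀ j : ℕ, ∃ τ : ℝ, 1 ≤ τ ∧ ∫ V, ‖B τ V (ee 0)‖ ^ 2 ∂(PP (Sd d) ν) ≤ (1 / 8) ^ j := by
    intro j
    have h1 := (Metric.tendsto_nhds.1 hL.lim ((1 / 8) ^ j) (by positivity)).and
      (eventually_ge_atTop 1)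
    obtain ⟨τ, h2, h3⟩ := h1.exists
    refine ⟨τ, h3, ?_⟩
    rw [Real.dist_eq, sub_zero] at h2
    refine le_trans (le_of_eq ?_) ((le_abs_self _).trans h2.le)
    congr 1
    ext V
    rw [← hBf]
    unfold Bf
    rw [norm_sub_rev]
  choose τ hτ1 hτ2 using hτ
  have hτ0 : ∀ j, 0 < τ j := fun j => one_pos.trans_le (hτ1 j)
  set Q : ℕ → Sd d → Om d × ℝ → ℝ≥0∞ := fun j x p => ‖B (τ j) p.1 (U p.1 p.2 (ee x))‖ₑ ^ 2 with hQ
  have hsm : ∀ j f, StronglyMeasurable fun p : Om d × ℝ => B (τ j) p.1 (U p.1 p.2 f) := by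
    intro j f
    exact hCm _ (hBc _) (Om d × ℝ) (fun p => p.1) (fun p => U p.1 p.2 f) measurable_fst
      (hU.g0.cont f).stronglyMeasurable
  have hQm : ∀ j x, Measurable (Q j x) := fun j x => (hsm j (ee x)).enorm.pow_const 2
  have hQc : ∀ j x t, ∫⁻ V, Q j x (V, t) ∂(PP (Sd d) ν) ≤ (1 / 8) ^ j := by
    intro j x t
    have hun : ∀ V, (U V t).comp (ContinuousLinearMap.adjoint (U V t)) = 1 := by
      intro V
      have h1 : U V (-t) = ContinuousLinearMap.adjoint (U V t) := by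
        rw [ContinuousLinearMap.eq_adjoint_iff]
        intro f g
        have h2 := hadj V (-t) f g
        rwa [neg_neg] at h2
      rw [← h1]
      ext1 f
      have h3 := hinv V (-t) f
      rw [neg_neg] at h3
      exact h3
    have h1 := hT d ν (B (τ j)) (fun V => U V t) (hBc _) (hUc t) hun x
    have hsmV : StronglyMeasurable fun V => B (τ j) V (U V t (ee x)) :=
      (hsm j (ee x)).comp_measurable (measurable_id.prodMk measurable_const)
    have hint : Integrable (fun V => ‖B (τ j) V (U V t (ee x))‖ ^ 2) (PP (Sd d) ν) := by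
      refine Integrable.of_bound (C := 16) (hsmV.norm.pow 2).aestronglyMeasurable
        (ae_of_all _ fun V => ?_)
      rw [Real.norm_of_nonneg (by positivity)]
      have h2 : ‖B (τ j) V (U V t (ee x))‖ ≤ 4 := by
        refine ((B (τ j) V).le_opNorm _).trans ?_
        rw [hU.g0.norm, norm_ee, mul_one]
        exact hBb _ (hτ0 j) V
      have h3 := norm_nonneg (B (τ j) V (U V t (ee x)))
      nlinarith
    calc ∫⁻ V, Q j x (V, t) ∂(PP (Sd d) ν)
        = ∫⁻ V, ENNReal.ofReal (‖B (τ j) V (U V t (ee x))‖ ^ 2) ∂(PP (Sd d) ν) := by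
          refine lintegral_congr fun V => ?_
          simp only [hQ]
          rw [ENNReal.ofReal_pow (norm_nonneg _), ofReal_norm]
      _ = ENNReal.ofReal (∫ V, ‖B (τ j) V (U V t (ee x))‖ ^ 2 ∂(PP (Sd d) ν)) :=
          (ofReal_integral_eq_lintegral_ofReal hint (ae_of_all _ fun V => by positivity)).symm
      _ ≤ ENNReal.ofReal ((1 / 8) ^ j) := by
          rw [h1]
          exact ENNReal.ofReal_le_ofReal (hτ2 j)
      _ = (1 / 8) ^ j := by
          rw [ENNReal.ofReal_pow (by norm_num), ENNReal.ofReal_div_of_pos (by norm_num)]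
          simp
  obtain ⟨w, hw0, hwt, hae⟩ := fat_seq ν Q hQm hQc
  filter_upwards [hae] with V hV
  obtain ⟨N, φ, hN, hφ, hb⟩ := hV
  refine ⟨fun n => (φ (n + 1) : ℝ), ⟨?_, ?_, ?_⟩⟩
  · intro n
    have h1 := hφ.id_le (n + 1)
    have h2 : 1 ≤ φ (n + 1) := le_trans (Nat.succ_le_succ (Nat.zero_le n)) h1
    exact_mod_cast h2
  · exact tendsto_natCast_atTop_atTop.comp
      ((hφ.tendsto_atTop).comp (tendsto_add_atTop_nat 1))
  · intro f δ hδ
    have hs := lp.hasSum_single (E := fun _ : Sd d => ℂ) (p := 2) (by norm_num) f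
    have hε' : 0 < Real.sqrt (δ / 256) := Real.sqrt_pos.2 (by positivity)
    obtain ⟨s, hs1⟩ := (Metric.tendsto_nhds.1 hs _ hε').exists
    have hg2 : (∑ x ∈ s, lp.single 2 x (f x) : L2 d) = ∑ x ∈ s, (f x) • ee x := by
      refine Finset.sum_congr rfl fun x _ => ?_
      unfold ee
      rw [← lp.single_smul, smul_eq_mul, mul_one]
    rw [hg2, dist_comm, dist_eq_norm] at hs1
    have hs2 : 128 * ‖f - ∑ x ∈ s, f x • ee x‖ ^ 2 ≤ δ / 2 := by
      have h1 := pow_le_pow_left₀ (norm_nonneg _) hs1.le 2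
      rw [Real.sq_sqrt (by positivity)] at h1
      linarith
    set c : Sd d → ℝ≥0∞ := fun x => ENNReal.ofReal (2 * s.card * ‖f x‖ ^ 2) with hc
    set K : ℝ≥0∞ := ∑ x ∈ s, c x * (N / w x) with hK
    have hKt : K ≠ ⊤ := by
      rw [hK]
      refine ENNReal.sum_ne_top.2 fun x _ => ?_
      exact ENNReal.mul_ne_top ENNReal.ofReal_ne_top (ENNReal.div_ne_top hN (hw0 x))
    have hδ' : ENNReal.ofReal (δ / 2) ≠ 0 := by simpa using by linarith
    obtain ⟨j, hj⟩ := ENNReal.exists_nat_mul_gt hδ' hKt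
    refine ⟨τ j, hτ1 j, fun n => ?_⟩
    have hS : (0 : ℝ) < φ (n + 1) := by
      have h1 := hφ.id_le (n + 1)
      have h2 : 0 < φ (n + 1) := lt_of_lt_of_le (Nat.succ_pos n) h1
      exact_mod_cast h2
    set r : Om d × ℝ → ℝ := fun p => ‖B (τ j) p.1 (U p.1 p.2 f)‖ ^ 2 with hr
    have hfin : ENNReal.ofReal ((φ (n + 1) : ℝ)⁻¹ * ∫ t in (-(φ (n + 1) : ℝ))..(φ (n + 1) : ℝ),
        (r (V, t) + ∫ v, r (ud V v, t) ∂ν)) ≤ ENNReal.ofReal δ := by
      refine (fat_real ν r V hS).trans ?_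
      have h1 : ∀ p, ‖r p‖ₑ ≤ ∑ x ∈ s, c x * Q j x p +
          ENNReal.ofReal (32 * ‖f - ∑ x ∈ s, f x • ee x‖ ^ 2) := by
        intro p
        have h2 := fat_pt (B (τ j) p.1) (U p.1 p.2) (hBb _ (hτ0 j) _) (hU.g0.norm _ _) f s
        have h3 : ‖r p‖ₑ = ENNReal.ofReal (‖B (τ j) p.1 (U p.1 p.2 f)‖ ^ 2) := by
          rw [Real.enorm_eq_ofReal (by positivity)]
        rw [h3]
        refine (ENNReal.ofReal_le_ofReal h2).trans ?_
        rw [ENNReal.ofReal_add (Finset.sum_nonneg fun x _ => by positivity) (by positivity),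
          ENNReal.ofReal_sum_of_nonneg fun x _ => by positivity]
        refine add_le_add (Finset.sum_le_sum fun x _ => ?_) le_rfl
        rw [ENNReal.ofReal_mul (by positivity)]
        simp only [hc, hQ]
        rw [ENNReal.ofReal_pow (norm_nonneg _), ofReal_norm]
      refine (fat_lin ν s (Q j) (hQm j) _ c _ h1 V _).trans ?_
      have h4 : ∑ x ∈ s, c x * fatI ν (Q j x) V (φ (n + 1)) ≤ ENNReal.ofReal (δ / 2) := by
        have h5 : (∑ x ∈ s, c x * fatI ν (Q j x) V (φ (n + 1))) * 2 ^ j ≤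
            ENNReal.ofReal (δ / 2) * 2 ^ j := by
          calc (∑ x ∈ s, c x * fatI ν (Q j x) V (φ (n + 1))) * 2 ^ j
              = ∑ x ∈ s, c x * (2 ^ j * fatI ν (Q j x) V (φ (n + 1))) := by
                rw [Finset.sum_mul]
                exact Finset.sum_congr rfl fun x _ => by ring
            _ ≤ K := by
                refine Finset.sum_le_sum fun x _ => mul_le_mul_right ?_ _
                rw [ENNReal.le_div_iff_mul_le (Or.inl (hw0 x)) (Or.inl (hwt x))]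
                calc 2 ^ j * fatI ν (Q j x) V (φ (n + 1)) * w x
                    = 2 ^ j * w x * fatI ν (Q j x) V (φ (n + 1)) := by ring
                  _ ≤ N := hb (n + 1) j x
            _ ≤ (j : ℝ≥0∞) * ENNReal.ofReal (δ / 2) := hj.le
            _ ≤ ENNReal.ofReal (δ / 2) * 2 ^ j := by
                rw [mul_comm]
                refine mul_le_mul_right ?_ _
                exact_mod_cast (Nat.lt_two_pow_self (n := j)).le
        have h6 : (2 : ℝ≥0∞) ^ j ≠ 0 := by positivity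
        have h7 : (2 : ℝ≥0∞) ^ j ≠ ⊤ := ENNReal.pow_ne_top (by norm_num)
        exact (ENNReal.mul_le_mul_iff_left h6 h7).1 h5
      have h8 : 4 * ENNReal.ofReal (32 * ‖f - ∑ x ∈ s, f x • ee x‖ ^ 2) ≤
          ENNReal.ofReal (δ / 2) := by
        have h9 : (4 : ℝ≥0∞) = ENNReal.ofReal 4 := by simp
        rw [h9, ← ENNReal.ofReal_mul (by norm_num)]
        apply ENNReal.ofReal_le_ofReal
        linarith
      calc _ ≤ ENNReal.ofReal (δ / 2) + ENNReal.ofReal (δ / 2) := add_le_add h4 h8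
        _ = ENNReal.ofReal δ := by
          rw [← ENNReal.ofReal_add (by linarith) (by linarith), add_halves]
    have h10 := (ENNReal.ofReal_le_ofReal_iff hδ.le).1 hfin
    simp only [hr] at h10
    simp only [hBf]
    exact h10

end Pool.Agent.T2h98.NB
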