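import Pool.Agent.T2h98.NB.Stm

/-! Linear equations with bounded, strongly continuous coefficients: the Picard series. -/

set_option autoImplicit false

open scoped Topology
open MeasureTheory Filter

namespace Pool.Agent.T2h98.NB

namespace PIC

section

variable {X : Type} [TopologicalSpace X] {E : Type} [NormedAddCommGroup E] [NormedSpace ℂ E]

/-- the Picard iterates -/
noncomputable def w (B : X → ℝ → E →L[ℂ] E) : ℕ → E → X → ℝ → E
  | 0, f, _, _ => f
  | k + 1, f, x, t => ∫ s in (0 : ℝ)..t, B x s (w B k f x s)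

/-- the bound of the iterates -/
noncomputable def bn (K T F : ℝ) (k : ℕ) : ℝ := (K * T) ^ k / (k.factorial : ℝ) * F

theorem bn_summable (K T F : ℝ) : Summable (bn K T F) :=
  (Real.summable_pow_div_factorial (K * T)).mul_right F

theorem bn_mono {K T T' F : ℝ} (hK : 0 ≤ K) (hT : 0 ≤ T) (hTT : T ≤ T') (hF : 0 ≤ F) (k : ℕ) :
    bn K T F k ≤ bn K T' F k := by
  unfold bn
  gcongr

theorem w_succ (B : X → ℝ → E →L[ℂ] E) (k : ℕ) (f : E) (x : X) (t : ℝ) :
    w B (k + 1) f x t = ∫ s in (0 : ℝ)..t, B x s (w B k f x s) := rfl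

theorem w_succ' (B : X → ℝ → E →L[ℂ] E) (k : ℕ) (f : E) (x : X) (t : ℝ) :
    w B (k + 1) f x t = t • ∫ r in (0 : ℝ)..1, B x (t * r) (w B k f x (t * r)) := by
  rw [w_succ, intervalIntegral.smul_integral_comp_mul_left (fun s => B x s (w B k f x s)) t,
    mul_zero, mul_one]

theorem w_zero_time (B : X → ℝ → E →L[ℂ] E) (k : ℕ) (f : E) (x : X) :
    w B (k + 1) f x 0 = 0 := by
  rw [w_succ, intervalIntegral.integral_same]

variable {B : X → ℝ → E →L[ℂ] E} {K : ℝ}

theorem cont_app {α : Type} [TopologicalSpace α] (C : α → E →L[ℂ] E)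
    (hC : ∀ p, ‖C p‖ ≤ K) (hc : ∀ f, Continuous fun p => C p f) {v : α → E} (hv : Continuous v) :
    Continuous fun p => C p (v p) := by
  rw [continuous_iff_continuousAt]
  intro p0
  have h1 : Tendsto (fun p => C p (v p - v p0)) (𝓝 p0) (𝓝 0) := by
    have h2 : Tendsto (fun p => K * ‖v p - v p0‖) (𝓝 p0) (𝓝 (K * ‖v p0 - v p0‖)) :=
      ((hv.tendsto p0).sub_const (v p0)).norm.const_mul K
    rw [sub_self, norm_zero, mul_zero] at h2
    refine squeeze_zero_norm (fun p => ?_) h2
    exact (C p).le_of_opNorm_le (hC p) _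
  have h3 : Tendsto (fun p => C p (v p0)) (𝓝 p0) (𝓝 (C p0 (v p0))) := (hc (v p0)).tendsto p0
  have h4 := h1.add h3
  rw [zero_add] at h4
  refine h4.congr fun p => ?_
  rw [← map_add, sub_add_cancel]

theorem w_bound (hB : ∀ x t, ‖B x t‖ ≤ K) (hK : 0 ≤ K)
    (hc : ∀ f, Continuous fun p : X × ℝ => B p.1 p.2 f) (f : E) (k : ℕ) (x : X) (t : ℝ) :
    ‖w B k f x t‖ ≤ bn K |t| ‖f‖ k := by
  induction k generalizing t with
  | zero => simp [w, bn]
  | succ k ih =>
    rw [w_succ', norm_smul, Real.norm_eq_abs]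
    have h1 : ‖∫ r in (0 : ℝ)..1, B x (t * r) (w B k f x (t * r))‖ ≤
        ∫ r in (0 : ℝ)..1, K * bn K |t| ‖f‖ k * r ^ k := by
      refine intervalIntegral.norm_integral_le_of_norm_le zero_le_one ?_ ?_
      · refine Eventually.of_forall fun r hr => ?_
        refine ((B x (t * r)).le_of_opNorm_le (hB _ _) _).trans ?_
        rw [mul_assoc]
        refine mul_le_mul_of_nonneg_left ((ih (t * r)).trans (le_of_eq ?_)) hK
        unfold bn
        rw [abs_mul, abs_of_pos hr.1]
        ring
      · exact (continuous_const.mul (continuous_id.pow k)).intervalIntegrable _ _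
    rw [intervalIntegral.integral_const_mul, integral_pow] at h1
    refine (mul_le_mul_of_nonneg_left h1 (abs_nonneg t)).trans (le_of_eq ?_)
    unfold bn
    rw [Nat.factorial_succ]
    push_cast
    have : (k.factorial : ℝ) ≠ 0 := by positivity
    have h2 : (k : ℝ) + 1 ≠ 0 := by positivity
    field_simp
    simp
    ring

end

section

variable {X : Type} [TopologicalSpace X] [FirstCountableTopology X] {E : Type}
  [NormedAddCommGroup E] [NormedSpace ℂ E] {B : X → ℝ → E →L[ℂ] E} {K : ℝ}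

theorem w_cont (hB : ∀ x t, ‖B x t‖ ≤ K) (hK : 0 ≤ K)
    (hc : ∀ f, Continuous fun p : X × ℝ => B p.1 p.2 f) (f : E) (k : ℕ) :
    Continuous fun p : X × ℝ => w B k f p.1 p.2 := by
  induction k with
  | zero => exact continuous_const
  | succ k ih =>
    have h1 : Continuous fun p : X × ℝ => B p.1 p.2 (w B k f p.1 p.2) :=
      cont_app (fun p : X × ℝ => B p.1 p.2) (fun p => hB p.1 p.2) hc ih
    have h2 : ∀ r : ℝ, Continuous fun p : X × ℝ => B p.1 (p.2 * r) (w B k f p.1 (p.2 * r)) :=
      fun r => h1.comp (continuous_fst.prodMk (continuous_snd.mul continuous_const))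
    have h3 : ∀ p : X × ℝ, Continuous fun r : ℝ => B p.1 (p.2 * r) (w B k f p.1 (p.2 * r)) :=
      fun p => h1.comp (continuous_const.prodMk (continuous_const.mul continuous_id))
    have h4 : Continuous fun p : X × ℝ =>
        ∫ r in (0 : ℝ)..1, B p.1 (p.2 * r) (w B k f p.1 (p.2 * r)) := by
      rw [continuous_iff_continuousAt]
      intro p0
      refine intervalIntegral.continuousAt_of_dominated_interval
        (bound := fun _ => K * bn K (|p0.2| + 1) ‖f‖ k)
        (Eventually.of_forall fun p => (h3 p).aestronglyMeasurable) ?_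
        (continuous_const.intervalIntegrable _ _)
        (Eventually.of_forall fun r _ => (h2 r).continuousAt)
      have h5 : ∀ᶠ p : X × ℝ in 𝓝 p0, |p.2| < |p0.2| + 1 :=
        (continuous_snd.abs.tendsto p0).eventually_lt_const (lt_add_one _)
      filter_upwards [h5] with p hp
      refine Eventually.of_forall fun r hr => ?_
      rw [Set.uIoc_of_le zero_le_one] at hr
      refine ((B p.1 (p.2 * r)).le_of_opNorm_le (hB _ _) _).trans ?_
      refine mul_le_mul_of_nonneg_left ((w_bound hB hK hc f k p.1 _).trans ?_) hK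
      refine bn_mono hK (abs_nonneg _) ?_ (norm_nonneg _) k
      rw [abs_mul, abs_of_pos hr.1]
      nlinarith [hr.2, abs_nonneg p.2, hr.1]
    have h6 : (fun p : X × ℝ => w B (k + 1) f p.1 p.2) = fun p : X × ℝ => p.2 •
        ∫ r in (0 : ℝ)..1, B p.1 (p.2 * r) (w B k f p.1 (p.2 * r)) := by
      funext p
      exact w_succ' B k f p.1 p.2
    rw [h6]
    exact continuous_snd.smul h4

theorem Bw_cont (hB : ∀ x t, ‖B x t‖ ≤ K) (hK : 0 ≤ K)
    (hc : ∀ f, Continuous fun p : X × ℝ => B p.1 p.2 f) (f : E) (k : ℕ) (x : X) :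
    Continuous fun s : ℝ => B x s (w B k f x s) :=
  (cont_app (fun p : X × ℝ => B p.1 p.2) (fun p => hB p.1 p.2) hc (w_cont hB hK hc f k)).comp
    (continuous_const.prodMk continuous_id)

theorem w_add (hB : ∀ x t, ‖B x t‖ ≤ K) (hK : 0 ≤ K)
    (hc : ∀ f, Continuous fun p : X × ℝ => B p.1 p.2 f) (f g : E) (k : ℕ) (x : X) (t : ℝ) :
    w B k (f + g) x t = w B k f x t + w B k g x t := by
  induction k generalizing t with
  | zero => rfl
  | succ k ih =>
    rw [w_succ, w_succ, w_succ, ← intervalIntegral.integral_add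
      ((Bw_cont hB hK hc f k x).intervalIntegrable _ _)
      ((Bw_cont hB hK hc g k x).intervalIntegrable _ _)]
    refine intervalIntegral.integral_congr fun s _ => ?_
    show B x s (w B k (f + g) x s) = _
    rw [ih, map_add]

theorem w_smul (c : ℂ) (f : E) (k : ℕ) (x : X) (t : ℝ) :
    w B k (c • f) x t = c • w B k f x t := by
  induction k generalizing t with
  | zero => rfl
  | succ k ih =>
    rw [w_succ, w_succ, ← intervalIntegral.integral_smul]
    refine intervalIntegral.integral_congr fun s _ => ?_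
    show B x s (w B k (c • f) x s) = _
    rw [ih, map_smul]

variable [CompleteSpace E]

theorem w_summable (hB : ∀ x t, ‖B x t‖ ≤ K) (hK : 0 ≤ K)
    (hc : ∀ f, Continuous fun p : X × ℝ => B p.1 p.2 f) (f : E) (x : X) (t : ℝ) :
    Summable fun k => w B k f x t :=
  Summable.of_norm_bounded (bn_summable K |t| ‖f‖) fun k => w_bound hB hK hc f k x t

/-- the sum of the series -/
noncomputable def W (hB : ∀ x t, ‖B x t‖ ≤ K) (hK : 0 ≤ K)
    (hc : ∀ f, Continuous fun p : X × ℝ => B p.1 p.2 f) (x : X) (t : ℝ) : E →L[ℂ] E :=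
  LinearMap.mkContinuous
    { toFun := fun f => ∑' k, w B k f x t
      map_add' := fun f g => by
        rw [← (w_summable hB hK hc f x t).tsum_add (w_summable hB hK hc g x t)]
        exact tsum_congr fun k => w_add hB hK hc f g k x t
      map_smul' := fun c f => by
        rw [RingHom.id_apply, ← (w_summable hB hK hc f x t).tsum_const_smul c]
        exact tsum_congr fun k => w_smul c f k x t }
    (∑' k : ℕ, (K * |t|) ^ k / (k.factorial : ℝ)) fun f => by
      rw [← tsum_mul_right]
      exact tsum_of_norm_bounded (bn_summable K |t| ‖f‖).hasSum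
        fun k => w_bound hB hK hc f k x t

theorem W_apply (hB : ∀ x t, ‖B x t‖ ≤ K) (hK : 0 ≤ K)
    (hc : ∀ f, Continuous fun p : X × ℝ => B p.1 p.2 f) (x : X) (t : ℝ) (f : E) :
    W hB hK hc x t f = ∑' k, w B k f x t := rfl

theorem W_zero (hB : ∀ x t, ‖B x t‖ ≤ K) (hK : 0 ≤ K)
    (hc : ∀ f, Continuous fun p : X × ℝ => B p.1 p.2 f) (x : X) : W hB hK hc x 0 = 1 := by
  ext f
  rw [W_apply, tsum_eq_single 0]
  · rfl
  · intro k hk
    obtain ⟨j, rfl⟩ := Nat.exists_eq_succ_of_ne_zero hk
    exact w_zero_time B j f x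

theorem W_deriv (hB : ∀ x t, ‖B x t‖ ≤ K) (hK : 0 ≤ K)
    (hc : ∀ f, Continuous fun p : X × ℝ => B p.1 p.2 f) (x : X) (f : E) (t : ℝ) :
    HasDerivAt (fun s : ℝ => W hB hK hc x s f) (B x t (W hB hK hc x t f)) t := by
  have hT : 0 < |t| + 1 := by positivity
  let g' : ℕ → ℝ → E := fun k s => Nat.casesOn k 0 fun j => B x s (w B j f x s)
  let u : ℕ → ℝ := fun k => Nat.casesOn k 0 fun j => K * bn K (|t| + 1) ‖f‖ j
  have hu : Summable u := by
    rw [← summable_nat_add_iff 1]
    exact (bn_summable K (|t| + 1) ‖f‖).mul_left K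
  have hg : ∀ (k : ℕ) (s : ℝ), HasDerivAt (fun r => w B k f x r) (g' k s) s := by
    intro k s
    cases k with
    | zero => exact hasDerivAt_const s f
    | succ j =>
      show HasDerivAt (fun r => ∫ q in (0 : ℝ)..r, B x q (w B j f x q)) (B x s (w B j f x s)) s
      have h := Bw_cont hB hK hc f j x
      exact intervalIntegral.integral_hasDerivAt_right (h.intervalIntegrable _ _)
        (h.stronglyMeasurableAtFilter _ _) h.continuousAt
  have hg' : ∀ (k : ℕ) (s : ℝ), s ∈ Metric.ball (0 : ℝ) (|t| + 1) → ‖g' k s‖ ≤ u k := by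
    intro k s hs
    rw [mem_ball_zero_iff, Real.norm_eq_abs] at hs
    cases k with
    | zero => show ‖(0 : E)‖ ≤ 0; rw [norm_zero]
    | succ j =>
      show ‖B x s (w B j f x s)‖ ≤ K * bn K (|t| + 1) ‖f‖ j
      refine ((B x s).le_of_opNorm_le (hB _ _) _).trans ?_
      refine mul_le_mul_of_nonneg_left ((w_bound hB hK hc f j x s).trans ?_) hK
      exact bn_mono hK (abs_nonneg _) hs.le (norm_nonneg _) j
  have ht : t ∈ Metric.ball (0 : ℝ) (|t| + 1) := by
    rw [mem_ball_zero_iff, Real.norm_eq_abs]; linarith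
  have h1 := hasDerivAt_tsum_of_isPreconnected hu Metric.isOpen_ball
    (convex_ball (0 : ℝ) (|t| + 1)).isPreconnected (fun k s _ => hg k s) hg' ht
    (w_summable hB hK hc f x t) ht
  have h2 : ∑' k, g' k t = B x t (W hB hK hc x t f) := by
    have h3 : Summable fun k => g' k t :=
      Summable.of_norm_bounded hu fun k => hg' k t ht
    rw [h3.tsum_eq_zero_add, W_apply, (B x t).map_tsum (w_summable hB hK hc f x t)]
    show (0 : E) + ∑' k, B x t (w B k f x t) = _
    rw [zero_add]
  rw [h2] at h1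
  exact h1

theorem W_cont (hB : ∀ x t, ‖B x t‖ ≤ K) (hK : 0 ≤ K)
    (hc : ∀ f, Continuous fun p : X × ℝ => B p.1 p.2 f) (f : E) :
    Continuous fun p : X × ℝ => W hB hK hc p.1 p.2 f := by
  rw [continuous_iff_continuousAt]
  intro p0
  have ho : IsOpen {p : X × ℝ | |p.2| < |p0.2| + 1} :=
    isOpen_lt continuous_snd.abs continuous_const
  have h1 : ContinuousOn (fun p : X × ℝ => ∑' k, w B k f p.1 p.2)
      {p : X × ℝ | |p.2| < |p0.2| + 1} := by
    refine continuousOn_tsum (fun k => (w_cont hB hK hc f k).continuousOn)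
      (bn_summable K (|p0.2| + 1) ‖f‖) fun k p hp => ?_
    exact (w_bound hB hK hc f k p.1 p.2).trans
      (bn_mono hK (abs_nonneg _) (le_of_lt hp) (norm_nonneg _) k)
  exact h1.continuousAt (ho.mem_nhds (by simp))

end

end PIC

theorem pic : T_PIC := by
  intro X _ _ E _ _ _ B K hB hc
  rcases isEmpty_or_nonempty X with hX | ⟨⟨x0⟩⟩
  · exact ⟨fun x => (hX.false x).elim, fun x => (hX.false x).elim, fun x => (hX.false x).elim,
      fun f => continuous_of_const fun p => (hX.false p.1).elim⟩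
  · have hK : 0 ≤ K := (norm_nonneg _).trans (hB x0 0)
    exact ⟨PIC.W hB hK hc, PIC.W_zero hB hK hc, fun x f t => PIC.W_deriv hB hK hc x f t,
      PIC.W_cont hB hK hc⟩

end Pool.Agent.T2h98.NB
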