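import Pool.Agent.T2h98.NB.Base

/-! No ballistic motion: statements of the parts. -/

set_option autoImplicit false
set_option linter.unusedVariables false

open scoped BigOperators Topology ENNReal InnerProductSpace
open MeasureTheory ProbabilityTheory Filter
open Pool.Agent.TH980.IM.PR (PP sh)

namespace Pool.Agent.T2h98.NB

section

variable {d : ℕ}

/-- the potential with a new value at the origin -/
def ud (V : Om d) (v : ℝ) : Om d := Function.update V 0 v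

/-! ## A. The unitary group `U V t = exp (-i t (Δ + V))` -/

/-- the unitary groups, in the interaction picture: `exp(i t V) U V t f` is differentiable with the
derivative `-i exp(i t V) Δ U V t f` -/
structure Gr0 (U : Om d → ℝ → L2 d →L[ℂ] L2 d) : Prop where
  zero : ∀ V, U V 0 = 1
  der : ∀ V f t, HasDerivAt (fun s : ℝ => Mu (s • V) (U V s f))
    (-(Complex.I • Mu (t • V) (Ad d (U V t f)))) t
  norm : ∀ V t f, ‖U V t f‖ = ‖f‖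
  add : ∀ V s t f, U V (s + t) f = U V s (U V t f)
  cont : ∀ f, Continuous fun p : Om d × ℝ => U p.1 p.2 f

end

/-- linear equations with bounded, strongly continuous coefficients -/
def T_PIC : Prop := ∀ (X : Type) [TopologicalSpace X] [FirstCountableTopology X]
  (E : Type) [NormedAddCommGroup E] [NormedSpace ℂ E] [CompleteSpace E]
  (B : X → ℝ → E →L[ℂ] E) (K : ℝ), (∀ x t, ‖B x t‖ ≤ K) →
  (∀ f, Continuous fun p : X × ℝ => B p.1 p.2 f) →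
  ∃ W : X → ℝ → E →L[ℂ] E, (∀ x, W x 0 = 1) ∧
    (∀ x f t, HasDerivAt (fun s : ℝ => W x s f) (B x t (W x t f)) t) ∧
    ∀ f, Continuous fun p : X × ℝ => W p.1 p.2 f

/-- the multiplication operators -/
def T_MUC : Prop := ∀ d : ℕ,
  (Continuous fun p : Om d × L2 d => Mu p.1 p.2) ∧
  (∀ (θ κ : Om d) (f : L2 d), Mu θ (Mu κ f) = Mu (θ + κ) f) ∧
  (∀ f : L2 d, Mu 0 f = f) ∧
  (∀ (θ : Om d) (f g : L2 d), inner ℂ (Mu θ f) g = (inner ℂ f (Mu (-θ) g) : ℂ)) ∧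
  (∀ f g : L2 d, inner ℂ (Ad d f) g = (inner ℂ f (Ad d g) : ℂ)) ∧
  (∀ f : L2 d, ‖Ad d f‖ ≤ 2 * d * ‖f‖)

def T_G0 : Prop := ∀ d : ℕ, ∃ U : Om d → ℝ → L2 d →L[ℂ] L2 d, Gr0 U

section

variable {d : ℕ}

/-- the displacement `exp(i t H) x_i exp(-i t H) - x_i`, as an integral of the velocity -/
noncomputable def Xt (U : Om d → ℝ → L2 d →L[ℂ] L2 d) (i : Fin d) (V : Om d) (t : ℝ) (f : L2 d) :
    L2 d := ∫ s in (0 : ℝ)..t, U V (-s) (vel i (U V s f))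

open Classical in
/-- the displacement, as an operator -/
noncomputable def XT (U : Om d → ℝ → L2 d →L[ℂ] L2 d) (i : Fin d) (V : Om d) (t : ℝ) :
    L2 d →L[ℂ] L2 d :=
  if h : ∃ B : L2 d →L[ℂ] L2 d, ∀ f, B f = Xt U i V t f then h.choose else 0

end

/-- uniqueness -/
def T_GUN : Prop := ∀ (d : ℕ) (U : Om d → ℝ → L2 d →L[ℂ] L2 d), Gr0 U →
  ∀ (V : Om d) (F : ℝ → L2 d), (∀ t : ℝ, HasDerivAt (fun s : ℝ => Mu (s • V) (F s))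
    (-(Complex.I • Mu (t • V) (Ad d (F t)))) t) → ∀ t, F t = U V t (F 0)

/-- translations -/
def T_GSH : Prop := ∀ (d : ℕ) (U : Om d → ℝ → L2 d →L[ℂ] L2 d), Gr0 U →
  ∀ (z : Sd d) (V : Om d) (t : ℝ) (f : L2 d), U (sh z V) t f = Sf (-z) (U V t (Sf z f))

/-- complex conjugation -/
def T_GCJ : Prop := ∀ (d : ℕ) (U : Om d → ℝ → L2 d →L[ℂ] L2 d), Gr0 U →
  ∀ (V : Om d) (t : ℝ) (f : L2 d), U V t (star f) = star (U V (-t) f)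

/-- a new value at the origin -/
def T_GDU : Prop := ∀ (d : ℕ) (U : Om d → ℝ → L2 d →L[ℂ] L2 d), Gr0 U →
  ∀ (V : Om d) (v t : ℝ) (f : L2 d), U (ud V v) (-t) (U V t f) = f +
    (Complex.I * ((v - V 0 : ℝ) : ℂ)) •
      ∫ u in (0 : ℝ)..t, (inner ℂ (ee 0) (U V u f) : ℂ) • U (ud V v) (-u) (ee 0)

/-- the displacement -/
def T_GPO : Prop := ∀ (d : ℕ) (U : Om d → ℝ → L2 d →L[ℂ] L2 d), Gr0 U →
  ∀ (i : Fin d) (V : Om d) (t : ℝ),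
    HasSum (fun x : Sd d => (x i : ℝ) ^ 2 * ‖(U V t (ee 0)) x‖ ^ 2) (‖Xt U i V t (ee 0)‖ ^ 2)

section

variable {d : ℕ}

/-- the unitary groups, all facts -/
structure Grp (U : Om d → ℝ → L2 d →L[ℂ] L2 d) : Prop where
  g0 : Gr0 U
  shift : ∀ (z : Sd d) (V : Om d) (t : ℝ) (f : L2 d), U (sh z V) t f = Sf (-z) (U V t (Sf z f))
  conj : ∀ (V : Om d) (t : ℝ) (f : L2 d), U V t (star f) = star (U V (-t) f)
  duh : ∀ (V : Om d) (v t : ℝ) (f : L2 d), U (ud V v) (-t) (U V t f) = f +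
    (Complex.I * ((v - V 0 : ℝ) : ℂ)) •
      ∫ u in (0 : ℝ)..t, (inner ℂ (ee 0) (U V u f) : ℂ) • U (ud V v) (-u) (ee 0)
  pos : ∀ (i : Fin d) (V : Om d) (t : ℝ),
    HasSum (fun x : Sd d => (x i : ℝ) ^ 2 * ‖(U V t (ee 0)) x‖ ^ 2) (‖Xt U i V t (ee 0)‖ ^ 2)

/-- covariant fields of bounded operators -/
structure Cov (B : Om d → L2 d →L[ℂ] L2 d) : Prop where
  meas : ∀ f, StronglyMeasurable fun V => B V f
  bdd : ∃ C : ℝ, ∀ V, ‖B V‖ ≤ C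
  cov : ∀ (z : Sd d) (V : Om d) (f : L2 d), B (sh z V) f = Sf (-z) (B V (Sf z f))

end

/-! ## B. Covariant operators -/

/-- simple facts on the group and the displacement -/
def T_XT : Prop := ∀ (d : ℕ) (U : Om d → ℝ → L2 d →L[ℂ] L2 d), Grp U →
  (∀ (V : Om d) (t : ℝ) (f g : L2 d), inner ℂ (U V t f) g = (inner ℂ f (U V (-t) g) : ℂ)) ∧
  (∀ (V : Om d) (t : ℝ) (f : L2 d), U V (-t) (U V t f) = f) ∧
  (∀ t : ℝ, Cov fun V => U V t) ∧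
  (∀ (i : Fin d) (V : Om d) (t : ℝ) (f : L2 d), XT U i V t f = Xt U i V t f) ∧
  (∀ (i : Fin d) (V : Om d) (t : ℝ), ‖XT U i V t‖ ≤ 2 * |t|) ∧
  (∀ (i : Fin d) (V : Om d) (s t : ℝ) (f : L2 d),
    XT U i V (s + t) f = XT U i V s f + U V (-s) (XT U i V t (U V s f))) ∧
  (∀ (i : Fin d) (V : Om d) (t : ℝ) (f g : L2 d),
    inner ℂ (XT U i V t f) g = (inner ℂ f (XT U i V t g) : ℂ)) ∧
  (∀ (i : Fin d) (t : ℝ), Cov fun V => XT U i V t) ∧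
  (∀ (i : Fin d) (f : L2 d), Continuous fun p : Om d × ℝ => XT U i p.1 p.2 f)

/-- the velocity -/
def T_VEL : Prop := ∀ (d : ℕ) (i : Fin d),
  (∀ f : L2 d, ‖vel i f‖ ≤ 2 * ‖f‖) ∧
  (∀ f g : L2 d, inner ℂ (vel i f) g = (inner ℂ f (vel i g) : ℂ)) ∧
  (∀ f : L2 d, vel i (star f) = -star (vel i f)) ∧
  (∀ (z : Sd d) (f : L2 d), vel i (Sf z f) = Sf z (vel i f)) ∧
  (Cov fun _ : Om d => vel i)

/-- products, sums and adjoints of covariant operators; measurability -/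
def T_COV : Prop := ∀ d : ℕ,
  (∀ B C : Om d → L2 d →L[ℂ] L2 d, Cov B → Cov C → Cov fun V => (B V).comp (C V)) ∧
  (∀ B C : Om d → L2 d →L[ℂ] L2 d, Cov B → Cov C → Cov fun V => B V - C V) ∧
  (∀ (c : ℂ) (B : Om d → L2 d →L[ℂ] L2 d), Cov B → Cov fun V => c • B V) ∧
  (∀ B : Om d → L2 d →L[ℂ] L2 d, Cov B → Cov fun V => ContinuousLinearMap.adjoint (B V)) ∧
  (∀ B : Om d → L2 d →L[ℂ] L2 d, Cov B → ∀ (α : Type) [MeasurableSpace α] (g : α → Om d)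
    (f : α → L2 d), Measurable g → StronglyMeasurable f → StronglyMeasurable fun a => B (g a) (f a))

/-- the trace per volume -/
def T_TP : Prop := ∀ (d : ℕ) (ν : Measure ℝ) [IsProbabilityMeasure ν]
  (B C : Om d → L2 d →L[ℂ] L2 d), Cov B → Cov C →
  ∫ V, (inner ℂ (ee 0) (B V (C V (ee 0))) : ℂ) ∂(PP (Sd d) ν) =
    ∫ V, (inner ℂ (ee 0) (C V (B V (ee 0))) : ℂ) ∂(PP (Sd d) ν)

/-- consequence: norms after a unitary covariant operator -/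
def T_TU : Prop := ∀ (d : ℕ) (ν : Measure ℝ) [IsProbabilityMeasure ν]
  (B W : Om d → L2 d →L[ℂ] L2 d), Cov B → Cov W →
  (∀ V, (W V).comp (ContinuousLinearMap.adjoint (W V)) = 1) → ∀ x : Sd d,
  ∫ V, ‖B V (W V (ee x))‖ ^ 2 ∂(PP (Sd d) ν) = ∫ V, ‖B V (ee 0)‖ ^ 2 ∂(PP (Sd d) ν)

/-! ## C. The mean ergodic theorem -/

/-- averages of stationary sequences of vectors converge -/
def T_MET : Prop := ∀ (E : Type) [NormedAddCommGroup E] [InnerProductSpace ℂ E] [CompleteSpace E]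
  (x : ℕ → E), (∀ m n : ℕ, (inner ℂ (x (m + 1)) (x (n + 1)) : ℂ) = inner ℂ (x m) (x n)) →
  ∃ y : E, Tendsto (fun n : ℕ => ((n : ℂ))⁻¹ • ∑ k ∈ Finset.range n, x k) atTop (𝓝 y)

/-- the averages of the velocity are a Cauchy family in mean square -/
def T_CAU : Prop := ∀ (d : ℕ) (U : Om d → ℝ → L2 d →L[ℂ] L2 d), Grp U →
  ∀ (ν : Measure ℝ) [IsProbabilityMeasure ν] (i : Fin d) (η : ℝ), 0 < η →
  ∃ T₀ : ℝ, 0 < T₀ ∧ ∀ S T : ℝ, T₀ ≤ S → T₀ ≤ T →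
    ∫ V, ‖S⁻¹ • XT U i V S (ee 0) - T⁻¹ • XT U i V T (ee 0)‖ ^ 2 ∂(PP (Sd d) ν) ≤ η

section

variable {d : ℕ}

/-- the limit of the averages of the velocity `v_i` -/
structure Lim (U : Om d → ℝ → L2 d →L[ℂ] L2 d) (ν : Measure ℝ) (i : Fin d)
    (A : Om d → L2 d →L[ℂ] L2 d) : Prop where
  cov : Cov A
  bdd : ∀ V, ‖A V‖ ≤ 2
  sa : ∀ (V : Om d) (f g : L2 d), inner ℂ (A V f) g = (inner ℂ f (A V g) : ℂ)
  com : ∀ (V : Om d) (t : ℝ) (f : L2 d), A V (U V t f) = U V t (A V f)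
  lim : Tendsto (fun T : ℝ => ∫ V, ‖T⁻¹ • XT U i V T (ee 0) - A V (ee 0)‖ ^ 2 ∂(PP (Sd d) ν))
    atTop (𝓝 0)

end

/-- the limit exists -/
def T_LIM : Prop := ∀ (d : ℕ) (U : Om d → ℝ → L2 d →L[ℂ] L2 d), Grp U →
  ∀ (ν : Measure ℝ) [IsProbabilityMeasure ν] (i : Fin d), ∃ A, Lim U ν i A

/-! ## D. Spectral averaging -/

/-- a law with a bounded density -/
def BD (ν : Measure ℝ) (C : ℝ) : Prop :=
  0 < C ∧ ∀ S : Set ℝ, MeasurableSet S → ν S ≤ ENNReal.ofReal C * volume S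

/-- the Laplace transform of the return amplitude, averaged over the value at the origin -/
def T_LAP : Prop := ∀ (d : ℕ) (U : Om d → ℝ → L2 d →L[ℂ] L2 d), Grp U →
  ∀ (ν : Measure ℝ) [IsProbabilityMeasure ν] (C : ℝ), BD ν C → ∀ (V : Om d) (η E : ℝ), 0 < η →
  0 ≤ (∫ v, (∫ t in Set.Ioi (0 : ℝ), Complex.exp (-((η : ℂ) + E * Complex.I) * t) *
    (inner ℂ (ee 0) (U (ud V v) t (ee 0)) : ℂ)) ∂ν).re ∧
  (∫ v, (∫ t in Set.Ioi (0 : ℝ), Complex.exp (-((η : ℂ) + E * Complex.I) * t) *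
    (inner ℂ (ee 0) (U (ud V v) t (ee 0)) : ℂ)) ∂ν).re ≤ Real.pi * C

/-- a function with a bounded Fourier transform is a bounded convolution kernel -/
def T_PLA : Prop := ∀ (m : ℝ → ℂ) (K : ℝ), Continuous m → (∀ t, ‖m t‖ ≤ 1) →
  (∀ t, m (-t) = (starRingEnd ℂ) (m t)) → 0 ≤ K →
  (∀ η E : ℝ, 0 < η → |(∫ t in Set.Ioi (0 : ℝ),
    Complex.exp (-((η : ℂ) + E * Complex.I) * t) * m t).re| ≤ K) →
  ∀ a : ℝ → ℂ, Integrable a → MemLp a 2 →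
    ‖∫ s, ∫ t, (starRingEnd ℂ) (a s) * a t * m (s - t)‖ ≤ 2 * K * ∫ t, ‖a t‖ ^ 2

/-- spectral averaging -/
def T_SA : Prop := ∀ (d : ℕ) (U : Om d → ℝ → L2 d →L[ℂ] L2 d), Grp U →
  ∀ (ν : Measure ℝ) [IsProbabilityMeasure ν] (C : ℝ), BD ν C → ∀ (V : Om d) (a : ℝ → ℂ),
  Integrable a → MemLp a 2 →
  ∫ v, ‖∫ t, a t • U (ud V v) (-t) (ee 0)‖ ^ 2 ∂ν ≤ 2 * Real.pi * C * ∫ t, ‖a t‖ ^ 2

/-! ## E. Resampling the origin -/

section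

variable {d : ℕ}

/-- the error of the average over a time `τ` -/
noncomputable def Bf (U : Om d → ℝ → L2 d →L[ℂ] L2 d) (i : Fin d) (A : Om d → L2 d →L[ℂ] L2 d)
    (τ : ℝ) (V : Om d) (g : L2 d) : L2 d := A V g - τ⁻¹ • XT U i V τ g

/-- along the times `S n` the errors are small in mean square, uniformly in `n` -/
structure Pty (U : Om d → ℝ → L2 d →L[ℂ] L2 d) (ν : Measure ℝ) (i : Fin d)
    (A : Om d → L2 d →L[ℂ] L2 d) (V : Om d) (S : ℕ → ℝ) : Prop where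
  one : ∀ n, 1 ≤ S n
  top : Tendsto S atTop atTop
  small : ∀ (f : L2 d) (δ : ℝ), 0 < δ → ∃ τ : ℝ, 1 ≤ τ ∧ ∀ n,
    (S n)⁻¹ * ∫ t in (-(S n))..(S n), (‖Bf U i A τ V (U V t f)‖ ^ 2 +
      ∫ v, ‖Bf U i A τ (ud V v) (U (ud V v) t f)‖ ^ 2 ∂ν) ≤ δ

/-- a vector orthogonal to the cyclic space of the origin -/
def Ort (U : Om d → ℝ → L2 d →L[ℂ] L2 d) (V : Om d) (φ : L2 d) : Prop :=
  ∀ t : ℝ, (inner ℂ (ee 0) (U V t φ) : ℂ) = 0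

/-- a smooth vector, orthogonal to the cyclic space of the origin -/
structure Smo (U : Om d → ℝ → L2 d →L[ℂ] L2 d) (V : Om d) (φ : L2 d) (C : ℝ) : Prop where
  ort : Ort U V φ
  int : ∀ χ : L2 d, Integrable fun t : ℝ => ‖(inner ℂ χ (U V t φ) : ℂ)‖ ^ 2
  bd : ∀ χ : L2 d, ∫ t : ℝ, ‖(inner ℂ χ (U V t φ) : ℂ)‖ ^ 2 ≤ C * ‖χ‖ ^ 2

end

/-- the subsequence of times -/
def T_FAT : Prop := ∀ (d : ℕ) (U : Om d → ℝ → L2 d →L[ℂ] L2 d), Grp U →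
  ∀ (ν : Measure ℝ) [IsProbabilityMeasure ν] (i : Fin d) (A : Om d → L2 d →L[ℂ] L2 d),
  Lim U ν i A → ∀ᵐ V ∂(PP (Sd d) ν), ∃ S : ℕ → ℝ, Pty U ν i A V S

/-- orthogonal vectors do not feel the value at the origin -/
def T_ORT : Prop := ∀ (d : ℕ) (U : Om d → ℝ → L2 d →L[ℂ] L2 d), Grp U →
  ∀ (V : Om d) (φ : L2 d), Ort U V φ → ∀ v t : ℝ, U (ud V v) t φ = U V t φ ∧ Ort U (ud V v) φ ∧
    Ort U V (U V t φ)

/-- the effect of the new value at the origin is small along the evolution of smooth vectors -/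
def T_DEC : Prop := ∀ (d : ℕ) (U : Om d → ℝ → L2 d →L[ℂ] L2 d), Grp U →
  ∀ (ν : Measure ℝ) [IsProbabilityMeasure ν] (i : Fin d) (A : Om d → L2 d →L[ℂ] L2 d),
  Lim U ν i A → ∀ (V : Om d) (S : ℕ → ℝ), Pty U ν i A V S → ∀ (φ : L2 d) (C : ℝ), Smo U V φ C →
  ∀ R : ℝ, Tendsto (fun n : ℕ => (S n)⁻¹ * ∫ t in (-(S n))..(S n),
    ∫ v in Set.Icc (-R) R, ‖A (ud V v) (U V t φ) - A V (U V t φ)‖ ^ 2 ∂ν) atTop (𝓝 0)

/-- the amplitude is in the kernel of the averaged transform -/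
def T_GZ : Prop := ∀ (d : ℕ) (U : Om d → ℝ → L2 d →L[ℂ] L2 d), Grp U →
  ∀ (ν : Measure ℝ) [IsProbabilityMeasure ν] (K : ℝ), BD ν K →
  ∀ (i : Fin d) (A : Om d → L2 d →L[ℂ] L2 d),
  Lim U ν i A → ∀ (V : Om d) (S : ℕ → ℝ), Pty U ν i A V S → ∀ (φ : L2 d) (C : ℝ), Smo U V φ C →
  Tendsto (fun t : ℝ => ∫ v, ‖∫ u in (-t)..t, (inner ℂ (ee 0) (U V u (A V φ)) : ℂ) •
    U (ud V v) (-u) (ee 0)‖ ^ 2 ∂ν) atTop (𝓝 0)

/-- amplitudes in the kernel vanish -/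
def T_NN : Prop := ∀ (E : Type) [NormedAddCommGroup E] [InnerProductSpace ℂ E] [CompleteSpace E]
  (ν : Measure ℝ) [IsProbabilityMeasure ν] (Y : ℝ → ℝ → E) (K C : ℝ) (ψ : ℝ → E),
  (Continuous fun p : ℝ × ℝ => Y p.1 p.2) → (∀ v t, ‖Y v t‖ ≤ 1) →
  (∀ a : ℝ → ℂ, Integrable a → MemLp a 2 →
    ∫ v, ‖∫ t, a t • Y v t‖ ^ 2 ∂ν ≤ K * ∫ t, ‖a t‖ ^ 2) →
  StronglyMeasurable ψ → (∀ v, ‖ψ v‖ ≤ C) →
  (∀ v, Integrable fun t : ℝ => ‖(inner ℂ (Y v t) (ψ v) : ℂ)‖ ^ 2) →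
  (∀ v, ∫ t : ℝ, ‖(inner ℂ (Y v t) (ψ v) : ℂ)‖ ^ 2 ≤ C) →
  (∀ᵐ v ∂ν, Tendsto (fun t : ℝ => ∫ w, ‖∫ u in (-t)..t, (inner ℂ (Y v u) (ψ v) : ℂ) • Y w u‖ ^ 2
    ∂ν) atTop (𝓝 0)) →
  ∀ᵐ v ∂ν, ∀ t : ℝ, (inner ℂ (Y v t) (ψ v) : ℂ) = 0

/-- smooth vectors made by averaging over the value at the origin -/
def T_ETA : Prop := ∀ (d : ℕ) (U : Om d → ℝ → L2 d →L[ℂ] L2 d), Grp U →
  ∀ (ν : Measure ℝ) [IsProbabilityMeasure ν] (K : ℝ), BD ν K →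
  ∀ (i : Fin d) (A : Om d → L2 d →L[ℂ] L2 d), Lim U ν i A → ∀ (V : Om d) (b : ℝ → ℝ),
  Measurable b → (∀ v, |b v| ≤ 1) → ∃ (η : L2 d) (C : ℝ), (∀ v, Smo U (ud V v) η C) ∧
    ∀ φ : L2 d, Ort U V φ → (inner ℂ η φ : ℂ) =
      ∫ v, ((b v : ℝ) : ℂ) * (inner ℂ (A (ud V v) (ee 0)) φ : ℂ) ∂ν

/-- the limit maps the origin to its cyclic space -/
def T_CYC : Prop := ∀ (d : ℕ) (U : Om d → ℝ → L2 d →L[ℂ] L2 d), Grp U →
  ∀ (ν : Measure ℝ) [IsProbabilityMeasure ν] (K : ℝ), BD ν K →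
  ∀ (i : Fin d) (A : Om d → L2 d →L[ℂ] L2 d), Lim U ν i A → ∀ V : Om d,
  (∀ᵐ v ∂ν, ∃ S : ℕ → ℝ, Pty U ν i A (ud V v) S) →
  ∀ᵐ v ∂ν, ∀ φ : L2 d, Ort U V φ → (inner ℂ (A (ud V v) (ee 0)) φ : ℂ) = 0

/-- the limit maps the origin to a real vector -/
def T_REA : Prop := ∀ (d : ℕ) (U : Om d → ℝ → L2 d →L[ℂ] L2 d), Grp U →
  ∀ (ν : Measure ℝ) [IsProbabilityMeasure ν] (i : Fin d) (A : Om d → L2 d →L[ℂ] L2 d),
  Lim U ν i A → ∀ V : Om d, (∀ φ : L2 d, Ort U V φ → (inner ℂ (A V (ee 0)) φ : ℂ) = 0) →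
  star (A V (ee 0)) = A V (ee 0)

/-- almost everywhere in the potential, and in its value at the origin -/
def T_UPD : Prop := ∀ (d : ℕ) (ν : Measure ℝ) [IsProbabilityMeasure ν],
  (∀ p : Om d → Prop, (∀ᵐ V ∂(PP (Sd d) ν), p V) → ∀ᵐ V ∂(PP (Sd d) ν), ∀ᵐ v ∂ν, p (ud V v)) ∧
  (∀ p : Om d → Prop, MeasurableSet {V | p V} → (∀ᵐ V ∂(PP (Sd d) ν), ∀ᵐ v ∂ν, p (ud V v)) →
    ∀ᵐ V ∂(PP (Sd d) ν), p V)

/-- the limit vanishes -/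
def T_ZER : Prop := ∀ (d : ℕ) (U : Om d → ℝ → L2 d →L[ℂ] L2 d), Grp U →
  ∀ (ν : Measure ℝ) [IsProbabilityMeasure ν] (i : Fin d) (A : Om d → L2 d →L[ℂ] L2 d),
  Lim U ν i A → (∀ᵐ V ∂(PP (Sd d) ν), star (A V (ee 0)) = A V (ee 0)) →
  ∫ V, ‖A V (ee 0)‖ ^ 2 ∂(PP (Sd d) ν) = 0

/-! ## F. The conclusion -/

/-- no ballistic motion -/
def T_NB : Prop := ∀ (d : ℕ) (U : Om d → ℝ → L2 d →L[ℂ] L2 d), Grp U →
  ∀ (ν : Measure ℝ) [IsProbabilityMeasure ν] (K : ℝ), BD ν K → ∀ i : Fin d,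
  Tendsto (fun t : ℝ => (t ^ 2)⁻¹ * ∫ V, (∑' x : Sd d, (x i : ℝ) ^ 2 * ‖(U V t (ee 0)) x‖ ^ 2)
    ∂(PP (Sd d) ν)) atTop (𝓝 0)

end Pool.Agent.T2h98.NB
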