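import Pool.Agent.T2h98.NB.Stm

/-! Local observables: statements of the parts. The velocity `vel i` is replaced by a local
observable `O V`, which may depend on the potential. -/

set_option autoImplicit false
set_option linter.unusedVariables false

open scoped BigOperators Topology ENNReal InnerProductSpace
open MeasureTheory ProbabilityTheory Filter
open Pool.Agent.TH980.IM.PR (PP sh)

namespace Pool.Agent.T2h98.NB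

section

variable {d : ℕ}

/-- local observables -/
structure Obs (O : Om d → L2 d →L[ℂ] L2 d) (c : ℝ) : Prop where
  cont : ∀ f, Continuous fun V => O V f
  bdd : ∀ V, ‖O V‖ ≤ c
  sa : ∀ (V : Om d) (f g : L2 d), inner ℂ (O V f) g = (inner ℂ f (O V g) : ℂ)
  cov : ∀ (z : Sd d) (V : Om d) (f : L2 d), O (sh z V) f = Sf (-z) (O V (Sf z f))
  loc : ∃ F : Finset (Sd d), ∀ (V : Om d) (v : ℝ) (f : L2 d),
    ‖O (ud V v) f - O V f‖ ≤ 2 * c * ∑ x ∈ F, ‖f x‖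

/-- the time integral of the observable -/
noncomputable def XO (U : Om d → ℝ → L2 d →L[ℂ] L2 d) (O : Om d → L2 d →L[ℂ] L2 d) (V : Om d)
    (t : ℝ) (f : L2 d) : L2 d := ∫ s in (0 : ℝ)..t, U V (-s) (O V (U V s f))

open Classical in
/-- the time integral of the observable, as an operator -/
noncomputable def XOT (U : Om d → ℝ → L2 d →L[ℂ] L2 d) (O : Om d → L2 d →L[ℂ] L2 d) (V : Om d)
    (t : ℝ) : L2 d →L[ℂ] L2 d :=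
  if h : ∃ B : L2 d →L[ℂ] L2 d, ∀ f, B f = XO U O V t f then h.choose else 0

end

/-- simple facts on the time integral (as `T_XT`) -/
def T_XO : Prop := ∀ (d : ℕ) (U : Om d → ℝ → L2 d →L[ℂ] L2 d), Grp U →
  ∀ (O : Om d → L2 d →L[ℂ] L2 d) (c : ℝ), Obs O c →
  Cov O ∧
  (∀ (V : Om d) (t : ℝ) (f : L2 d), XOT U O V t f = XO U O V t f) ∧
  (∀ (V : Om d) (t : ℝ), ‖XOT U O V t‖ ≤ c * |t|) ∧
  (∀ (V : Om d) (s t : ℝ) (f : L2 d),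
    XOT U O V (s + t) f = XOT U O V s f + U V (-s) (XOT U O V t (U V s f))) ∧
  (∀ (V : Om d) (t : ℝ) (f g : L2 d),
    inner ℂ (XOT U O V t f) g = (inner ℂ f (XOT U O V t g) : ℂ)) ∧
  (∀ t : ℝ, Cov fun V => XOT U O V t) ∧
  (∀ f : L2 d, Continuous fun p : Om d × ℝ => XOT U O p.1 p.2 f)

/-- the averages are a Cauchy family in mean square (as `T_CAU`) -/
def T_CAUO : Prop := ∀ (d : ℕ) (U : Om d → ℝ → L2 d →L[ℂ] L2 d), Grp U →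
  ∀ (O : Om d → L2 d →L[ℂ] L2 d) (c : ℝ), Obs O c →
  ∀ (ν : Measure ℝ) [IsProbabilityMeasure ν] (η : ℝ), 0 < η →
  ∃ T₀ : ℝ, 0 < T₀ ∧ ∀ S T : ℝ, T₀ ≤ S → T₀ ≤ T →
    ∫ V, ‖S⁻¹ • XOT U O V S (ee 0) - T⁻¹ • XOT U O V T (ee 0)‖ ^ 2 ∂(PP (Sd d) ν) ≤ η

section

variable {d : ℕ}

/-- the limit of the averages (as `Lim`) -/
structure LimO (U : Om d → ℝ → L2 d →L[ℂ] L2 d) (ν : Measure ℝ) (O : Om d → L2 d →L[ℂ] L2 d)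
    (c : ℝ) (A : Om d → L2 d →L[ℂ] L2 d) : Prop where
  cov : Cov A
  bdd : ∀ V, ‖A V‖ ≤ c
  sa : ∀ (V : Om d) (f g : L2 d), inner ℂ (A V f) g = (inner ℂ f (A V g) : ℂ)
  com : ∀ (V : Om d) (t : ℝ) (f : L2 d), A V (U V t f) = U V t (A V f)
  lim : Tendsto (fun T : ℝ => ∫ V, ‖T⁻¹ • XOT U O V T (ee 0) - A V (ee 0)‖ ^ 2 ∂(PP (Sd d) ν))
    atTop (𝓝 0)

end

/-- the limit exists (as `T_LIM`) -/
def T_LIMO : Prop := ∀ (d : ℕ) (U : Om d → ℝ → L2 d →L[ℂ] L2 d), Grp U →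
  ∀ (O : Om d → L2 d →L[ℂ] L2 d) (c : ℝ), Obs O c →
  ∀ (ν : Measure ℝ) [IsProbabilityMeasure ν], ∃ A, LimO U ν O c A

/-- the averages at all vectors -/
def T_ALLO : Prop := ∀ (d : ℕ) (U : Om d → ℝ → L2 d →L[ℂ] L2 d), Grp U →
  ∀ (O : Om d → L2 d →L[ℂ] L2 d) (c : ℝ), Obs O c →
  ∀ (ν : Measure ℝ) [IsProbabilityMeasure ν] (A : Om d → L2 d →L[ℂ] L2 d), LimO U ν O c A →
  ∀ f : L2 d, Tendsto (fun T : ℝ => ∫ V, ‖T⁻¹ • XOT U O V T f - A V f‖ ^ 2 ∂(PP (Sd d) ν))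
    atTop (𝓝 0)

section

variable {d : ℕ}

/-- the error of the average over a time `τ` -/
noncomputable def BfO (U : Om d → ℝ → L2 d →L[ℂ] L2 d) (O A : Om d → L2 d →L[ℂ] L2 d)
    (τ : ℝ) (V : Om d) (g : L2 d) : L2 d := A V g - τ⁻¹ • XOT U O V τ g

/-- along the times `S n` the errors are small in mean square, uniformly in `n` (as `Pty`) -/
structure PtyO (U : Om d → ℝ → L2 d →L[ℂ] L2 d) (ν : Measure ℝ) (O A : Om d → L2 d →L[ℂ] L2 d)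
    (V : Om d) (S : ℕ → ℝ) : Prop where
  one : ∀ n, 1 ≤ S n
  top : Tendsto S atTop atTop
  small : ∀ (f : L2 d) (δ : ℝ), 0 < δ → ∃ τ : ℝ, 1 ≤ τ ∧ ∀ n,
    (S n)⁻¹ * ∫ t in (-(S n))..(S n), (‖BfO U O A τ V (U V t f)‖ ^ 2 +
      ∫ v, ‖BfO U O A τ (ud V v) (U (ud V v) t f)‖ ^ 2 ∂ν) ≤ δ

end

/-- the subsequence of times (as `T_FAT`) -/
def T_FATO : Prop := ∀ (d : ℕ) (U : Om d → ℝ → L2 d →L[ℂ] L2 d), Grp U →
  ∀ (ν : Measure ℝ) [IsProbabilityMeasure ν] (O : Om d → L2 d →L[ℂ] L2 d) (c : ℝ), Obs O c →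
  ∀ A : Om d → L2 d →L[ℂ] L2 d,
  LimO U ν O c A → ∀ᵐ V ∂(PP (Sd d) ν), ∃ S : ℕ → ℝ, PtyO U ν O A V S

/-- the effect of the new value at the origin (as `T_DEC`) -/
def T_DECO : Prop := ∀ (d : ℕ) (U : Om d → ℝ → L2 d →L[ℂ] L2 d), Grp U →
  ∀ (ν : Measure ℝ) [IsProbabilityMeasure ν] (O : Om d → L2 d →L[ℂ] L2 d) (c : ℝ), Obs O c →
  ∀ A : Om d → L2 d →L[ℂ] L2 d,
  LimO U ν O c A → ∀ (V : Om d) (S : ℕ → ℝ), PtyO U ν O A V S → ∀ (φ : L2 d) (C : ℝ), Smo U V φ C →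
  ∀ R : ℝ, Tendsto (fun n : ℕ => (S n)⁻¹ * ∫ t in (-(S n))..(S n),
    ∫ v in Set.Icc (-R) R, ‖A (ud V v) (U V t φ) - A V (U V t φ)‖ ^ 2 ∂ν) atTop (𝓝 0)

/-- the amplitude is in the kernel of the averaged transform (as `T_GZ`) -/
def T_GZO : Prop := ∀ (d : ℕ) (U : Om d → ℝ → L2 d →L[ℂ] L2 d), Grp U →
  ∀ (ν : Measure ℝ) [IsProbabilityMeasure ν] (K : ℝ), BD ν K →
  ∀ (O : Om d → L2 d →L[ℂ] L2 d) (c : ℝ), Obs O c → ∀ A : Om d → L2 d →L[ℂ] L2 d,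
  LimO U ν O c A → ∀ (V : Om d) (S : ℕ → ℝ), PtyO U ν O A V S → ∀ (φ : L2 d) (C : ℝ), Smo U V φ C →
  Tendsto (fun t : ℝ => ∫ v, ‖∫ u in (-t)..t, (inner ℂ (ee 0) (U V u (A V φ)) : ℂ) •
    U (ud V v) (-u) (ee 0)‖ ^ 2 ∂ν) atTop (𝓝 0)

/-- smooth vectors made by averaging (as `T_ETA`) -/
def T_ETAO : Prop := ∀ (d : ℕ) (U : Om d → ℝ → L2 d →L[ℂ] L2 d), Grp U →
  ∀ (ν : Measure ℝ) [IsProbabilityMeasure ν] (K : ℝ), BD ν K →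
  ∀ (O : Om d → L2 d →L[ℂ] L2 d) (c : ℝ), Obs O c → ∀ A : Om d → L2 d →L[ℂ] L2 d,
  LimO U ν O c A → ∀ (V : Om d) (b : ℝ → ℝ),
  Measurable b → (∀ v, |b v| ≤ 1) → ∃ (η : L2 d) (C : ℝ), (∀ v, Smo U (ud V v) η C) ∧
    ∀ φ : L2 d, Ort U V φ → (inner ℂ η φ : ℂ) =
      ∫ v, ((b v : ℝ) : ℂ) * (inner ℂ (A (ud V v) (ee 0)) φ : ℂ) ∂ν

/-- the limit maps the origin to its cyclic space (as `T_CYC`) -/
def T_CYCO : Prop := ∀ (d : ℕ) (U : Om d → ℝ → L2 d →L[ℂ] L2 d), Grp U →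
  ∀ (ν : Measure ℝ) [IsProbabilityMeasure ν] (K : ℝ), BD ν K →
  ∀ (O : Om d → L2 d →L[ℂ] L2 d) (c : ℝ), Obs O c → ∀ A : Om d → L2 d →L[ℂ] L2 d,
  LimO U ν O c A → ∀ V : Om d,
  (∀ᵐ v ∂ν, ∃ S : ℕ → ℝ, PtyO U ν O A (ud V v) S) →
  ∀ᵐ v ∂ν, ∀ φ : L2 d, Ort U V φ → (inner ℂ (A (ud V v) (ee 0)) φ : ℂ) = 0

/-- almost surely the limit maps the origin to its cyclic space -/
def T_CYO : Prop := ∀ (d : ℕ) (U : Om d → ℝ → L2 d →L[ℂ] L2 d), Grp U →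
  ∀ (ν : Measure ℝ) [IsProbabilityMeasure ν] (K : ℝ), BD ν K →
  ∀ (O : Om d → L2 d →L[ℂ] L2 d) (c : ℝ), Obs O c → ∀ A : Om d → L2 d →L[ℂ] L2 d,
  LimO U ν O c A → ∀ᵐ V ∂(PP (Sd d) ν), ∀ φ : L2 d, Ort U V φ → (inner ℂ (A V (ee 0)) φ : ℂ) = 0

/-- observables which are odd under time reversal average to zero -/
def T_ODD : Prop := ∀ (d : ℕ) (U : Om d → ℝ → L2 d →L[ℂ] L2 d), Grp U →
  ∀ (ν : Measure ℝ) [IsProbabilityMeasure ν] (K : ℝ), BD ν K →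
  ∀ (O : Om d → L2 d →L[ℂ] L2 d) (c : ℝ), Obs O c →
  (∀ (V : Om d) (f : L2 d), O V (star f) = -star (O V f)) →
  ∀ f : L2 d, Tendsto (fun T : ℝ => ∫ V, ‖T⁻¹ • XOT U O V T f‖ ^ 2 ∂(PP (Sd d) ν)) atTop (𝓝 0)

end Pool.Agent.T2h98.NB
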